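import Mathlib

set_option autoImplicit false

namespace Pool.Agent.helper22

open Module MeasureTheory Metric Set Function
open scoped ENNReal

/-- Packing bound: a `t`-separated subset of a ball of radius `R` in a real normed space of
dimension `D` has at most `(1 + 2 R / t) ^ D` elements. -/
theorem card_le_of_sep {E : Type*} [NormedAddCommGroup E] [NormedSpace ℝ E]
    [FiniteDimensional ℝ E] (s : Finset E) {R t : ℝ} (ht : 0 < t) (hR : 0 ≤ R)
    (hs : ∀ c ∈ s, ‖c‖ ≤ R) (h : ∀ c ∈ s, ∀ d ∈ s, c ≠ d → t ≤ ‖c - d‖) :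
    (s.card : ℝ) ≤ (1 + 2 * R / t) ^ finrank ℝ E := by
  borelize E
  let μ : Measure E := Measure.addHaar
  let δ : ℝ := t / 2
  let ρ : ℝ := R + t / 2
  have δpos : 0 < δ := by positivity
  have ρpos : 0 < ρ := by positivity
  set A := ⋃ c ∈ s, ball (c : E) δ with hA
  have D : Set.Pairwise (s : Set E) (Disjoint on fun c => ball (c : E) δ) := by
    rintro c hc d hd hcd
    apply ball_disjoint_ball
    rw [dist_eq_norm]
    have := h c hc d hd hcd
    simp only [δ]
    linarith
  have A_subset : A ⊆ ball (0 : E) ρ := by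
    refine iUnion₂_subset fun x hx => ?_
    apply ball_subset_ball'
    rw [dist_zero_right]
    have := hs x hx
    simp only [δ, ρ]
    linarith
  have I :
    (s.card : ℝ≥0∞) * ENNReal.ofReal (δ ^ finrank ℝ E) * μ (ball 0 1) ≤
      ENNReal.ofReal (ρ ^ finrank ℝ E) * μ (ball 0 1) :=
    calc
      (s.card : ℝ≥0∞) * ENNReal.ofReal (δ ^ finrank ℝ E) * μ (ball 0 1) = μ A := by
        rw [hA, measure_biUnion_finset D fun c _ => measurableSet_ball]
        simp only [μ.addHaar_ball_of_pos _ δpos]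
        simp only [Finset.sum_const, nsmul_eq_mul, mul_assoc]
      _ ≤ μ (ball (0 : E) ρ) := measure_mono A_subset
      _ = ENNReal.ofReal (ρ ^ finrank ℝ E) * μ (ball 0 1) := by
        simp only [μ.addHaar_ball_of_pos _ ρpos]
  have J : (s.card : ℝ≥0∞) * ENNReal.ofReal (δ ^ finrank ℝ E) ≤ ENNReal.ofReal (ρ ^ finrank ℝ E) :=
    (ENNReal.mul_le_mul_iff_left (measure_ball_pos _ _ zero_lt_one).ne' measure_ball_lt_top.ne).1 I
  have K : (s.card : ℝ) * δ ^ finrank ℝ E ≤ ρ ^ finrank ℝ E := by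
    have := ENNReal.toReal_le_of_le_ofReal (pow_nonneg ρpos.le _) J
    rw [ENNReal.toReal_mul, ENNReal.toReal_ofReal (pow_nonneg δpos.le _)] at this
    simpa using this
  have hq : (1 + 2 * R / t) = ρ / δ := by
    simp only [ρ, δ]
    field_simp
    ring
  rw [hq, div_pow, le_div_iff₀ (pow_pos δpos _)]
  exact K

/-- Doubling inequality for lattices inside a subspace of dimension `D`. -/
theorem doubling {E : Type*} [NormedAddCommGroup E] [NormedSpace ℝ E]
    (W : Submodule ℝ E) [FiniteDimensional ℝ W] {G : Type*} [AddCommGroup G] (f : G →+ E)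
    (Λ : AddSubgroup G) (hW : ∀ g ∈ Λ, f g ∈ W) {R t : ℝ} (ht : 0 < t) (hR : 0 ≤ R)
    (hfin : {g | g ∈ Λ ∧ ‖f g‖ ≤ R}.Finite) (hfin' : {g | g ∈ Λ ∧ ‖f g‖ ≤ t}.Finite) :
    ({g | g ∈ Λ ∧ ‖f g‖ ≤ R}.ncard : ℝ) ≤
      (1 + 2 * R / t) ^ finrank ℝ W * ({g | g ∈ Λ ∧ ‖f g‖ ≤ t}.ncard : ℝ) := by
  classical
  set S : Finset G := hfin.toFinset with hS
  -- separated subsets of S
  set P : Finset (Finset G) := S.powerset.filter
    (fun T => ∀ c ∈ T, ∀ d ∈ T, c ≠ d → t ≤ ‖f c - f d‖) with hP
  have hPne : P.Nonempty := ⟨∅, by simp [hP]⟩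
  obtain ⟨T, hTP, hTmax⟩ := Finset.exists_max_image P Finset.card hPne
  have hTS : T ⊆ S := by
    have := (Finset.mem_filter.1 hTP).1
    exact Finset.mem_powerset.1 this
  have hTsep : ∀ c ∈ T, ∀ d ∈ T, c ≠ d → t ≤ ‖f c - f d‖ := (Finset.mem_filter.1 hTP).2
  have hSmem : ∀ g, g ∈ S ↔ (g ∈ Λ ∧ ‖f g‖ ≤ R) := by
    intro g; simp [hS]
  have hcover : ∀ g ∈ S, ∃ c ∈ T, ‖f g - f c‖ < t := by
    intro g hg
    by_contra hcon
    push Not at hcon
    have hgT : g ∉ T := by
      intro hgT
      have := hcon g hgT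
      simp at this
      linarith
    have hins : insert g T ∈ P := by
      rw [hP, Finset.mem_filter, Finset.mem_powerset]
      refine ⟨Finset.insert_subset hg hTS, ?_⟩
      intro c hc d hd hcd
      rw [Finset.mem_insert] at hc hd
      rcases hc with rfl | hc
      · rcases hd with rfl | hd
        · exact absurd rfl hcd
        · exact hcon d hd
      · rcases hd with rfl | hd
        · rw [norm_sub_rev]; exact hcon c hc
        · exact hTsep c hc d hd hcd
    have := hTmax _ hins
    rw [Finset.card_insert_of_notMem hgT] at this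
    omega
  -- bound card T
  have hTcard : (T.card : ℝ) ≤ (1 + 2 * R / t) ^ finrank ℝ W := by
    let φ : G → W := fun g => if h : f g ∈ W then ⟨f g, h⟩ else 0
    have hφ : ∀ g ∈ T, (φ g : E) = f g := by
      intro g hg
      have : f g ∈ W := hW g ((hSmem g).1 (hTS hg)).1
      simp [φ, this]
    have hinj : Set.InjOn φ (T : Set G) := by
      intro a ha b hb hab
      by_contra hne
      have h1 := hTsep a ha b hb hne
      have h2 : f a = f b := by rw [← hφ a ha, ← hφ b hb, hab]
      rw [h2, sub_self, norm_zero] at h1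
      linarith
    have hcard : (T.image φ).card = T.card := Finset.card_image_of_injOn hinj
    rw [← hcard]
    refine card_le_of_sep (T.image φ) ht hR ?_ ?_
    · intro c hc
      obtain ⟨g, hg, rfl⟩ := Finset.mem_image.1 hc
      have : ‖φ g‖ = ‖f g‖ := by rw [← hφ g hg]; rfl
      rw [this]
      exact ((hSmem g).1 (hTS hg)).2
    · intro c hc d hd hcd
      obtain ⟨g, hg, rfl⟩ := Finset.mem_image.1 hc
      obtain ⟨g', hg', rfl⟩ := Finset.mem_image.1 hd
      have hne : g ≠ g' := fun h => hcd (by rw [h])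
      have : ‖φ g - φ g'‖ = ‖f g - f g'‖ := by
        rw [← hφ g hg, ← hφ g' hg']; rfl
      rw [this]
      exact hTsep g hg g' hg' hne
  -- bound card S
  set U : Finset G := hfin'.toFinset with hU
  have hUmem : ∀ g, g ∈ U ↔ (g ∈ Λ ∧ ‖f g‖ ≤ t) := by
    intro g; simp [hU]
  have hS1 : S.card ≤ T.card * U.card := by
    have hsub : S ⊆ T.biUnion (fun c => U.image (fun u => u + c)) := by
      intro g hg
      obtain ⟨c, hc, hlt⟩ := hcover g hg
      rw [Finset.mem_biUnion]
      refine ⟨c, hc, Finset.mem_image.2 ⟨g - c, ?_, by abel⟩⟩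
      rw [hUmem]
      refine ⟨Λ.sub_mem ((hSmem g).1 hg).1 ((hSmem c).1 (hTS hc)).1, ?_⟩
      rw [map_sub]
      exact hlt.le
    calc S.card ≤ _ := Finset.card_le_card hsub
      _ ≤ ∑ c ∈ T, (U.image (fun u => u + c)).card := Finset.card_biUnion_le
      _ ≤ ∑ c ∈ T, U.card := Finset.sum_le_sum (fun c _ => Finset.card_image_le)
      _ = T.card * U.card := by simp
  rw [Set.ncard_eq_toFinset_card _ hfin, Set.ncard_eq_toFinset_card _ hfin']
  calc (S.card : ℝ) ≤ ((T.card * U.card : ℕ) : ℝ) := by exact_mod_cast hS1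
    _ = (T.card : ℝ) * U.card := by push_cast; ring
    _ ≤ _ := by
      apply mul_le_mul_of_nonneg_right hTcard
      positivity

end Pool.Agent.helper22
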