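import Mathlib
import Pool.Agent.helper22.Packing

set_option autoImplicit false

namespace Pool.Agent.helper22

open NumberField Module IntermediateField

section house

variable {L : Type*} [Field L] [NumberField L]

theorem house_le_iff (x : L) (r : ℝ) : house x ≤ r ↔ ∀ φ : L →+* ℂ, ‖φ x‖ ≤ r := by
  rw [house]
  exact canonicalEmbedding.norm_le_iff x r

variable (L)

theorem finite_house_le (T : ℝ) : {x : 𝓞 L | house (x : L) ≤ T}.Finite := by
  have h := Embeddings.finite_of_norm_le L ℂ T
  have hinj : Function.Injective (fun x : 𝓞 L => (x : L)) := RingOfIntegers.coe_injective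
  refine (h.preimage hinj.injOn).subset ?_
  intro x hx
  exact ⟨x.2, (house_le_iff _ _).1 hx⟩

/-- the real span of the image of a rational subspace has at most the same dimension -/
theorem finrank_span_canonical_le (V : Submodule ℚ L) :
    finrank ℝ (Submodule.span ℝ ((canonicalEmbedding L) '' (V : Set L))) ≤ finrank ℚ V := by
  classical
  let b := Module.finBasis ℚ V
  have hsub : Submodule.span ℝ ((canonicalEmbedding L) '' (V : Set L)) ≤
      Submodule.span ℝ (Set.range fun i => canonicalEmbedding L (b i : L)) := by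
    rw [Submodule.span_le]
    rintro _ ⟨v, hv, rfl⟩
    have h1 : v = ∑ i, (b.repr ⟨v, hv⟩ i) • (b i : L) := by
      have h0 := congrArg V.subtype (b.sum_repr ⟨v, hv⟩)
      rw [map_sum] at h0
      simp only [map_smul, Submodule.subtype_apply] at h0
      exact h0.symm
    rw [h1, map_sum]
    apply Submodule.sum_mem
    intro i _
    have h2 : canonicalEmbedding L ((b.repr ⟨v, hv⟩ i) • (b i : L)) =
        ((b.repr ⟨v, hv⟩ i : ℚ) : ℝ) • canonicalEmbedding L (b i : L) := by
      ext φ
      simp [canonicalEmbedding.apply_at, Algebra.smul_def]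
    rw [h2]
    exact Submodule.smul_mem _ _ (Submodule.subset_span ⟨i, rfl⟩)
  calc finrank ℝ (Submodule.span ℝ ((canonicalEmbedding L) '' (V : Set L)))
      ≤ finrank ℝ (Submodule.span ℝ (Set.range fun i => canonicalEmbedding L (b i : L))) :=
        Submodule.finrank_mono hsub
    _ ≤ Fintype.card (Fin (finrank ℚ V)) := finrank_range_le_card _
    _ = finrank ℚ V := by simp

/-- number of integers of house at most `T` -/
noncomputable def cnt (T : ℝ) : ℕ := {x : 𝓞 L | house (x : L) ≤ T}.ncard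

/-- doubling inequality for the integers of `L` lying in a rational subspace `V` -/
theorem cnt_doubling_sub (V : Submodule ℚ L) {R t : ℝ} (ht : 0 < t) (htR : t ≤ R)
    (hV : ∀ x : 𝓞 L, house (x : L) ≤ R → (x : L) ∈ V) :
    (cnt L R : ℝ) ≤ (1 + 2 * R / t) ^ finrank ℚ V * (cnt L t : ℝ) := by
  have hR : 0 ≤ R := ht.le.trans htR
  let f : 𝓞 L →+ ((L →+* ℂ) → ℂ) :=
    ((canonicalEmbedding L).comp (algebraMap (𝓞 L) L)).toAddMonoidHom
  have hf : ∀ x : 𝓞 L, ‖f x‖ = house (x : L) := fun x => rfl
  let Λ : AddSubgroup (𝓞 L) := V.toAddSubgroup.comap (algebraMap (𝓞 L) L).toAddMonoidHom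
  have hΛ : ∀ x : 𝓞 L, x ∈ Λ ↔ (x : L) ∈ V := fun x => Iff.rfl
  have hset : ∀ s : ℝ, s ≤ R → {g | g ∈ Λ ∧ ‖f g‖ ≤ s} = {x : 𝓞 L | house (x : L) ≤ s} := by
    intro s hs
    ext x
    simp only [Set.mem_ofPred_eq, hf, hΛ]
    exact ⟨fun h => h.2, fun h => ⟨hV x (h.trans hs), h⟩⟩
  have h := doubling (Submodule.span ℝ ((canonicalEmbedding L) '' (V : Set L))) f Λ
    (fun g hg => Submodule.subset_span ⟨(g : L), (hΛ g).1 hg, rfl⟩) ht hR
    (by rw [hset R le_rfl]; exact finite_house_le L R)
    (by rw [hset t htR]; exact finite_house_le L t)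
  rw [hset R le_rfl, hset t htR] at h
  refine h.trans ?_
  apply mul_le_mul_of_nonneg_right _ (Nat.cast_nonneg _)
  apply pow_le_pow_right₀ _ (finrank_span_canonical_le L V)
  have : 0 ≤ 2 * R / t := by positivity
  linarith

theorem cnt_doubling {R t : ℝ} (ht : 0 < t) (htR : t ≤ R) :
    (cnt L R : ℝ) ≤ (1 + 2 * R / t) ^ finrank ℚ L * (cnt L t : ℝ) := by
  have h := cnt_doubling_sub L ⊤ ht htR (fun _ _ => Submodule.mem_top)
  rwa [finrank_top] at h

theorem cnt_half : cnt L (1 / 2) = 1 := by
  rw [cnt, Set.ncard_eq_one]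
  refine ⟨0, ?_⟩
  ext x
  simp only [Set.mem_ofPred_eq, Set.mem_singleton_iff]
  constructor
  · intro h
    by_contra hne
    have h1 : (x : L) ≠ 0 := by
      intro h0
      apply hne
      exact RingOfIntegers.coe_injective (by simpa using h0)
    have h2 : house (x : L) ≤ 1 / 2 := h
    have h3 : (1 : ℝ) ≤ house (x : L) := one_le_house_of_isIntegral x.2 h1
    linarith
  · rintro rfl
    have : house ((0 : 𝓞 L) : L) = 0 := by simp [house]
    rw [this]
    norm_num

theorem cnt_le {T : ℝ} (hT : 1 / 2 ≤ T) : (cnt L T : ℝ) ≤ (1 + 4 * T) ^ finrank ℚ L := by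
  have h := cnt_doubling L (t := 1 / 2) (by norm_num) hT
  rw [cnt_half] at h
  have : (1 + 2 * T / (1 / 2)) = 1 + 4 * T := by ring
  rw [this] at h
  simpa using h

end house

end Pool.Agent.helper22
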