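import Mathlib
import Pool.Agent.helper22.Fields

set_option autoImplicit false

namespace Pool.Agent.helper22

open NumberField Module IntermediateField Polynomial

section mk

variable {R : Type*} [CommRing R]

/-- monic polynomial of degree `p` with prescribed lower coefficients -/
noncomputable def mkPoly (p : ℕ) (c : Fin p → R) : R[X] :=
  X ^ p + ∑ k : Fin p, C (c k) * X ^ (k : ℕ)

theorem degree_sum_lt (p : ℕ) (c : Fin p → R) :
    (∑ k : Fin p, C (c k) * X ^ (k : ℕ)).degree < (p : WithBot ℕ) :=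
  Polynomial.degree_sum_fin_lt c

theorem mkPoly_monic (p : ℕ) (c : Fin p → R) : (mkPoly p c).Monic :=
  monic_X_pow_add (degree_sum_lt p c)

theorem mkPoly_natDegree [Nontrivial R] (p : ℕ) (c : Fin p → R) : (mkPoly p c).natDegree = p := by
  rw [mkPoly, natDegree_add_eq_left_of_degree_lt, natDegree_X_pow]
  rw [degree_X_pow]
  exact degree_sum_lt p c

theorem mkPoly_coeff (p : ℕ) (c : Fin p → R) (k : Fin p) : (mkPoly p c).coeff k = c k := by
  rw [mkPoly, coeff_add, finsetSum_coeff, coeff_X_pow]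
  have h1 : (k : ℕ) ≠ p := k.2.ne
  rw [if_neg h1, zero_add, Finset.sum_eq_single k]
  · simp
  · intro b _ hb
    rw [coeff_C_mul, coeff_X_pow, if_neg, mul_zero]
    intro h
    exact hb (Fin.ext h.symm)
  · simp

theorem mkPoly_map {S : Type*} [CommRing S] (φ : R →+* S) (p : ℕ) (c : Fin p → R) :
    (mkPoly p c).map φ = mkPoly p (fun k => φ (c k)) := by
  simp [mkPoly, Polynomial.map_sum]

theorem eq_mkPoly {f : R[X]} (hf : f.Monic) {p : ℕ} (hp : f.natDegree = p) :
    f = mkPoly p (fun k => f.coeff k) := by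
  subst hp
  conv_lhs => rw [hf.as_sum]
  rw [mkPoly, Fin.sum_univ_eq_sum_range (fun k => C (f.coeff k) * X ^ k)]

theorem mkPoly_eval (p : ℕ) (c : Fin p → R) (x : R) :
    (mkPoly p c).eval x = x ^ p + ∑ k : Fin p, c k * x ^ (k : ℕ) := by
  simp [mkPoly, eval_finsetSum]

end mk

/-- elementary root bound -/
theorem root_bound {p : ℕ} {c : Fin p → ℂ} {H : ℝ} (hH : 0 ≤ H)
    (hc : ∀ k : Fin p, ‖c k‖ ≤ (H / 2) ^ (p - (k : ℕ))) {z : ℂ}
    (hz : (mkPoly p c).eval z = 0) : ‖z‖ ≤ H := by
  by_contra hlt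
  push Not at hlt
  have hz0 : 0 < ‖z‖ := hH.trans_lt hlt
  rw [mkPoly_eval] at hz
  have h1 : ‖z‖ ^ p ≤ ∑ k : Fin p, ‖z‖ ^ p * (1 / 2) ^ (p - (k : ℕ)) := by
    have h2 : z ^ p = - ∑ k : Fin p, c k * z ^ (k : ℕ) := by
      linear_combination hz
    calc ‖z‖ ^ p = ‖z ^ p‖ := by rw [norm_pow]
      _ = ‖∑ k : Fin p, c k * z ^ (k : ℕ)‖ := by rw [h2, norm_neg]
      _ ≤ ∑ k : Fin p, ‖c k * z ^ (k : ℕ)‖ := norm_sum_le _ _
      _ ≤ ∑ k : Fin p, ‖z‖ ^ p * (1 / 2) ^ (p - (k : ℕ)) := by
        apply Finset.sum_le_sum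
        intro k _
        rw [norm_mul, norm_pow]
        calc ‖c k‖ * ‖z‖ ^ (k : ℕ) ≤ (‖z‖ / 2) ^ (p - (k : ℕ)) * ‖z‖ ^ (k : ℕ) := by
              apply mul_le_mul_of_nonneg_right _ (by positivity)
              refine (hc k).trans ?_
              apply pow_le_pow_left₀ (by positivity)
              linarith
          _ = ‖z‖ ^ p * (1 / 2) ^ (p - (k : ℕ)) := by
              have : ‖z‖ ^ p = ‖z‖ ^ (p - (k : ℕ)) * ‖z‖ ^ (k : ℕ) := by
                rw [← pow_add]
                congr 1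
                have := k.2
                omega
              rw [this, div_pow, div_pow, one_pow]
              ring
  rw [← Finset.mul_sum] at h1
  have h3 : (∑ k : Fin p, ((1 : ℝ) / 2) ^ (p - (k : ℕ))) < 1 := by
    have key : ∀ q : ℕ, (∑ k ∈ Finset.range q, ((1 : ℝ) / 2) ^ (q - k)) = 1 - (1 / 2) ^ q := by
      intro q
      induction q with
      | zero => simp
      | succ q ih =>
        rw [Finset.sum_range_succ]
        have : ∑ x ∈ Finset.range q, ((1 : ℝ) / 2) ^ (q + 1 - x) =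
            (1 / 2) * ∑ x ∈ Finset.range q, ((1 : ℝ) / 2) ^ (q - x) := by
          rw [Finset.mul_sum]
          apply Finset.sum_congr rfl
          intro x hx
          have hx' := Finset.mem_range.1 hx
          have : q + 1 - x = (q - x) + 1 := by omega
          rw [this, pow_succ]
          ring
        rw [this, ih]
        have h4 : q + 1 - q = 1 := by omega
        rw [h4, pow_succ]
        ring
    rw [Fin.sum_univ_eq_sum_range (fun k => ((1 : ℝ) / 2) ^ (p - k)), key]
    have : (0 : ℝ) < (1 / 2) ^ p := by positivity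
    linarith
  have h5 : 0 < ‖z‖ ^ p := by positivity
  nlinarith

end Pool.Agent.helper22
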