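import Mathlib
import Pool.Agent.helper22.Poly

set_option autoImplicit false

namespace Pool.Agent.helper22

open NumberField Module IntermediateField Polynomial

section

variable {A : Type*} [Field A]

/-- all complex conjugates of `α` have modulus at most `t` -/
def Bd (t : ℝ) (α : A) : Prop := ∀ φ : A →+* ℂ, ‖φ α‖ ≤ t

theorem Bd.add {t s : ℝ} {α β : A} (h1 : Bd t α) (h2 : Bd s β) : Bd (t + s) (α + β) := by
  intro φ
  rw [map_add]
  exact (norm_add_le _ _).trans (add_le_add (h1 φ) (h2 φ))

theorem Bd.mono {t s : ℝ} {α : A} (h1 : Bd t α) (h : t ≤ s) : Bd s α :=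
  fun φ => (h1 φ).trans h

variable (F : Type*) [Field F] [NumberField F] [Algebra F A]

/-- algebraic integers of degree `p` over `F` with all conjugates bounded by `t` -/
def SS (A : Type*) [Field A] [Algebra F A] (p : ℕ) (t : ℝ) : Set A :=
  {α | IsIntegral ℤ α ∧ (minpoly F α).natDegree = p ∧ Bd t α}

variable [IsAlgClosed A] [Algebra.IsAlgebraic F A]

omit [IsAlgClosed A] [NumberField F] in
theorem exists_root_conj (φ₀ : F →+* ℂ) (α : A) (z : ℂ)
    (hz : z ∈ ((minpoly F α).map φ₀).roots) : ∃ ψ : A →+* ℂ, ψ α = z := by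
  let := φ₀.toAlgebra
  have h1 : z ∈ (minpoly F α).rootSet ℂ := by
    rw [Polynomial.mem_rootSet']
    rw [mem_roots'] at hz
    refine ⟨hz.1, ?_⟩
    have := hz.2
    rw [IsRoot.def, eval_map] at this
    exact this
  rw [← Algebra.IsAlgebraic.range_eval_eq_rootSet_minpoly ℂ α] at h1
  obtain ⟨ψ, hψ⟩ := h1
  exact ⟨ψ.toRingHom, hψ⟩

omit [IsAlgClosed A] in
theorem SS_subset (p : ℕ) (t : ℝ) : ∃ U : Finset A, SS F A p t ⊆ U ∧
    (U.card : ℝ) ≤ p * ∏ k : Fin p, (cnt F (t ^ (p - (k : ℕ)) * p.choose k) : ℝ) := by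
  classical
  let T : Finset (Fin p → 𝓞 F) := Fintype.piFinset
    (fun k : Fin p => (finite_house_le F (t ^ (p - (k : ℕ)) * p.choose k)).toFinset)
  let U : Finset A := T.biUnion
    (fun c => ((mkPoly p c).map (algebraMap (𝓞 F) A)).roots.toFinset)
  refine ⟨U, ?_, ?_⟩
  · rintro α ⟨hint, hdeg, hbd⟩
    have hint' : IsIntegral (𝓞 F) α := hint.tower_top
    set g := minpoly (𝓞 F) α with hg
    have hgF : minpoly F α = g.map (algebraMap (𝓞 F) F) :=
      minpoly.isIntegrallyClosed_eq_field_fractions' F hint'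
    have hmon : g.Monic := minpoly.monic hint'
    have hgdeg : g.natDegree = p := by
      rw [← hdeg, hgF, hmon.natDegree_map]
    have hgc : g = mkPoly p (fun k => g.coeff k) := eq_mkPoly hmon hgdeg
    simp only [U, Finset.coe_biUnion, Set.mem_iUnion]
    refine ⟨fun k => g.coeff k, ?_, ?_⟩
    · simp only [T, Finset.mem_coe, Fintype.mem_piFinset]
      intro k
      rw [Set.Finite.mem_toFinset]
      simp only [Set.mem_ofPred_eq]
      rw [house_le_iff]
      intro φ₀
      have h1 := coeff_le_of_roots_le (f := φ₀) (p := minpoly F α) (B := t) (k : ℕ)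
        (minpoly.monic hint.tower_top) (IsAlgClosed.splits _) (by
          intro z hz
          obtain ⟨ψ, hψ⟩ := exists_root_conj F φ₀ α z hz
          rw [← hψ]
          exact hbd ψ)
      rw [hdeg, coeff_map, hgF, coeff_map] at h1
      exact h1
    · rw [← hgc]
      simp only [Finset.mem_coe, Multiset.mem_toFinset]
      rw [mem_roots']
      refine ⟨(hmon.map _).ne_zero, ?_⟩
      rw [IsRoot.def, eval_map]
      exact minpoly.aeval _ _
  · calc (U.card : ℝ) ≤ ((∑ c ∈ T, ((mkPoly p c).map (algebraMap (𝓞 F) A)).roots.toFinset.card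
            : ℕ) : ℝ) := by
          exact_mod_cast Finset.card_biUnion_le
      _ ≤ ((∑ c ∈ T, p : ℕ) : ℝ) := by
          norm_cast
          apply Finset.sum_le_sum
          intro c _
          refine (Multiset.toFinset_card_le _).trans ((card_roots' _).trans ?_)
          rw [(mkPoly_monic p c).natDegree_map, mkPoly_natDegree]
      _ = p * ∏ k : Fin p, (cnt F (t ^ (p - (k : ℕ)) * p.choose k) : ℝ) := by
          rw [Finset.sum_const, smul_eq_mul, Fintype.card_piFinset]
          push_cast
          rw [mul_comm]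
          congr 1
          apply Finset.prod_congr rfl
          intro k _
          rw [cnt, Set.ncard_eq_toFinset_card _ (finite_house_le F _)]

omit [IsAlgClosed A] in
theorem SS_finite (p : ℕ) (t : ℝ) : (SS F A p t).Finite := by
  obtain ⟨U, hU, _⟩ := SS_subset (A := A) F p t
  exact U.finite_toSet.subset hU

/-- `1 + 2 + ... + p` written as a sum adapted to polynomials -/
def tri (p : ℕ) : ℕ := ∑ k : Fin p, (p - (k : ℕ))

omit [IsAlgClosed A] in
/-- Upper bound for the number of algebraic integers of degree `p` and bounded conjugates. -/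
theorem SS_upper (p : ℕ) : ∃ C : ℝ, 0 < C ∧ ∀ t : ℝ, 1 ≤ t →
    ((SS F A p t).ncard : ℝ) ≤ C * t ^ (finrank ℚ F * tri p) := by
  set d := finrank ℚ F with hd
  refine ⟨(p + 1) * ∏ k : Fin p, (5 * p.choose k : ℝ) ^ d, ?_, ?_⟩
  · apply mul_pos (by positivity)
    apply Finset.prod_pos
    intro k _
    have : 0 < p.choose k := Nat.choose_pos k.2.le
    positivity
  intro t ht
  obtain ⟨U, hU, hUc⟩ := SS_subset (A := A) F p t
  have h1 : ((SS F A p t).ncard : ℝ) ≤ U.card := by
    have := Set.ncard_le_ncard hU U.finite_toSet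
    rw [Set.ncard_coe_finset] at this
    exact_mod_cast this
  refine h1.trans (hUc.trans ?_)
  have h2 : ∏ k : Fin p, (cnt F (t ^ (p - (k : ℕ)) * p.choose k) : ℝ) ≤
      ∏ k : Fin p, ((5 * p.choose k : ℝ) ^ d * t ^ (d * (p - (k : ℕ)))) := by
    apply Finset.prod_le_prod
    · intro k _; positivity
    · intro k _
      have hc : 1 ≤ p.choose k := Nat.choose_pos k.2.le
      have hc' : (1 : ℝ) ≤ p.choose k := by exact_mod_cast hc
      have ht' : 1 ≤ t ^ (p - (k : ℕ)) := one_le_pow₀ ht
      have hT : 1 ≤ t ^ (p - (k : ℕ)) * p.choose k := by nlinarith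
      have h3 := cnt_le F (T := t ^ (p - (k : ℕ)) * p.choose k) (by linarith)
      refine h3.trans ?_
      calc (1 + 4 * (t ^ (p - (k : ℕ)) * p.choose k)) ^ finrank ℚ F
          ≤ (5 * (t ^ (p - (k : ℕ)) * p.choose k)) ^ d := by
            apply pow_le_pow_left₀ (by positivity)
            linarith
        _ = (5 * p.choose k : ℝ) ^ d * t ^ (d * (p - (k : ℕ))) := by
            rw [mul_comm d, pow_mul, ← mul_pow]
            congr 1
            ring
  calc (p : ℝ) * ∏ k : Fin p, (cnt F (t ^ (p - (k : ℕ)) * p.choose k) : ℝ)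
      ≤ (p + 1) * ∏ k : Fin p, ((5 * p.choose k : ℝ) ^ d * t ^ (d * (p - (k : ℕ)))) := by
        apply mul_le_mul _ h2 (Finset.prod_nonneg fun _ _ => by positivity) (by positivity)
        linarith
    _ = _ := by
        rw [Finset.prod_mul_distrib, mul_assoc]
        congr 1
        congr 1
        rw [Finset.prod_pow_eq_pow_sum, tri, Finset.mul_sum]

end

end Pool.Agent.helper22
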