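import Mathlib
import Pool.Agent.helper22.Count

set_option autoImplicit false

namespace Pool.Agent.helper22

open NumberField Module IntermediateField Polynomial

section

variable (F : Type*) [Field F] [NumberField F]

/-- Lower bound for the number of integers of bounded house. -/
theorem cnt_lower : ∃ c : ℝ, 0 < c ∧ ∀ T : ℝ, 0 ≤ T → c * T ^ finrank ℚ F ≤ (cnt F T : ℝ) := by
  classical
  let ι := Free.ChooseBasisIndex ℤ (𝓞 F)
  let b : Basis ι ℤ (𝓞 F) := RingOfIntegers.basis F
  let B : ℝ := 1 + ∑ i : ι, house (b i : F)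
  have hsum : 0 ≤ ∑ i : ι, house (b i : F) := Finset.sum_nonneg fun i _ => house_nonneg _
  have hB : 0 < B := by positivity
  refine ⟨(1 / B) ^ finrank ℚ F, by positivity, ?_⟩
  intro T hT
  set m : ℕ := ⌊T / B⌋₊ with hm
  have hmle : (m : ℝ) ≤ T / B := Nat.floor_le (by positivity)
  have hlt : T / B < m + 1 := Nat.lt_floor_add_one _
  let S : Finset (ι → ℤ) := Fintype.piFinset (fun _ => Finset.Icc (-(m : ℤ)) m)
  have hScard : S.card = (2 * m + 1) ^ finrank ℚ F := by
    have h1 : Fintype.card ι = finrank ℚ F := by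
      rw [← RingOfIntegers.rank F, finrank_eq_card_basis b]
    rw [Fintype.card_piFinset, Finset.prod_const, Finset.card_univ, h1, Int.card_Icc]
    congr 1
    omega
  let g : (ι → ℤ) → 𝓞 F := fun v => ∑ i, v i • b i
  have hg : Function.Injective g := by
    have h1 : g = b.equivFun.symm := by
      funext v
      rw [Basis.equivFun_symm_apply]
    rw [h1]
    exact b.equivFun.symm.injective
  have hmem : ∀ v ∈ S, house (g v : F) ≤ T := by
    intro v hv
    have hv' : ∀ i, |(v i : ℝ)| ≤ m := by
      intro i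
      have := (Fintype.mem_piFinset.1 hv) i
      rw [Finset.mem_Icc] at this
      rw [abs_le]
      constructor
      · exact_mod_cast this.1
      · exact_mod_cast this.2
    have h1 : (g v : F) = ∑ i, ((v i : ℤ) : F) * (b i : F) := by
      simp [g, map_sum, zsmul_eq_mul]
    rw [h1]
    refine (house_sum_le_sum_house _ _).trans ?_
    calc ∑ i, house (((v i : ℤ) : F) * (b i : F))
        ≤ ∑ i, (m : ℝ) * house (b i : F) := by
          apply Finset.sum_le_sum
          intro i _
          refine (house_mul_le _ _).trans ?_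
          rw [house_intCast]
          apply mul_le_mul_of_nonneg_right _ (house_nonneg _)
          have := hv' i
          push_cast
          exact this
      _ = (m : ℝ) * ∑ i, house (b i : F) := by rw [Finset.mul_sum]
      _ ≤ (T / B) * B := by
          apply mul_le_mul hmle _ hsum (by positivity)
          simp only [B]
          linarith
      _ = T := by field_simp
  have hcard : S.card ≤ cnt F T := by
    rw [cnt, Set.ncard_eq_toFinset_card _ (finite_house_le F T)]
    apply Finset.card_le_card_of_injOn g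
    · intro v hv
      simp only [Set.Finite.coe_toFinset, Set.mem_ofPred_eq]
      exact hmem v hv
    · exact hg.injOn
  calc (1 / B) ^ finrank ℚ F * T ^ finrank ℚ F = (T / B) ^ finrank ℚ F := by
        rw [← mul_pow]
        congr 1
        ring
    _ ≤ (2 * m + 1 : ℝ) ^ finrank ℚ F := by
        apply pow_le_pow_left₀ (by positivity)
        have : (0 : ℝ) ≤ m := Nat.cast_nonneg m
        linarith
    _ = ((S.card : ℕ) : ℝ) := by rw [hScard]; push_cast; ring
    _ ≤ _ := by exact_mod_cast hcard

theorem exists_eisenstein_element : ∃ (P : Ideal (𝓞 F)) (π : 𝓞 F), P.IsPrime ∧ π ∈ P ∧ π ∉ P ^ 2 := by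
  obtain ⟨P, hP⟩ := Ideal.exists_maximal (𝓞 F)
  have hne : P ≠ ⊥ := Ring.ne_bot_of_isMaximal_of_not_isField hP (RingOfIntegers.not_isField F)
  obtain ⟨x, hx, hx'⟩ := Ideal.exists_mem_pow_notMem_pow_succ P hne hP.ne_top 1
  rw [pow_one] at hx
  exact ⟨P, x, hP.isPrime, hx, hx'⟩

variable {F}

/-- Eisenstein coefficients -/
def eisC (π : 𝓞 F) {p : ℕ} (b : Fin p → 𝓞 F) : Fin p → 𝓞 F :=
  fun k => if (k : ℕ) = 0 then π + π ^ 2 * b k else π * b k

omit [NumberField F] in
theorem eisC_inj {π : 𝓞 F} (hπ : π ≠ 0) {p : ℕ} :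
    Function.Injective (eisC π : (Fin p → 𝓞 F) → (Fin p → 𝓞 F)) := by
  intro b b' h
  ext k
  have h1 := congrFun h k
  simp only [eisC] at h1
  by_cases hk : (k : ℕ) = 0
  · rw [if_pos hk, if_pos hk] at h1
    have h2 : π ^ 2 * (b k - b' k) = 0 := by linear_combination h1
    rcases mul_eq_zero.1 h2 with h3 | h3
    · exact absurd (pow_eq_zero_iff (two_ne_zero) |>.1 h3) hπ
    · rw [sub_eq_zero.1 h3]
  · rw [if_neg hk, if_neg hk] at h1
    have h2 : π * (b k - b' k) = 0 := by linear_combination h1
    rcases mul_eq_zero.1 h2 with h3 | h3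
    · exact absurd h3 hπ
    · rw [sub_eq_zero.1 h3]

theorem eis_irreducible {P : Ideal (𝓞 F)} (hP : P.IsPrime) {π : 𝓞 F} (h1 : π ∈ P)
    (h2 : π ∉ P ^ 2) {p : ℕ} (hp : 0 < p) (b : Fin p → 𝓞 F) :
    Irreducible ((mkPoly p (eisC π b)).map (algebraMap (𝓞 F) F)) := by
  rw [← (mkPoly_monic p (eisC π b)).irreducible_iff_irreducible_map_fraction_map]
  refine Polynomial.IsEisensteinAt.irreducible (𝓟 := P) ?_ hP
    (mkPoly_monic p _).isPrimitive (by rw [mkPoly_natDegree]; exact hp)
  constructor
  · rw [(mkPoly_monic p _).leadingCoeff]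
    intro h
    exact hP.ne_top ((Ideal.eq_top_iff_one P).2 h)
  · intro n hn
    rw [mkPoly_natDegree] at hn
    have := mkPoly_coeff p (eisC π b) ⟨n, hn⟩
    simp only at this
    rw [this]
    simp only [eisC]
    split_ifs
    · apply P.add_mem h1
      apply P.mul_mem_right
      rw [pow_two]
      exact P.mul_mem_right _ h1
    · exact P.mul_mem_right _ h1
  · have := mkPoly_coeff p (eisC π b) ⟨0, hp⟩
    simp only at this
    rw [this]
    simp only [eisC, if_true]
    intro h3
    apply h2
    have h4 : π ^ 2 * b ⟨0, hp⟩ ∈ P ^ 2 := (P ^ 2).mul_mem_right _ (Ideal.pow_mem_pow h1 2)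
    have h5 := (P ^ 2).sub_mem h3 h4
    simpa using h5

end

end Pool.Agent.helper22
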