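import Mathlib
import Pool.Agent.helper22.Lower

set_option autoImplicit false

namespace Pool.Agent.helper22

open NumberField Module IntermediateField Polynomial

section

variable (F : Type*) [Field F] [NumberField F] {A : Type*} [Field A] [Algebra F A]

theorem isIntegral_of_root {α : A} {f : (𝓞 F)[X]} (hf : f.Monic)
    (h : (f.map (algebraMap (𝓞 F) A)).eval α = 0) : IsIntegral ℤ α := by
  have h1 : IsIntegral (𝓞 F) α := ⟨f, hf, by rw [← eval_map]; exact h⟩
  exact isIntegral_trans (R := ℤ) α h1

/-- conjugates of a root are bounded when the coefficients are small -/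
theorem Bd_of_root {α : A} {p : ℕ} {c : Fin p → 𝓞 F} {H : ℝ} (hH : 0 ≤ H)
    (hc : ∀ k : Fin p, house (c k : F) ≤ (H / 2) ^ (p - (k : ℕ)))
    (h : ((mkPoly p c).map (algebraMap (𝓞 F) A)).eval α = 0) : Bd H α := by
  intro φ
  let ψ : 𝓞 F →+* ℂ := φ.comp (algebraMap (𝓞 F) A)
  refine root_bound (p := p) (c := fun k => ψ (c k)) hH ?_ ?_
  · intro k
    refine le_trans ?_ (hc k)
    have : ψ (c k) = (φ.comp (algebraMap F A)) (c k : F) := by
      simp only [ψ, RingHom.comp_apply]
      rw [IsScalarTower.algebraMap_apply (𝓞 F) F A]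
    rw [this]
    exact norm_embedding_le_house _ _
  · rw [← mkPoly_map ψ]
    have h1 : (mkPoly p c).map ψ = ((mkPoly p c).map (algebraMap (𝓞 F) A)).map φ := by
      rw [Polynomial.map_map]
    rw [h1, eval_map_apply, h, map_zero]

variable [IsAlgClosed A]

variable (A) in
theorem family_lower (p : ℕ) (hp : 0 < p) : ∃ c : ℝ, 0 < c ∧ ∃ H₀ : ℝ, 1 ≤ H₀ ∧ ∀ H : ℝ, H₀ ≤ H →
    ∃ P : Finset A, (∀ α ∈ P, α ∈ SS F A p H) ∧
      c * H ^ (finrank ℚ F * tri p) ≤ (P.card : ℝ) := by
  classical
  obtain ⟨c₀, hc₀, hcnt⟩ := cnt_lower F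
  obtain ⟨Q, π, hQ, hπ1, hπ2⟩ := exists_eisenstein_element F
  have hπ0 : π ≠ 0 := by
    rintro rfl
    exact hπ2 (zero_mem _)
  set h : ℝ := max 1 (house (π : F)) with hh
  have h1 : 1 ≤ h := le_max_left _ _
  have h2 : house (π : F) ≤ h := le_max_right _ _
  set d := finrank ℚ F with hd
  refine ⟨c₀ ^ p * (∏ k : Fin p, ((1 / 2 : ℝ) ^ (p - (k : ℕ)) / (2 * h ^ 2)) ^ d), ?_, 4 * h,
    by linarith, ?_⟩
  · apply mul_pos (by positivity)
    apply Finset.prod_pos
    intro k _
    positivity
  intro H hH
  have hH0 : 0 ≤ H := by linarith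
  set T : Fin p → ℝ := fun k => (H / 2) ^ (p - (k : ℕ)) / (2 * h ^ 2) with hT
  let B : Finset (Fin p → 𝓞 F) := Fintype.piFinset (fun k => (finite_house_le F (T k)).toFinset)
  have hBmem : ∀ b ∈ B, ∀ k, house (b k : F) ≤ T k := by
    intro b hb k
    have := (Fintype.mem_piFinset.1 hb) k
    rw [Set.Finite.mem_toFinset] at this
    exact this
  have hBcard : c₀ ^ p * (∏ k : Fin p, ((1 / 2 : ℝ) ^ (p - (k : ℕ)) / (2 * h ^ 2)) ^ d) *
      H ^ (d * tri p) ≤ (B.card : ℝ) := by
    rw [Fintype.card_piFinset]
    push_cast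
    calc c₀ ^ p * (∏ k : Fin p, ((1 / 2 : ℝ) ^ (p - (k : ℕ)) / (2 * h ^ 2)) ^ d) *
      H ^ (d * tri p) = ∏ k : Fin p, (c₀ * (T k) ^ d) := by
          rw [tri, Finset.mul_sum, ← Finset.prod_pow_eq_pow_sum, Finset.prod_mul_distrib,
            Finset.prod_const, Finset.card_univ, Fintype.card_fin, mul_assoc,
            ← Finset.prod_mul_distrib]
          congr 1
          apply Finset.prod_congr rfl
          intro k _
          simp only [hT]
          rw [mul_comm d, pow_mul, ← mul_pow]
          congr 1
          rw [div_pow H 2, one_div, inv_pow]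
          field_simp
      _ ≤ ∏ k : Fin p, (((finite_house_le F (T k)).toFinset.card : ℕ) : ℝ) := by
          apply Finset.prod_le_prod
          · intro k _
            positivity
          · intro k _
            have := hcnt (T k) (by positivity)
            rw [cnt, Set.ncard_eq_toFinset_card _ (finite_house_le F (T k))] at this
            exact this
  have hroot : ∀ b : Fin p → 𝓞 F, ∃ α : A,
      ((mkPoly p (eisC π b)).map (algebraMap (𝓞 F) A)).eval α = 0 := by
    intro b
    apply IsAlgClosed.exists_root
    rw [Polynomial.degree_eq_natDegree ((mkPoly_monic p _).map _).ne_zero,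
      (mkPoly_monic p _).natDegree_map, mkPoly_natDegree]
    exact_mod_cast hp.ne'
  choose rt hrt using hroot
  have hmin : ∀ b, minpoly F (rt b) = (mkPoly p (eisC π b)).map (algebraMap (𝓞 F) F) := by
    intro b
    symm
    apply minpoly.eq_of_irreducible_of_monic (eis_irreducible hQ hπ1 hπ2 hp b)
    · rw [aeval_def, eval₂_eq_eval_map, Polynomial.map_map, ← IsScalarTower.algebraMap_eq]
      exact hrt b
    · exact (mkPoly_monic p _).map _
  have hinj : Set.InjOn rt (B : Set (Fin p → 𝓞 F)) := by
    intro b _ b' _ hbb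
    have h3 : (mkPoly p (eisC π b)).map (algebraMap (𝓞 F) F) =
        (mkPoly p (eisC π b')).map (algebraMap (𝓞 F) F) := by
      rw [← hmin, ← hmin, hbb]
    have h4 : mkPoly p (eisC π b) = mkPoly p (eisC π b') :=
      Polynomial.map_injective _ (RingOfIntegers.coe_injective (K := F)) h3
    apply eisC_inj hπ0
    funext k
    rw [← mkPoly_coeff p (eisC π b) k, h4, mkPoly_coeff]
  refine ⟨B.image rt, ?_, ?_⟩
  · intro α hα
    obtain ⟨b, hb, rfl⟩ := Finset.mem_image.1 hα
    refine ⟨isIntegral_of_root F (mkPoly_monic p _) (hrt b), ?_, ?_⟩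
    · rw [hmin, (mkPoly_monic p _).natDegree_map, mkPoly_natDegree]
    · refine Bd_of_root F hH0 ?_ (hrt b)
      intro k
      have hbk := hBmem b hb k
      have hhalf : 2 * h ≤ (H / 2) ^ p := by
        have h5 : 2 * h ≤ H / 2 := by linarith
        have h6 : 1 ≤ H / 2 := by linarith
        calc 2 * h ≤ H / 2 := h5
          _ = (H / 2) ^ 1 := by rw [pow_one]
          _ ≤ (H / 2) ^ p := pow_le_pow_right₀ h6 hp
      simp only [eisC]
      split_ifs with hk
      · have h7 : ((π + π ^ 2 * b k : 𝓞 F) : F) = (π : F) + (π : F) ^ 2 * (b k : F) := by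
          push_cast; ring
        rw [h7]
        have h8 : T k = (H / 2) ^ p / (2 * h ^ 2) := by
          simp only [hT, hk, Nat.sub_zero]
        calc house ((π : F) + (π : F) ^ 2 * (b k : F))
            ≤ house (π : F) + house ((π : F) ^ 2 * (b k : F)) := house_add_le _ _
          _ ≤ house (π : F) + house ((π : F) ^ 2) * house (b k : F) := by
              gcongr
              exact house_mul_le _ _
          _ ≤ h + h ^ 2 * T k := by
              gcongr
              · exact house_nonneg _
              · refine (house_pow_le _ _).trans ?_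
                exact pow_le_pow_left₀ (house_nonneg _) h2 2
          _ = h + (H / 2) ^ p / 2 := by
              rw [h8]
              field_simp
          _ ≤ (H / 2) ^ p := by linarith
          _ = (H / 2) ^ (p - (k : ℕ)) := by rw [hk, Nat.sub_zero]
      · have h7 : ((π * b k : 𝓞 F) : F) = (π : F) * (b k : F) := by push_cast; ring
        rw [h7]
        calc house ((π : F) * (b k : F)) ≤ house (π : F) * house (b k : F) := house_mul_le _ _
          _ ≤ h * T k := by
              gcongr
              exact house_nonneg _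
          _ = (H / 2) ^ (p - (k : ℕ)) * (1 / (2 * h)) := by
              simp only [hT]
              field_simp
          _ ≤ (H / 2) ^ (p - (k : ℕ)) * 1 := by
              apply mul_le_mul_of_nonneg_left _ (by positivity)
              rw [div_le_one (by positivity)]
              linarith
          _ = _ := mul_one _
  · rw [Finset.card_image_of_injOn hinj]
    exact hBcard

end

end Pool.Agent.helper22
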