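import Mathlib
import Pool.Agent.helper22.Family

set_option autoImplicit false

namespace Pool.Agent.helper22

open NumberField Module IntermediateField Polynomial

section

variable {F : Type*} [Field F] [NumberField F] {A : Type*} [Field A] [Algebra F A]

/-- algebraic integers of `L` with all conjugates bounded by `t` -/
def intL (L : IntermediateField F A) (t : ℝ) : Set A := {α | α ∈ L ∧ IsIntegral ℤ α ∧ Bd t α}

variable [Algebra.IsAlgebraic F A]

omit [NumberField F] in
theorem Bd_iff (L : IntermediateField F A) (x : L) (t : ℝ) :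
    Bd t (x : A) ↔ ∀ ψ : L →+* ℂ, ‖ψ x‖ ≤ t := by
  constructor
  · intro h ψ
    let := ψ.toAlgebra
    have : Algebra.IsAlgebraic L A := Algebra.IsAlgebraic.tower_top (K := F) L
    let φ : A →ₐ[L] ℂ := IsAlgClosed.lift
    have h1 : φ (algebraMap L A x) = ψ x := φ.commutes x
    have h2 := h φ.toRingHom
    have h3 : φ.toRingHom (x : A) = ψ x := h1
    rw [h3] at h2
    exact h2
  · intro h φ
    exact h (φ.comp (algebraMap L A))

theorem intL_ncard (L : IntermediateField F A) [NumberField L] (t : ℝ) :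
    (intL L t).ncard = cnt L t := by
  rw [cnt]
  let g : 𝓞 L → A := fun x => ((x : L) : A)
  have hg : Function.Injective g := by
    intro x y h
    apply RingOfIntegers.coe_injective
    exact Subtype.ext h
  have himg : intL L t = g '' {x : 𝓞 L | house (x : L) ≤ t} := by
    ext α
    constructor
    · rintro ⟨h1, h2, h3⟩
      have h4 : IsIntegral ℤ (⟨α, h1⟩ : L) := by
        rw [← isIntegral_algebraMap_iff (B := A) (FaithfulSMul.algebraMap_injective L A)]
        exact h2
      refine ⟨⟨⟨α, h1⟩, h4⟩, ?_, rfl⟩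
      simp only [Set.mem_ofPred_eq]
      rw [house_le_iff]
      exact (Bd_iff L ⟨α, h1⟩ t).1 h3
    · rintro ⟨x, hx, rfl⟩
      refine ⟨(x : L).2, ?_, ?_⟩
      · exact (isIntegral_algebraMap_iff (B := A) (FaithfulSMul.algebraMap_injective L A)).2 x.2
      · exact (Bd_iff L (x : L) t).2 ((house_le_iff _ _).1 hx)
  rw [himg, Set.ncard_image_of_injective _ hg]

theorem intL_finite (L : IntermediateField F A) [NumberField L] (t : ℝ) :
    (intL L t).Finite := by
  let g : 𝓞 L → A := fun x => ((x : L) : A)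
  refine ((finite_house_le L t).image g).subset ?_
  rintro α ⟨h1, h2, h3⟩
  have h4 : IsIntegral ℤ (⟨α, h1⟩ : L) := by
    rw [← isIntegral_algebraMap_iff (B := A) (FaithfulSMul.algebraMap_injective L A)]
    exact h2
  refine ⟨⟨⟨α, h1⟩, h4⟩, ?_, rfl⟩
  simp only [Set.mem_ofPred_eq]
  rw [house_le_iff]
  exact (Bd_iff L ⟨α, h1⟩ t).1 h3

omit [NumberField F] in
theorem adjoin_eq_of_mem {p : ℕ} (hp : p.Prime) {L : IntermediateField F A}
    (hL : finrank F L = p) {β : A} (hβ : β ∈ L) (hβ' : β ∉ (⊥ : IntermediateField F A)) :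
    F⟮β⟯ = L := by
  have hfin : FiniteDimensional F L := FiniteDimensional.of_finrank_pos (by rw [hL]; exact hp.pos)
  have hle : F⟮β⟯ ≤ L := by
    rw [adjoin_simple_le_iff]; exact hβ
  apply IntermediateField.eq_of_le_of_finrank_eq hle
  have hdvd := finrank_dvd_of_le_right hle
  rw [hL] at hdvd ⊢
  rcases (Nat.dvd_prime hp).1 hdvd with h | h
  · exfalso
    rw [IntermediateField.finrank_eq_one_iff] at h
    apply hβ'
    rw [← h]
    exact mem_adjoin_simple_self F β
  · exact h

/-- Core counting inequality. -/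
theorem core {p : ℕ} (hp : p.Prime) {H t M : ℝ} (hM : 0 ≤ M) (ht : 0 < t) (P : Finset A)
    (hP : ∀ α ∈ P, α ∈ SS F A p H)
    (hdbl : ∀ α ∈ P, ((intL F⟮α⟯ H).ncard : ℝ) ≤ M * ((intL F⟮α⟯ t).ncard : ℝ)) :
    ∃ 𝓛 : Finset (IntermediateField F A), (∀ L ∈ 𝓛, ∃ α ∈ P, L = F⟮α⟯) ∧
      (P.card : ℝ) ≤ M * ((𝓛.card : ℝ) * ((intL (⊥ : IntermediateField F A) t).ncard : ℝ) +
        2 * ((SS F A p (2 * t)).ncard : ℝ)) := by
  classical
  let 𝓛 : Finset (IntermediateField F A) := P.image (fun α => F⟮α⟯)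
  have h𝓛 : ∀ L ∈ 𝓛, ∃ α ∈ P, F⟮α⟯ = L := fun L hL => Finset.mem_image.1 hL
  have hfr : ∀ L ∈ 𝓛, finrank F L = p := by
    intro L hL
    obtain ⟨α, hα, rfl⟩ := h𝓛 L hL
    rw [IntermediateField.adjoin.finrank (hP α hα).1.tower_top]
    exact (hP α hα).2.1
  have hfd : ∀ L ∈ 𝓛, FiniteDimensional F L := fun L hL =>
    FiniteDimensional.of_finrank_pos (by rw [hfr L hL]; exact hp.pos)
  have hnf : ∀ L ∈ 𝓛, NumberField L := fun L hL => by
    have := hfd L hL
    exact NumberField.of_module_finite F L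
  have hnfbot : NumberField (⊥ : IntermediateField F A) := NumberField.of_module_finite F _
  have hfinBot := intL_finite (⊥ : IntermediateField F A) t
  let E : IntermediateField F A → Set A := fun L =>
    {β | β ∈ intL L (2 * t) ∧ β ∉ (⊥ : IntermediateField F A)}
  have hEfin : ∀ L ∈ 𝓛, (E L).Finite := fun L hL => by
    have := hnf L hL
    exact (intL_finite L (2 * t)).subset fun β hβ => hβ.1
  have step1 : ∀ L ∈ 𝓛, ((intL L t).ncard : ℝ) ≤
      ((intL (⊥ : IntermediateField F A) t).ncard : ℝ) + 2 * ((E L).ncard : ℝ) := by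
    intro L hL
    have := hnf L hL
    have hsub : intL L t ⊆ intL (⊥ : IntermediateField F A) t ∪ E L := by
      rintro β ⟨h1, h2, h3⟩
      by_cases hb : β ∈ (⊥ : IntermediateField F A)
      · exact Or.inl ⟨hb, h2, h3⟩
      · exact Or.inr ⟨⟨h1, h2, h3.mono (by linarith)⟩, hb⟩
    have h1 : (intL L t).ncard ≤ (intL (⊥ : IntermediateField F A) t).ncard + (E L).ncard :=
      (Set.ncard_le_ncard hsub (hfinBot.union (hEfin L hL))).trans (Set.ncard_union_le _ _)
    have h2 : ((intL L t).ncard : ℝ) ≤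
        ((intL (⊥ : IntermediateField F A) t).ncard : ℝ) + ((E L).ncard : ℝ) := by
      exact_mod_cast h1
    have h3 : (0 : ℝ) ≤ (E L).ncard := Nat.cast_nonneg _
    linarith
  have step2 : ∑ L ∈ 𝓛, (E L).ncard ≤ (SS F A p (2 * t)).ncard := by
    let E' : IntermediateField F A → Finset A := fun L =>
      if h : (E L).Finite then h.toFinset else ∅
    have hE' : ∀ L ∈ 𝓛, (E' L : Set A) = E L := by
      intro L hL
      simp [E', hEfin L hL]
    have hmem : ∀ L ∈ 𝓛, ∀ β ∈ E' L, F⟮β⟯ = L ∧ β ∈ SS F A p (2 * t) := by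
      intro L hL β hβ
      have h1 : β ∈ E L := by rw [← hE' L hL]; exact hβ
      have h2 : F⟮β⟯ = L := adjoin_eq_of_mem hp (hfr L hL) h1.1.1 h1.2
      refine ⟨h2, h1.1.2.1, ?_, h1.1.2.2⟩
      rw [← IntermediateField.adjoin.finrank (K := F) h1.1.2.1.tower_top, h2]
      exact hfr L hL
    have hdisj : (𝓛 : Set (IntermediateField F A)).PairwiseDisjoint E' := by
      intro L hL L' hL' hne
      rw [Function.onFun, Finset.disjoint_left]
      intro β hβ hβ'
      exact hne ((hmem L hL β hβ).1.symm.trans (hmem L' hL' β hβ').1)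
    calc ∑ L ∈ 𝓛, (E L).ncard = ∑ L ∈ 𝓛, (E' L).card := by
          apply Finset.sum_congr rfl
          intro L hL
          rw [← hE' L hL, Set.ncard_coe_finset]
      _ = (𝓛.biUnion E').card := (Finset.card_biUnion hdisj).symm
      _ = ((𝓛.biUnion E' : Finset A) : Set A).ncard := by rw [Set.ncard_coe_finset]
      _ ≤ (SS F A p (2 * t)).ncard := by
          apply Set.ncard_le_ncard _ (SS_finite F p (2 * t))
          intro β hβ
          rw [Finset.mem_coe, Finset.mem_biUnion] at hβ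
          obtain ⟨L, hL, hβ⟩ := hβ
          exact (hmem L hL β hβ).2
  have step3 : P.card = ∑ L ∈ 𝓛, (P.filter (fun α => F⟮α⟯ = L)).card := by
    apply Finset.card_eq_sum_card_fiberwise
    intro α hα
    exact Finset.mem_coe.2 (Finset.mem_image_of_mem _ hα)
  have step4 : ∀ L ∈ 𝓛, ((P.filter (fun α => F⟮α⟯ = L)).card : ℝ) ≤
      M * ((intL L t).ncard : ℝ) := by
    intro L hL
    have := hnf L hL
    obtain ⟨α, hα, hαL⟩ := h𝓛 L hL
    have h1 : (P.filter (fun α => F⟮α⟯ = L)).card ≤ (intL L H).ncard := by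
      rw [← Set.ncard_coe_finset]
      apply Set.ncard_le_ncard _ (intL_finite L H)
      intro β hβ
      rw [Finset.mem_coe, Finset.mem_filter] at hβ
      refine ⟨?_, (hP β hβ.1).1, (hP β hβ.1).2.2⟩
      rw [← hβ.2]
      exact mem_adjoin_simple_self F β
    have h2 := hdbl α hα
    rw [hαL] at h2
    refine le_trans ?_ h2
    exact_mod_cast h1
  refine ⟨𝓛, fun L hL => ?_, ?_⟩
  · obtain ⟨α, hα, h⟩ := h𝓛 L hL
    exact ⟨α, hα, h.symm⟩
  rw [step3]
  push_cast
  calc ∑ L ∈ 𝓛, ((P.filter (fun α => F⟮α⟯ = L)).card : ℝ)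
      ≤ ∑ L ∈ 𝓛, M * (((intL (⊥ : IntermediateField F A) t).ncard : ℝ) +
          2 * ((E L).ncard : ℝ)) := by
        apply Finset.sum_le_sum
        intro L hL
        exact (step4 L hL).trans (mul_le_mul_of_nonneg_left (step1 L hL) hM)
    _ = M * ((𝓛.card : ℝ) * ((intL (⊥ : IntermediateField F A) t).ncard : ℝ) +
        2 * ((∑ L ∈ 𝓛, (E L).ncard : ℕ) : ℝ)) := by
        rw [← Finset.mul_sum, Finset.sum_add_distrib, Finset.sum_const, ← Finset.mul_sum,
          nsmul_eq_mul]
        push_cast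
        ring
    _ ≤ _ := by
        apply mul_le_mul_of_nonneg_left _ hM
        have : ((∑ L ∈ 𝓛, (E L).ncard : ℕ) : ℝ) ≤ ((SS F A p (2 * t)).ncard : ℝ) := by
          exact_mod_cast step2
        linarith

end

end Pool.Agent.helper22
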