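import Mathlib
import Pool.Agent.helper22.Core

set_option autoImplicit false

namespace Pool.Agent.helper22

open NumberField Module IntermediateField Polynomial

section

variable {L : Type*} [Field L] [NumberField L]

/-- the discriminant of the field is at most the discriminant of any basis of integers -/
theorem discr_le_basis {ι : Type*} [Fintype ι] [DecidableEq ι] (v : Basis ι ℚ L)
    (hint : ∀ i, IsIntegral ℤ (v i)) : (|(discr L : ℤ)| : ℚ) ≤ |Algebra.discr ℚ v| := by
  classical
  let b := (integralBasis L).reindex ((integralBasis L).indexEquiv v)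
  have hb : Algebra.discr ℚ b = (discr L : ℚ) := by
    rw [coe_discr, Basis.coe_reindex, Algebra.discr_reindex]
  have hv : Algebra.discr ℚ v = (b.toMatrix v).det ^ 2 * Algebra.discr ℚ b := by
    conv_lhs => rw [← b.toMatrix_map_vecMul v]
    rw [Algebra.discr_of_matrix_vecMul]
  have hentry : ∀ i j, IsIntegral ℤ (b.toMatrix v i j) := by
    intro i j
    rw [Basis.toMatrix_apply]
    have h1 : v j ∈ (algebraMap (𝓞 L) L).range := ⟨⟨v j, hint j⟩, rfl⟩
    rw [← mem_span_integralBasis L] at h1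
    have h2 : (b.repr (v j)) i = (integralBasis L).repr (v j)
        (((integralBasis L).indexEquiv v).symm i) := by
      simp [b]
    rw [h2]
    rw [(integralBasis L).mem_span_iff_repr_mem ℤ] at h1
    obtain ⟨z, hz⟩ := h1 (((integralBasis L).indexEquiv v).symm i)
    rw [← hz]
    exact isIntegral_algebraMap
  have hdet : IsIntegral ℤ (b.toMatrix v).det := IsIntegral.det hentry
  obtain ⟨r, hr⟩ := IsIntegrallyClosed.isIntegral_iff.1 hdet
  have hr0 : r ≠ 0 := by
    rintro rfl
    rw [map_zero] at hr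
    have h3 := Algebra.discr_not_zero_of_basis ℚ v
    apply h3
    rw [hv, ← hr]
    simp
  have hr1 : (1 : ℚ) ≤ (r : ℚ) ^ 2 := by
    have : (1 : ℤ) ≤ r ^ 2 := by
      have := pow_pos (abs_pos.2 hr0) 2
      rw [sq_abs] at this
      omega
    exact_mod_cast this
  rw [hv, ← hr, hb, abs_mul]
  have h4 : |(algebraMap ℤ ℚ) r ^ 2| = (r : ℚ) ^ 2 := by
    rw [abs_of_nonneg (by positivity)]
    rfl
  rw [h4]
  have h5 : (0 : ℚ) ≤ |(discr L : ℚ)| := abs_nonneg _
  nlinarith

/-- bound for the discriminant of a family with bounded conjugates -/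
theorem abs_discr_family_le {ι : Type*} [Fintype ι] [DecidableEq ι] (v : ι → L)
    (hcard : Fintype.card ι = finrank ℚ L) (B : ι → ℝ) (hB : ∀ i, house (v i) ≤ B i) :
    ((|Algebra.discr ℚ v| : ℚ) : ℝ) ≤
      ((Fintype.card ι).factorial : ℝ) ^ 2 * ∏ i, (B i) ^ 2 := by
  classical
  have hB0 : ∀ i, 0 ≤ B i := fun i => (house_nonneg _).trans (hB i)
  have e : ι ≃ (L →ₐ[ℚ] ℂ) := by
    apply Fintype.equivOfCardEq
    rw [AlgHom.card, hcard]
  have h1 := Algebra.discr_eq_det_embeddingsMatrixReindex_pow_two ℚ ℂ v e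
  have h2 : ‖(Algebra.embeddingsMatrixReindex ℚ ℂ v e).det‖ ≤
      ((Fintype.card ι).factorial : ℝ) * ∏ i, B i := by
    rw [Matrix.det_apply]
    refine (norm_sum_le _ _).trans ?_
    have h3 : ∀ σ : Equiv.Perm ι, ‖Equiv.Perm.sign σ •
        ∏ i, Algebra.embeddingsMatrixReindex ℚ ℂ v e (σ i) i‖ ≤ ∏ i, B i := by
      intro σ
      have h4 : ‖Equiv.Perm.sign σ • ∏ i, Algebra.embeddingsMatrixReindex ℚ ℂ v e (σ i) i‖ =
          ‖∏ i, Algebra.embeddingsMatrixReindex ℚ ℂ v e (σ i) i‖ := by
        rcases Int.units_eq_one_or (Equiv.Perm.sign σ) with h | h <;> rw [h] <;> simp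
      rw [h4, norm_prod]
      calc ∏ i, ‖Algebra.embeddingsMatrixReindex ℚ ℂ v e (σ i) i‖
          ≤ ∏ i, B (σ i) := by
            apply Finset.prod_le_prod (fun _ _ => norm_nonneg _)
            intro i _
            have : Algebra.embeddingsMatrixReindex ℚ ℂ v e (σ i) i = (e i) (v (σ i)) := rfl
            rw [this]
            exact (norm_embedding_le_house (v (σ i)) (e i).toRingHom).trans (hB _)
        _ = ∏ i, B i := Equiv.prod_comp σ B
    calc ∑ σ : Equiv.Perm ι, ‖Equiv.Perm.sign σ •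
        ∏ i, Algebra.embeddingsMatrixReindex ℚ ℂ v e (σ i) i‖
        ≤ ∑ σ : Equiv.Perm ι, ∏ i, B i := Finset.sum_le_sum fun σ _ => h3 σ
      _ = ((Fintype.card ι).factorial : ℝ) * ∏ i, B i := by
        rw [Finset.sum_const, Finset.card_univ, Fintype.card_perm, nsmul_eq_mul]
  have h5 : ((|Algebra.discr ℚ v| : ℚ) : ℝ) =
      ‖(Algebra.embeddingsMatrixReindex ℚ ℂ v e).det‖ ^ 2 := by
    rw [← norm_pow, ← h1]
    simp
  rw [h5]
  calc ‖(Algebra.embeddingsMatrixReindex ℚ ℂ v e).det‖ ^ 2
      ≤ (((Fintype.card ι).factorial : ℝ) * ∏ i, B i) ^ 2 :=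
        pow_le_pow_left₀ (norm_nonneg _) h2 2
    _ = _ := by rw [mul_pow, Finset.prod_pow]

theorem abs_discr_le_of_basis {ι : Type*} [Fintype ι] [DecidableEq ι] (v : Basis ι ℚ L)
    (hint : ∀ i, IsIntegral ℤ (v i)) (B : ι → ℝ) (hB : ∀ i, house (v i) ≤ B i) :
    ((|discr L| : ℤ) : ℝ) ≤ ((Fintype.card ι).factorial : ℝ) ^ 2 * ∏ i, (B i) ^ 2 := by
  have h1 := discr_le_basis v hint
  have h2 := abs_discr_family_le v (finrank_eq_card_basis v).symm B hB
  refine le_trans ?_ h2
  exact_mod_cast h1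

end

section

variable (F : Type*) [Field F] [NumberField F] {A : Type*} [Field A] [Algebra F A]
  [Algebra.IsAlgebraic F A]

/-- Discriminant of a field generated by a small integer. -/
theorem discr_adjoin_le (p : ℕ) : ∃ C : ℝ, 0 < C ∧ ∀ (α : A) (H : ℝ), 1 ≤ H →
    α ∈ SS F A p H → ∀ _ : NumberField F⟮α⟯,
      ((|discr F⟮α⟯| : ℤ) : ℝ) ≤ C * H ^ (finrank ℚ F * (p * (p - 1))) := by
  classical
  set d := finrank ℚ F with hd
  let W : ℝ := 1 + ∑ i, house (integralBasis F i)
  have hsum : 0 ≤ ∑ i, house (integralBasis F i) := Finset.sum_nonneg fun i _ => house_nonneg _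
  have hW : 1 ≤ W := by simp only [W]; linarith
  have hWi : ∀ i, house (integralBasis F i) ≤ W := by
    intro i
    have := Finset.single_le_sum (f := fun i => house (integralBasis F i))
      (fun i _ => house_nonneg _) (Finset.mem_univ i)
    simp only [W]
    linarith
  refine ⟨((d * p).factorial : ℝ) ^ 2 * (W ^ 2) ^ (d * p), by positivity, ?_⟩
  intro α H hH hα hNF
  have hint : IsIntegral F α := hα.1.tower_top
  let pb := adjoin.powerBasis hint
  have hdim : pb.dim = p := by
    rw [← hα.2.1]; rfl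
  let v := (integralBasis F).smulTower pb.basis
  have hgen : pb.gen = AdjoinSimple.gen F α := rfl
  have hv : ∀ ij, v ij = algebraMap F F⟮α⟯ (integralBasis F ij.1) *
      (AdjoinSimple.gen F α) ^ (ij.2 : ℕ) := by
    intro ij
    rw [Basis.smulTower_apply, Algebra.smul_def, PowerBasis.basis_eq_pow, hgen]
  have hgenint : IsIntegral ℤ (AdjoinSimple.gen F α) := by
    rw [← isIntegral_algebraMap_iff (B := A) (FaithfulSMul.algebraMap_injective F⟮α⟯ A),
      AdjoinSimple.algebraMap_gen]
    exact hα.1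
  have hgenhouse : house (AdjoinSimple.gen F α) ≤ H := by
    rw [house_le_iff]
    apply (Bd_iff (F := F) F⟮α⟯ (AdjoinSimple.gen F α) H).1
    have : ((AdjoinSimple.gen F α : F⟮α⟯) : A) = α := AdjoinSimple.algebraMap_gen F α
    rw [this]
    exact hα.2.2
  have hmap : ∀ x : F, house (algebraMap F F⟮α⟯ x) ≤ house x := by
    intro x
    rw [house_le_iff]
    intro φ
    exact norm_embedding_le_house x (φ.comp (algebraMap F F⟮α⟯))
  have h1 := abs_discr_le_of_basis v (by
      intro ij
      rw [hv]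
      apply IsIntegral.mul
      · apply IsIntegral.algebraMap
        rw [integralBasis_apply]
        exact (RingOfIntegers.basis F ij.1).2
      · exact hgenint.pow _)
    (fun ij => W * H ^ (ij.2 : ℕ)) (by
      intro ij
      rw [hv]
      refine (house_mul_le _ _).trans ?_
      apply mul_le_mul ((hmap _).trans (hWi _)) _ (house_nonneg _) (by linarith)
      exact (house_pow_le _ _).trans (pow_le_pow_left₀ (house_nonneg _) hgenhouse _))
  refine h1.trans ?_
  have hcardι : Fintype.card (Free.ChooseBasisIndex ℤ (𝓞 F)) = d := by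
    rw [hd, finrank_eq_card_basis (integralBasis F)]
  have hcard : Fintype.card (Free.ChooseBasisIndex ℤ (𝓞 F) × Fin pb.dim) = d * p := by
    rw [Fintype.card_prod, hcardι, Fintype.card_fin, hdim]
  rw [hcard]
  rw [mul_assoc]
  apply mul_le_mul_of_nonneg_left _ (by positivity)
  have h2 : ∏ i : Free.ChooseBasisIndex ℤ (𝓞 F) × Fin pb.dim, (W * H ^ (i.2 : ℕ)) ^ 2 =
      (W ^ 2) ^ (d * p) * H ^ (d * (p * (p - 1))) := by
    simp_rw [mul_pow]
    rw [Finset.prod_mul_distrib, Finset.prod_const, Finset.card_univ, hcard]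
    congr 1
    rw [Fintype.prod_prod_type]
    simp only [Finset.prod_const, Finset.card_univ]
    rw [hcardι]
    rw [Fin.prod_univ_eq_prod_range (fun k => (H ^ k) ^ 2) pb.dim, hdim]
    rw [mul_comm d, pow_mul]
    congr 1
    have h3 : ∀ k, (H ^ k) ^ 2 = H ^ (k * 2) := fun k => by rw [← pow_mul]
    simp_rw [h3]
    rw [Finset.prod_pow_eq_pow_sum, ← Finset.sum_mul, Finset.sum_range_id_mul_two]
  rw [h2]

end

end Pool.Agent.helper22
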