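import Mathlib
import Pool.Agent.helper22.Discr

set_option autoImplicit false

namespace Pool.Agent.helper22

open NumberField Module IntermediateField Polynomial

theorem two_mul_tri (p : ℕ) : 2 * tri p = p * (p + 1) := by
  rw [tri, Fin.sum_univ_eq_sum_range (fun k => p - k)]
  have h : ∑ k ∈ Finset.range p, (p - k) = ∑ k ∈ Finset.range p, (k + 1) := by
    rw [← Finset.sum_range_reflect]
    apply Finset.sum_congr rfl
    intro k hk
    have := Finset.mem_range.1 hk
    omega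
  rw [h, Finset.sum_add_distrib]
  have h2 := Finset.sum_range_id_mul_two p
  simp only [Finset.sum_const, Finset.card_range, smul_eq_mul, mul_one]
  rcases p with _ | p
  · simp
  · simp only [Nat.add_sub_cancel] at h2
    nlinarith

section

variable (F : Type*) [Field F] [NumberField F] (A : Type*) [Field A] [Algebra F A]
  [Algebra.IsAlgebraic F A] [IsAlgClosed A]

theorem prime_lower_H {p : ℕ} (hp : p.Prime) : ∃ c : ℝ, 0 < c ∧ ∃ H₁ : ℝ, 1 ≤ H₁ ∧
    ∀ H : ℝ, H₁ ≤ H → ∃ 𝓛 : Finset (IntermediateField F A),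
      (∀ L ∈ 𝓛, ∃ α ∈ SS F A p H, L = F⟮α⟯) ∧
      c * H ^ (finrank ℚ F * (tri p - 1)) ≤ (𝓛.card : ℝ) := by
  obtain ⟨c₁, hc₁, H₀, hH₀, hfam⟩ := family_lower F A p hp.pos
  obtain ⟨C₂, hC₂, hSS⟩ := SS_upper (A := A) F p
  set d := finrank ℚ F with hd
  have hdpos : 0 < d := finrank_pos
  have htri := two_mul_tri p
  have hp2 := hp.two_le
  have htri1 : p + 1 ≤ tri p := by nlinarith
  set K : ℝ := 4 * C₂ * 3 ^ (d * p) * 2 ^ (d * tri p) with hK
  have hKpos : 0 < K := by positivity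
  set η : ℝ := min 1 (c₁ / K) with hη
  have hη0 : 0 < η := lt_min one_pos (by positivity)
  have hη1 : η ≤ 1 := min_le_left _ _
  have hηK : η * K ≤ c₁ := by
    have : η ≤ c₁ / K := min_le_right _ _
    calc η * K ≤ c₁ / K * K := by gcongr
      _ = c₁ := by field_simp
  set M : ℝ := (3 / η) ^ (d * p) with hM
  have hMpos : 0 < M := by positivity
  refine ⟨c₁ / 2 / (M * 5 ^ d), by positivity, max H₀ (1 / η), le_max_of_le_left hH₀, ?_⟩
  intro H hH
  have hHH₀ : H₀ ≤ H := (le_max_left _ _).trans hH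
  have hHη : 1 / η ≤ H := (le_max_right _ _).trans hH
  have hH1 : 1 ≤ H := hH₀.trans hHH₀
  have hHpos : 0 < H := by linarith
  set t : ℝ := η * H with ht
  have ht1 : 1 ≤ t := by
    rw [div_le_iff₀ hη0] at hHη
    linarith
  have htH : t ≤ H := by
    calc η * H ≤ 1 * H := by gcongr
      _ = H := one_mul H
  have htpos : 0 < t := by linarith
  obtain ⟨P, hP, hPcard⟩ := hfam H hHH₀
  have hdbl : ∀ α ∈ P, ((intL F⟮α⟯ H).ncard : ℝ) ≤ M * ((intL F⟮α⟯ t).ncard : ℝ) := by
    intro α hα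
    have hint : IsIntegral F α := (hP α hα).1.tower_top
    have hfr : finrank F F⟮α⟯ = p := by
      rw [IntermediateField.adjoin.finrank hint]; exact (hP α hα).2.1
    have hfd : FiniteDimensional F F⟮α⟯ := FiniteDimensional.of_finrank_pos (by rw [hfr]; exact hp.pos)
    have hnf : NumberField F⟮α⟯ := NumberField.of_module_finite F _
    rw [intL_ncard, intL_ncard]
    have h1 := cnt_doubling F⟮α⟯ htpos htH
    have h2 : finrank ℚ F⟮α⟯ = d * p := by
      rw [← Module.finrank_mul_finrank ℚ F F⟮α⟯, hfr]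
    rw [h2] at h1
    refine h1.trans ?_
    apply mul_le_mul_of_nonneg_right _ (Nat.cast_nonneg _)
    apply pow_le_pow_left₀ (by positivity)
    have h3 : 2 * H / t = 2 / η := by
      rw [ht]; field_simp
    rw [h3]
    have h4 : 1 ≤ 1 / η := by
      rw [le_div_iff₀ hη0]; linarith
    have h5 : 3 / η = 1 / η + 2 / η := by ring
    rw [h5]
    linarith
  obtain ⟨𝓛, h𝓛, hcore⟩ := core hp hMpos.le htpos P hP hdbl
  refine ⟨𝓛, ?_, ?_⟩
  · intro L hL
    obtain ⟨α, hα, rfl⟩ := h𝓛 L hL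
    exact ⟨α, hP α hα, rfl⟩
  -- bound the bottom field
  have hbot : ((intL (⊥ : IntermediateField F A) t).ncard : ℝ) ≤ (5 * H) ^ d := by
    have hnf : NumberField (⊥ : IntermediateField F A) := NumberField.of_module_finite F _
    rw [intL_ncard]
    have h1 := cnt_le (⊥ : IntermediateField F A) (T := t) (by linarith)
    have h2 : finrank ℚ (⊥ : IntermediateField F A) = d := by
      rw [← Module.finrank_mul_finrank ℚ F (⊥ : IntermediateField F A),
        IntermediateField.finrank_bot, mul_one]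
    rw [h2] at h1
    refine h1.trans ?_
    apply pow_le_pow_left₀ (by positivity)
    linarith
  have hSS2 : ((SS F A p (2 * t)).ncard : ℝ) ≤ C₂ * (2 * t) ^ (d * tri p) :=
    hSS (2 * t) (by linarith)
  have hmain : M * (2 * ((SS F A p (2 * t)).ncard : ℝ)) ≤ c₁ / 2 * H ^ (d * tri p) := by
    calc M * (2 * ((SS F A p (2 * t)).ncard : ℝ))
        ≤ M * (2 * (C₂ * (2 * t) ^ (d * tri p))) := by gcongr
      _ = (2 * C₂ * 3 ^ (d * p) * 2 ^ (d * tri p)) * (η ^ (d * tri p) / η ^ (d * p)) *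
          H ^ (d * tri p) := by
          rw [hM, ht, div_pow, mul_pow, mul_pow]
          field_simp
      _ ≤ (2 * C₂ * 3 ^ (d * p) * 2 ^ (d * tri p)) * η * H ^ (d * tri p) := by
          gcongr
          have hle : d * p + 1 ≤ d * tri p := by nlinarith
          obtain ⟨q, hq⟩ := Nat.exists_eq_add_of_le hle
          rw [div_le_iff₀ (by positivity), hq]
          calc η ^ (d * p + 1 + q) = η ^ q * (η * η ^ (d * p)) := by ring
            _ ≤ 1 * (η * η ^ (d * p)) := by
              gcongr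
              exact pow_le_one₀ hη0.le hη1
            _ = _ := one_mul _
      _ = (η * K) / 2 * H ^ (d * tri p) := by rw [hK]; ring
      _ ≤ c₁ / 2 * H ^ (d * tri p) := by gcongr
  have hfinal : c₁ / 2 * H ^ (d * tri p) ≤ M * ((𝓛.card : ℝ) * (5 * H) ^ d) := by
    have h1 : M * ((𝓛.card : ℝ) * ((intL (⊥ : IntermediateField F A) t).ncard : ℝ)) ≤
        M * ((𝓛.card : ℝ) * (5 * H) ^ d) := by gcongr
    have h2 : (P.card : ℝ) ≤ M * ((𝓛.card : ℝ) * ((intL (⊥ : IntermediateField F A) t).ncard : ℝ))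
        + M * (2 * ((SS F A p (2 * t)).ncard : ℝ)) := by
      rw [← mul_add]; exact hcore
    linarith
  have hsplit : H ^ (d * tri p) = H ^ (d * (tri p - 1)) * H ^ d := by
    rw [← pow_add]
    congr 1
    have : tri p = (tri p - 1) + 1 := by omega
    conv_lhs => rw [this]
    ring
  rw [hsplit, mul_pow] at hfinal
  rw [div_mul_eq_mul_div, div_le_iff₀ (by positivity)]
  have hHd : 0 < H ^ d := by positivity
  have h6 : (c₁ / 2 * H ^ (d * (tri p - 1))) * H ^ d ≤ ((𝓛.card : ℝ) * (M * 5 ^ d)) * H ^ d := by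
    calc (c₁ / 2 * H ^ (d * (tri p - 1))) * H ^ d = c₁ / 2 * (H ^ (d * (tri p - 1)) * H ^ d) := by
          ring
      _ ≤ M * ((𝓛.card : ℝ) * (5 ^ d * H ^ d)) := hfinal
      _ = _ := by ring
  exact le_of_mul_le_mul_right h6 hHd

theorem prime_lower {p : ℕ} (hp : p.Prime) : ∃ c : ℝ, 0 < c ∧ ∃ X₁ : ℝ, 1 ≤ X₁ ∧
    ∀ X : ℝ, X₁ ≤ X → ∃ 𝓛 : Finset (IntermediateField F A),
      (∀ L ∈ 𝓛, finrank F L = p ∧ ∀ _ : NumberField L, ((|discr L| : ℤ) : ℝ) ≤ X) ∧
      c * X ^ (1 / 2 + 1 / (p : ℝ)) ≤ (𝓛.card : ℝ) := by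
  obtain ⟨c₁, hc₁, H₁, hH₁, hlow⟩ := prime_lower_H F A hp
  obtain ⟨C₃, hC₃, hdisc⟩ := discr_adjoin_le (A := A) F p
  set d := finrank ℚ F with hd
  have hdpos : 0 < d := finrank_pos
  have hp2 := hp.two_le
  set e : ℕ := d * (p * (p - 1)) with he
  have hepos : 0 < e := by
    rw [he]
    have : 0 < p - 1 := by omega
    positivity
  refine ⟨c₁ * (1 / C₃) ^ (1 / 2 + 1 / (p : ℝ)), by positivity, max 1 (C₃ * H₁ ^ e),
    le_max_left _ _, ?_⟩
  intro X hX
  have hX1 : 1 ≤ X := (le_max_left _ _).trans hX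
  have hX2 : C₃ * H₁ ^ e ≤ X := (le_max_right _ _).trans hX
  have hXpos : 0 < X := by linarith
  set H : ℝ := (X / C₃) ^ (1 / (e : ℝ)) with hH
  have hq : 0 < X / C₃ := by positivity
  have hHe : H ^ e = X / C₃ := by
    rw [hH, ← Real.rpow_natCast, ← Real.rpow_mul hq.le, one_div,
      inv_mul_cancel₀ (by exact_mod_cast hepos.ne'), Real.rpow_one]
  have hHH₁ : H₁ ≤ H := by
    have h1 : H₁ ^ e ≤ X / C₃ := by
      rw [le_div_iff₀ hC₃]; linarith
    rw [hH]
    calc H₁ = (H₁ ^ e) ^ (1 / (e : ℝ)) := by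
          rw [← Real.rpow_natCast, ← Real.rpow_mul (by linarith), one_div,
            mul_inv_cancel₀ (by exact_mod_cast hepos.ne'), Real.rpow_one]
      _ ≤ (X / C₃) ^ (1 / (e : ℝ)) := by
          apply Real.rpow_le_rpow (by positivity) h1 (by positivity)
  have hH1 : 1 ≤ H := hH₁.trans hHH₁
  obtain ⟨𝓛, h𝓛, hcard⟩ := hlow H hHH₁
  refine ⟨𝓛, ?_, ?_⟩
  · intro L hL
    obtain ⟨α, hα, rfl⟩ := h𝓛 L hL
    refine ⟨?_, ?_⟩
    · rw [IntermediateField.adjoin.finrank hα.1.tower_top]; exact hα.2.1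
    · intro hNF
      have h1 := hdisc α H hH1 hα hNF
      rw [hHe] at h1
      have h2 : C₃ * (X / C₃) = X := by field_simp
      rw [h2] at h1
      exact h1
  · refine le_trans (le_of_eq ?_) hcard
    rw [mul_assoc, ← Real.mul_rpow (by positivity) hXpos.le]
    congr 1
    have h1 : 1 / C₃ * X = X / C₃ := by ring
    rw [h1, hH, ← Real.rpow_natCast, ← Real.rpow_mul hq.le]
    congr 1
    have htri := two_mul_tri p
    have htri1 : p + 1 ≤ tri p := by nlinarith
    have h2 : ((tri p - 1 : ℕ) : ℝ) = (tri p : ℝ) - 1 := by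
      rw [Nat.cast_sub (by omega)]; simp
    have h3 : ((p - 1 : ℕ) : ℝ) = (p : ℝ) - 1 := by
      rw [Nat.cast_sub (by omega)]; simp
    have h4 : (2 : ℝ) * (tri p : ℝ) = p * (p + 1) := by exact_mod_cast htri
    have h5 : (tri p : ℝ) = p * (p + 1) / 2 := by linarith
    have hp0 : (0 : ℝ) < p := by exact_mod_cast hp.pos
    have hp1 : (0 : ℝ) < (p : ℝ) - 1 := by
      have : (2 : ℝ) ≤ p := by exact_mod_cast hp2
      linarith
    have hd0 : (0 : ℝ) < d := by exact_mod_cast hdpos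
    rw [he]
    push_cast
    rw [h2, h3, h5]
    field_simp
    ring

end

end Pool.Agent.helper22
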