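import Mathlib
import Pool.Agent.helper22.PrimeLower

set_option autoImplicit false

namespace Pool.Agent.helper22

open NumberField Module IntermediateField Polynomial

/-- finiteness (Hermite) of the set counted in the problem -/
theorem finite_problem_set (K : Type*) [Field K] [NumberField K] (n : ℕ) (X : ℝ) :
    {L : IntermediateField K (AlgebraicClosure K) |
      Module.finrank K L = n ∧
        ∃ h : NumberField L, ((|@NumberField.discr L _ h| : ℤ) : ℝ) ≤ X}.Finite := by
  have hch : CharZero (AlgebraicClosure K) :=
    charZero_of_injective_algebraMap (algebraMap K (AlgebraicClosure K)).injective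
  have hfin := NumberField.finite_of_discr_bdd (AlgebraicClosure K) ⌈X⌉₊
  have himg := hfin.image (fun F : {F : IntermediateField ℚ (AlgebraicClosure K) //
    FiniteDimensional ℚ F} => (F : IntermediateField ℚ (AlgebraicClosure K)))
  have hinj : Function.Injective (IntermediateField.restrictScalars ℚ :
      IntermediateField K (AlgebraicClosure K) → IntermediateField ℚ (AlgebraicClosure K)) :=
    IntermediateField.restrictScalars_injective ℚ
  refine (himg.preimage hinj.injOn).subset ?_
  rintro L ⟨_, h, hL⟩
  have hfd : FiniteDimensional ℚ (IntermediateField.restrictScalars ℚ L) := h.to_finiteDimensional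
  refine ⟨⟨IntermediateField.restrictScalars ℚ L, hfd⟩, ?_, rfl⟩
  simp only [Set.mem_ofPred_eq]
  have h1 : ((|@NumberField.discr L _ h| : ℤ) : ℝ) ≤ ((⌈X⌉₊ : ℤ) : ℝ) := by
    refine hL.trans ?_
    push_cast
    exact Nat.le_ceil X
  have h2 : |@NumberField.discr L _ h| ≤ (⌈X⌉₊ : ℤ) := by exact_mod_cast h1
  exact h2

/-- existence of subextensions of every degree -/
theorem exists_degree (K : Type*) [Field K] [NumberField K] (m : ℕ) (hm : 0 < m) :
    ∃ F : IntermediateField K (AlgebraicClosure K), finrank K F = m := by
  obtain ⟨c, hc, H₀, hH₀, h⟩ := family_lower K (AlgebraicClosure K) m hm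
  obtain ⟨P, hP, hcard⟩ := h H₀ le_rfl
  have hpos : (0 : ℝ) < P.card := by
    refine lt_of_lt_of_le ?_ hcard
    positivity
  have hne : P.Nonempty := by
    rw [← Finset.card_pos]
    exact_mod_cast hpos
  obtain ⟨α, hα⟩ := hne
  refine ⟨K⟮α⟯, ?_⟩
  rw [IntermediateField.adjoin.finrank (hP α hα).1.tower_top]
  exact (hP α hα).2.1

theorem general_lower (K : Type*) [Field K] [NumberField K] (n : ℕ) (hn : 2 ≤ n) :
    ∃ c : ℝ, 0 < c ∧ ∀ᶠ X : ℝ in Filter.atTop,
      c * X ^ (1 / 2 + 1 / (n.minFac : ℝ)) ≤
        ((Set.ncard {L : IntermediateField K (AlgebraicClosure K) |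
          Module.finrank K L = n ∧
            ∃ h : NumberField L, ((|@NumberField.discr L _ h| : ℤ) : ℝ) ≤ X} : ℕ) : ℝ) := by
  classical
  set p := n.minFac with hp
  have hpp : p.Prime := Nat.minFac_prime (by omega)
  obtain ⟨m, hm⟩ : p ∣ n := Nat.minFac_dvd n
  have hmpos : 0 < m := by
    rcases Nat.eq_zero_or_pos m with h | h
    · subst h; omega
    · exact h
  obtain ⟨F, hF⟩ := exists_degree K m hmpos
  have hfd : FiniteDimensional K F := FiniteDimensional.of_finrank_pos (by rw [hF]; exact hmpos)
  have hnf : NumberField F := NumberField.of_module_finite K F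
  have halg : Algebra.IsAlgebraic F (AlgebraicClosure K) :=
    Algebra.IsAlgebraic.tower_top (K := K) F
  obtain ⟨c, hc, X₁, hX₁, h⟩ := prime_lower F (AlgebraicClosure K) hpp
  refine ⟨c, hc, ?_⟩
  filter_upwards [Filter.eventually_ge_atTop X₁] with X hX
  obtain ⟨𝓛, h𝓛, hcard⟩ := h X hX
  refine hcard.trans ?_
  have hinj : Function.Injective (IntermediateField.restrictScalars K :
      IntermediateField F (AlgebraicClosure K) → IntermediateField K (AlgebraicClosure K)) :=
    IntermediateField.restrictScalars_injective K
  have h1 : 𝓛.card = (𝓛.image (IntermediateField.restrictScalars K)).card :=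
    (Finset.card_image_of_injective _ hinj).symm
  rw [h1, ← Set.ncard_coe_finset]
  have h2 : ((𝓛.image (IntermediateField.restrictScalars K) :
      Finset (IntermediateField K (AlgebraicClosure K))) :
        Set (IntermediateField K (AlgebraicClosure K))) ⊆
      {L : IntermediateField K (AlgebraicClosure K) |
          Module.finrank K L = n ∧
            ∃ h : NumberField L, ((|@NumberField.discr L _ h| : ℤ) : ℝ) ≤ X} := by
    intro L' hL'
    rw [Finset.mem_coe, Finset.mem_image] at hL'
    obtain ⟨L, hL, rfl⟩ := hL'
    obtain ⟨hfr, hdisc⟩ := h𝓛 L hL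
    have hfdL : FiniteDimensional F L :=
      FiniteDimensional.of_finrank_pos (by rw [hfr]; exact hpp.pos)
    have hnfL : NumberField L := NumberField.of_module_finite F L
    refine ⟨?_, ?_⟩
    · have h3 : finrank K (IntermediateField.restrictScalars K L) = finrank K L := rfl
      rw [h3, ← Module.finrank_mul_finrank K F L, hF, hfr, hm, mul_comm]
    · exact ⟨hnfL, hdisc hnfL⟩
  exact_mod_cast Set.ncard_le_ncard h2 (finite_problem_set K n X)

end Pool.Agent.helper22
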