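import Mathlib

set_option autoImplicit false

namespace Pool.Agent.helper22

open NumberField Module Filter Topology UniqueFactorizationMonoid

section

variable (F : Type*) [Field F] [NumberField F]

open Classical in
/-- nonzero ideals of norm at most `x` -/
noncomputable def idl (x : ℝ) : Finset (Ideal (𝓞 F)) :=
  ((Ideal.finite_setOfPred_absNorm_le (S := 𝓞 F) ⌊x⌋₊).toFinset).filter (fun I => I ≠ ⊥)

variable {F} in
theorem mem_idl {x : ℝ} {I : Ideal (𝓞 F)} :
    I ∈ idl F x ↔ I ≠ ⊥ ∧ (Ideal.absNorm I : ℝ) ≤ x := by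
  rw [idl, Finset.mem_filter, Set.Finite.mem_toFinset, Set.mem_ofPred_eq, and_comm]
  constructor
  · rintro ⟨h1, h2⟩
    refine ⟨h1, ?_⟩
    have h3 : Ideal.absNorm I ≠ 0 := by rw [Ne, Ideal.absNorm_eq_zero_iff]; exact h1
    exact (Nat.le_floor_iff' h3).1 h2
  · rintro ⟨h1, h2⟩
    refine ⟨h1, ?_⟩
    exact Nat.le_floor h2

/-- number of nonzero ideals of norm at most `x` -/
noncomputable def NI (x : ℝ) : ℕ := (idl F x).card

theorem NI_mono {x y : ℝ} (h : x ≤ y) : NI F x ≤ NI F y := by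
  apply Finset.card_le_card
  intro I hI
  rw [mem_idl] at hI ⊢
  exact ⟨hI.1, hI.2.trans h⟩

theorem NI_eq_zero {x : ℝ} (h : x < 1) : NI F x = 0 := by
  rw [NI, Finset.card_eq_zero, Finset.eq_empty_iff_forall_notMem]
  intro I hI
  rw [mem_idl] at hI
  have h3 : Ideal.absNorm I ≠ 0 := by rw [Ne, Ideal.absNorm_eq_zero_iff]; exact hI.1
  have h4 : (1 : ℝ) ≤ Ideal.absNorm I := by
    exact_mod_cast Nat.one_le_iff_ne_zero.2 h3
  linarith [hI.2]

theorem NI_tendsto : ∃ ρ : ℝ, 0 < ρ ∧ Tendsto (fun x : ℝ => (NI F x : ℝ) / x) atTop (𝓝 ρ) := by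
  refine ⟨_, ?_, (NumberField.Ideal.tendsto_norm_le_div_atTop₀ F).congr ?_⟩
  · have h1 := Units.regulator_pos F
    have h2 : 0 < classNumber F := classNumber_pos F
    have h3 : 0 < Units.torsionOrder F := Units.torsionOrder_pos F
    have h4 : (0 : ℝ) < |(discr F : ℝ)| := by
      rw [abs_pos]
      exact_mod_cast discr_ne_zero F
    have := Real.pi_pos
    positivity
  · intro x
    congr 1
    have h : Nat.card {I : nonZeroDivisors (Ideal (𝓞 F)) // (Ideal.absNorm (I : Ideal (𝓞 F)) : ℝ) ≤ x} =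
        (idl F x).card := by
      rw [← Fintype.card_coe, ← Nat.card_eq_fintype_card]
      apply Nat.card_congr
      refine ⟨fun I => ⟨I.1.1, ?_⟩, fun I => ⟨⟨I.1, ?_⟩, ?_⟩, ?_, ?_⟩
      · rw [mem_idl]
        exact ⟨nonZeroDivisors.ne_zero I.1.2, I.2⟩
      · exact mem_nonZeroDivisors_of_ne_zero (mem_idl.1 I.2).1
      · exact (mem_idl.1 I.2).2
      · intro I; rfl
      · intro I; rfl
    rw [h]
    rfl

theorem NI_le : ∃ C : ℝ, 0 < C ∧ ∀ x : ℝ, 0 ≤ x → (NI F x : ℝ) ≤ C * x := by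
  obtain ⟨ρ, hρ, hlim⟩ := NI_tendsto F
  have h1 : ∀ᶠ x : ℝ in atTop, (NI F x : ℝ) / x < ρ + 1 := hlim.eventually_lt_const (by linarith)
  obtain ⟨x₀, hx₀⟩ := eventually_atTop.1 h1
  set x₁ := max x₀ 1 with hx₁
  refine ⟨(ρ + 1) * x₁, by positivity, ?_⟩
  intro x hx
  rcases lt_or_ge x 1 with h | h
  · rw [NI_eq_zero F h]
    simp only [Nat.cast_zero]
    have : 0 ≤ (ρ + 1) * x₁ := by positivity
    positivity
  have hx₁1 : 1 ≤ x₁ := le_max_right _ _
  have key : ∀ y, x₁ ≤ y → (NI F y : ℝ) ≤ (ρ + 1) * y := by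
    intro y hy
    have h2 := hx₀ y ((le_max_left _ _).trans hy)
    rw [div_lt_iff₀ (by linarith)] at h2
    exact h2.le
  rcases le_total x₁ x with h2 | h2
  · refine (key x h2).trans ?_
    have : (ρ + 1) * x ≤ (ρ + 1) * x₁ * x := by
      have h3 : 0 ≤ (ρ + 1) * x := by positivity
      nlinarith
    exact this
  · have h3 : (NI F x : ℝ) ≤ NI F x₁ := by exact_mod_cast NI_mono F h2
    refine h3.trans ((key x₁ le_rfl).trans ?_)
    have : 0 ≤ (ρ + 1) * x₁ := by positivity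
    nlinarith

variable {F} in
/-- number of multiples of an ideal -/
theorem card_dvd (x : ℝ) (J : Ideal (𝓞 F)) (hJ : J ≠ ⊥) [DecidablePred fun I => J ∣ I] :
    ((idl F x).filter (fun I => J ∣ I)).card = NI F (x / Ideal.absNorm J) := by
  classical
  have hJ0 : (0 : ℝ) < Ideal.absNorm J := by
    have : Ideal.absNorm J ≠ 0 := by rw [Ne, Ideal.absNorm_eq_zero_iff]; exact hJ
    exact_mod_cast Nat.pos_of_ne_zero this
  have h : (idl F x).filter (fun I => J ∣ I) = (idl F (x / Ideal.absNorm J)).image (fun I => J * I) := by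
    ext I
    rw [Finset.mem_filter, Finset.mem_image, mem_idl]
    constructor
    · rintro ⟨⟨h1, h2⟩, I', rfl⟩
      refine ⟨I', ?_, rfl⟩
      rw [mem_idl]
      refine ⟨?_, ?_⟩
      · rintro rfl
        exact h1 (by rw [Ideal.mul_bot])
      · rw [le_div_iff₀ hJ0]
        rw [map_mul] at h2
        push_cast at h2
        linarith
    · rintro ⟨I', hI', rfl⟩
      rw [mem_idl, le_div_iff₀ hJ0] at hI'
      refine ⟨⟨mul_ne_zero hJ hI'.1, ?_⟩, Dvd.intro _ rfl⟩
      rw [map_mul]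
      push_cast
      linarith [hI'.2]
  rw [h, Finset.card_image_of_injective, NI]
  intro I I' hII
  exact mul_left_cancel₀ (a := J) hJ hII

open Classical in
/-- nonzero prime ideals of norm at most `x` -/
noncomputable def Pr (x : ℝ) : Finset (Ideal (𝓞 F)) := (idl F x).filter (fun P => P.IsPrime)

variable {F} in
theorem mem_Pr {x : ℝ} {P : Ideal (𝓞 F)} :
    P ∈ Pr F x ↔ P.IsPrime ∧ P ≠ ⊥ ∧ (Ideal.absNorm P : ℝ) ≤ x := by
  simp only [Pr, Finset.mem_filter, mem_idl]
  tauto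

variable {F} in
theorem absNorm_pos {I : Ideal (𝓞 F)} (h : I ≠ ⊥) : (1 : ℝ) ≤ Ideal.absNorm I := by
  have h3 : Ideal.absNorm I ≠ 0 := by rw [Ne, Ideal.absNorm_eq_zero_iff]; exact h
  exact_mod_cast Nat.one_le_iff_ne_zero.2 h3

variable {F} in
theorem two_le_absNorm {P : Ideal (𝓞 F)} (hP : P.IsPrime) (h : P ≠ ⊥) :
    (2 : ℝ) ≤ Ideal.absNorm P := by
  have h3 : Ideal.absNorm P ≠ 0 := by rw [Ne, Ideal.absNorm_eq_zero_iff]; exact h
  have h4 : Ideal.absNorm P ≠ 1 := by rw [Ne, Ideal.absNorm_eq_one_iff]; exact hP.ne_top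
  have : 2 ≤ Ideal.absNorm P := by omega
  exact_mod_cast this

/-- sum of logarithms of norms -/
noncomputable def SL (x : ℝ) : ℝ := ∑ I ∈ idl F x, Real.log (Ideal.absNorm I)

theorem SL_le (x : ℝ) : SL F x ≤ NI F x * Real.log x := by
  rw [SL, NI, ← nsmul_eq_mul]
  apply Finset.sum_le_card_nsmul
  intro I hI
  rw [mem_idl] at hI
  apply Real.log_le_log _ hI.2
  linarith [absNorm_pos hI.1]

theorem SL_ge (x y : ℝ) (hxy : y ≤ x) (hy : 1 ≤ y) :
    ((NI F x : ℝ) - NI F y) * Real.log y ≤ SL F x := by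
  classical
  have hsub : idl F y ⊆ idl F x := by
    intro I hI
    rw [mem_idl] at hI ⊢
    exact ⟨hI.1, hI.2.trans hxy⟩
  have h1 : ∑ I ∈ idl F x \ idl F y, Real.log (Ideal.absNorm I) ≤ SL F x := by
    rw [SL]
    apply Finset.sum_le_sum_of_subset_of_nonneg Finset.sdiff_subset
    intro I hI _
    exact Real.log_nonneg (absNorm_pos (mem_idl.1 hI).1)
  refine le_trans ?_ h1
  have h2 : ((idl F x \ idl F y).card : ℝ) = (NI F x : ℝ) - NI F y := by
    rw [Finset.card_sdiff_of_subset hsub, Nat.cast_sub (Finset.card_le_card hsub)]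
    rfl
  rw [← h2, ← nsmul_eq_mul]
  apply Finset.card_nsmul_le_sum
  intro I hI
  rw [Finset.mem_sdiff, mem_idl, mem_idl] at hI
  apply Real.log_le_log (by linarith)
  by_contra h
  push Not at h
  exact hI.2 ⟨hI.1.1, h.le⟩

/-- lower Chebyshev-type inequality -/
theorem cheb_lower (x Z : ℝ) :
    ∑ P ∈ Pr F x, Real.log (Ideal.absNorm P) * NI F (Z / Ideal.absNorm P) ≤ SL F Z := by
  classical
  have h1 : ∀ I ∈ idl F Z, ∑ P ∈ Pr F x, (if P ∣ I then Real.log (Ideal.absNorm P) else 0) ≤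
      Real.log (Ideal.absNorm I) := by
    intro I hI
    have hI0 := (mem_idl.1 hI).1
    rw [← Finset.sum_filter]
    have hdvd : ∏ P ∈ (Pr F x).filter (fun P => P ∣ I), P ∣ I := by
      apply Finset.prod_primes_dvd
      · intro P hP
        have := mem_Pr.1 (Finset.mem_filter.1 hP).1
        exact Ideal.prime_of_isPrime this.2.1 this.1
      · intro P hP
        exact (Finset.mem_filter.1 hP).2
    have h2 := map_dvd Ideal.absNorm hdvd
    rw [map_prod] at h2
    have h3 : 0 < Ideal.absNorm I := by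
      apply Nat.pos_of_ne_zero
      rw [Ne, Ideal.absNorm_eq_zero_iff]
      exact hI0
    have h4 := Nat.le_of_dvd h3 h2
    rw [← Real.log_prod]
    · apply Real.log_le_log
      · apply Finset.prod_pos
        intro P hP
        have := mem_Pr.1 (Finset.mem_filter.1 hP).1
        linarith [absNorm_pos this.2.1]
      · exact_mod_cast h4
    · intro P hP
      have := mem_Pr.1 (Finset.mem_filter.1 hP).1
      have := absNorm_pos this.2.1
      linarith
  calc ∑ P ∈ Pr F x, Real.log (Ideal.absNorm P) * NI F (Z / Ideal.absNorm P)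
      = ∑ P ∈ Pr F x, ∑ I ∈ idl F Z, (if P ∣ I then Real.log (Ideal.absNorm P) else 0) := by
        apply Finset.sum_congr rfl
        intro P hP
        rw [← card_dvd Z P (mem_Pr.1 hP).2.1, ← Finset.sum_filter, Finset.sum_const, nsmul_eq_mul,
          mul_comm]
    _ = ∑ I ∈ idl F Z, ∑ P ∈ Pr F x, (if P ∣ I then Real.log (Ideal.absNorm P) else 0) :=
        Finset.sum_comm
    _ ≤ ∑ I ∈ idl F Z, Real.log (Ideal.absNorm I) := Finset.sum_le_sum h1
    _ = SL F Z := rfl

/-- upper Chebyshev-type inequality -/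
theorem cheb_upper (Y : ℝ) :
    SL F Y ≤ ∑ P ∈ Pr F Y, ∑ k ∈ Finset.Icc 1 ⌊Y⌋₊,
      Real.log (Ideal.absNorm P) * NI F (Y / (Ideal.absNorm P : ℝ) ^ k) := by
  classical
  have h1 : ∀ I ∈ idl F Y, Real.log (Ideal.absNorm I) ≤ ∑ P ∈ Pr F Y, ∑ k ∈ Finset.Icc 1 ⌊Y⌋₊,
      (if P ^ k ∣ I then Real.log (Ideal.absNorm P) else 0) := by
    intro I hI
    obtain ⟨hI0, hIY⟩ := mem_idl.1 hI
    have hprod : ∏ P ∈ (normalizedFactors I).toFinset, P ^ (normalizedFactors I).count P = I := by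
      rw [← Finset.prod_multiset_count]
      exact Ideal.prod_normalizedFactors_eq_self hI0
    have hmem : ∀ P ∈ (normalizedFactors I).toFinset, P.IsPrime ∧ P ≠ ⊥ ∧ P ∣ I := by
      intro P hP
      rw [Multiset.mem_toFinset] at hP
      have h2 := prime_of_normalized_factor P hP
      exact ⟨Ideal.isPrime_of_prime h2, h2.ne_zero, dvd_of_mem_normalizedFactors hP⟩
    have hle : ∀ J : Ideal (𝓞 F), J ∣ I → (Ideal.absNorm J : ℝ) ≤ Ideal.absNorm I := by
      intro J hJ
      have h3 : 0 < Ideal.absNorm I := by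
        apply Nat.pos_of_ne_zero
        rw [Ne, Ideal.absNorm_eq_zero_iff]
        exact hI0
      exact_mod_cast Nat.le_of_dvd h3 (map_dvd Ideal.absNorm hJ)
    have hcount : ∀ P ∈ (normalizedFactors I).toFinset, ∀ k,
        P ^ k ∣ I ↔ k ≤ (normalizedFactors I).count P := by
      intro P hP k
      have h2 := prime_of_normalized_factor P (Multiset.mem_toFinset.1 hP)
      rw [pow_dvd_iff_le_emultiplicity,
        emultiplicity_eq_count_normalizedFactors h2.irreducible hI0, normalize_eq]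
      exact Nat.cast_le
    have hlog : Real.log (Ideal.absNorm I) = ∑ P ∈ (normalizedFactors I).toFinset,
        ((normalizedFactors I).count P : ℝ) * Real.log (Ideal.absNorm P) := by
      conv_lhs => rw [← hprod]
      rw [map_prod]
      push_cast
      rw [Real.log_prod]
      · apply Finset.sum_congr rfl
        intro P _
        rw [map_pow]
        push_cast
        rw [Real.log_pow]
      · intro P hP
        have := absNorm_pos (hmem P hP).2.1
        rw [map_pow]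
        push_cast
        positivity
    rw [hlog]
    have hsub : (normalizedFactors I).toFinset ⊆ Pr F Y := by
      intro P hP
      rw [mem_Pr]
      exact ⟨(hmem P hP).1, (hmem P hP).2.1, (hle P (hmem P hP).2.2).trans hIY⟩
    refine le_trans (Finset.sum_le_sum ?_) (Finset.sum_le_sum_of_subset_of_nonneg hsub ?_)
    · intro P hP
      rw [← Finset.sum_filter, Finset.sum_const, nsmul_eq_mul]
      apply mul_le_mul_of_nonneg_right _ (Real.log_nonneg (absNorm_pos (hmem P hP).2.1))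
      have h2 : (Finset.Icc 1 ((normalizedFactors I).count P)) ⊆
          (Finset.Icc 1 ⌊Y⌋₊).filter (fun k => P ^ k ∣ I) := by
        intro k hk
        rw [Finset.mem_Icc] at hk
        rw [Finset.mem_filter, Finset.mem_Icc]
        have h3 : P ^ k ∣ I := (hcount P hP k).2 hk.2
        refine ⟨⟨hk.1, ?_⟩, h3⟩
        apply Nat.le_floor
        have h4 := (hle _ h3).trans hIY
        rw [map_pow] at h4
        push_cast at h4
        have h5 := two_le_absNorm (hmem P hP).1 (hmem P hP).2.1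
        calc (k : ℝ) ≤ 2 ^ k := by exact_mod_cast Nat.lt_two_pow_self.le
          _ ≤ (Ideal.absNorm P : ℝ) ^ k := pow_le_pow_left₀ (by norm_num) h5 k
          _ ≤ Y := h4
      have h3 := Finset.card_le_card h2
      rw [Nat.card_Icc, Nat.add_sub_cancel] at h3
      exact_mod_cast h3
    · intro P hP _
      apply Finset.sum_nonneg
      intro k _
      split_ifs
      · exact Real.log_nonneg (absNorm_pos (mem_Pr.1 hP).2.1)
      · exact le_rfl
  calc SL F Y ≤ ∑ I ∈ idl F Y, ∑ P ∈ Pr F Y, ∑ k ∈ Finset.Icc 1 ⌊Y⌋₊,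
      (if P ^ k ∣ I then Real.log (Ideal.absNorm P) else 0) := Finset.sum_le_sum h1
    _ = ∑ P ∈ Pr F Y, ∑ I ∈ idl F Y, ∑ k ∈ Finset.Icc 1 ⌊Y⌋₊,
      (if P ^ k ∣ I then Real.log (Ideal.absNorm P) else 0) := Finset.sum_comm
    _ = ∑ P ∈ Pr F Y, ∑ k ∈ Finset.Icc 1 ⌊Y⌋₊, ∑ I ∈ idl F Y,
      (if P ^ k ∣ I then Real.log (Ideal.absNorm P) else 0) := by
        apply Finset.sum_congr rfl
        intro P _
        exact Finset.sum_comm
    _ = _ := by
        apply Finset.sum_congr rfl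
        intro P hP
        apply Finset.sum_congr rfl
        intro k _
        have h2 := card_dvd Y (P ^ k) (pow_ne_zero k (mem_Pr.1 hP).2.1)
        rw [map_pow] at h2
        push_cast at h2
        rw [← h2, ← Finset.sum_filter, Finset.sum_const, nsmul_eq_mul, mul_comm]

/-- the Mertens sum -/
noncomputable def MM (x : ℝ) : ℝ :=
  ∑ P ∈ Pr F x, Real.log (Ideal.absNorm P) / (Ideal.absNorm P : ℝ)

theorem MM_nonneg (x : ℝ) : 0 ≤ MM F x := by
  apply Finset.sum_nonneg
  intro P hP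
  have := absNorm_pos (mem_Pr.1 hP).2.1
  exact div_nonneg (Real.log_nonneg this) (by linarith)

theorem Pr_mono {x y : ℝ} (h : x ≤ y) : Pr F x ⊆ Pr F y := by
  intro P hP
  rw [mem_Pr] at hP ⊢
  exact ⟨hP.1, hP.2.1, hP.2.2.trans h⟩

/-- upper bound for the Mertens sum -/
theorem MM_upper {ρ η A : ℝ} (hρ : 0 < ρ) (hA : 1 ≤ A)
    (hNI : ∀ y, A ≤ y → (1 - η) * ρ * y ≤ NI F y ∧ (NI F y : ℝ) ≤ (1 + η) * ρ * y) (x : ℝ)
    (hx : 1 ≤ x) : (1 - η) * MM F x ≤ (1 + η) * (Real.log x + Real.log A) := by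
  have hZ : 1 ≤ x * A := by nlinarith
  have h1 := cheb_lower F x (x * A)
  have h2 := SL_le F (x * A)
  have h3 := (hNI (x * A) (by nlinarith)).2
  have hlog : 0 ≤ Real.log (x * A) := Real.log_nonneg hZ
  have h4 : (1 - η) * ρ * (x * A) * MM F x ≤
      ∑ P ∈ Pr F x, Real.log (Ideal.absNorm P) * NI F (x * A / Ideal.absNorm P) := by
    rw [MM, Finset.mul_sum]
    apply Finset.sum_le_sum
    intro P hP
    obtain ⟨hP1, hP2, hP3⟩ := mem_Pr.1 hP
    have hN := absNorm_pos hP2
    have hlogP := Real.log_nonneg hN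
    have h5 : A ≤ x * A / Ideal.absNorm P := by
      rw [le_div_iff₀ (by linarith)]
      nlinarith
    have h6 := (hNI _ h5).1
    calc (1 - η) * ρ * (x * A) * (Real.log (Ideal.absNorm P) / (Ideal.absNorm P : ℝ))
        = Real.log (Ideal.absNorm P) * ((1 - η) * ρ * (x * A / Ideal.absNorm P)) := by ring
      _ ≤ _ := mul_le_mul_of_nonneg_left h6 hlogP
  have h5 : (ρ * (x * A)) * ((1 - η) * MM F x) ≤
      (ρ * (x * A)) * ((1 + η) * (Real.log x + Real.log A)) := by
    rw [← Real.log_mul (by linarith) (by linarith)]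
    calc (ρ * (x * A)) * ((1 - η) * MM F x) = (1 - η) * ρ * (x * A) * MM F x := by ring
      _ ≤ NI F (x * A) * Real.log (x * A) := h4.trans (h1.trans h2)
      _ ≤ ((1 + η) * ρ * (x * A)) * Real.log (x * A) := mul_le_mul_of_nonneg_right h3 hlog
      _ = _ := by ring
  exact le_of_mul_le_mul_left h5 (by positivity)

/-- sum of a geometric tail -/
theorem geom_tail {q : ℝ} (hq : 2 ≤ q) (K : ℕ) :
    ∑ k ∈ Finset.Icc 2 K, 1 / q ^ k ≤ 2 / q ^ 2 := by
  have hq0 : 0 < q := by linarith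
  have key : ∀ K : ℕ, ∑ k ∈ Finset.Icc 2 (K + 1), 1 / q ^ k ≤ 2 / q ^ 2 - 1 / q ^ (K + 1) ∨ K = 0 := by
    intro K
    induction K with
    | zero => exact Or.inr rfl
    | succ K ih =>
      left
      rw [Finset.sum_Icc_succ_top (by omega)]
      rcases ih with ih | ih
      · have h1 : 2 / q ^ (K + 1 + 1) ≤ 1 / q ^ (K + 1) := by
          rw [div_le_div_iff₀ (by positivity) (by positivity), pow_succ q (K + 1)]
          have : 0 < q ^ (K + 1) := by positivity
          nlinarith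
        have h2 : 2 / q ^ (K + 1 + 1) = 1 / q ^ (K + 1 + 1) + 1 / q ^ (K + 1 + 1) := by ring
        linarith
      · subst ih
        simp only [zero_add]
        rw [Finset.Icc_eq_empty (by norm_num)]
        simp only [Finset.sum_empty, zero_add]
        have : 2 / q ^ (1 + 1) = 1 / q ^ (1 + 1) + 1 / q ^ (1 + 1) := by ring
        norm_num at this ⊢
        linarith
  rcases K with _ | K
  · rw [Finset.Icc_eq_empty (by norm_num)]
    simp only [Finset.sum_empty]
    positivity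
  · rcases key K with h | h
    · refine h.trans ?_
      have : 0 < 1 / q ^ (K + 1) := by positivity
      linarith
    · subst h
      rw [Finset.Icc_eq_empty (by norm_num)]
      simp only [Finset.sum_empty]
      positivity

/-- upper bound for the logarithm sum in terms of primes -/
theorem SL_upper {C : ℝ} (hC : 0 < C) (hCN : ∀ x : ℝ, 0 ≤ x → (NI F x : ℝ) ≤ C * x) {Y : ℝ}
    (hY : 1 ≤ Y) :
    SL F Y ≤ ∑ P ∈ Pr F Y, Real.log (Ideal.absNorm P) * NI F (Y / Ideal.absNorm P) +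
      2 * C * Y * ∑ P ∈ Pr F Y, Real.log (Ideal.absNorm P) / (Ideal.absNorm P : ℝ) ^ 2 := by
  refine (cheb_upper F Y).trans ?_
  rw [Finset.mul_sum, ← Finset.sum_add_distrib]
  apply Finset.sum_le_sum
  intro P hP
  obtain ⟨hP1, hP2, hP3⟩ := mem_Pr.1 hP
  have hN := absNorm_pos hP2
  have hN2 := two_le_absNorm hP1 hP2
  have hlogP := Real.log_nonneg hN
  have hfl : 1 ≤ ⌊Y⌋₊ := Nat.le_floor (by exact_mod_cast hY)
  rw [← Finset.add_sum_Ioc_eq_sum_Icc hfl]
  rw [pow_one]
  have h1 : Finset.Ioc 1 ⌊Y⌋₊ = Finset.Icc 2 ⌊Y⌋₊ := by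
    ext k
    rw [Finset.mem_Ioc, Finset.mem_Icc]
    omega
  rw [h1]
  have h2 : ∑ k ∈ Finset.Icc 2 ⌊Y⌋₊, Real.log (Ideal.absNorm P) *
      (NI F (Y / (Ideal.absNorm P : ℝ) ^ k) : ℝ) ≤
      2 * C * Y * (Real.log (Ideal.absNorm P) / (Ideal.absNorm P : ℝ) ^ 2) := by
    calc ∑ k ∈ Finset.Icc 2 ⌊Y⌋₊, Real.log (Ideal.absNorm P) *
        (NI F (Y / (Ideal.absNorm P : ℝ) ^ k) : ℝ)
        ≤ ∑ k ∈ Finset.Icc 2 ⌊Y⌋₊, (Real.log (Ideal.absNorm P) * C * Y) *
          (1 / (Ideal.absNorm P : ℝ) ^ k) := by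
          apply Finset.sum_le_sum
          intro k _
          have h3 := hCN (Y / (Ideal.absNorm P : ℝ) ^ k) (by positivity)
          calc Real.log (Ideal.absNorm P) * (NI F (Y / (Ideal.absNorm P : ℝ) ^ k) : ℝ)
              ≤ Real.log (Ideal.absNorm P) * (C * (Y / (Ideal.absNorm P : ℝ) ^ k)) :=
                mul_le_mul_of_nonneg_left h3 hlogP
            _ = _ := by ring
      _ = (Real.log (Ideal.absNorm P) * C * Y) * ∑ k ∈ Finset.Icc 2 ⌊Y⌋₊,
          (1 / (Ideal.absNorm P : ℝ) ^ k) := by rw [Finset.mul_sum]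
      _ ≤ (Real.log (Ideal.absNorm P) * C * Y) * (2 / (Ideal.absNorm P : ℝ) ^ 2) := by
          apply mul_le_mul_of_nonneg_left (geom_tail hN2 _)
          positivity
      _ = _ := by ring
  linarith

open Classical in
/-- many prime ideals in a window -/
theorem many_primes {ε : ℝ} (hε : 0 < ε) (hε1 : ε < 1) : ∃ c : ℝ, 0 < c ∧ ∃ Y₀ : ℝ, 1 ≤ Y₀ ∧
    ∀ Y : ℝ, Y₀ ≤ Y → c * Y ^ (1 - ε) ≤ ((Pr F Y \ Pr F (Y ^ (1 - ε))).card : ℝ) := by
  obtain ⟨ρ, hρ, hlim⟩ := NI_tendsto F
  obtain ⟨C, hC, hCN⟩ := NI_le F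
  set η : ℝ := ε / 16 with hη
  have hη0 : 0 < η := by positivity
  have hη1 : η < 1 / 16 := by rw [hη]; linarith
  -- threshold A
  have h1 : ∀ᶠ x : ℝ in atTop, (NI F x : ℝ) / x < (1 + η) * ρ :=
    hlim.eventually_lt_const (by nlinarith)
  have h2 : ∀ᶠ x : ℝ in atTop, (1 - η) * ρ < (NI F x : ℝ) / x :=
    hlim.eventually_const_lt (by nlinarith)
  obtain ⟨A₀, hA₀⟩ := eventually_atTop.1 (h1.and h2)
  set A := max A₀ 1 with hA
  have hA1 : 1 ≤ A := le_max_right _ _
  have hNI : ∀ y, A ≤ y → (1 - η) * ρ * y ≤ NI F y ∧ (NI F y : ℝ) ≤ (1 + η) * ρ * y := by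
    intro y hy
    have h3 := hA₀ y ((le_max_left _ _).trans hy)
    have hy0 : 0 < y := by linarith
    rw [div_lt_iff₀ hy0, lt_div_iff₀ hy0] at h3
    exact ⟨h3.2.le, h3.1.le⟩
  -- the cut N₀
  set N₀ : ℝ := max 1 (16 * C / (ρ * ε)) with hN₀
  have hN₀1 : 1 ≤ N₀ := le_max_left _ _
  have hN₀2 : 16 * C / (ρ * ε) ≤ N₀ := le_max_right _ _
  have hN₀C : 4 * C / N₀ ≤ ρ * ε / 4 := by
    rw [div_le_iff₀ (by linarith)]
    rw [div_le_iff₀ (by positivity)] at hN₀2
    linarith
  set R₀ : ℝ := ∑ P ∈ Pr F N₀, Real.log (Ideal.absNorm P) with hR₀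
  have hR₀0 : 0 ≤ R₀ := Finset.sum_nonneg fun P hP =>
    Real.log_nonneg (absNorm_pos (mem_Pr.1 hP).2.1)
  set LA := Real.log A with hLA
  have hLA0 : 0 ≤ LA := Real.log_nonneg hA1
  set LE := -Real.log η with hLE
  have hLE0 : 0 ≤ LE := by
    rw [hLE, neg_nonneg]
    exact Real.log_nonpos hη0.le (by linarith)
  set KK : ℝ := ρ * LE + 2 * ρ * LA + 2 * C * R₀ + 4 * C * LA with hKK
  have hKK0 : 0 ≤ KK := by positivity
  -- threshold for Y
  obtain ⟨Y₁, hY₁⟩ := eventually_atTop.1 (Real.tendsto_log_atTop.eventually_ge_atTop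
    (8 * KK / (ρ * ε) + 1))
  obtain ⟨Y₂, hY₂⟩ := eventually_atTop.1 ((tendsto_rpow_atTop hε).eventually_ge_atTop A)
  refine ⟨ρ * ε / (8 * C), by positivity, max (max (A / η) 1) (max Y₁ Y₂), ?_, ?_⟩
  · exact (le_max_right _ _).trans (le_max_left _ _)
  intro Y hY
  have hYA : A / η ≤ Y := ((le_max_left _ _).trans (le_max_left _ _)).trans hY
  have hY1 : 1 ≤ Y := ((le_max_right _ _).trans (le_max_left _ _)).trans hY
  have hYY₁ := hY₁ Y (((le_max_left _ _).trans (le_max_right _ _)).trans hY)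
  have hYY₂ := hY₂ Y (((le_max_right _ _).trans (le_max_right _ _)).trans hY)
  have hY0 : 0 < Y := by linarith
  set Lg := Real.log Y with hLg
  have hLg1 : 1 ≤ Lg := by
    have : 0 ≤ 8 * KK / (ρ * ε) := by positivity
    linarith
  have hLgK : 8 * KK ≤ ρ * ε * Lg := by
    have h3 : 8 * KK / (ρ * ε) ≤ Lg := by linarith
    rw [div_le_iff₀ (by positivity)] at h3
    linarith
  set X := Y ^ (1 - ε) with hX
  have hX1 : 1 ≤ X := Real.one_le_rpow hY1 (by linarith)
  have hXY : X ≤ Y := by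
    rw [hX]
    calc Y ^ (1 - ε) ≤ Y ^ (1 : ℝ) := Real.rpow_le_rpow_of_exponent_le hY1 (by linarith)
      _ = Y := Real.rpow_one Y
  have hlogX : Real.log X = (1 - ε) * Lg := by rw [hX, Real.log_rpow hY0]
  -- lower bound for SL
  have hηY : A ≤ η * Y := by
    rw [div_le_iff₀ hη0] at hYA
    linarith
  have hSlow : (1 - 3 * η) * ρ * Y * (Lg - LE) ≤ SL F Y := by
    have h3 := SL_ge F Y (η * Y) (by nlinarith) (hA1.trans hηY)
    have h4 := (hNI Y (by nlinarith)).1
    have h5 := (hNI (η * Y) hηY).2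
    have h6 : Real.log (η * Y) = Lg - LE := by
      rw [Real.log_mul hη0.ne' hY0.ne', hLE, hLg]; ring
    rw [h6] at h3
    have h7 : 0 ≤ Lg - LE := by
      rw [← h6]
      exact Real.log_nonneg (hA1.trans hηY)
    refine le_trans ?_ h3
    apply mul_le_mul_of_nonneg_right _ h7
    have h8 : (1 - 3 * η) * ρ * Y ≤ (1 - η) * ρ * Y - (1 + η) * ρ * (η * Y) := by
      have : 0 ≤ ρ * Y := by positivity
      have h9 : 0 ≤ η * (1 - η) := by nlinarith
      nlinarith
    linarith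
  -- upper bound for SL
  have hSup := SL_upper F hC hCN hY1
  have hsplit : Pr F Y = Pr F X ∪ (Pr F Y \ Pr F X) :=
    (Finset.union_sdiff_of_subset (Pr_mono F hXY)).symm
  set M₂ : ℝ := ∑ P ∈ Pr F Y \ Pr F X, Real.log (Ideal.absNorm P) / (Ideal.absNorm P : ℝ) with hM₂
  have hterm1 : ∑ P ∈ Pr F Y, Real.log (Ideal.absNorm P) * NI F (Y / Ideal.absNorm P) ≤
      (1 + η) * ρ * Y * MM F X + C * Y * M₂ := by
    rw [hsplit, Finset.sum_union Finset.disjoint_sdiff]
    apply add_le_add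
    · rw [MM, Finset.mul_sum]
      apply Finset.sum_le_sum
      intro P hP
      obtain ⟨hP1, hP2, hP3⟩ := mem_Pr.1 hP
      have hN := absNorm_pos hP2
      have hN0 : (0 : ℝ) < Ideal.absNorm P := by linarith
      have h5 : A ≤ Y / Ideal.absNorm P := by
        rw [le_div_iff₀ hN0]
        calc A * (Ideal.absNorm P : ℝ) ≤ Y ^ ε * X := by
              apply mul_le_mul hYY₂ hP3 hN0.le (by positivity)
          _ = Y := by
              rw [hX, ← Real.rpow_add hY0]
              have : ε + (1 - ε) = 1 := by ring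
              rw [this, Real.rpow_one]
      have h6 := (hNI _ h5).2
      calc Real.log (Ideal.absNorm P) * (NI F (Y / Ideal.absNorm P) : ℝ)
          ≤ Real.log (Ideal.absNorm P) * ((1 + η) * ρ * (Y / Ideal.absNorm P)) :=
            mul_le_mul_of_nonneg_left h6 (Real.log_nonneg hN)
        _ = _ := by ring
    · rw [hM₂, Finset.mul_sum]
      apply Finset.sum_le_sum
      intro P hP
      obtain ⟨hP1, hP2, hP3⟩ := mem_Pr.1 (Finset.mem_sdiff.1 hP).1
      have hN := absNorm_pos hP2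
      have h6 := hCN (Y / Ideal.absNorm P) (by positivity)
      calc Real.log (Ideal.absNorm P) * (NI F (Y / Ideal.absNorm P) : ℝ)
          ≤ Real.log (Ideal.absNorm P) * (C * (Y / Ideal.absNorm P)) :=
            mul_le_mul_of_nonneg_left h6 (Real.log_nonneg hN)
        _ = _ := by ring
  have hterm2 : ∑ P ∈ Pr F Y, Real.log (Ideal.absNorm P) / (Ideal.absNorm P : ℝ) ^ 2 ≤
      R₀ + 1 / N₀ * MM F Y := by
    have h3 : ∀ P ∈ Pr F Y, Real.log (Ideal.absNorm P) / (Ideal.absNorm P : ℝ) ^ 2 ≤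
        (if P ∈ Pr F N₀ then Real.log (Ideal.absNorm P) else 0) +
          1 / N₀ * (Real.log (Ideal.absNorm P) / (Ideal.absNorm P : ℝ)) := by
      intro P hP
      obtain ⟨hP1, hP2, hP3⟩ := mem_Pr.1 hP
      have hN := absNorm_pos hP2
      have hN0 : (0 : ℝ) < Ideal.absNorm P := by linarith
      have hlogP := Real.log_nonneg hN
      split_ifs with h
      · have h4 : Real.log (Ideal.absNorm P) / (Ideal.absNorm P : ℝ) ^ 2 ≤
            Real.log (Ideal.absNorm P) := div_le_self hlogP (one_le_pow₀ hN)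
        have h5 : 0 ≤ 1 / N₀ * (Real.log (Ideal.absNorm P) / (Ideal.absNorm P : ℝ)) := by
          positivity
        linarith
      · have h4 : N₀ < Ideal.absNorm P := by
          by_contra hle
          push Not at hle
          exact h (mem_Pr.2 ⟨hP1, hP2, hle⟩)
        rw [zero_add]
        have h5 : Real.log (Ideal.absNorm P) / (Ideal.absNorm P : ℝ) ^ 2 =
            1 / (Ideal.absNorm P : ℝ) * (Real.log (Ideal.absNorm P) / (Ideal.absNorm P : ℝ)) := by
          field_simp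
        rw [h5]
        apply mul_le_mul_of_nonneg_right _ (by positivity)
        exact one_div_le_one_div_of_le (by linarith) h4.le
    refine (Finset.sum_le_sum h3).trans ?_
    rw [Finset.sum_add_distrib, ← Finset.mul_sum]
    apply add_le_add
    · rw [← Finset.sum_filter]
      apply Finset.sum_le_sum_of_subset_of_nonneg
      · intro P hP
        exact (Finset.mem_filter.1 hP).2
      · intro P hP _
        exact Real.log_nonneg (absNorm_pos (mem_Pr.1 hP).2.1)
    · exact le_rfl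
  have hMX := MM_upper F hρ hA1 hNI X hX1
  have hMY := MM_upper F hρ hA1 hNI Y hY1
  rw [hlogX] at hMX
  have hMY' : MM F Y ≤ 2 * (Lg + LA) := by
    have h3 : (1 - η) * MM F Y ≤ (1 - η) * (2 * (Lg + LA)) := by
      refine hMY.trans ?_
      have : 0 ≤ Lg + LA := by linarith
      nlinarith
    exact le_of_mul_le_mul_left h3 (by linarith)
  have hMX' : (1 + η) * MM F X ≤ (1 + 4 * η) * ((1 - ε) * Lg + LA) := by
    have h4 : 0 ≤ (1 - ε) * Lg + LA := by
      have : 0 ≤ (1 - ε) * Lg := by apply mul_nonneg <;> linarith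
      linarith
    have h3 : (1 - η) * ((1 + η) * MM F X) ≤ (1 - η) * ((1 + 4 * η) * ((1 - ε) * Lg + LA)) := by
      calc (1 - η) * ((1 + η) * MM F X) = (1 + η) * ((1 - η) * MM F X) := by ring
        _ ≤ (1 + η) * ((1 + η) * ((1 - ε) * Lg + LA)) := by
            apply mul_le_mul_of_nonneg_left hMX (by linarith)
        _ = ((1 + η) * (1 + η)) * ((1 - ε) * Lg + LA) := by ring
        _ ≤ ((1 - η) * (1 + 4 * η)) * ((1 - ε) * Lg + LA) := by
            apply mul_le_mul_of_nonneg_right _ h4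
            nlinarith
        _ = _ := by ring
    exact le_of_mul_le_mul_left h3 (by linarith)
  -- combine
  have hmain : ρ * ε / 8 * Lg ≤ C * M₂ := by
    have h3 : (1 - 3 * η) * ρ * Y * (Lg - LE) ≤
        ((1 + η) * ρ * Y * MM F X + C * Y * M₂) + 2 * C * Y * (R₀ + 1 / N₀ * MM F Y) := by
      refine hSlow.trans (hSup.trans ?_)
      apply add_le_add hterm1
      apply mul_le_mul_of_nonneg_left hterm2
      positivity
    have h4 : Y * ((1 - 3 * η) * ρ * (Lg - LE)) ≤
        Y * (ρ * ((1 + η) * MM F X) + C * M₂ + 2 * C * (R₀ + 1 / N₀ * MM F Y)) := by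
      calc Y * ((1 - 3 * η) * ρ * (Lg - LE)) = (1 - 3 * η) * ρ * Y * (Lg - LE) := by ring
        _ ≤ _ := h3
        _ = _ := by ring
    have h5 := le_of_mul_le_mul_left h4 hY0
    have h6 : ρ * ((1 + η) * MM F X) ≤ ρ * ((1 + 4 * η) * ((1 - ε) * Lg + LA)) :=
      mul_le_mul_of_nonneg_left hMX' hρ.le
    have h7 : 2 * C * (R₀ + 1 / N₀ * MM F Y) ≤ 2 * C * R₀ + 4 * C / N₀ * (Lg + LA) := by
      have : 1 / N₀ * MM F Y ≤ 1 / N₀ * (2 * (Lg + LA)) :=
        mul_le_mul_of_nonneg_left hMY' (by positivity)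
      calc 2 * C * (R₀ + 1 / N₀ * MM F Y) ≤ 2 * C * (R₀ + 1 / N₀ * (2 * (Lg + LA))) := by
            apply mul_le_mul_of_nonneg_left _ (by positivity)
            linarith
        _ = _ := by ring
    have h8 : 4 * C / N₀ * (Lg + LA) ≤ ρ * ε / 4 * Lg + 4 * C * LA := by
      have h9 : 4 * C / N₀ * Lg ≤ ρ * ε / 4 * Lg := mul_le_mul_of_nonneg_right hN₀C (by linarith)
      have h10 : 4 * C / N₀ * LA ≤ 4 * C * LA := by
        apply mul_le_mul_of_nonneg_right _ hLA0
        exact div_le_self (by positivity) hN₀1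
      linarith
    have h9 : (1 - 3 * η) * ρ * (Lg - LE) ≥ (1 - 3 * η) * ρ * Lg - ρ * LE := by
      have : 0 ≤ 3 * η * (ρ * LE) := by positivity
      nlinarith
    have h10 : ρ * ((1 + 4 * η) * ((1 - ε) * Lg + LA)) ≤
        ρ * (1 + 4 * η) * (1 - ε) * Lg + 2 * ρ * LA := by
      have : 0 ≤ ρ * LA := by positivity
      nlinarith
    have h11 : (1 - 3 * η) * ρ * Lg - ρ * (1 + 4 * η) * (1 - ε) * Lg ≥ ρ * ε / 2 * Lg := by
      have h12 : 0 ≤ ρ * Lg := by positivity
      have h13 : (1 - 3 * η) - (1 + 4 * η) * (1 - ε) ≥ ε / 2 := by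
        rw [hη]
        nlinarith
      nlinarith
    have h14 : KK ≤ ρ * ε / 8 * Lg := by linarith
    rw [hKK] at h14
    linarith
  have hcardM : M₂ ≤ ((Pr F Y \ Pr F X).card : ℝ) * (Lg / X) := by
    rw [hM₂, ← nsmul_eq_mul]
    apply Finset.sum_le_card_nsmul
    intro P hP
    rw [Finset.mem_sdiff] at hP
    obtain ⟨hP1, hP2, hP3⟩ := mem_Pr.1 hP.1
    have hN := absNorm_pos hP2
    have hNX : X ≤ Ideal.absNorm P := by
      by_contra hle
      push Not at hle
      exact hP.2 (mem_Pr.2 ⟨hP1, hP2, hle.le⟩)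
    apply div_le_div₀ (by linarith) _ (by linarith) hNX
    exact Real.log_le_log (by linarith) hP3
  have hX0 : 0 < X := by linarith
  have h15 : ρ * ε / 8 * Lg ≤ C * (((Pr F Y \ Pr F X).card : ℝ) * (Lg / X)) :=
    hmain.trans (mul_le_mul_of_nonneg_left hcardM hC.le)
  have h16 : Lg * (ρ * ε / 8 * X) ≤ Lg * (C * ((Pr F Y \ Pr F X).card : ℝ)) := by
    have h17 := mul_le_mul_of_nonneg_right h15 hX0.le
    calc Lg * (ρ * ε / 8 * X) = ρ * ε / 8 * Lg * X := by ring
      _ ≤ C * (((Pr F Y \ Pr F X).card : ℝ) * (Lg / X)) * X := h17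
      _ = C * ((Pr F Y \ Pr F X).card : ℝ) * (Lg / X * X) := by ring
      _ = Lg * (C * ((Pr F Y \ Pr F X).card : ℝ)) := by
          rw [div_mul_cancel₀ _ hX0.ne']; ring
  have h18 := le_of_mul_le_mul_left h16 (by linarith)
  rw [div_mul_eq_mul_div, div_le_iff₀ (by positivity)]
  linarith

end

end Pool.Agent.helper22
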