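import Mathlib

set_option autoImplicit false

namespace Pool.Agent.helper22

open Module
open scoped Pointwise

section

variable {F L : Type*} [Field F] [Field L] [Algebra F L]

/-- linear equivalence given by multiplication by a nonzero element -/
noncomputable def mulEquiv (F : Type*) {L : Type*} [Field F] [Field L] [Algebra F L] (e : L)
    (he : e ≠ 0) : L ≃ₗ[F] L :=
  LinearEquiv.ofBijective (LinearMap.mulLeft F e)
    ⟨fun x y h => mul_left_cancel₀ he h, fun y => ⟨e⁻¹ * y, by
      simp [LinearMap.mulLeft_apply, ← mul_assoc, mul_inv_cancel₀ he]⟩⟩

theorem mulEquiv_apply (e : L) (he : e ≠ 0) (x : L) : mulEquiv F e he x = e * x := rfl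

theorem finrank_scale (e : L) (he : e ≠ 0) (B : Submodule F L) :
    finrank F (B.map (mulEquiv F e he : L →ₗ[F] L)) = finrank F B :=
  LinearEquiv.finrank_map_eq _ _

/-- linear Cauchy-Davenport, the normalised case `1 ∈ B` -/
theorem lin_cd_aux [FiniteDimensional F L] (hp : (finrank F L).Prime) : ∀ (m : ℕ)
    (A B : Submodule F L), A ≠ ⊥ → (1 : L) ∈ B → finrank F B = m →
    min (finrank F L) (finrank F A + finrank F B - 1) ≤ finrank F ↥(A * B) := by
  intro m
  induction m using Nat.strong_induction_on with
  | _ m ih =>
    intro A B hA h1 hB
    by_cases hstab : ∀ e ∈ A, ∀ b ∈ B, e * b ∈ A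
    · by_cases hB1 : B ≤ Submodule.span F {1}
      · have hle : finrank F B ≤ 1 := by
          refine (Submodule.finrank_mono hB1).trans ?_
          have h2 := finrank_span_le_card (R := F) ({(1 : L)} : Set L)
          simpa using h2
        have hAB : A ≤ A * B := by
          intro a ha
          have := Submodule.mul_mem_mul ha h1
          rwa [mul_one] at this
        have := Submodule.finrank_mono hAB
        refine (min_le_right _ _).trans ?_
        omega
      · have hex : ∃ b ∈ B, b ∉ Submodule.span F {(1 : L)} := by
          by_contra hcon
          push Not at hcon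
          exact hB1 hcon
        obtain ⟨b, hb, hb1⟩ := hex
        let S : Subalgebra F L :=
          { carrier := {x | ∀ a ∈ A, a * x ∈ A}
            mul_mem' := by
              intro x y hx hy a ha
              rw [← mul_assoc]
              exact hy _ (hx a ha)
            add_mem' := by
              intro x y hx hy a ha
              rw [mul_add]
              exact A.add_mem (hx a ha) (hy a ha)
            algebraMap_mem' := by
              intro r a ha
              rw [mul_comm, ← Algebra.smul_def]
              exact A.smul_mem _ ha }
        have hbS : b ∈ S := fun a ha => hstab a ha b hb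
        have hadj : Algebra.adjoin F {b} = ⊤ := by
          have halg : IsAlgebraic F b := Algebra.IsAlgebraic.isAlgebraic b
          rw [← IntermediateField.adjoin_simple_toSubalgebra_of_isAlgebraic halg]
          have htop : IntermediateField.adjoin F {b} = ⊤ := by
            have hdvd : finrank F (IntermediateField.adjoin F {b}) ∣ finrank F L := by
              rw [← Module.finrank_mul_finrank F (IntermediateField.adjoin F {b}) L]
              exact Dvd.intro _ rfl
            rcases (Nat.dvd_prime hp).1 hdvd with h | h
            · exfalso
              rw [IntermediateField.finrank_eq_one_iff] at h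
              have h2 : b ∈ (⊥ : IntermediateField F L) := by
                rw [← h]; exact IntermediateField.mem_adjoin_simple_self F b
              rw [IntermediateField.mem_bot] at h2
              obtain ⟨x, rfl⟩ := h2
              apply hb1
              rw [Submodule.mem_span_singleton]
              exact ⟨x, by rw [Algebra.smul_def, mul_one]⟩
            · have := IntermediateField.eq_of_le_of_finrank_eq (F := IntermediateField.adjoin F {b})
                (E := (⊤ : IntermediateField F L)) le_top (by
                  rw [h, IntermediateField.finrank_top'])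
              exact this
          rw [htop, IntermediateField.top_toSubalgebra]
        have hStop : S = ⊤ := by
          rw [eq_top_iff, ← hadj]
          exact Algebra.adjoin_le (by simpa using hbS)
        have hAtop : A = ⊤ := by
          rw [eq_top_iff]
          intro x _
          obtain ⟨a, ha, ha0⟩ := Submodule.exists_mem_ne_zero_of_ne_bot hA
          have : a⁻¹ * x ∈ S := by rw [hStop]; trivial
          have h3 := this a ha
          rwa [← mul_assoc, mul_inv_cancel₀ ha0, one_mul] at h3
        have hAB : A ≤ A * B := by
          intro a ha
          have := Submodule.mul_mem_mul ha h1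
          rwa [mul_one] at this
        rw [hAtop, top_le_iff] at hAB
        rw [hAtop, hAB]
        refine (min_le_left _ _).trans ?_
        rw [finrank_top]
    · push Not at hstab
      obtain ⟨e, he, b₀, hb₀, heb⟩ := hstab
      have he0 : e ≠ 0 := by
        rintro rfl
        rw [zero_mul] at heb
        exact heb A.zero_mem
      set f := mulEquiv F e he0 with hf
      let A' : Submodule F L := A ⊔ B.map (f : L →ₗ[F] L)
      let B' : Submodule F L := B ⊓ A.comap (f : L →ₗ[F] L)
      have hB' : ∀ x, x ∈ B' ↔ x ∈ B ∧ e * x ∈ A := fun x => Iff.rfl
      have h1' : (1 : L) ∈ B' := by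
        rw [hB']
        exact ⟨h1, by rwa [mul_one]⟩
      have hlt : B' < B := by
        refine lt_of_le_of_ne inf_le_left ?_
        intro h
        have : b₀ ∈ B' := by rw [h]; exact hb₀
        exact heb ((hB' _).1 this).2
      have hfl : finrank F B' < finrank F B := Submodule.finrank_lt_finrank_of_lt hlt
      have hinf : A ⊓ B.map (f : L →ₗ[F] L) = B'.map (f : L →ₗ[F] L) := by
        ext x
        simp only [Submodule.mem_inf, Submodule.mem_map]
        constructor
        · rintro ⟨h2, y, hy, rfl⟩
          exact ⟨y, ⟨hy, h2⟩, rfl⟩
        · rintro ⟨y, hy, rfl⟩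
          exact ⟨hy.2, y, hy.1, rfl⟩
      have hdim : finrank F A' + finrank F B' = finrank F A + finrank F B := by
        have h2 := Submodule.finrank_sup_add_finrank_inf_eq A (B.map (f : L →ₗ[F] L))
        rw [hinf, finrank_scale, finrank_scale] at h2
        exact h2
      have hA' : A' ≠ ⊥ := by
        intro h
        apply hA
        rw [eq_bot_iff, ← h]
        exact le_sup_left
      have hsub : A' * B' ≤ A * B := by
        rw [Submodule.sup_mul]
        refine sup_le ?_ ?_
        · exact mul_le_mul' le_rfl inf_le_left
        · rw [Submodule.mul_le]
          rintro _ ⟨x, hx, rfl⟩ y hy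
          have h2 : (f : L →ₗ[F] L) x * y = (e * y) * x := by
            have : (f : L →ₗ[F] L) x = e * x := rfl
            rw [this]; ring
          rw [h2]
          exact Submodule.mul_mem_mul hy.2 hx
      have h3 := ih (finrank F B') (by omega) A' B' hA' h1' rfl
      rw [hdim] at h3
      exact h3.trans (Submodule.finrank_mono hsub)

/-- Linear Cauchy-Davenport theorem for extensions of prime degree. -/
theorem lin_cd [FiniteDimensional F L] (hp : (finrank F L).Prime)
    (A B : Submodule F L) (hA : A ≠ ⊥) (hB : (1 : L) ∈ B) :
    min (finrank F L) (finrank F A + finrank F B - 1) ≤ finrank F ↥(A * B) :=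
  lin_cd_aux hp _ A B hA hB rfl

/-- growth of the powers of a subspace containing `1` -/
theorem pow_growth [FiniteDimensional F L] (hp : (finrank F L).Prime) {V : Submodule F L}
    (h1 : (1 : L) ∈ V) {k : ℕ} (hk : k + 1 ≤ finrank F V) (i : ℕ) :
    min (finrank F L) (i * k + 1) ≤ finrank F ↥(V ^ i) := by
  induction i with
  | zero =>
    rw [pow_zero]
    refine (min_le_right _ _).trans ?_
    rw [zero_mul, zero_add, Nat.one_le_iff_ne_zero, Ne, Submodule.finrank_eq_zero]
    intro h
    have : (1 : L) ∈ (1 : Submodule F L) := Submodule.one_le.1 le_rfl
    rw [h, Submodule.mem_bot] at this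
    exact one_ne_zero this
  | succ i ih =>
    have hne : V ^ i ≠ ⊥ := by
      intro h
      rw [h, finrank_bot] at ih
      have hpos := hp.pos
      rcases le_total (finrank F L) (i * k + 1) with h2 | h2
      · rw [min_eq_left h2] at ih; omega
      · rw [min_eq_right h2] at ih; omega
    have h2 := lin_cd hp (V ^ i) V hne h1
    rw [pow_succ]
    refine le_trans ?_ h2
    have h3 : (i + 1) * k + 1 = (i * k + 1) + (k + 1) - 1 := by
      rw [Nat.succ_mul]; omega
    rw [h3]
    rcases le_total (finrank F L) (i * k + 1) with h4 | h4
    · rw [min_eq_left h4] at ih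
      omega
    · rw [min_eq_right h4] at ih
      omega

/-- selection of a basis among products of few elements of a set -/
theorem exists_basis_products [FiniteDimensional F L] (hp : (finrank F L).Prime) {S : Set L}
    (h1 : (1 : L) ∈ S) {k : ℕ} (hk0 : 0 < k) (hk : k + 1 ≤ finrank F (Submodule.span F S)) (m : ℕ)
    (hm : m ≤ finrank F L) : ∃ x : Fin m → L, LinearIndependent F x ∧
      ∀ l : Fin m, x l ∈ S ^ (((l : ℕ) + k - 1) / k) := by
  induction m with
  | zero => exact ⟨Fin.elim0, linearIndependent_empty_type, fun l => l.elim0⟩
  | succ m ih =>
    obtain ⟨x, hx, hxS⟩ := ih (by omega)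
    set i := (m + k - 1) / k with hi
    have hik : m ≤ i * k := by
      have h2 := Nat.div_add_mod (m + k - 1) k
      have h3 := Nat.mod_lt (m + k - 1) hk0
      rw [← hi] at h2
      have h4 : k * i = i * k := mul_comm _ _
      omega
    have hgr := pow_growth hp (V := Submodule.span F S) (Submodule.subset_span h1) hk i
    have hdim : m + 1 ≤ finrank F ↥(Submodule.span F S ^ i) := by
      refine le_trans ?_ hgr
      exact le_min hm (by omega)
    rw [Submodule.span_pow] at hdim
    have hex : ∃ y ∈ S ^ i, y ∉ Submodule.span F (Set.range x) := by
      by_contra hcon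
      push Not at hcon
      have h2 : Submodule.span F (S ^ i) ≤ Submodule.span F (Set.range x) :=
        Submodule.span_le.2 hcon
      have h3 := Submodule.finrank_mono h2
      have h4 := finrank_span_eq_card hx
      rw [Fintype.card_fin] at h4
      omega
    obtain ⟨y, hy, hy'⟩ := hex
    refine ⟨Fin.snoc x y, ?_, ?_⟩
    · rw [linearIndependent_finSnoc]
      exact ⟨hx, hy'⟩
    · intro l
      refine Fin.lastCases ?_ (fun l' => ?_) l
      · rw [Fin.snoc_last, Fin.val_last]
        exact hy
      · rw [Fin.snoc_castSucc, Fin.val_castSucc]
        exact hxS l'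

end

end Pool.Agent.helper22
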