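import Mathlib
import Pool.Agent.helper22.LinCD
import Pool.Agent.helper22.Discr

set_option autoImplicit false

namespace Pool.Agent.helper22

open NumberField Module
open scoped Pointwise

/-- the exponent function `0 + ⌈1/k⌉ + ... + ⌈(n-1)/k⌉` -/
def zz (n k : ℕ) : ℕ := ∑ l : Fin n, (((l : ℕ) + k - 1) / k)

section

variable {L : Type*} [Field L] [NumberField L]

/-- integers of `L` of house at most `T` -/
def smallSet (L : Type*) [Field L] [NumberField L] (T : ℝ) : Set L :=
  {x : L | IsIntegral ℤ x ∧ house x ≤ T}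

theorem smallSet_pow {T : ℝ} (hT : 0 ≤ T) (i : ℕ) : ∀ y ∈ (smallSet L T) ^ i,
    IsIntegral ℤ y ∧ house y ≤ T ^ i := by
  induction i with
  | zero =>
    intro y hy
    rw [pow_zero, Set.mem_one] at hy
    subst hy
    refine ⟨isIntegral_one, ?_⟩
    rw [pow_zero, house_le_iff]
    intro φ
    simp
  | succ i ih =>
    intro y hy
    rw [pow_succ, Set.mem_mul] at hy
    obtain ⟨a, ha, b, hb, rfl⟩ := hy
    obtain ⟨h1, h2⟩ := ih a ha
    refine ⟨h1.mul hb.1, ?_⟩
    rw [pow_succ]
    refine (house_mul_le _ _).trans ?_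
    exact mul_le_mul h2 hb.2 (house_nonneg _) (by positivity)

end

section

variable (F : Type*) [Field F] [NumberField F]

/-- If the small integers of `L` span a large subspace then the discriminant of `L` is small. -/
theorem discr_le_of_small_span (n : ℕ) : ∃ C : ℝ, 0 < C ∧
    ∀ (L : Type _) [Field L] [NumberField L] [Algebra F L], finrank F L = n → n.Prime →
    ∀ (k : ℕ), 0 < k → ∀ T : ℝ, 1 ≤ T → k + 1 ≤ finrank F (Submodule.span F (smallSet L T)) →
      ((|discr L| : ℤ) : ℝ) ≤ C * T ^ (finrank ℚ F * (2 * zz n k)) := by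
  classical
  set d := finrank ℚ F with hd
  let W : ℝ := 1 + ∑ i, house (integralBasis F i)
  have hsum : 0 ≤ ∑ i, house (integralBasis F i) := Finset.sum_nonneg fun i _ => house_nonneg _
  have hW : 1 ≤ W := by simp only [W]; linarith
  have hWi : ∀ i, house (integralBasis F i) ≤ W := by
    intro i
    have := Finset.single_le_sum (f := fun i => house (integralBasis F i))
      (fun i _ => house_nonneg _) (Finset.mem_univ i)
    simp only [W]
    linarith
  refine ⟨((d * n).factorial : ℝ) ^ 2 * (W ^ 2) ^ (d * n), by positivity, ?_⟩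
  intro L _ _ _ hn hprime k hk T hT hspan
  have hfd : FiniteDimensional F L := FiniteDimensional.of_finrank_pos (by rw [hn]; exact hprime.pos)
  have hp' : (finrank F L).Prime := by rw [hn]; exact hprime
  have h1S : (1 : L) ∈ smallSet L T := by
    refine ⟨isIntegral_one, ?_⟩
    rw [house_le_iff]
    intro φ
    simpa using hT
  obtain ⟨x, hx, hxS⟩ := exists_basis_products hp' h1S hk hspan n (by rw [hn])
  have hT0 : 0 ≤ T := by linarith
  let bx : Basis (Fin n) F L := basisOfLinearIndependentOfCardEqFinrank' x hx (by rw [Fintype.card_fin, hn])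
  have hbx : ∀ l, bx l = x l := fun l => by simp [bx]
  let v := (integralBasis F).smulTower bx
  have hv : ∀ ij, v ij = algebraMap F L (integralBasis F ij.1) * x ij.2 := by
    intro ij
    rw [Basis.smulTower_apply, Algebra.smul_def, hbx]
  have hmap : ∀ x : F, house (algebraMap F L x) ≤ house x := by
    intro x
    rw [house_le_iff]
    intro φ
    exact norm_embedding_le_house x (φ.comp (algebraMap F L))
  have hxi : ∀ l : Fin n, IsIntegral ℤ (x l) ∧ house (x l) ≤ T ^ (((l : ℕ) + k - 1) / k) :=
    fun l => smallSet_pow hT0 _ _ (hxS l)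
  have h1 := abs_discr_le_of_basis v (by
      intro ij
      rw [hv]
      apply IsIntegral.mul
      · apply IsIntegral.algebraMap
        rw [integralBasis_apply]
        exact (RingOfIntegers.basis F ij.1).2
      · exact (hxi ij.2).1)
    (fun ij => W * T ^ (((ij.2 : ℕ) + k - 1) / k)) (by
      intro ij
      rw [hv]
      refine (house_mul_le _ _).trans ?_
      apply mul_le_mul ((hmap _).trans (hWi _)) (hxi ij.2).2 (house_nonneg _) (by positivity))
  refine h1.trans (le_of_eq ?_)
  have hcardι : Fintype.card (Free.ChooseBasisIndex ℤ (𝓞 F)) = d := by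
    rw [← finrank_eq_card_basis (integralBasis F)]
  have hcard : Fintype.card (Free.ChooseBasisIndex ℤ (𝓞 F) × Fin n) = d * n := by
    rw [Fintype.card_prod, hcardι, Fintype.card_fin]
  rw [hcard, mul_assoc]
  congr 1
  simp_rw [mul_pow]
  rw [Finset.prod_mul_distrib, Finset.prod_const, Finset.card_univ, hcard]
  congr 1
  rw [Fintype.prod_prod_type]
  simp only [Finset.prod_const, Finset.card_univ]
  rw [hcardι]
  have h3 : ∀ l : Fin n, (T ^ (((l : ℕ) + k - 1) / k)) ^ 2 = T ^ ((((l : ℕ) + k - 1) / k) * 2) :=
    fun l => by rw [← pow_mul]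
  simp_rw [h3]
  rw [Finset.prod_pow_eq_pow_sum, ← Finset.sum_mul, ← pow_mul, zz]
  congr 1
  ring

end

end Pool.Agent.helper22
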