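import Mathlib
import Pool.Agent.helper22.Discr

set_option autoImplicit false

namespace Pool.Agent.helper22

open NumberField Module Polynomial

section

variable {F L : Type*} [Field F] [NumberField F] [Field L] [NumberField L]

/-- general index gain -/
theorem index_gain_aux {ι : Type*} [Fintype ι] [DecidableEq ι] (v : Basis ι ℚ L)
    (hint : ∀ i, IsIntegral ℤ (v i)) (θ : 𝓞 F →+ L) (hθ : ∀ c, IsIntegral ℤ (θ c))
    (P : Ideal (𝓞 F)) (h : ∀ c, θ c ∈ AddSubgroup.closure (Set.range v) → c ∈ P) :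
    (Ideal.absNorm P : ℚ) ^ 2 * |(discr L : ℚ)| ≤ |Algebra.discr ℚ v| := by
  classical
  let b := (integralBasis L).reindex ((integralBasis L).indexEquiv v)
  have hb : Algebra.discr ℚ b = (discr L : ℚ) := by
    rw [coe_discr, Basis.coe_reindex, Algebra.discr_reindex]
  have hv : Algebra.discr ℚ v = (b.toMatrix v).det ^ 2 * Algebra.discr ℚ b := by
    conv_lhs => rw [← b.toMatrix_map_vecMul v]
    rw [Algebra.discr_of_matrix_vecMul]
  have hbr : Set.range b = Set.range (integralBasis L) := by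
    rw [Basis.coe_reindex]
    exact (EquivLike.surjective _).range_comp _
  have hmem : ∀ x : L, IsIntegral ℤ x → x ∈ AddSubgroup.closure (Set.range b) := by
    intro x hx
    have h1 : x ∈ (algebraMap (𝓞 L) L).range := ⟨⟨x, hx⟩, rfl⟩
    rw [← mem_span_integralBasis L] at h1
    rw [hbr, ← Submodule.span_int_eq_addSubgroupClosure]
    exact h1
  set L₁ := AddSubgroup.closure (Set.range v) with hL₁
  set L₂ := AddSubgroup.closure (Set.range b) with hL₂
  have H : L₁ ≤ L₂ := by
    rw [hL₁, AddSubgroup.closure_le]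
    rintro _ ⟨i, rfl⟩
    exact hmem _ (hint i)
  have hrel := AddSubgroup.relIndex_eq_abs_det L₁ L₂ H v b hL₁ hL₂
  rw [Basis.det_apply] at hrel
  have hdet0 : (b.toMatrix v).det ≠ 0 := by
    intro h0
    have h3 := Algebra.discr_not_zero_of_basis ℚ v
    apply h3
    rw [hv, h0]
    simp
  have hrel0 : L₁.relIndex L₂ ≠ 0 := by
    intro h0
    rw [h0] at hrel
    simp only [Nat.cast_zero] at hrel
    exact hdet0 (abs_eq_zero.1 hrel.symm)
  have hle : Ideal.absNorm P ≤ L₁.relIndex L₂ := by
    have hrange : θ.range ≤ L₂ := by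
      rintro _ ⟨c, rfl⟩
      exact hmem _ (hθ c)
    have h1 : L₁.relIndex θ.range ≤ L₁.relIndex L₂ :=
      AddSubgroup.relIndex_le_of_le_right hrange hrel0
    have h1' : L₁.relIndex θ.range ≠ 0 := fun h0 =>
      hrel0 (AddSubgroup.relIndex_eq_zero_of_le_right hrange h0)
    have h2 : (L₁.comap θ).index = L₁.relIndex θ.range := AddSubgroup.index_comap L₁ θ
    have h3 : L₁.comap θ ≤ P.toAddSubgroup := by
      intro c hc
      exact h c hc
    have h4 : P.toAddSubgroup.index ∣ (L₁.comap θ).index := AddSubgroup.index_dvd_of_le h3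
    have h5 : Ideal.absNorm P = P.toAddSubgroup.index := rfl
    rw [h5]
    rw [h2] at h4
    exact (Nat.le_of_dvd (Nat.pos_of_ne_zero h1') h4).trans h1
  rw [hv, hb, abs_mul, abs_pow, ← hrel]
  gcongr

end

section

variable {F : Type*} [Field F] [NumberField F]

theorem exists_inv_element (P : Ideal (𝓞 F)) (hP : P.IsPrime) (hP0 : P ≠ ⊥) : ∃ y : F,
    (∀ a ∈ P, ∃ b : 𝓞 F, algebraMap (𝓞 F) F b = y * algebraMap (𝓞 F) F a) ∧
    (∀ c : 𝓞 F, (∃ b : 𝓞 F, algebraMap (𝓞 F) F b = y * algebraMap (𝓞 F) F c) → c ∈ P) := by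
  obtain ⟨y, hy, hy'⟩ := FractionalIdeal.exists_notMem_one_of_ne_bot (K := F) hP0 hP.ne_top
  have hP0' : (P : FractionalIdeal (nonZeroDivisors (𝓞 F)) F) ≠ 0 := by
    rwa [Ne, FractionalIdeal.coeIdeal_eq_zero]
  have h1 : ∀ a ∈ P, ∃ b : 𝓞 F, algebraMap (𝓞 F) F b = y * algebraMap (𝓞 F) F a := by
    intro a ha
    rw [FractionalIdeal.mem_inv_iff hP0'] at hy
    have := hy (algebraMap (𝓞 F) F a) (FractionalIdeal.mem_coeIdeal_of_mem _ ha)
    rw [FractionalIdeal.mem_one_iff] at this
    exact this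
  refine ⟨y, h1, ?_⟩
  let J : Ideal (𝓞 F) :=
    { carrier := {c | ∃ b : 𝓞 F, algebraMap (𝓞 F) F b = y * algebraMap (𝓞 F) F c}
      add_mem' := by
        rintro c c' ⟨b, hb⟩ ⟨b', hb'⟩
        refine ⟨b + b', ?_⟩
        rw [map_add, map_add, hb, hb']
        ring
      zero_mem' := ⟨0, by simp⟩
      smul_mem' := by
        rintro r c ⟨b, hb⟩
        refine ⟨r * b, ?_⟩
        rw [smul_eq_mul, map_mul, map_mul, hb]
        ring }
  have hPJ : P ≤ J := h1
  have hJ : J ≠ ⊤ := by
    rw [Ne, Ideal.eq_top_iff_one]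
    rintro ⟨b, hb⟩
    apply hy'
    rw [FractionalIdeal.mem_one_iff]
    refine ⟨b, ?_⟩
    rw [← mul_one y]
    simpa using hb
  have hmax : P.IsMaximal := hP.isMaximal hP0
  have hJP : P = J := hmax.eq_of_le hJ hPJ
  intro c hc
  rw [hJP]
  exact hc

variable {L : Type*} [Field L] [NumberField L] [Algebra F L]

/-- A double point modulo `P` forces `P` to divide the index. -/
theorem index_gain {n : ℕ} (hn : finrank F L = n) (α : 𝓞 L)
    (hdeg : (minpoly F (algebraMap (𝓞 L) L α)).natDegree = n)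
    (bx : Basis (Fin n) F L) (hbx : ∀ i, bx i = (algebraMap (𝓞 L) L α) ^ (i : ℕ))
    (P : Ideal (𝓞 F)) (hP : P.IsPrime) (hP0 : P ≠ ⊥) (r : 𝓞 F)
    (hr : (minpoly (𝓞 F) α).eval r ∈ P ^ 2) (hr' : (minpoly (𝓞 F) α).derivative.eval r ∈ P) :
    (Ideal.absNorm P : ℚ) ^ 2 * |(discr L : ℚ)| ≤
      |Algebra.discr ℚ ((integralBasis F).smulTower bx)| := by
  classical
  have hfd : FiniteDimensional F L := FiniteDimensional.of_finrank_pos (by
    rw [hn, ← hdeg]; exact minpoly.natDegree_pos (Algebra.IsIntegral.isIntegral _))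
  have hαint : IsIntegral (𝓞 F) α := Algebra.IsIntegral.isIntegral α
  set f := minpoly (𝓞 F) α with hf
  have hmonic : f.Monic := minpoly.monic hαint
  have hfF : minpoly F (algebraMap (𝓞 L) L α) = f.map (algebraMap (𝓞 F) F) := by
    have h1 : IsIntegral (𝓞 F) (algebraMap (𝓞 L) L α) := hαint.algebraMap
    rw [minpoly.isIntegrallyClosed_eq_field_fractions' F h1]
    congr 1
    exact minpoly.algebraMap_eq (FaithfulSMul.algebraMap_injective (𝓞 L) L) α
  have hfdeg : f.natDegree = n := by
    rw [← hdeg, hfF, hmonic.natDegree_map]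
  have hnpos : 0 < n := by rw [← hfdeg]; exact minpoly.natDegree_pos hαint
  obtain ⟨y, hy1, hy2⟩ := exists_inv_element P hP hP0
  -- division of f - f(r) by X - r, twice
  set h := f /ₘ (X - C r) with hh
  set k := h /ₘ (X - C r) with hk
  have hf1 : f = C (f.eval r) + (X - C r) * h := by
    have := modByMonic_add_div f (X - C r)
    rw [modByMonic_X_sub_C_eq_C_eval] at this
    exact this.symm
  have hh1 : h = C (h.eval r) + (X - C r) * k := by
    have := modByMonic_add_div h (X - C r)
    rw [modByMonic_X_sub_C_eq_C_eval] at this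
    exact this.symm
  have hhr : h.eval r = f.derivative.eval r := by
    have := congrArg (fun g => (derivative g).eval r) hf1
    simp only [derivative_add, derivative_C, derivative_mul, derivative_sub, derivative_X,
      eval_add, eval_mul, eval_sub, eval_X, eval_C, sub_self, zero_mul, add_zero, zero_add,
      sub_zero, one_mul] at this
    exact this.symm
  have hhdeg : h.natDegree = n - 1 := by
    rw [hh, natDegree_divByMonic f (monic_X_sub_C r), natDegree_X_sub_C, hfdeg]
  have hhlead : h.coeff (n - 1) = 1 := by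
    have h1 : h.Monic := by
      rw [Monic, hh, leadingCoeff_divByMonic_of_monic (monic_X_sub_C r)]
      · exact hmonic
      · rw [degree_X_sub_C]
        rw [Polynomial.degree_eq_natDegree hmonic.ne_zero, hfdeg]
        exact_mod_cast hnpos
    rw [← hhdeg]
    exact h1
  have hroot : aeval α f = 0 := minpoly.aeval _ _
  set hα : 𝓞 L := aeval α h with hhα
  set kα : 𝓞 L := aeval α k with hkα
  have e1 : (α - algebraMap (𝓞 F) (𝓞 L) r) * hα = - algebraMap (𝓞 F) (𝓞 L) (f.eval r) := by
    have := congrArg (aeval α) hf1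
    rw [hroot, map_add, map_mul, map_sub, aeval_X, aeval_C, aeval_C] at this
    linear_combination -this
  have e2 : hα = algebraMap (𝓞 F) (𝓞 L) (f.derivative.eval r) +
      (α - algebraMap (𝓞 F) (𝓞 L) r) * kα := by
    have := congrArg (aeval α) hh1
    rw [map_add, map_mul, map_sub, aeval_X, aeval_C, aeval_C, hhr] at this
    exact this
  have e3 : hα ^ 2 = algebraMap (𝓞 F) (𝓞 L) (f.derivative.eval r) * hα -
      algebraMap (𝓞 F) (𝓞 L) (f.eval r) * kα := by
    linear_combination hα * e2 + kα * e1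
  -- the element β
  obtain ⟨u, hu⟩ := hy1 _ hr'
  have hw : ∀ a ∈ P ^ 2, ∃ b : 𝓞 F, algebraMap (𝓞 F) F b = y ^ 2 * algebraMap (𝓞 F) F a := by
    intro a ha
    rw [pow_two] at ha
    refine Submodule.mul_induction_on ha ?_ ?_
    · intro m hm m' hm'
      obtain ⟨b, hb⟩ := hy1 m hm
      obtain ⟨b', hb'⟩ := hy1 m' hm'
      refine ⟨b * b', ?_⟩
      rw [map_mul, map_mul, hb, hb']
      ring
    · rintro x x' ⟨b, hb⟩ ⟨b', hb'⟩
      refine ⟨b + b', ?_⟩
      rw [map_add, map_add, hb, hb']
      ring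
  obtain ⟨w, hw⟩ := hw _ hr
  set β : L := algebraMap F L y * (algebraMap (𝓞 L) L hα) with hβ
  have hcoe : ∀ a : 𝓞 F, algebraMap (𝓞 L) L (algebraMap (𝓞 F) (𝓞 L) a) = algebraMap F L (algebraMap (𝓞 F) F a) := by
    intro a
    rw [← IsScalarTower.algebraMap_apply (𝓞 F) (𝓞 L) L, IsScalarTower.algebraMap_apply (𝓞 F) F L]
  have hβ2 : β ^ 2 - algebraMap F L (algebraMap (𝓞 F) F u) * β + algebraMap F L (algebraMap (𝓞 F) F w) * (algebraMap (𝓞 L) L kα) = 0 := by
    have e4 := congrArg (algebraMap (𝓞 L) L) e3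
    simp only [map_pow, map_sub, map_mul, hcoe] at e4
    rw [hu, hw, hβ, map_mul, map_mul, map_pow]
    linear_combination (algebraMap F L y) ^ 2 * e4
  have hβint : IsIntegral ℤ β := by
    have h1 : IsIntegral (𝓞 L) β := by
      refine ⟨X ^ 2 - C (algebraMap (𝓞 F) (𝓞 L) u) * X + C (algebraMap (𝓞 F) (𝓞 L) w * kα), ?_, ?_⟩
      · have h2 : (X ^ 2 - C (algebraMap (𝓞 F) (𝓞 L) u) * X +
            C (algebraMap (𝓞 F) (𝓞 L) w * kα) : (𝓞 L)[X]) =
            X ^ 2 + (C (-algebraMap (𝓞 F) (𝓞 L) u) * X +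
              C (algebraMap (𝓞 F) (𝓞 L) w * kα)) := by
          rw [map_neg]; ring
        rw [h2]
        apply monic_X_pow_add
        refine lt_of_le_of_lt degree_linear_le ?_
        exact_mod_cast Nat.one_lt_two
      · simp only [eval₂_add, eval₂_sub, eval₂_mul, eval₂_pow, eval₂_X, eval₂_C, map_mul, hcoe]
        exact hβ2
    exact isIntegral_trans (R := ℤ) β h1
  -- the homomorphism
  let θ : 𝓞 F →+ L :=
    { toFun := fun c => algebraMap F L (algebraMap (𝓞 F) F c) * β
      map_zero' := by simp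
      map_add' := by
        intro a b
        rw [map_add, map_add, add_mul] }
  have hθ : ∀ c, θ c = algebraMap F L (algebraMap (𝓞 F) F c) * β := fun c => rfl
  apply index_gain_aux ((integralBasis F).smulTower bx) ?_ θ ?_ P ?_
  · rintro ⟨i, j⟩
    rw [Basis.smulTower_apply, Algebra.smul_def, hbx]
    apply IsIntegral.mul
    · apply IsIntegral.algebraMap
      rw [integralBasis_apply]
      exact (RingOfIntegers.basis F i).2
    · exact α.2.pow _
  · intro c
    rw [hθ]
    exact (IsIntegral.algebraMap c.2).mul hβint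
  · intro c hc
    apply hy2
    let last : Fin n := ⟨n - 1, by omega⟩
    have hlast : ∀ x ∈ AddSubgroup.closure (Set.range ((integralBasis F).smulTower bx)),
        ∃ b : 𝓞 F, algebraMap (𝓞 F) F b = bx.repr x last := by
      intro x hx
      induction hx using AddSubgroup.closure_induction with
      | mem x hx =>
        obtain ⟨⟨i, j⟩, rfl⟩ := hx
        rw [Basis.smulTower_apply, map_smul, Basis.repr_self, Finsupp.smul_single, smul_eq_mul,
          mul_one]
        by_cases hj : j = last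
        · subst hj
          refine ⟨RingOfIntegers.basis F i, ?_⟩
          rw [Finsupp.single_eq_same, integralBasis_apply]
        · refine ⟨0, ?_⟩
          rw [Finsupp.single_eq_of_ne' hj, map_zero]
      | zero => exact ⟨0, by simp⟩
      | add x x' _ _ h1 h2 =>
        obtain ⟨b, hb⟩ := h1
        obtain ⟨b', hb'⟩ := h2
        refine ⟨b + b', ?_⟩
        rw [map_add, map_add, Finsupp.add_apply, hb, hb']
      | neg x _ h1 =>
        obtain ⟨b, hb⟩ := h1
        refine ⟨-b, ?_⟩
        rw [map_neg, map_neg, Finsupp.neg_apply, hb]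
    obtain ⟨b, hb⟩ := hlast _ hc
    refine ⟨b, ?_⟩
    rw [hb, hθ, hβ, ← mul_assoc, ← map_mul, ← Algebra.smul_def, map_smul, Finsupp.smul_apply,
      smul_eq_mul]
    have h1 : bx.repr (algebraMap (𝓞 L) L hα) last = 1 := by
      have h2 : (algebraMap (𝓞 L) L hα) = ∑ i : Fin n, (algebraMap (𝓞 F) F (h.coeff i)) • bx i := by
        rw [hhα, aeval_eq_sum_range' (n := n) (by rw [hhdeg]; omega), map_sum,
          ← Fin.sum_univ_eq_sum_range (fun i => (algebraMap (𝓞 L) L) (h.coeff i • α ^ i))]
        apply Finset.sum_congr rfl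
        intro i _
        rw [hbx, Algebra.smul_def, map_mul, map_pow, hcoe, Algebra.smul_def]
      rw [h2, map_sum, Finset.sum_apply']
      simp only [map_smul, Basis.repr_self, Finsupp.smul_single, smul_eq_mul, mul_one]
      rw [Finset.sum_eq_single last]
      · rw [Finsupp.single_eq_same]
        simp only [last]
        rw [hhlead]
        simp
      · intro i _ hi
        rw [Finsupp.single_eq_of_ne' hi]
      · simp
    rw [h1]
    ring

end

end Pool.Agent.helper22
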