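import Mathlib

set_option autoImplicit false

namespace Pool.Agent.helper22

open NumberField Module Polynomial

section

variable {F L : Type*} [Field F] [NumberField F] [Field L] [NumberField L] [Algebra F L]

omit [NumberField L] in
/-- If `f(s) ∈ 𝔮` for the minimal polynomial `f` of `α`, there is a prime above `𝔮` containing
`α - s`. -/
theorem exists_prime_root (α : 𝓞 L) (q : Ideal (𝓞 F)) (hq : q.IsPrime) (s : 𝓞 F)
    (hs : (minpoly (𝓞 F) α).eval s ∈ q) : ∃ P : Ideal (𝓞 L), P.IsPrime ∧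
      P.comap (algebraMap (𝓞 F) (𝓞 L)) = q ∧ α - algebraMap (𝓞 F) (𝓞 L) s ∈ P := by
  let alg : Algebra (𝓞 F)[X] (𝓞 L) := (aeval α : (𝓞 F)[X] →ₐ[𝓞 F] 𝓞 L).toRingHom.toAlgebra
  have hmap : ∀ g : (𝓞 F)[X], algebraMap (𝓞 F)[X] (𝓞 L) g = aeval α g := fun g => rfl
  have htower : IsScalarTower (𝓞 F) (𝓞 F)[X] (𝓞 L) := by
    apply IsScalarTower.of_algebraMap_eq
    intro x
    rw [hmap, Polynomial.algebraMap_eq, aeval_C]
  have hint0 : Algebra.IsIntegral (𝓞 F) (𝓞 L) := inferInstance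
  have hint : Algebra.IsIntegral (𝓞 F)[X] (𝓞 L) := Algebra.IsIntegral.tower_top (𝓞 F)
  let P0 : Ideal (𝓞 F)[X] := q.comap (evalRingHom s)
  have hP0 : P0.IsPrime := Ideal.comap_isPrime (evalRingHom s) q
  have hker : RingHom.ker (algebraMap (𝓞 F)[X] (𝓞 L)) ≤ P0 := by
    intro g hg
    rw [RingHom.mem_ker, hmap] at hg
    have hαint : IsIntegral (𝓞 F) α := Algebra.IsIntegral.isIntegral α
    have hdvd : minpoly (𝓞 F) α ∣ g := minpoly.isIntegrallyClosed_dvd hαint hg
    obtain ⟨g', rfl⟩ := hdvd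
    rw [Ideal.mem_comap, coe_evalRingHom, eval_mul]
    exact q.mul_mem_right _ hs
  obtain ⟨Q, hQ, hQc⟩ := Ideal.exists_ideal_over_prime_of_isIntegral_of_isDomain P0 hker
  refine ⟨Q, hQ, ?_, ?_⟩
  · ext a
    have h1 : C a ∈ Q.comap (algebraMap (𝓞 F)[X] (𝓞 L)) ↔ C a ∈ P0 := by rw [hQc]
    rw [Ideal.mem_comap, Ideal.mem_comap, hmap, aeval_C, coe_evalRingHom, eval_C] at h1
    rw [Ideal.mem_comap]
    exact h1
  · have h1 : (X - C s) ∈ Q.comap (algebraMap (𝓞 F)[X] (𝓞 L)) := by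
      rw [hQc, Ideal.mem_comap, coe_evalRingHom, eval_sub, eval_X, eval_C, sub_self]
      exact q.zero_mem
    rw [Ideal.mem_comap, hmap, map_sub, aeval_X, aeval_C] at h1
    exact h1

theorem absNorm_le_of_comap (P : Ideal (𝓞 L)) (hP : P ≠ ⊥) (q : Ideal (𝓞 F))
    (h : P.comap (algebraMap (𝓞 F) (𝓞 L)) = q) : Ideal.absNorm q ≤ Ideal.absNorm P := by
  rw [Ideal.absNorm_apply, Ideal.absNorm_apply, Submodule.cardQuot_apply, Submodule.cardQuot_apply]
  have hfin : Finite (𝓞 L ⧸ P) := Ideal.finiteQuotientOfFreeOfNeBot P hP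
  let g : 𝓞 F ⧸ q →+* 𝓞 L ⧸ P := Ideal.quotientMap P (algebraMap (𝓞 F) (𝓞 L)) (by rw [h])
  have hg : Function.Injective g := Ideal.quotientMap_injective' (by rw [h])
  exact Nat.card_le_card_of_injective g hg

/-- A double root modulo `q` which does not lift forces ramification. -/
theorem absNorm_le_discr (α : 𝓞 L) (q : Ideal (𝓞 F)) (hq : q.IsPrime) (hq0 : q ≠ ⊥) (s : 𝓞 F)
    (hs : (minpoly (𝓞 F) α).eval s ∈ q) (hs2 : (minpoly (𝓞 F) α).eval s ∉ q ^ 2)
    (hs' : (minpoly (𝓞 F) α).derivative.eval s ∈ q) :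
    (Ideal.absNorm q : ℤ) ≤ |discr L| := by
  obtain ⟨P, hP, hPc, hPα⟩ := exists_prime_root α q hq s hs
  set φ := algebraMap (𝓞 F) (𝓞 L) with hφ
  set f := minpoly (𝓞 F) α with hf
  have hqP : q.map φ ≤ P := by rw [Ideal.map_le_iff_le_comap, hPc]
  have hinj : Function.Injective φ := FaithfulSMul.algebraMap_injective _ _
  have hP0 : P ≠ ⊥ := by
    rintro rfl
    apply hq0
    rw [← hPc]
    exact Ideal.comap_bot_of_injective φ hinj
  have hPprime : Prime P := Ideal.prime_of_isPrime hP0 hP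
  -- Taylor expansion
  obtain ⟨k, hk⟩ := (f.map φ).binomExpansion (φ s) (α - φ s)
  have hroot : (f.map φ).eval α = 0 := by
    rw [eval_map_algebraMap]
    exact minpoly.aeval _ _
  have h1 : φ s + (α - φ s) = α := by ring
  rw [h1, hroot, derivative_map, eval_map_apply, eval_map_apply] at hk
  have h2 : φ (f.eval s) ∈ P ^ 2 := by
    have h3 : φ (f.eval s) = -(φ (f.derivative.eval s) * (α - φ s) + k * (α - φ s) ^ 2) := by
      linear_combination -hk
    rw [h3]
    apply (P ^ 2).neg_mem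
    apply (P ^ 2).add_mem
    · rw [pow_two]
      exact Ideal.mul_mem_mul (hqP (Ideal.mem_map_of_mem φ hs')) hPα
    · exact (P ^ 2).mul_mem_left _ (Ideal.pow_mem_pow hPα 2)
  -- factor the ideal of f(s)
  have h4 : q ∣ Ideal.span {f.eval s} := by
    rw [Ideal.dvd_iff_le, Ideal.span_singleton_le_iff_mem]; exact hs
  obtain ⟨b, hb⟩ := h4
  have hqb : ¬ q ∣ b := by
    rintro ⟨c, rfl⟩
    apply hs2
    have : Ideal.span {f.eval s} ≤ q ^ 2 := by
      rw [hb, ← mul_assoc, ← pow_two]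
      exact Ideal.dvd_iff_le.1 (Dvd.intro c rfl)
    exact this (Ideal.mem_span_singleton_self _)
  have hPb : ¬ P ∣ b.map φ := by
    intro h
    apply hqb
    rw [Ideal.dvd_iff_le] at h ⊢
    rw [Ideal.map_le_iff_le_comap, hPc] at h
    exact h
  have h5 : P ^ 2 ∣ q.map φ * b.map φ := by
    rw [← Ideal.map_mul, ← hb, Ideal.map_span, Set.image_singleton, Ideal.dvd_iff_le,
      Ideal.span_singleton_le_iff_mem]
    exact h2
  have h6 : P ^ 2 ∣ q.map φ := hPprime.pow_dvd_of_dvd_mul_right 2 hPb h5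
  -- go down to the integers
  let p : Ideal ℤ := P.comap (algebraMap ℤ (𝓞 L))
  have hp : p.IsPrime := Ideal.comap_isPrime _ _
  have hpb : p ≠ ⊥ := by
    intro h
    exact hP0 (Ideal.eq_bot_of_comap_eq_bot (R := ℤ) (S := 𝓞 L) h)
  have hpmax : p.IsMaximal := hp.isMaximal hpb
  have h7 : p.map (algebraMap ℤ (𝓞 L)) ≤ q.map φ := by
    rw [Ideal.map_le_iff_le_comap]
    intro x hx
    rw [Ideal.mem_comap]
    have h8 : algebraMap ℤ (𝓞 L) x = φ (algebraMap ℤ (𝓞 F) x) := by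
      simp
    have h9 : algebraMap ℤ (𝓞 F) x ∈ q := by
      rw [← hPc, Ideal.mem_comap, ← h8]
      exact hx
    rw [h8]
    exact Ideal.mem_map_of_mem φ h9
  have h10 : P ^ 2 ∣ p.map (algebraMap ℤ (𝓞 L)) := h6.trans (Ideal.dvd_iff_le.2 h7)
  have h11 := pow_sub_one_dvd_differentIdeal ℤ P 2 hpb h10
  simp only [Nat.reduceSub, pow_one] at h11
  have h12 := map_dvd Ideal.absNorm h11
  rw [absNorm_differentIdeal L] at h12
  have h13 : Ideal.absNorm P ≤ (discr L).natAbs :=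
    Nat.le_of_dvd (Int.natAbs_pos.2 (discr_ne_zero L)) h12
  have h14 := (absNorm_le_of_comap P hP0 q hPc).trans h13
  rw [Int.abs_eq_natAbs]
  exact_mod_cast h14

end


section

variable {L : Type*} [Field L] [NumberField L]

theorem absNorm_span_le_house (x : 𝓞 L) :
    (Ideal.absNorm (Ideal.span {x}) : ℝ) ≤ house (x : L) ^ finrank ℚ L := by
  rw [Ideal.absNorm_span_singleton]
  have h1 : (((Algebra.norm ℤ x).natAbs : ℕ) : ℝ) = ‖Algebra.norm ℚ (x : L)‖ := by
    rw [← Algebra.coe_norm_int]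
    rw [← Rat.norm_cast_real]
    simp [Nat.cast_natAbs]
  rw [h1]
  obtain ⟨σ⟩ : Nonempty (L →+* ℂ) := inferInstance
  refine (norm_norm_le_norm_mul_house_pow (x : L) σ).trans ?_
  have hpos : 0 < finrank ℚ L := finrank_pos
  calc ‖σ (x : L)‖ * house (x : L) ^ (finrank ℚ L - 1)
      ≤ house (x : L) * house (x : L) ^ (finrank ℚ L - 1) := by
        apply mul_le_mul_of_nonneg_right (norm_embedding_le_house _ _)
        exact pow_nonneg (house_nonneg _) _
    _ = house (x : L) ^ (finrank ℚ L - 1 + 1) := by rw [pow_succ, mul_comm]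
    _ = house (x : L) ^ finrank ℚ L := by congr 1; omega

/-- few large primes divide a given integer -/
theorem pow_card_le_house (x : 𝓞 L) (hx : x ≠ 0) (S : Finset (Ideal (𝓞 L))) {Y : ℝ} (hY : 0 ≤ Y)
    (hS : ∀ P ∈ S, P.IsPrime ∧ P ≠ ⊥ ∧ x ∈ P ∧ Y ≤ Ideal.absNorm P) :
    Y ^ S.card ≤ house (x : L) ^ finrank ℚ L := by
  refine le_trans ?_ (absNorm_span_le_house x)
  have h1 : ∏ P ∈ S, P ∣ Ideal.span {x} := by
    apply Finset.prod_primes_dvd
    · intro P hP
      exact Ideal.prime_of_isPrime (hS P hP).2.1 (hS P hP).1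
    · intro P hP
      rw [Ideal.dvd_iff_le, Ideal.span_singleton_le_iff_mem]
      exact (hS P hP).2.2.1
  have h2 := map_dvd Ideal.absNorm h1
  rw [map_prod] at h2
  have h3 : 0 < Ideal.absNorm (Ideal.span {x}) := by
    apply Nat.pos_of_ne_zero
    rw [Ne, Ideal.absNorm_eq_zero_iff, Ideal.span_singleton_eq_bot]
    exact hx
  have h4 := Nat.le_of_dvd h3 h2
  calc Y ^ S.card = ∏ P ∈ S, Y := by rw [Finset.prod_const]
    _ ≤ ∏ P ∈ S, (Ideal.absNorm P : ℝ) := Finset.prod_le_prod (fun _ _ => hY)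
        (fun P hP => (hS P hP).2.2.2)
    _ ≤ _ := by exact_mod_cast h4

variable {F : Type*} [Field F] [NumberField F] [Algebra F L]

/-- few large primes admit a double root of a given separable polynomial -/
theorem double_root_few (α : 𝓞 L) (S : Finset (Ideal (𝓞 F))) {Y : ℝ} (hY : 0 ≤ Y)
    (hS : ∀ q ∈ S, q.IsPrime ∧ q ≠ ⊥ ∧ Y ≤ Ideal.absNorm q ∧ ∃ s : 𝓞 F,
      (minpoly (𝓞 F) α).eval s ∈ q ∧ (minpoly (𝓞 F) α).derivative.eval s ∈ q) :
    Y ^ S.card ≤ house ((aeval α (minpoly (𝓞 F) α).derivative : 𝓞 L) : L) ^ finrank ℚ L := by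
  classical
  set f := minpoly (𝓞 F) α with hf
  have hαint : IsIntegral (𝓞 F) α := Algebra.IsIntegral.isIntegral α
  have hmain : ∀ q ∈ S, ∃ P : Ideal (𝓞 L), P.IsPrime ∧ P ≠ ⊥ ∧
      aeval α f.derivative ∈ P ∧ Y ≤ Ideal.absNorm P ∧
      P.comap (algebraMap (𝓞 F) (𝓞 L)) = q := by
    intro q hq
    obtain ⟨hq1, hq2, hq3, s, hs1, hs2⟩ := hS q hq
    obtain ⟨P, hP1, hP2, hP3⟩ := exists_prime_root α q hq1 s hs1
    have hP0 : P ≠ ⊥ := by
      rintro rfl
      apply hq2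
      rw [← hP2]
      exact Ideal.comap_bot_of_injective _ (FaithfulSMul.algebraMap_injective _ _)
    refine ⟨P, hP1, hP0, ?_, ?_, hP2⟩
    · have h1 : α - algebraMap (𝓞 F) (𝓞 L) s ∣
          (f.derivative.map (algebraMap (𝓞 F) (𝓞 L))).eval α -
          (f.derivative.map (algebraMap (𝓞 F) (𝓞 L))).eval (algebraMap (𝓞 F) (𝓞 L) s) :=
        Polynomial.sub_dvd_eval_sub _ _ _
      rw [eval_map_algebraMap, eval_map_apply] at h1
      have h2 := P.mem_of_dvd h1 hP3
      have h3 : algebraMap (𝓞 F) (𝓞 L) (f.derivative.eval s) ∈ P := by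
        have : f.derivative.eval s ∈ P.comap (algebraMap (𝓞 F) (𝓞 L)) := by rw [hP2]; exact hs2
        exact this
      have h4 := P.add_mem h2 h3
      rwa [sub_add_cancel] at h4
    · refine hq3.trans ?_
      exact_mod_cast absNorm_le_of_comap P hP0 q hP2
  choose! g hg using hmain
  have hginj : Set.InjOn g (S : Set (Ideal (𝓞 F))) := by
    intro q hq q' hq' h
    rw [← (hg q hq).2.2.2.2, ← (hg q' hq').2.2.2.2, h]
  have hcard : (S.image g).card = S.card := Finset.card_image_of_injOn hginj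
  rw [← hcard]
  apply pow_card_le_house _ _ _ hY
  · intro P hP
    obtain ⟨q, hq, rfl⟩ := Finset.mem_image.1 hP
    exact ⟨(hg q hq).1, (hg q hq).2.1, (hg q hq).2.2.1, (hg q hq).2.2.2.1⟩
  · -- the derivative does not vanish
    intro h0
    have hne : f.derivative ≠ 0 := by
      intro h
      have h1 := Polynomial.derivative_eq_zero.1 h
      have h2 : 0 < f.natDegree := minpoly.natDegree_pos hαint
      omega
    have hdvd : f ∣ f.derivative := minpoly.isIntegrallyClosed_dvd hαint h0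
    have hmonic : f.Monic := minpoly.monic hαint
    have h3 := Polynomial.degree_le_of_dvd hdvd hne
    have h4 := Polynomial.degree_derivative_lt (minpoly.ne_zero hαint)
    exact absurd h3 (not_le.2 h4)

end

end Pool.Agent.helper22
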