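import Mathlib
import Pool.Agent.helper22.IndexGain
import Pool.Agent.helper22.Over

set_option autoImplicit false

namespace Pool.Agent.helper22

open NumberField Module IntermediateField Polynomial

section

variable {F : Type*} [Field F] [NumberField F] {A : Type*} [Field A] [Algebra F A]

omit [NumberField F] in
theorem gen_isIntegral {α : A} (h : IsIntegral ℤ α) : IsIntegral ℤ (AdjoinSimple.gen F α) := by
  rw [← isIntegral_algebraMap_iff (B := A) (FaithfulSMul.algebraMap_injective F⟮α⟯ A),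
    AdjoinSimple.algebraMap_gen]
  exact h

/-- the generator as an algebraic integer of `F⟮α⟯` -/
noncomputable def genO (F : Type*) [Field F] {A : Type*} [Field A] [Algebra F A] {α : A}
    (h : IsIntegral ℤ α) : 𝓞 F⟮α⟯ := ⟨AdjoinSimple.gen F α, gen_isIntegral h⟩

omit [NumberField F] in
theorem genO_coe {α : A} (h : IsIntegral ℤ α) :
    algebraMap (𝓞 F⟮α⟯) F⟮α⟯ (genO F h) = AdjoinSimple.gen F α := rfl

omit [NumberField F] in
theorem minpoly_genO {α : A} (h : IsIntegral ℤ α) :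
    minpoly (𝓞 F) (genO F h) = minpoly (𝓞 F) α := by
  have h1 : minpoly (𝓞 F) (algebraMap (𝓞 F⟮α⟯) F⟮α⟯ (genO F h)) = minpoly (𝓞 F) (genO F h) :=
    minpoly.algebraMap_eq (FaithfulSMul.algebraMap_injective (𝓞 F⟮α⟯) F⟮α⟯) _
  have htower : IsScalarTower (𝓞 F) F⟮α⟯ A := by
    apply IsScalarTower.of_algebraMap_eq
    intro x
    rw [IsScalarTower.algebraMap_apply (𝓞 F) F A, IsScalarTower.algebraMap_apply (𝓞 F) F F⟮α⟯,
      ← IsScalarTower.algebraMap_apply F F⟮α⟯ A]
  have h2 : minpoly (𝓞 F) (algebraMap F⟮α⟯ A (AdjoinSimple.gen F α)) =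
      minpoly (𝓞 F) (AdjoinSimple.gen F α) :=
    minpoly.algebraMap_eq (FaithfulSMul.algebraMap_injective F⟮α⟯ A) _
  rw [← h1, genO_coe, ← h2, AdjoinSimple.algebraMap_gen]

variable [Algebra.IsAlgebraic F A]

omit [NumberField F] in
theorem house_gen_le {α : A} {H : ℝ} [NumberField F⟮α⟯] (h : Bd H α) :
    house (AdjoinSimple.gen F α) ≤ H := by
  rw [house_le_iff]
  apply (Bd_iff (F := F) F⟮α⟯ (AdjoinSimple.gen F α) H).1
  have : ((AdjoinSimple.gen F α : F⟮α⟯) : A) = α := AdjoinSimple.algebraMap_gen F α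
  rw [this]
  exact h

variable (F)

/-- Discriminant of a field generated by a small integer with a double point modulo `P`. -/
theorem discr_gain (p : ℕ) : ∃ C : ℝ, 0 < C ∧ ∀ (α : A) (H : ℝ), 1 ≤ H →
    α ∈ SS F A p H → ∀ _ : NumberField F⟮α⟯, ∀ (P : Ideal (𝓞 F)), P.IsPrime → P ≠ ⊥ →
      ∀ r : 𝓞 F, (minpoly (𝓞 F) α).eval r ∈ P ^ 2 → (minpoly (𝓞 F) α).derivative.eval r ∈ P →
      (Ideal.absNorm P : ℝ) ^ 2 * ((|discr F⟮α⟯| : ℤ) : ℝ) ≤
        C * H ^ (finrank ℚ F * (p * (p - 1))) := by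
  classical
  set d := finrank ℚ F with hd
  let W : ℝ := 1 + ∑ i, house (integralBasis F i)
  have hsum : 0 ≤ ∑ i, house (integralBasis F i) := Finset.sum_nonneg fun i _ => house_nonneg _
  have hW : 1 ≤ W := by simp only [W]; linarith
  have hWi : ∀ i, house (integralBasis F i) ≤ W := by
    intro i
    have := Finset.single_le_sum (f := fun i => house (integralBasis F i))
      (fun i _ => house_nonneg _) (Finset.mem_univ i)
    simp only [W]
    linarith
  refine ⟨((d * p).factorial : ℝ) ^ 2 * (W ^ 2) ^ (d * p), by positivity, ?_⟩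
  intro α H hH hα hNF P hP hP0 r hr hr'
  have hint : IsIntegral F α := hα.1.tower_top
  have hgenint : IsIntegral ℤ (AdjoinSimple.gen F α) := gen_isIntegral hα.1
  have hgenhouse : house (AdjoinSimple.gen F α) ≤ H := house_gen_le hα.2.2
  have hmap : ∀ x : F, house (algebraMap F F⟮α⟯ x) ≤ house x := by
    intro x
    rw [house_le_iff]
    intro φ
    exact norm_embedding_le_house x (φ.comp (algebraMap F F⟮α⟯))
  have hfr : finrank F F⟮α⟯ = p := by
    rw [IntermediateField.adjoin.finrank hint]; exact hα.2.1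
  have hmin : (minpoly F (AdjoinSimple.gen F α)).natDegree = p := by
    rw [← hα.2.1]
    congr 1
    have h2 : minpoly F (algebraMap F⟮α⟯ A (AdjoinSimple.gen F α)) =
        minpoly F (AdjoinSimple.gen F α) :=
      minpoly.algebraMap_eq (FaithfulSMul.algebraMap_injective F⟮α⟯ A) _
    rw [← h2, AdjoinSimple.algebraMap_gen]
  let pb := adjoin.powerBasis hint
  have hdim : pb.dim = p := by
    rw [← hα.2.1]; rfl
  let bx : Basis (Fin p) F F⟮α⟯ := pb.basis.reindex (finCongr hdim)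
  have hbx : ∀ i, bx i = (AdjoinSimple.gen F α) ^ (i : ℕ) := by
    intro i
    rw [Basis.reindex_apply, PowerBasis.basis_eq_pow]
    rfl
  let v := (integralBasis F).smulTower bx
  have hv : ∀ ij, v ij = algebraMap F F⟮α⟯ (integralBasis F ij.1) *
      (AdjoinSimple.gen F α) ^ (ij.2 : ℕ) := by
    intro ij
    rw [Basis.smulTower_apply, Algebra.smul_def, hbx]
  have hgain := index_gain (F := F) (L := F⟮α⟯) hfr (genO F hα.1) hmin bx hbx P hP hP0 r
    (by rw [minpoly_genO]; exact hr) (by rw [minpoly_genO]; exact hr')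
  have hcardι : Fintype.card (Free.ChooseBasisIndex ℤ (𝓞 F)) = d := by
    rw [hd, finrank_eq_card_basis (integralBasis F)]
  have hcard : Fintype.card (Free.ChooseBasisIndex ℤ (𝓞 F) × Fin p) = d * p := by
    rw [Fintype.card_prod, hcardι, Fintype.card_fin]
  have h1 := abs_discr_family_le (L := F⟮α⟯) v (by
      rw [finrank_eq_card_basis v])
    (fun ij => W * H ^ (ij.2 : ℕ)) (by
      intro ij
      rw [hv]
      refine (house_mul_le _ _).trans ?_
      apply mul_le_mul ((hmap _).trans (hWi _)) _ (house_nonneg _) (by linarith)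
      exact (house_pow_le _ _).trans (pow_le_pow_left₀ (house_nonneg _) hgenhouse _))
  have h0 : (Ideal.absNorm P : ℝ) ^ 2 * ((|discr F⟮α⟯| : ℤ) : ℝ) ≤
      ((|Algebra.discr ℚ v| : ℚ) : ℝ) := by
    have : (((Ideal.absNorm P : ℚ) ^ 2 * |(discr F⟮α⟯ : ℚ)| : ℚ) : ℝ) ≤
        ((|Algebra.discr ℚ v| : ℚ) : ℝ) := by exact_mod_cast hgain
    refine le_trans (le_of_eq ?_) this
    push_cast
    rfl
  refine h0.trans (h1.trans ?_)
  rw [hcard]
  rw [mul_assoc]
  apply mul_le_mul_of_nonneg_left _ (by positivity)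
  have h2 : ∏ i : Free.ChooseBasisIndex ℤ (𝓞 F) × Fin p, (W * H ^ (i.2 : ℕ)) ^ 2 =
      (W ^ 2) ^ (d * p) * H ^ (d * (p * (p - 1))) := by
    simp_rw [mul_pow]
    rw [Finset.prod_mul_distrib, Finset.prod_const, Finset.card_univ, hcard]
    congr 1
    rw [Fintype.prod_prod_type]
    simp only [Finset.prod_const, Finset.card_univ]
    rw [hcardι]
    rw [Fin.prod_univ_eq_prod_range (fun k => (H ^ k) ^ 2) p]
    rw [mul_comm d, pow_mul]
    congr 1
    have h3 : ∀ k, (H ^ k) ^ 2 = H ^ (k * 2) := fun k => by rw [← pow_mul]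
    simp_rw [h3]
    rw [Finset.prod_pow_eq_pow_sum, ← Finset.sum_mul, Finset.sum_range_id_mul_two]
  rw [h2]

variable {F}

omit [Algebra.IsAlgebraic F A] in
theorem ram_bound {α : A} (hα : IsIntegral ℤ α) [NumberField F⟮α⟯] (q : Ideal (𝓞 F))
    (hq : q.IsPrime) (hq0 : q ≠ ⊥) (s : 𝓞 F) (hs : (minpoly (𝓞 F) α).eval s ∈ q)
    (hs2 : (minpoly (𝓞 F) α).eval s ∉ q ^ 2) (hs' : (minpoly (𝓞 F) α).derivative.eval s ∈ q) :
    (Ideal.absNorm q : ℤ) ≤ |discr F⟮α⟯| := by
  apply absNorm_le_discr (genO F hα) q hq hq0 s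
  · rw [minpoly_genO]; exact hs
  · rw [minpoly_genO]; exact hs2
  · rw [minpoly_genO]; exact hs'

theorem house_algebraMap_le {L : Type*} [Field L] [NumberField L] [Algebra F L] (x : F) :
    house (algebraMap F L x) ≤ house x := by
  rw [house_le_iff]
  intro φ
  exact norm_embedding_le_house x (φ.comp (algebraMap F L))

theorem house_deriv {L : Type*} [Field L] [NumberField L] [Algebra F L] {n : ℕ} (α : 𝓞 L)
    {H : ℝ} (hH : 1 ≤ H) (hα : house (algebraMap (𝓞 L) L α) ≤ H) (c : Fin n → 𝓞 F)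
    (hc : ∀ k : Fin n, house (algebraMap (𝓞 F) F (c k)) ≤ H ^ (n - (k : ℕ))) :
    house (algebraMap (𝓞 L) L (aeval α (mkPoly n c).derivative)) ≤ ((n : ℝ) + 1) ^ 2 * H ^ n := by
  have h1 : aeval α (mkPoly n c).derivative = (n : 𝓞 L) * α ^ (n - 1) +
      ∑ k : Fin n, algebraMap (𝓞 F) (𝓞 L) (c k) * (((k : ℕ) : 𝓞 L) * α ^ ((k : ℕ) - 1)) := by
    rw [mkPoly, derivative_add, derivative_sum, map_add, map_sum]
    congr 1
    · rw [derivative_X_pow, map_mul, map_natCast, map_natCast, map_pow, aeval_X]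
    · apply Finset.sum_congr rfl
      intro k _
      rw [derivative_C_mul_X_pow, map_mul, aeval_C, map_mul, map_natCast, map_pow, aeval_X]
      ring
  rw [h1, map_add, map_mul, map_sum, map_natCast, map_pow]
  have hH0 : 0 ≤ H := by linarith
  have hpw : ∀ m : ℕ, house ((algebraMap (𝓞 L) L α) ^ m) ≤ H ^ m := fun m =>
    (house_pow_le _ _).trans (pow_le_pow_left₀ (house_nonneg _) hα _)
  have h2 : house ((n : L) * (algebraMap (𝓞 L) L α) ^ (n - 1)) ≤ (n : ℝ) * H ^ n := by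
    rw [house_nat_mul]
    apply mul_le_mul_of_nonneg_left _ (Nat.cast_nonneg _)
    exact (hpw _).trans (pow_le_pow_right₀ hH (by omega))
  have h3 : ∀ k : Fin n, house (algebraMap (𝓞 L) L (algebraMap (𝓞 F) (𝓞 L) (c k) *
      (((k : ℕ) : 𝓞 L) * α ^ ((k : ℕ) - 1)))) ≤ (n : ℝ) * H ^ n := by
    intro k
    rw [map_mul, map_mul, map_natCast, map_pow]
    refine (house_mul_le _ _).trans ?_
    rw [house_nat_mul]
    have h4 : house (algebraMap (𝓞 L) L (algebraMap (𝓞 F) (𝓞 L) (c k))) ≤ H ^ (n - (k : ℕ)) := by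
      rw [← IsScalarTower.algebraMap_apply (𝓞 F) (𝓞 L) L, IsScalarTower.algebraMap_apply (𝓞 F) F L]
      exact (house_algebraMap_le _).trans (hc k)
    calc house (algebraMap (𝓞 L) L (algebraMap (𝓞 F) (𝓞 L) (c k))) *
          ((k : ℕ) * house ((algebraMap (𝓞 L) L α) ^ ((k : ℕ) - 1)))
        ≤ H ^ (n - (k : ℕ)) * ((n : ℝ) * H ^ ((k : ℕ) - 1)) := by
          apply mul_le_mul h4 _ (by have := house_nonneg ((algebraMap (𝓞 L) L α) ^ ((k : ℕ) - 1)); positivity) (by positivity)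
          apply mul_le_mul _ (hpw _) (house_nonneg _) (Nat.cast_nonneg _)
          exact_mod_cast k.2.le
      _ = (n : ℝ) * H ^ (n - (k : ℕ) + ((k : ℕ) - 1)) := by rw [pow_add]; ring
      _ ≤ (n : ℝ) * H ^ n := by
          apply mul_le_mul_of_nonneg_left _ (Nat.cast_nonneg _)
          have := k.2
          exact pow_le_pow_right₀ hH (by omega)
  calc _ ≤ house ((n : L) * (algebraMap (𝓞 L) L α) ^ (n - 1)) + house (∑ k : Fin n,
        algebraMap (𝓞 L) L (algebraMap (𝓞 F) (𝓞 L) (c k) *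
        (((k : ℕ) : 𝓞 L) * α ^ ((k : ℕ) - 1)))) := house_add_le _ _
    _ ≤ (n : ℝ) * H ^ n + ∑ k : Fin n, (n : ℝ) * H ^ n := by
        apply add_le_add h2
        refine (house_sum_le_sum_house _ _).trans ?_
        exact Finset.sum_le_sum fun k _ => h3 k
    _ = ((n : ℝ) + (n : ℝ) ^ 2) * H ^ n := by
        rw [Finset.sum_const, Finset.card_univ, Fintype.card_fin, nsmul_eq_mul]
        ring
    _ ≤ ((n : ℝ) + 1) ^ 2 * H ^ n := by
        apply mul_le_mul_of_nonneg_right _ (by positivity)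
        have : (0 : ℝ) ≤ n := Nat.cast_nonneg n
        nlinarith

/-- few large primes admit a double root of the minimal polynomial -/
theorem overcount {n : ℕ} {α : A} {H : ℝ} (hH : 1 ≤ H) (hα : α ∈ SS F A n H)
    (c : Fin n → 𝓞 F) (hmin : minpoly (𝓞 F) α = mkPoly n c)
    (hc : ∀ k : Fin n, house (algebraMap (𝓞 F) F (c k)) ≤ H ^ (n - (k : ℕ)))
    (S : Finset (Ideal (𝓞 F))) {Y : ℝ} (hY : 0 ≤ Y)
    (hS : ∀ q ∈ S, q.IsPrime ∧ q ≠ ⊥ ∧ Y ≤ Ideal.absNorm q ∧ ∃ s : 𝓞 F,
      (mkPoly n c).eval s ∈ q ∧ (mkPoly n c).derivative.eval s ∈ q) :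
    Y ^ S.card ≤ (((n : ℝ) + 1) ^ 2 * H ^ n) ^ (finrank ℚ F * n) := by
  have hint : IsIntegral F α := hα.1.tower_top
  have hfr : finrank F F⟮α⟯ = n := by
    rw [IntermediateField.adjoin.finrank hint]; exact hα.2.1
  have hnpos : 0 < n := by
    rw [← hα.2.1]; exact minpoly.natDegree_pos hint
  have hfd : FiniteDimensional F F⟮α⟯ :=
    FiniteDimensional.of_finrank_pos (by rw [hfr]; exact hnpos)
  have hnf : NumberField F⟮α⟯ := NumberField.of_module_finite F _
  have h1 := double_root_few (F := F) (genO F hα.1) S hY (by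
    rw [minpoly_genO, hmin]; exact hS)
  rw [minpoly_genO, hmin] at h1
  have h2 : finrank ℚ F⟮α⟯ = finrank ℚ F * n := by
    rw [← Module.finrank_mul_finrank ℚ F F⟮α⟯, hfr]
  rw [h2] at h1
  refine h1.trans ?_
  apply pow_le_pow_left₀ (house_nonneg _)
  exact house_deriv (genO F hα.1) hH (house_gen_le hα.2.2) c hc

end

end Pool.Agent.helper22
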