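import Mathlib
import Pool.Agent.helper22.Fields

set_option autoImplicit false

namespace Pool.Agent.helper22

open NumberField Module Polynomial
open scoped Pointwise

section

variable (F : Type*) [Field F] [NumberField F]

/-- index set for the integral basis -/
abbrev Idx := Free.ChooseBasisIndex ℤ (𝓞 F)

/-- the integer with given coordinates -/
noncomputable def cf (u : Idx F → ℤ) : 𝓞 F := ∑ i, u i • RingOfIntegers.basis F i

/-- a bound for the houses of the basis -/
noncomputable def WW : ℝ := 1 + ∑ i, house (algebraMap (𝓞 F) F (RingOfIntegers.basis F i))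

theorem one_le_WW : 1 ≤ WW F := by
  have : 0 ≤ ∑ i, house (algebraMap (𝓞 F) F (RingOfIntegers.basis F i)) :=
    Finset.sum_nonneg fun i _ => house_nonneg _
  rw [WW]; linarith

theorem cf_add (u u' : Idx F → ℤ) : cf F (u + u') = cf F u + cf F u' := by
  simp only [cf, Pi.add_apply, add_smul, Finset.sum_add_distrib]

theorem cf_zero : cf F 0 = 0 := by simp [cf]

theorem cf_injective : Function.Injective (cf F) := by
  have h1 : cf F = (RingOfIntegers.basis F).equivFun.symm := by
    funext v
    rw [Basis.equivFun_symm_apply]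
    rfl
  rw [h1]
  exact (RingOfIntegers.basis F).equivFun.symm.injective

theorem house_cf_le (u : Idx F → ℤ) (B : ℝ) (hB : ∀ i, |(u i : ℝ)| ≤ B) :
    house (algebraMap (𝓞 F) F (cf F u)) ≤ WW F * B := by
  have hB0 : (∑ i, house (algebraMap (𝓞 F) F (RingOfIntegers.basis F i))) * B ≤ WW F * B ∨
      IsEmpty (Idx F) := by
    rcases isEmpty_or_nonempty (Idx F) with h | ⟨⟨i⟩⟩
    · exact Or.inr h
    · left
      have : 0 ≤ B := (abs_nonneg _).trans (hB i)
      apply mul_le_mul_of_nonneg_right _ this
      rw [WW]; linarith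
  have hne : Nonempty (Idx F) := by
    have h1 : 0 < finrank ℤ (𝓞 F) := by
      rw [RingOfIntegers.rank]; exact finrank_pos
    rw [finrank_eq_card_basis (RingOfIntegers.basis F)] at h1
    exact Fintype.card_pos_iff.1 h1
  rcases hB0 with hB0 | h
  swap
  · exact absurd hne (not_nonempty_iff.2 h)
  refine le_trans ?_ hB0
  rw [cf, map_sum]
  refine (house_sum_le_sum_house _ _).trans ?_
  rw [Finset.sum_mul]
  apply Finset.sum_le_sum
  intro i _
  rw [zsmul_eq_mul, map_mul, map_intCast]
  refine (house_mul_le _ _).trans ?_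
  rw [house_intCast, mul_comm]
  apply mul_le_mul_of_nonneg_left _ (house_nonneg _)
  have := hB i
  push_cast
  exact this

/-- polynomial of degree at most `j` with given integral coordinates -/
noncomputable def polE (j : ℕ) : (Fin (j + 1) × Idx F → ℤ) →+ (𝓞 F)[X] where
  toFun v := ∑ l : Fin (j + 1), C (cf F (fun i => v (l, i))) * X ^ (l : ℕ)
  map_zero' := by
    apply Finset.sum_eq_zero
    intro l _
    have : (fun i : Idx F => (0 : Fin (j + 1) × Idx F → ℤ) (l, i)) = 0 := rfl
    rw [this, cf_zero, map_zero, zero_mul]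
  map_add' v v' := by
    rw [← Finset.sum_add_distrib]
    apply Finset.sum_congr rfl
    intro l _
    have : (fun i : Idx F => (v + v') (l, i)) = (fun i => v (l, i)) + (fun i => v' (l, i)) := rfl
    rw [this, cf_add, map_add, add_mul]

theorem polE_apply (j : ℕ) (v : Fin (j + 1) × Idx F → ℤ) :
    polE F j v = ∑ l : Fin (j + 1), C (cf F (fun i => v (l, i))) * X ^ (l : ℕ) := rfl

theorem polE_coeff (j : ℕ) (v : Fin (j + 1) × Idx F → ℤ) (l : Fin (j + 1)) :
    (polE F j v).coeff l = cf F (fun i => v (l, i)) := by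
  rw [polE_apply, finsetSum_coeff, Finset.sum_eq_single l]
  · simp
  · intro b _ hb
    rw [coeff_C_mul, coeff_X_pow, if_neg, mul_zero]
    intro h
    exact hb (Fin.ext h.symm)
  · simp

theorem polE_degree_lt (j : ℕ) (v : Fin (j + 1) × Idx F → ℤ) :
    (polE F j v).degree < ((j + 1 : ℕ) : WithBot ℕ) := by
  rw [polE_apply]
  exact Polynomial.degree_sum_fin_lt _

theorem polE_coeff_eq_zero (j : ℕ) (v : Fin (j + 1) × Idx F → ℤ) (l : ℕ) (hl : j < l) :
    (polE F j v).coeff l = 0 := by
  apply coeff_eq_zero_of_degree_lt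
  refine lt_of_lt_of_le (polE_degree_lt F j v) ?_
  exact_mod_cast hl

/-- the rational version of `polE` -/
noncomputable def evQ (j : ℕ) : (Fin (j + 1) × Idx F → ℚ) →ₗ[ℚ] F[X] where
  toFun u := ∑ e : Fin (j + 1) × Idx F, u e • (C (integralBasis F e.2) * X ^ (e.1 : ℕ))
  map_add' u u' := by
    simp only [Pi.add_apply, add_smul, Finset.sum_add_distrib]
  map_smul' q u := by
    simp only [Pi.smul_apply, smul_eq_mul, mul_smul, Finset.smul_sum, RingHom.id_apply]

theorem evQ_apply (j : ℕ) (u : Fin (j + 1) × Idx F → ℚ) :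
    evQ F j u = ∑ e : Fin (j + 1) × Idx F, u e • (C (integralBasis F e.2) * X ^ (e.1 : ℕ)) := rfl

theorem evQ_int (j : ℕ) (v : Fin (j + 1) × Idx F → ℤ) :
    evQ F j (fun e => (v e : ℚ)) = (polE F j v).map (algebraMap (𝓞 F) F) := by
  rw [evQ_apply, polE_apply, Fintype.sum_prod_type, Polynomial.map_sum]
  apply Finset.sum_congr rfl
  intro l _
  rw [Polynomial.map_mul, Polynomial.map_pow, map_C, map_X, cf, map_sum, map_sum, Finset.sum_mul]
  apply Finset.sum_congr rfl
  intro i _
  rw [integralBasis_apply, zsmul_eq_mul, map_mul, map_intCast, C_mul, ← smul_mul_assoc,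
    Algebra.smul_def]
  congr 2
  simp

theorem C_mul_X_pow_mem (j : ℕ) (c : F) (l : ℕ) (hl : l ≤ j) :
    C c * X ^ l ∈ LinearMap.range (evQ F j) := by
  classical
  refine ⟨fun e => if (e.1 : ℕ) = l then (integralBasis F).repr c e.2 else 0, ?_⟩
  rw [evQ_apply, Fintype.sum_prod_type, Finset.sum_eq_single ⟨l, by omega⟩]
  · simp only [if_true]
    conv_rhs => rw [← (integralBasis F).sum_repr c]
    rw [map_sum, Finset.sum_mul]
    apply Finset.sum_congr rfl
    intro i _
    rw [← smul_mul_assoc]
    congr 1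
    rw [Polynomial.smul_C]
  · intro l' _ hl'
    apply Finset.sum_eq_zero
    intro i _
    rw [if_neg, zero_smul]
    intro h
    exact hl' (Fin.ext h)
  · simp


/-- products of pairs from a full rank family span all polynomials of degree at most `2j` -/
theorem span_products (j : ℕ) (v : Fin (j + 1) × Idx F → (Fin (j + 1) × Idx F → ℤ))
    (hv : LinearIndependent ℚ (fun e0 => (fun e => (v e0 e : ℚ))))
    (G : F[X]) (hG : G.natDegree ≤ 2 * j) :
    ∃ q : (Fin (j + 1) × Idx F) × (Fin (j + 1) × Idx F) → ℚ,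
      G = ∑ x, q x • ((polE F j (v x.1)).map (algebraMap (𝓞 F) F) *
        (polE F j (v x.2)).map (algebraMap (𝓞 F) F)) := by
  classical
  set b : Fin (j + 1) × Idx F → F[X] := fun e => (polE F j (v e)).map (algebraMap (𝓞 F) F) with hb
  set v' : Fin (j + 1) × Idx F → (Fin (j + 1) × Idx F → ℚ) := fun e0 => (fun e => (v e0 e : ℚ))
    with hv'
  have htop : Submodule.span ℚ (Set.range v') = ⊤ := by
    have hne : Nonempty (Idx F) := by
      have h1 : 0 < finrank ℤ (𝓞 F) := by
        rw [RingOfIntegers.rank]; exact finrank_pos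
      rw [finrank_eq_card_basis (RingOfIntegers.basis F)] at h1
      exact Fintype.card_pos_iff.1 h1
    apply LinearIndependent.span_eq_top_of_card_eq_finrank hv
    rw [Module.finrank_fintype_fun_eq_card]
  have hbv : b = fun e => evQ F j (v' e) := by
    funext e
    rw [hb, hv', evQ_int]
  have hspan : Submodule.span ℚ (Set.range b) = LinearMap.range (evQ F j) := by
    have h1 : Set.range b = (evQ F j) '' (Set.range v') := by
      rw [hbv, ← Set.range_comp]
      rfl
    rw [h1, ← Submodule.map_span, htop, Submodule.map_top]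
  have hmem : G ∈ Submodule.span ℚ (Set.range b) * Submodule.span ℚ (Set.range b) := by
    rw [G.as_sum_range_C_mul_X_pow]
    apply Submodule.sum_mem
    intro l hl
    have hl' : l ≤ 2 * j := by
      have := Finset.mem_range.1 hl
      omega
    have h2 : C (G.coeff l) * X ^ l = (C (G.coeff l) * X ^ (min l j)) * (C 1 * X ^ (l - min l j)) := by
      rw [C_1, one_mul, mul_assoc, ← pow_add]
      congr 2
      omega
    rw [h2, hspan]
    apply Submodule.mul_mem_mul
    · exact C_mul_X_pow_mem F j _ _ (min_le_right _ _)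
    · apply C_mul_X_pow_mem F j _ _
      omega
  rw [Submodule.span_mul_span] at hmem
  have h3 : Set.range b * Set.range b =
      Set.range (fun x : (Fin (j + 1) × Idx F) × (Fin (j + 1) × Idx F) => b x.1 * b x.2) := by
    ext g
    rw [Set.mem_mul]
    constructor
    · rintro ⟨_, ⟨e, rfl⟩, _, ⟨e', rfl⟩, rfl⟩
      exact ⟨(e, e'), rfl⟩
    · rintro ⟨x, rfl⟩
      exact ⟨_, ⟨x.1, rfl⟩, _, ⟨x.2, rfl⟩, rfl⟩
  rw [h3, Submodule.mem_span_range_iff_exists_fun] at hmem
  obtain ⟨q, hq⟩ := hmem
  exact ⟨q, hq.symm⟩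

theorem house_rat_smul {L : Type*} [Field L] [NumberField L] (q : ℚ) (x : L) :
    house (q • x) ≤ |(q : ℝ)| * house x := by
  rw [house_le_iff]
  intro φ
  rw [Algebra.smul_def, map_mul, norm_mul, eq_ratCast, map_ratCast, Complex.norm_ratCast]
  apply mul_le_mul_of_nonneg_left (norm_embedding_le_house _ _) (abs_nonneg _)

/-- rounding: every polynomial is congruent to a small one modulo the products -/
theorem rounding (j : ℕ) (v : Fin (j + 1) × Idx F → (Fin (j + 1) × Idx F → ℤ))
    (hv : LinearIndependent ℚ (fun e0 => (fun e => (v e0 e : ℚ)))) {h B : ℝ} (hh : 0 ≤ h)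
    (hB : ∀ e l, house (algebraMap (𝓞 F) F ((polE F j (v e)).coeff l)) * h ^ l ≤ B)
    (G : (𝓞 F)[X]) (hG : G.natDegree ≤ 2 * j) :
    ∃ t : (Fin (j + 1) × Idx F) × (Fin (j + 1) × Idx F) → ℤ,
      ∀ l, l ≤ 2 * j → house (algebraMap (𝓞 F) F ((G - ∑ x, t x •
        (polE F j (v x.1) * polE F j (v x.2))).coeff l)) * h ^ l ≤
        (Fintype.card (Fin (j + 1) × Idx F) : ℝ) ^ 2 * ((2 * j + 1) * B ^ 2) := by
  classical
  obtain ⟨q, hq⟩ := span_products F j v hv (G.map (algebraMap (𝓞 F) F))
    ((natDegree_map_le).trans hG)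
  refine ⟨fun x => ⌊q x⌋, ?_⟩
  intro l hl
  have hB0 : ∀ e l, 0 ≤ house (algebraMap (𝓞 F) F ((polE F j (v e)).coeff l)) * h ^ l :=
    fun e l => mul_nonneg (house_nonneg _) (pow_nonneg hh _)
  -- coefficient of a product
  have hprod : ∀ x : (Fin (j + 1) × Idx F) × (Fin (j + 1) × Idx F),
      house (algebraMap (𝓞 F) F ((polE F j (v x.1) * polE F j (v x.2)).coeff l)) * h ^ l ≤
        (2 * j + 1) * B ^ 2 := by
    intro x
    rw [coeff_mul, map_sum]
    calc house (∑ y ∈ Finset.HasAntidiagonal.antidiagonal l, algebraMap (𝓞 F) F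
          ((polE F j (v x.1)).coeff y.1 * (polE F j (v x.2)).coeff y.2)) * h ^ l
        ≤ (∑ y ∈ Finset.HasAntidiagonal.antidiagonal l, house (algebraMap (𝓞 F) F
          ((polE F j (v x.1)).coeff y.1 * (polE F j (v x.2)).coeff y.2))) * h ^ l := by
          apply mul_le_mul_of_nonneg_right (house_sum_le_sum_house _ _) (pow_nonneg hh _)
      _ = ∑ y ∈ Finset.HasAntidiagonal.antidiagonal l, house (algebraMap (𝓞 F) F
          ((polE F j (v x.1)).coeff y.1 * (polE F j (v x.2)).coeff y.2)) * h ^ l := by
          rw [Finset.sum_mul]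
      _ ≤ ∑ y ∈ Finset.HasAntidiagonal.antidiagonal l, B ^ 2 := by
          apply Finset.sum_le_sum
          intro y hy
          have hy' : y.1 + y.2 = l := Finset.HasAntidiagonal.mem_antidiagonal.1 hy
          rw [map_mul, ← hy', pow_add]
          calc house (algebraMap (𝓞 F) F ((polE F j (v x.1)).coeff y.1) *
                algebraMap (𝓞 F) F ((polE F j (v x.2)).coeff y.2)) * (h ^ y.1 * h ^ y.2)
              ≤ (house (algebraMap (𝓞 F) F ((polE F j (v x.1)).coeff y.1)) *
                house (algebraMap (𝓞 F) F ((polE F j (v x.2)).coeff y.2))) *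
                  (h ^ y.1 * h ^ y.2) := by
                apply mul_le_mul_of_nonneg_right (house_mul_le _ _)
                exact mul_nonneg (pow_nonneg hh _) (pow_nonneg hh _)
            _ = (house (algebraMap (𝓞 F) F ((polE F j (v x.1)).coeff y.1)) * h ^ y.1) *
                (house (algebraMap (𝓞 F) F ((polE F j (v x.2)).coeff y.2)) * h ^ y.2) := by ring
            _ ≤ B * B := mul_le_mul (hB _ _) (hB _ _) (hB0 _ _) ((hB0 _ _).trans (hB x.1 y.1))
            _ = B ^ 2 := by ring
      _ = (l + 1) * B ^ 2 := by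
          rw [Finset.sum_const, Finset.Nat.card_antidiagonal, nsmul_eq_mul]
          push_cast
          ring
      _ ≤ (2 * j + 1) * B ^ 2 := by
          apply mul_le_mul_of_nonneg_right _ (sq_nonneg _)
          have : (l : ℝ) ≤ 2 * j := by exact_mod_cast hl
          linarith
  -- the remainder
  have hrem : algebraMap (𝓞 F) F ((G - ∑ x, ⌊q x⌋ •
        (polE F j (v x.1) * polE F j (v x.2))).coeff l) = ∑ x, (Int.fract (q x)) •
        algebraMap (𝓞 F) F ((polE F j (v x.1) * polE F j (v x.2)).coeff l) := by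
    have h1 : algebraMap (𝓞 F) F (G.coeff l) = ∑ x, q x •
        algebraMap (𝓞 F) F ((polE F j (v x.1) * polE F j (v x.2)).coeff l) := by
      have h2 := congrArg (fun g => g.coeff l) hq
      simp only [coeff_map, finsetSum_coeff, coeff_smul] at h2
      rw [h2]
      apply Finset.sum_congr rfl
      intro x _
      rw [← Polynomial.map_mul, coeff_map]
    rw [coeff_sub, map_sub, h1, finsetSum_coeff, map_sum, ← Finset.sum_sub_distrib]
    apply Finset.sum_congr rfl
    intro x _
    rw [coeff_smul, zsmul_eq_mul, map_mul, map_intCast, Int.fract, sub_smul]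
    congr 1
    rw [Algebra.smul_def]
    simp
  rw [hrem]
  calc house (∑ x, (Int.fract (q x)) •
        algebraMap (𝓞 F) F ((polE F j (v x.1) * polE F j (v x.2)).coeff l)) * h ^ l
      ≤ (∑ x, house ((Int.fract (q x)) •
        algebraMap (𝓞 F) F ((polE F j (v x.1) * polE F j (v x.2)).coeff l))) * h ^ l := by
        apply mul_le_mul_of_nonneg_right (house_sum_le_sum_house _ _) (pow_nonneg hh _)
    _ = ∑ x, house ((Int.fract (q x)) •
        algebraMap (𝓞 F) F ((polE F j (v x.1) * polE F j (v x.2)).coeff l)) * h ^ l := by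
        rw [Finset.sum_mul]
    _ ≤ ∑ x : (Fin (j + 1) × Idx F) × (Fin (j + 1) × Idx F), (2 * j + 1) * B ^ 2 := by
        apply Finset.sum_le_sum
        intro x _
        refine le_trans ?_ (hprod x)
        apply mul_le_mul_of_nonneg_right _ (pow_nonneg hh _)
        refine (house_rat_smul _ _).trans ?_
        have h1 : |((Int.fract (q x) : ℚ) : ℝ)| ≤ 1 := by
          rw [abs_of_nonneg (by exact_mod_cast Int.fract_nonneg _)]
          exact_mod_cast (Int.fract_lt_one (q x)).le
        calc |((Int.fract (q x) : ℚ) : ℝ)| * house (algebraMap (𝓞 F) F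
              ((polE F j (v x.1) * polE F j (v x.2)).coeff l))
            ≤ 1 * house (algebraMap (𝓞 F) F
              ((polE F j (v x.1) * polE F j (v x.2)).coeff l)) :=
              mul_le_mul_of_nonneg_right h1 (house_nonneg _)
          _ = _ := one_mul _
    _ = _ := by
        rw [Finset.sum_const, Finset.card_univ, Fintype.card_prod (Fin (j + 1) × Idx F),
          nsmul_eq_mul]
        push_cast
        ring

end

end Pool.Agent.helper22
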