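import Mathlib
import Pool.Agent.helper22.PolyLat
import Pool.Agent.helper22.Over

set_option autoImplicit false

namespace Pool.Agent.helper22

open NumberField Module Polynomial

section

variable (F : Type*) [Field F] [NumberField F]

/-- no short vector vanishes at `r` modulo `P` and at `s` modulo `Q` -/
def Good (j : ℕ) (w : Fin (j + 1) × Idx F → ℕ) (P Q : Ideal (𝓞 F)) (r s : 𝓞 F) : Prop :=
  ∀ v : Fin (j + 1) × Idx F → ℤ, (polE F j v).eval r ∈ P → (polE F j v).eval s ∈ Q →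
    (∀ e, |v e| ≤ w e) → v = 0

variable {F}

theorem absNorm_le_house_of_mem (P : Ideal (𝓞 F)) {c : 𝓞 F} (hc : c ∈ P) (hc0 : c ≠ 0) :
    (Ideal.absNorm P : ℝ) ≤ house (algebraMap (𝓞 F) F c) ^ finrank ℚ F := by
  refine le_trans ?_ (absNorm_span_le_house c)
  have h1 : P ∣ Ideal.span {c} := by
    rw [Ideal.dvd_iff_le, Ideal.span_singleton_le_iff_mem]
    exact hc
  have h2 := map_dvd Ideal.absNorm h1
  have h3 : 0 < Ideal.absNorm (Ideal.span {c}) := by
    apply Nat.pos_of_ne_zero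
    rw [Ne, Ideal.absNorm_eq_zero_iff, Ideal.span_singleton_eq_bot]
    exact hc0
  exact_mod_cast Nat.le_of_dvd h3 h2

omit [NumberField F] in
open Classical in
/-- number of roots modulo `P` -/
theorem roots_mod_le (P : Ideal (𝓞 F)) (hP : P.IsPrime) [Fintype (𝓞 F ⧸ P)] (g : (𝓞 F)[X])
    (j : ℕ) (hdeg : g.natDegree ≤ j) (hne : g.map (Ideal.Quotient.mk P) ≠ 0) :
    (Finset.univ.filter (fun ρ : 𝓞 F ⧸ P => g.eval (Quotient.out ρ) ∈ P)).card ≤ j := by
  have hsub : Finset.univ.filter (fun ρ : 𝓞 F ⧸ P => g.eval (Quotient.out ρ) ∈ P) ⊆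
      (g.map (Ideal.Quotient.mk P)).roots.toFinset := by
    intro ρ hρ
    rw [Finset.mem_filter] at hρ
    rw [Multiset.mem_toFinset, mem_roots hne, IsRoot.def]
    have h1 : (Ideal.Quotient.mk P) (Quotient.out ρ) = ρ := Ideal.Quotient.mk_out ρ
    have h2 := (Ideal.Quotient.eq_zero_iff_mem (I := P)).2 hρ.2
    rw [← Polynomial.eval_map_apply, h1] at h2
    exact h2
  refine (Finset.card_le_card hsub).trans ?_
  refine (Multiset.toFinset_card_le _).trans ((card_roots' _).trans ?_)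
  exact natDegree_map_le.trans hdeg

theorem polE_map_ne_zero (j : ℕ) (P : Ideal (𝓞 F)) {wm : ℝ}
    (hP : ∀ c : 𝓞 F, c ≠ 0 → c ∈ P → WW F * wm < house (algebraMap (𝓞 F) F c))
    {v : Fin (j + 1) × Idx F → ℤ} (hv : v ≠ 0) (hvw : ∀ e, |(v e : ℝ)| ≤ wm) :
    (polE F j v).map (Ideal.Quotient.mk P) ≠ 0 := by
  intro h0
  apply hv
  have h1 : ∀ l : Fin (j + 1), cf F (fun i => v (l, i)) = 0 := by
    intro l
    by_contra hne
    have h2 : cf F (fun i => v (l, i)) ∈ P := by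
      rw [← polE_coeff, ← Ideal.Quotient.eq_zero_iff_mem, ← coeff_map, h0, coeff_zero]
    have h3 := hP _ hne h2
    have h4 := house_cf_le F (fun i => v (l, i)) wm (fun i => hvw _)
    linarith
  funext ⟨l, i⟩
  have h2 : (fun i => v (l, i)) = 0 := by
    apply cf_injective
    rw [h1 l, cf_zero]
  exact congrFun h2 i

open Classical in
theorem bad_count (j : ℕ) (w : Fin (j + 1) × Idx F → ℕ) {wm : ℝ} (hwm : ∀ e, (w e : ℝ) ≤ wm)
    (P Q : Ideal (𝓞 F)) (hP : P.IsPrime) (hQ : Q.IsPrime) [Fintype (𝓞 F ⧸ P)]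
    [Fintype (𝓞 F ⧸ Q)]
    (hP1 : ∀ c : 𝓞 F, c ≠ 0 → c ∈ P → WW F * wm < house (algebraMap (𝓞 F) F c))
    (hQ1 : ∀ c : 𝓞 F, c ≠ 0 → c ∈ Q → WW F * wm < house (algebraMap (𝓞 F) F c)) :
    (Finset.univ.filter (fun x : (𝓞 F ⧸ P) × (𝓞 F ⧸ Q) =>
      ¬ Good F j w P Q (Quotient.out x.1) (Quotient.out x.2))).card ≤
      j * j * ∏ e, (2 * w e + 1) := by
  let V : Finset (Fin (j + 1) × Idx F → ℤ) :=
    (Fintype.piFinset (fun e => Finset.Icc (-(w e : ℤ)) (w e))).erase 0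
  have hV : V.card ≤ ∏ e, (2 * w e + 1) := by
    refine (Finset.card_erase_le).trans ?_
    rw [Fintype.card_piFinset]
    apply le_of_eq
    apply Finset.prod_congr rfl
    intro e _
    rw [Int.card_Icc]
    omega
  have hVmem : ∀ v ∈ V, v ≠ 0 ∧ ∀ e, |(v e : ℝ)| ≤ wm := by
    intro v hv
    rw [Finset.mem_erase] at hv
    refine ⟨hv.1, ?_⟩
    intro e
    have h1 := (Fintype.mem_piFinset.1 hv.2) e
    rw [Finset.mem_Icc] at h1
    refine le_trans ?_ (hwm e)
    rw [abs_le]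
    constructor
    · exact_mod_cast h1.1
    · exact_mod_cast h1.2
  have hdeg : ∀ v, (polE F j v).natDegree ≤ j := by
    intro v
    rw [natDegree_le_iff_coeff_eq_zero]
    intro l hl
    exact polE_coeff_eq_zero F j v l hl
  have hsub : Finset.univ.filter (fun x : (𝓞 F ⧸ P) × (𝓞 F ⧸ Q) =>
      ¬ Good F j w P Q (Quotient.out x.1) (Quotient.out x.2)) ⊆
      V.biUnion (fun v =>
        (Finset.univ.filter (fun ρ : 𝓞 F ⧸ P => (polE F j v).eval (Quotient.out ρ) ∈ P)) ×ˢ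
        (Finset.univ.filter (fun ρ : 𝓞 F ⧸ Q => (polE F j v).eval (Quotient.out ρ) ∈ Q))) := by
    rintro ⟨ρ, σ⟩ hx
    rw [Finset.mem_filter, Good] at hx
    obtain ⟨_, hx⟩ := hx
    push Not at hx
    obtain ⟨v, h1, h2, h3, h4⟩ := hx
    rw [Finset.mem_biUnion]
    refine ⟨v, ?_, ?_⟩
    · rw [Finset.mem_erase]
      refine ⟨h4, ?_⟩
      rw [Fintype.mem_piFinset]
      intro e
      rw [Finset.mem_Icc, ← abs_le]
      exact h3 e
    · rw [Finset.mem_product, Finset.mem_filter, Finset.mem_filter]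
      exact ⟨⟨Finset.mem_univ _, h1⟩, ⟨Finset.mem_univ _, h2⟩⟩
  refine (Finset.card_le_card hsub).trans (Finset.card_biUnion_le.trans ?_)
  calc _ ≤ ∑ v ∈ V, j * j := by
        apply Finset.sum_le_sum
        intro v hv
        rw [Finset.card_product]
        exact Nat.mul_le_mul
          (roots_mod_le P hP _ j (hdeg v) (polE_map_ne_zero j P hP1 (hVmem v hv).1 (hVmem v hv).2))
          (roots_mod_le Q hQ _ j (hdeg v) (polE_map_ne_zero j Q hQ1 (hVmem v hv).1 (hVmem v hv).2))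
    _ = V.card * (j * j) := by rw [Finset.sum_const, smul_eq_mul]
    _ ≤ (∏ e, (2 * w e + 1)) * (j * j) := Nat.mul_le_mul_right _ hV
    _ = _ := by ring

end

end Pool.Agent.helper22
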