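import Mathlib

set_option autoImplicit false

namespace Pool.Agent.helper22

open Module

section

variable {E : Type*} [Fintype E] [DecidableEq E]

/-- Pigeonhole with a long direction: a kernel vector which is large in one coordinate. -/
theorem pigeon {T : Type*} [AddCommGroup T] [Fintype T] (Φ : (E → ℤ) →+ T) (w : E → ℕ)
    (s K : ℕ) (hcard : Fintype.card T < s * ∏ e, (w e + 1))
    (hgood : ∀ v : E → ℤ, Φ v = 0 → (∀ e, |v e| ≤ w e) → v = 0) (e0 : E) :
    ∃ v : E → ℤ, Φ v = 0 ∧ (∀ e, e ≠ e0 → |v e| ≤ w e) ∧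
      ((K : ℤ) - 1) * w e0 ≤ v e0 ∧ v e0 ≤ ((s : ℤ) * K + 1) * w e0 := by
  classical
  let g : Fin s × (∀ e, Fin (w e + 1)) → (E → ℤ) := fun x =>
    fun e => ((x.2 e : ℕ) : ℤ) + (if e = e0 then ((x.1 : ℕ) : ℤ) * (K * w e0) else 0)
  have hlt : Fintype.card T < Fintype.card (Fin s × (∀ e, Fin (w e + 1))) := by
    rw [Fintype.card_prod, Fintype.card_fin, Fintype.card_pi]
    simpa using hcard
  obtain ⟨x, y, hxy, hΦ⟩ := Fintype.exists_ne_map_eq_of_card_lt (fun x => Φ (g x)) hlt
  have key : ∀ x y : Fin s × (∀ e, Fin (w e + 1)), Φ (g x) = Φ (g y) → y.1 < x.1 →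
      ∃ v : E → ℤ, Φ v = 0 ∧ (∀ e, e ≠ e0 → |v e| ≤ w e) ∧
      ((K : ℤ) - 1) * w e0 ≤ v e0 ∧ v e0 ≤ ((s : ℤ) * K + 1) * w e0 := by
    intro x y h hlt
    refine ⟨g x - g y, ?_, ?_, ?_, ?_⟩
    · rw [map_sub, h, sub_self]
    · intro e he
      have h1 := (x.2 e).2
      have h2 := (y.2 e).2
      simp only [g, Pi.sub_apply, if_neg he, add_zero]
      rw [abs_le]
      constructor <;> omega
    · have h1 := (x.2 e0).2
      have h2 := (y.2 e0).2
      have h3 : ((y.1 : ℕ) : ℤ) + 1 ≤ ((x.1 : ℕ) : ℤ) := by exact_mod_cast hlt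
      simp only [g, Pi.sub_apply, if_true]
      have h4 : (0 : ℤ) ≤ (K : ℤ) * w e0 := by positivity
      have h5 : ((y.2 e0 : ℕ) : ℤ) ≤ w e0 := by exact_mod_cast Nat.lt_succ_iff.1 h2
      have h6 : (0 : ℤ) ≤ ((x.2 e0 : ℕ) : ℤ) := by positivity
      nlinarith
    · have h1 := (x.2 e0).2
      have h2 := (y.2 e0).2
      have h3 : ((x.1 : ℕ) : ℤ) ≤ (s : ℤ) := by exact_mod_cast x.1.2.le
      simp only [g, Pi.sub_apply, if_true]
      have h4 : (0 : ℤ) ≤ (K : ℤ) * w e0 := by positivity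
      have h5 : ((x.2 e0 : ℕ) : ℤ) ≤ w e0 := by exact_mod_cast Nat.lt_succ_iff.1 h1
      have h6 : (0 : ℤ) ≤ ((y.2 e0 : ℕ) : ℤ) := by positivity
      have h7 : (0 : ℤ) ≤ ((y.1 : ℕ) : ℤ) := by positivity
      nlinarith
  rcases lt_trichotomy x.1 y.1 with h | h | h
  · exact key y x hΦ.symm h
  · exfalso
    apply hxy
    have h0 : g x - g y = 0 := by
      apply hgood
      · rw [map_sub]
        exact sub_eq_zero.2 hΦ
      · intro e
        have h1 := (x.2 e).2
        have h2 := (y.2 e).2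
        have h3 : (g x - g y) e = ((x.2 e : ℕ) : ℤ) - ((y.2 e : ℕ) : ℤ) := by
          simp only [g, Pi.sub_apply, h]
          ring
        rw [h3, abs_le]
        constructor <;> omega
    have h1 : x.2 = y.2 := by
      funext e
      have h3 : (g x - g y) e = ((x.2 e : ℕ) : ℤ) - ((y.2 e : ℕ) : ℤ) := by
        simp only [g, Pi.sub_apply, h]
        ring
      rw [h0, Pi.zero_apply] at h3
      apply Fin.ext
      omega
    exact Prod.ext h h1
  · exact key x y hΦ h

/-- a strongly diagonally dominant family of integer vectors is linearly independent -/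
theorem indep_of_dominant (v : E → E → ℤ) (w : E → ℕ) (hw : ∀ e, 1 ≤ w e)
    (h1 : ∀ e0 e, e ≠ e0 → |v e0 e| ≤ w e)
    (h2 : ∀ e0, (Fintype.card E : ℤ) * w e0 ≤ v e0 e0) :
    LinearIndependent ℚ (fun e0 : E => (fun e : E => (v e0 e : ℚ))) := by
  classical
  let A : Matrix E E ℚ := fun i j => (v i j : ℚ)
  let B : Matrix E E ℚ := fun i j => (v i j : ℚ) / w j
  have hw' : ∀ e, (0 : ℚ) < w e := fun e => by exact_mod_cast hw e
  have hAB : A = Matrix.of fun i j => (w j : ℚ) * B i j := by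
    ext i j
    simp only [A, B, Matrix.of_apply]
    have := (hw' j).ne'
    field_simp
  have hB : B.det ≠ 0 := by
    apply det_ne_zero_of_sum_row_lt_diag
    intro k
    have h3 : ∑ j ∈ Finset.univ.erase k, ‖B k j‖ ≤ ∑ j ∈ Finset.univ.erase k, (1 : ℝ) := by
      apply Finset.sum_le_sum
      intro j hj
      have hjk : j ≠ k := Finset.ne_of_mem_erase hj
      have h4 := h1 k j hjk
      rw [← Rat.norm_cast_real, Real.norm_eq_abs]
      simp only [B]
      push_cast
      rw [abs_div, div_le_one (by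
        have := hw' j
        have h5 : (0 : ℝ) < w j := by exact_mod_cast this
        exact abs_pos.2 h5.ne')]
      rw [Nat.abs_cast]
      exact_mod_cast h4
    refine lt_of_le_of_lt h3 ?_
    rw [Finset.sum_const, Finset.card_erase_of_mem (Finset.mem_univ k), Finset.card_univ,
      nsmul_eq_mul, mul_one]
    have h5 : (Fintype.card E : ℝ) ≤ ‖B k k‖ := by
      rw [← Rat.norm_cast_real, Real.norm_eq_abs]
      simp only [B]
      push_cast
      have h6 : (0 : ℝ) < w k := by exact_mod_cast hw' k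
      rw [abs_div, Nat.abs_cast, le_div_iff₀ h6]
      refine le_trans ?_ (le_abs_self _)
      exact_mod_cast h2 k
    refine lt_of_lt_of_le ?_ h5
    have hpos : 0 < Fintype.card E := Fintype.card_pos_iff.2 ⟨k⟩
    exact_mod_cast Nat.sub_lt hpos Nat.one_pos
  have hA : A.det ≠ 0 := by
    rw [hAB, Matrix.det_mul_row]
    apply mul_ne_zero _ hB
    exact Finset.prod_ne_zero_iff.2 fun e _ => (hw' e).ne'
  exact Matrix.linearIndependent_rows_of_det_ne_zero hA

end

end Pool.Agent.helper22
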