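import Mathlib
import Pool.Agent.helper22.GoodPairs
import Pool.Agent.helper22.Pigeon

set_option autoImplicit false

namespace Pool.Agent.helper22

open NumberField Module Polynomial

section

/-- counting in cosets -/
theorem coset_count {G : Type*} [AddCommGroup G] (Λ : AddSubgroup G) (hΛ : Λ.index ≠ 0)
    (B₁ B : Finset G) (hadd : ∀ x ∈ B₁, ∀ y ∈ B₁, x + y ∈ B)
    (hsmall : ∀ g : G, ∃ g' ∈ B₁, g - g' ∈ Λ) (g₀ : G) (S : Finset G)
    (hS : ∀ x ∈ B, x - g₀ ∈ Λ → x ∈ S) :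
    B₁.card ≤ Λ.index * S.card := by
  classical
  have hfin : Finite (G ⧸ Λ) := by
    have h : Nat.card (G ⧸ Λ) ≠ 0 := hΛ
    exact (Nat.finite_of_card_ne_zero h)
  have : Fintype (G ⧸ Λ) := Fintype.ofFinite _
  let π : G → G ⧸ Λ := fun x => (x : G ⧸ Λ)
  have h1 : B₁.card = ∑ q : G ⧸ Λ, (B₁.filter (fun x : G => π x = q)).card :=
    Finset.card_eq_sum_card_fiberwise (f := π) (t := Finset.univ)
      (fun x _ => Finset.mem_coe.2 (Finset.mem_univ _))
  rw [h1]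
  have h2 : ∀ q : G ⧸ Λ, (B₁.filter (fun x : G => π x = q)).card ≤ S.card := by
    intro q
    obtain ⟨c, rfl⟩ := QuotientAddGroup.mk_surjective q
    obtain ⟨g', hg', hg''⟩ := hsmall (g₀ - c)
    apply Finset.card_le_card_of_injOn (fun x => x + g')
    · intro x hx
      rw [Finset.mem_coe, Finset.mem_filter] at hx
      rw [Finset.mem_coe]
      apply hS _ (hadd x hx.1 g' hg')
      have h3 : -c + x ∈ Λ := QuotientAddGroup.eq.1 hx.2.symm
      have h4 : x + g' - g₀ = (-c + x) - (g₀ - c - g') := by abel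
      rw [h4]
      exact Λ.sub_mem h3 hg''
    · intro x _ y _ hxy
      exact add_right_cancel hxy
  calc ∑ q : G ⧸ Λ, (B₁.filter (fun x : G => π x = q)).card
      ≤ ∑ q : G ⧸ Λ, S.card := Finset.sum_le_sum fun q _ => h2 q
    _ = Fintype.card (G ⧸ Λ) * S.card := by
        rw [Finset.sum_const, Finset.card_univ, smul_eq_mul]
    _ = Λ.index * S.card := by
        rw [AddSubgroup.index, Nat.card_eq_fintype_card]

end

section

variable {F : Type*} [Field F]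

/-- polynomials with a double zero at `r` modulo `P` (and value zero modulo `P^2`) -/
def dbl (P : Ideal (𝓞 F)) (r : 𝓞 F) : AddSubgroup (𝓞 F)[X] where
  carrier := {g | g.eval r ∈ P ^ 2 ∧ g.derivative.eval r ∈ P}
  zero_mem' := by simp
  add_mem' := by
    rintro a b ⟨h1, h2⟩ ⟨h3, h4⟩
    refine ⟨?_, ?_⟩
    · rw [eval_add]; exact (P ^ 2).add_mem h1 h3
    · rw [derivative_add, eval_add]; exact P.add_mem h2 h4
  neg_mem' := by
    rintro a ⟨h1, h2⟩
    refine ⟨?_, ?_⟩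
    · rw [eval_neg]; exact (P ^ 2).neg_mem h1
    · rw [derivative_neg, eval_neg]; exact P.neg_mem h2

theorem mem_dbl {P : Ideal (𝓞 F)} {r : 𝓞 F} {g : (𝓞 F)[X]} :
    g ∈ dbl P r ↔ g.eval r ∈ P ^ 2 ∧ g.derivative.eval r ∈ P := Iff.rfl

theorem mul_mem_dbl {P : Ideal (𝓞 F)} {r : 𝓞 F} {a b : (𝓞 F)[X]} (ha : a.eval r ∈ P)
    (hb : b.eval r ∈ P) : a * b ∈ dbl P r := by
  refine ⟨?_, ?_⟩
  · rw [eval_mul, pow_two]; exact Ideal.mul_mem_mul ha hb
  · rw [derivative_mul, eval_add, eval_mul, eval_mul]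
    exact P.add_mem (P.mul_mem_left _ hb) (P.mul_mem_right _ ha)

theorem C_mul_mem_dbl {P : Ideal (𝓞 F)} {r : 𝓞 F} {a : (𝓞 F)[X]} (c : 𝓞 F) (ha : a ∈ dbl P r) :
    C c * a ∈ dbl P r := by
  refine ⟨?_, ?_⟩
  · rw [eval_mul, eval_C]; exact (P ^ 2).mul_mem_left _ ha.1
  · rw [derivative_C_mul, eval_mul, eval_C]; exact P.mul_mem_left _ ha.2

/-- polynomial with given coefficients -/
noncomputable def polc (n : ℕ) : (Fin n → 𝓞 F) →+ (𝓞 F)[X] where
  toFun c := ∑ k : Fin n, C (c k) * X ^ (k : ℕ)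
  map_zero' := by simp
  map_add' c c' := by
    rw [← Finset.sum_add_distrib]
    apply Finset.sum_congr rfl
    intro k _
    rw [Pi.add_apply, map_add, add_mul]

theorem polc_apply (n : ℕ) (c : Fin n → 𝓞 F) :
    polc n c = ∑ k : Fin n, C (c k) * X ^ (k : ℕ) := rfl

theorem polc_coeff (n : ℕ) (c : Fin n → 𝓞 F) (k : Fin n) : (polc n c).coeff k = c k := by
  rw [polc_apply, finsetSum_coeff, Finset.sum_eq_single k]
  · simp
  · intro b _ hb
    rw [coeff_C_mul, coeff_X_pow, if_neg, mul_zero]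
    intro h
    exact hb (Fin.ext h.symm)
  · simp

theorem polc_natDegree_le (n : ℕ) (c : Fin (n + 1) → 𝓞 F) : (polc (n + 1) c).natDegree ≤ n := by
  have h : (polc (n + 1) c).degree < ((n + 1 : ℕ) : WithBot ℕ) := Polynomial.degree_sum_fin_lt _
  rw [natDegree_le_iff_coeff_eq_zero]
  intro l hl
  apply coeff_eq_zero_of_degree_lt
  refine lt_of_lt_of_le h ?_
  exact_mod_cast hl

theorem polc_of_natDegree_le (n : ℕ) (g : (𝓞 F)[X]) (hg : g.natDegree ≤ n) :
    polc (n + 1) (fun k => g.coeff k) = g := by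
  rw [polc_apply, Fin.sum_univ_eq_sum_range (fun k => C (g.coeff k) * X ^ k)]
  rw [← g.as_sum_range_C_mul_X_pow' (Nat.lt_succ_iff.2 hg)]

variable [NumberField F]

/-- the lattice of conditions has index at most `N(P)^3 N(Q)^3` -/
theorem index_dbl_le (n : ℕ) (P Q : Ideal (𝓞 F)) (hP : P ≠ ⊥) (hQ : Q ≠ ⊥) (r s : 𝓞 F) :
    ((dbl P r ⊓ dbl Q s).comap (polc (F := F) n)).index ≠ 0 ∧
    ((dbl P r ⊓ dbl Q s).comap (polc (F := F) n)).index ≤
      Ideal.absNorm P ^ 3 * Ideal.absNorm Q ^ 3 := by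
  let T := ((𝓞 F) ⧸ P ^ 2) × ((𝓞 F) ⧸ P) × ((𝓞 F) ⧸ Q ^ 2) × ((𝓞 F) ⧸ Q)
  have hP2 : P ^ 2 ≠ ⊥ := pow_ne_zero 2 hP
  have hQ2 : Q ^ 2 ≠ ⊥ := pow_ne_zero 2 hQ
  have f1 : Finite ((𝓞 F) ⧸ P ^ 2) := Ideal.finiteQuotientOfFreeOfNeBot _ hP2
  have f2 : Finite ((𝓞 F) ⧸ P) := Ideal.finiteQuotientOfFreeOfNeBot _ hP
  have f3 : Finite ((𝓞 F) ⧸ Q ^ 2) := Ideal.finiteQuotientOfFreeOfNeBot _ hQ2
  have f4 : Finite ((𝓞 F) ⧸ Q) := Ideal.finiteQuotientOfFreeOfNeBot _ hQ
  let Ψ : (Fin n → 𝓞 F) →+ T :=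
    { toFun := fun c => (Ideal.Quotient.mk (P ^ 2) ((polc n c).eval r),
        Ideal.Quotient.mk P ((polc n c).derivative.eval r),
        Ideal.Quotient.mk (Q ^ 2) ((polc n c).eval s),
        Ideal.Quotient.mk Q ((polc n c).derivative.eval s))
      map_zero' := by
        simp only [map_zero, eval_zero]
        rfl
      map_add' := by
        intro c c'
        simp only [map_add, eval_add]
        rfl }
  have hker : (dbl P r ⊓ dbl Q s).comap (polc (F := F) n) = Ψ.ker := by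
    ext c
    rw [AddSubgroup.mem_comap, AddSubgroup.mem_inf, mem_dbl, mem_dbl, AddMonoidHom.mem_ker]
    constructor
    · rintro ⟨⟨h1, h2⟩, h3, h4⟩
      refine Prod.ext ?_ (Prod.ext ?_ (Prod.ext ?_ ?_))
      · exact Ideal.Quotient.eq_zero_iff_mem.2 h1
      · exact Ideal.Quotient.eq_zero_iff_mem.2 h2
      · exact Ideal.Quotient.eq_zero_iff_mem.2 h3
      · exact Ideal.Quotient.eq_zero_iff_mem.2 h4
    · intro h
      have h1 := congrArg (fun x : T => x.1) h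
      have h2 := congrArg (fun x : T => x.2.1) h
      have h3 := congrArg (fun x : T => x.2.2.1) h
      have h4 := congrArg (fun x : T => x.2.2.2) h
      exact ⟨⟨Ideal.Quotient.eq_zero_iff_mem.1 h1, Ideal.Quotient.eq_zero_iff_mem.1 h2⟩,
        Ideal.Quotient.eq_zero_iff_mem.1 h3, Ideal.Quotient.eq_zero_iff_mem.1 h4⟩
  rw [hker, AddSubgroup.index_ker]
  have hfinT : Finite T := inferInstance
  refine ⟨Nat.card_pos.ne', ?_⟩
  have h1 : Nat.card Ψ.range ≤ Nat.card T :=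
    Nat.card_le_card_of_injective _ Subtype.coe_injective
  refine h1.trans (le_of_eq ?_)
  have hc : ∀ I : Ideal (𝓞 F), Nat.card ((𝓞 F) ⧸ I) = Ideal.absNorm I := fun I => by
    rw [Ideal.absNorm_apply, Submodule.cardQuot_apply]
  rw [Nat.card_prod, Nat.card_prod, Nat.card_prod, hc, hc, hc, hc, map_pow, map_pow]
  ring

end

end Pool.Agent.helper22
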