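import Mathlib
import Pool.Agent.helper22.Cosets

set_option autoImplicit false

namespace Pool.Agent.helper22

open NumberField Module Polynomial

section

variable (F : Type*) [Field F] [NumberField F]

/-- the constant in the small representative lemma -/
noncomputable def CE (j s₀ : ℕ) : ℝ := (Fintype.card (Fin (j + 1) × Idx F) : ℝ) ^ 2 *
  ((2 * j + 1) * (WW F * (s₀ * (Fintype.card (Fin (j + 1) × Idx F) + 1) + 1)) ^ 2)

variable {F}

theorem small_rep (j : ℕ) (w : Fin (j + 1) × Idx F → ℕ) (hw : ∀ e, 1 ≤ w e) (P Q : Ideal (𝓞 F))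
    (hP : P ≠ ⊥) (hQ : Q ≠ ⊥) (s₀ : ℕ)
    (hcard : Ideal.absNorm P * Ideal.absNorm Q < s₀ * ∏ e, (w e + 1)) (r s : 𝓞 F)
    (hgood : Good F j w P Q r s) {h Bw : ℝ} (hh : 0 ≤ h)
    (hBw : ∀ e : Fin (j + 1) × Idx F, (w e : ℝ) * h ^ (e.1 : ℕ) ≤ Bw)
    (G : (𝓞 F)[X]) (hG : G.natDegree ≤ 2 * j) :
    ∃ G₁ : (𝓞 F)[X], G₁.natDegree ≤ 2 * j ∧ G - G₁ ∈ dbl P r ⊓ dbl Q s ∧
      ∀ l, l ≤ 2 * j → house (algebraMap (𝓞 F) F (G₁.coeff l)) * h ^ l ≤ CE F j s₀ * Bw ^ 2 := by
  classical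
  set K : ℕ := Fintype.card (Fin (j + 1) × Idx F) + 1 with hK
  have f2 : Finite ((𝓞 F) ⧸ P) := Ideal.finiteQuotientOfFreeOfNeBot _ hP
  have f4 : Finite ((𝓞 F) ⧸ Q) := Ideal.finiteQuotientOfFreeOfNeBot _ hQ
  have F2 : Fintype ((𝓞 F) ⧸ P) := Fintype.ofFinite _
  have F4 : Fintype ((𝓞 F) ⧸ Q) := Fintype.ofFinite _
  let Φ : (Fin (j + 1) × Idx F → ℤ) →+ ((𝓞 F) ⧸ P) × ((𝓞 F) ⧸ Q) :=
    { toFun := fun v => (Ideal.Quotient.mk P ((polE F j v).eval r),
        Ideal.Quotient.mk Q ((polE F j v).eval s))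
      map_zero' := by
        simp only [map_zero, eval_zero]
        rfl
      map_add' := by
        intro c c'
        simp only [map_add, eval_add]
        rfl }
  have hΦ : ∀ v, Φ v = 0 → (polE F j v).eval r ∈ P ∧ (polE F j v).eval s ∈ Q := by
    intro v hv
    have h1 := congrArg (fun x : ((𝓞 F) ⧸ P) × ((𝓞 F) ⧸ Q) => x.1) hv
    have h2 := congrArg (fun x : ((𝓞 F) ⧸ P) × ((𝓞 F) ⧸ Q) => x.2) hv
    exact ⟨Ideal.Quotient.eq_zero_iff_mem.1 h1, Ideal.Quotient.eq_zero_iff_mem.1 h2⟩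
  have hcard' : Fintype.card (((𝓞 F) ⧸ P) × ((𝓞 F) ⧸ Q)) < s₀ * ∏ e, (w e + 1) := by
    rw [Fintype.card_prod, ← Nat.card_eq_fintype_card, ← Nat.card_eq_fintype_card]
    rw [Ideal.absNorm_apply, Submodule.cardQuot_apply, Ideal.absNorm_apply,
      Submodule.cardQuot_apply] at hcard
    exact hcard
  have hpig := fun e0 => pigeon Φ w s₀ K hcard' (fun v hv hvw =>
    hgood v (hΦ v hv).1 (hΦ v hv).2 hvw) e0
  choose v hv1 hv2 hv3 hv4 using hpig
  have hind : LinearIndependent ℚ (fun e0 => (fun e => (v e0 e : ℚ))) := by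
    apply indep_of_dominant v w hw hv2
    intro e0
    have := hv3 e0
    rw [hK] at this
    push_cast at this
    have h1 : ((Fintype.card (Fin (j + 1) × Idx F) : ℤ) + 1 - 1) * (w e0 : ℤ) =
        (Fintype.card (Fin (j + 1) × Idx F) : ℤ) * (w e0 : ℤ) := by ring
    rw [h1] at this
    exact this
  have hbound : ∀ e0 e, |(v e0 e : ℝ)| ≤ ((s₀ : ℝ) * K + 1) * w e := by
    intro e0 e
    have hsK : (0 : ℝ) ≤ (s₀ : ℝ) * K := by positivity
    have hwe : (0 : ℝ) ≤ w e := by positivity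
    by_cases he : e = e0
    · subst he
      have h1 : (0 : ℤ) ≤ v e e := by
        refine le_trans ?_ (hv3 e)
        rw [hK]
        push_cast
        have : (0 : ℤ) ≤ (Fintype.card (Fin (j + 1) × Idx F) : ℤ) * (w e : ℤ) := by positivity
        linarith
      rw [abs_of_nonneg (by exact_mod_cast h1)]
      exact_mod_cast hv4 e
    · have h1 := hv2 e0 e he
      have h2 : |(v e0 e : ℝ)| ≤ w e := by exact_mod_cast h1
      nlinarith
  set B : ℝ := WW F * (((s₀ : ℝ) * K + 1) * Bw) with hB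
  have hWW := one_le_WW F
  have hBw0 : ∀ e : Fin (j + 1) × Idx F, 0 ≤ Bw := fun e =>
    le_trans (by positivity) (hBw e)
  have hBcoef : ∀ e l, house (algebraMap (𝓞 F) F ((polE F j (v e)).coeff l)) * h ^ l ≤ B := by
    intro e l
    have hBpos : 0 ≤ B := by
      have := hBw0 e
      positivity
    by_cases hl : l ≤ j
    · have h1 := polE_coeff F j (v e) ⟨l, by omega⟩
      simp only at h1
      rw [h1]
      -- max over i of w (l,i)
      by_cases hh0 : h ^ l = 0
      · rw [hh0, mul_zero]; exact hBpos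
      have hhl : 0 < h ^ l := lt_of_le_of_ne (pow_nonneg hh _) (Ne.symm hh0)
      have h2 := house_cf_le F (fun i => v e (⟨l, by omega⟩, i)) (((s₀ : ℝ) * K + 1) * (Bw / h ^ l))
        (by
          intro i
          refine (hbound e _).trans ?_
          apply mul_le_mul_of_nonneg_left _ (by positivity)
          rw [le_div_iff₀ hhl]
          exact hBw (⟨l, by omega⟩, i))
      calc _ ≤ WW F * (((s₀ : ℝ) * K + 1) * (Bw / h ^ l)) * h ^ l :=
            mul_le_mul_of_nonneg_right h2 hhl.le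
        _ = B := by
            rw [hB]
            field_simp
    · rw [polE_coeff_eq_zero F j _ l (by omega), map_zero]
      have : house (0 : F) = 0 := by simp [house]
      rw [this, zero_mul]
      exact hBpos
  obtain ⟨t, ht⟩ := rounding F j v hind hh hBcoef G hG
  refine ⟨G - ∑ x, t x • (polE F j (v x.1) * polE F j (v x.2)), ?_, ?_, ?_⟩
  · refine (natDegree_sub_le _ _).trans (max_le hG ?_)
    apply natDegree_sum_le_of_forall_le
    intro x _
    refine (natDegree_smul_le _ _).trans ?_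
    refine natDegree_mul_le.trans ?_
    have hdeg : ∀ v, (polE F j v).natDegree ≤ j := by
      intro v
      rw [natDegree_le_iff_coeff_eq_zero]
      intro l hl
      exact polE_coeff_eq_zero F j v l hl
    have h1 := hdeg (v x.1)
    have h2 := hdeg (v x.2)
    omega
  · rw [sub_sub_cancel]
    apply AddSubgroup.sum_mem
    intro x _
    apply AddSubgroup.zsmul_mem
    exact ⟨mul_mem_dbl (hΦ _ (hv1 x.1)).1 (hΦ _ (hv1 x.2)).1,
      mul_mem_dbl (hΦ _ (hv1 x.1)).2 (hΦ _ (hv1 x.2)).2⟩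
  · intro l hl
    refine (ht l hl).trans (le_of_eq ?_)
    rw [CE, hB, hK]
    push_cast
    ring

end

end Pool.Agent.helper22
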