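import Mathlib
import Pool.Agent.helper22.SmallRep
import Pool.Agent.helper22.Lower

set_option autoImplicit false

namespace Pool.Agent.helper22

open NumberField Module Polynomial

section

variable {F : Type*} [Field F]

/-- the polynomials of the family -/
noncomputable def fpoly (n : ℕ) (π : 𝓞 F) (G : Fin n → 𝓞 F) : (𝓞 F)[X] :=
  X ^ n + C π + C (π ^ 2) * polc n G

/-- coefficients of the polynomials of the family -/
def fcoef {n : ℕ} (π : 𝓞 F) (G : Fin n → 𝓞 F) : Fin n → 𝓞 F :=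
  fun k => (if (k : ℕ) = 0 then π else 0) + π ^ 2 * G k

theorem fpoly_eq (n : ℕ) (hn : 0 < n) (π : 𝓞 F) (G : Fin n → 𝓞 F) :
    fpoly n π G = mkPoly n (fcoef π G) := by
  rw [fpoly, mkPoly, polc_apply, add_assoc]
  congr 1
  have h1 : ∀ k : Fin n, C (fcoef π G k) * X ^ (k : ℕ) =
      C (if (k : ℕ) = 0 then π else 0) * X ^ (k : ℕ) +
        C (π ^ 2) * (C (G k) * X ^ (k : ℕ)) := by
    intro k
    rw [fcoef, C_add, C_mul]
    ring
  simp_rw [h1]
  rw [Finset.sum_add_distrib, ← Finset.mul_sum]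
  congr 1
  rw [Finset.sum_eq_single ⟨0, hn⟩]
  · simp
  · intro k _ hk
    rw [if_neg, map_zero, zero_mul]
    intro h
    exact hk (Fin.ext h)
  · simp

theorem crt {R : Type*} [CommRing R] {I J : Ideal R} (h : IsCoprime I J) (a b : R) :
    ∃ x : R, x - a ∈ I ∧ x - b ∈ J := by
  rw [Ideal.isCoprime_iff_exists] at h
  obtain ⟨i, hi, j, hj, hij⟩ := h
  refine ⟨a * j + b * i, ?_, ?_⟩
  · have : a * j + b * i - a = i * (b - a) := by
      have : j = 1 - i := by rw [← hij]; ring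
      rw [this]; ring
    rw [this]
    exact I.mul_mem_right _ hi
  · have : a * j + b * i - b = j * (a - b) := by
      have : i = 1 - j := by rw [← hij]; ring
      rw [this]; ring
    rw [this]
    exact J.mul_mem_right _ hj

/-- existence of a member of the family with prescribed behaviour -/
theorem exists_member (m : ℕ) (hm : 1 ≤ m) (π : 𝓞 F) (P Q : Ideal (𝓞 F)) (hP : P.IsMaximal)
    (hQ : Q.IsMaximal) (hPQ : P ≠ Q) (hπP : π ∉ P) (hπQ : π ∉ Q) (r s u : 𝓞 F) :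
    ∃ G : Fin (m + 1) → 𝓞 F, fpoly (m + 1) π G ∈ dbl P r ∧
      (fpoly (m + 1) π G).eval s - u ∈ Q ^ 2 ∧ (fpoly (m + 1) π G).derivative.eval s ∈ Q := by
  have hcop : IsCoprime P Q := Ideal.isCoprime_of_isMaximal hPQ
  have hcop2 : IsCoprime (P ^ 2) (Q ^ 2) := hcop.pow
  -- inverse of π^2
  have hspan : ∀ I : Ideal (𝓞 F), I.IsMaximal → π ∉ I → IsCoprime (Ideal.span {π ^ 2}) (I ^ 2) := by
    intro I hI hπ
    have h1 : IsCoprime (Ideal.span {π}) I := by
      rw [Ideal.isCoprime_iff_sup_eq]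
      by_contra hne
      have h2 := hI.eq_of_le hne le_sup_right
      apply hπ
      rw [h2]
      exact (le_sup_left : Ideal.span {π} ≤ _) (Ideal.mem_span_singleton_self π)
    have h2 := h1.pow (m := 2) (n := 2)
    rwa [Ideal.span_singleton_pow] at h2
  have h3 : IsCoprime (Ideal.span {π ^ 2}) (P ^ 2 * Q ^ 2) :=
    (hspan P hP hπP).mul_right (hspan Q hQ hπQ)
  rw [Ideal.isCoprime_iff_exists] at h3
  obtain ⟨x, hx, y, hy, hxy⟩ := h3
  obtain ⟨t, rfl⟩ := Ideal.mem_span_singleton.1 hx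
  have hyP : y ∈ P ^ 2 := Ideal.mul_le_left hy
  have hyQ : y ∈ Q ^ 2 := Ideal.mul_le_right hy
  have ht : π ^ 2 * t = 1 - y := by rw [← hxy]; ring
  -- choose the coefficients
  obtain ⟨a, ha1, ha2⟩ := crt hcop (-((m + 1 : ℕ) * r ^ m)) (-((m + 1 : ℕ) * s ^ m))
  obtain ⟨b, hb1, hb2⟩ := crt hcop2 (-(r ^ (m + 1) + π) - π ^ 2 * (t * a) * r)
    (u - (s ^ (m + 1) + π) - π ^ 2 * (t * a) * s)
  refine ⟨fun k => (C (t * b) + C (t * a) * X : (𝓞 F)[X]).coeff k, ?_⟩
  have hpol : polc (m + 1) (fun k => (C (t * b) + C (t * a) * X : (𝓞 F)[X]).coeff k) =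
      C (t * b) + C (t * a) * X := by
    apply polc_of_natDegree_le
    refine (natDegree_add_le _ _).trans ?_
    rw [natDegree_C]
    exact max_le (Nat.zero_le _) ((natDegree_C_mul_le _ _).trans (natDegree_X_le.trans hm))
  have hev : ∀ z : 𝓞 F, (fpoly (m + 1) π
      (fun k => (C (t * b) + C (t * a) * X : (𝓞 F)[X]).coeff k)).eval z =
      z ^ (m + 1) + π + π ^ 2 * (t * b + t * a * z) := by
    intro z
    rw [fpoly, hpol]
    simp
  have hdev : ∀ z : 𝓞 F, (fpoly (m + 1) π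
      (fun k => (C (t * b) + C (t * a) * X : (𝓞 F)[X]).coeff k)).derivative.eval z =
      (m + 1 : ℕ) * z ^ m + π ^ 2 * (t * a) := by
    intro z
    rw [fpoly, hpol, derivative_add, derivative_add, derivative_C, derivative_C_mul,
      derivative_X_pow, derivative_add, derivative_C, derivative_C_mul, derivative_X]
    simp only [eval_add, eval_mul, eval_C, eval_pow, eval_X, add_zero, zero_add,
      mul_one, Nat.add_sub_cancel]
  refine ⟨⟨?_, ?_⟩, ?_, ?_⟩
  · rw [hev]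
    have e : r ^ (m + 1) + π + π ^ 2 * (t * b + t * a * r) =
        (b - (-(r ^ (m + 1) + π) - π ^ 2 * (t * a) * r)) - y * b := by
      linear_combination b * ht
    rw [e]
    exact (P ^ 2).sub_mem hb1 ((P ^ 2).mul_mem_right _ hyP)
  · rw [hdev]
    have e : (m + 1 : ℕ) * r ^ m + π ^ 2 * (t * a) =
        (a - (-((m + 1 : ℕ) * r ^ m))) - y * a := by
      linear_combination a * ht
    rw [e]
    refine P.sub_mem ha1 (P.mul_mem_right _ ?_)
    exact Ideal.pow_le_self two_ne_zero hyP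
  · rw [hev]
    have e : s ^ (m + 1) + π + π ^ 2 * (t * b + t * a * s) - u =
        (b - (u - (s ^ (m + 1) + π) - π ^ 2 * (t * a) * s)) - y * b := by
      linear_combination b * ht
    rw [e]
    exact (Q ^ 2).sub_mem hb2 ((Q ^ 2).mul_mem_right _ hyQ)
  · rw [hdev]
    have e : (m + 1 : ℕ) * s ^ m + π ^ 2 * (t * a) =
        (a - (-((m + 1 : ℕ) * s ^ m))) - y * a := by
      linear_combination a * ht
    rw [e]
    refine Q.sub_mem ha2 (Q.mul_mem_right _ ?_)
    exact Ideal.pow_le_self two_ne_zero hyQ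

variable [NumberField F]

variable (F) in
/-- the box of coefficient vectors -/
noncomputable def box {n : ℕ} (T : Fin n → ℝ) : Finset (Fin n → 𝓞 F) :=
  Fintype.piFinset (fun k => (finite_house_le F (T k)).toFinset)

theorem mem_box {n : ℕ} {T : Fin n → ℝ} {G : Fin n → 𝓞 F} :
    G ∈ box F T ↔ ∀ k, house (algebraMap (𝓞 F) F (G k)) ≤ T k := by
  rw [box, Fintype.mem_piFinset]
  constructor
  · intro h k
    have := h k
    rw [Set.Finite.mem_toFinset] at this
    exact this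
  · intro h k
    rw [Set.Finite.mem_toFinset]
    exact h k

omit [NumberField F] in
/-- index condition -/
def QP (n : ℕ) (π : 𝓞 F) (P : Ideal (𝓞 F)) (G : Fin n → 𝓞 F) : Prop :=
  ∃ r : 𝓞 F, fpoly n π G ∈ dbl P r

omit [NumberField F] in
/-- ramification condition -/
def RQ (n : ℕ) (π : 𝓞 F) (Q : Ideal (𝓞 F)) (G : Fin n → 𝓞 F) : Prop :=
  ∃ s : 𝓞 F, (fpoly n π G).eval s ∈ Q ∧ (fpoly n π G).eval s ∉ Q ^ 2 ∧
    (fpoly n π G).derivative.eval s ∈ Q

open Classical in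
theorem pair_lower (j : ℕ) (hj : 1 ≤ j) (π : 𝓞 F) (P Q : Ideal (𝓞 F)) (hP : P.IsPrime)
    (hQ : Q.IsPrime) (hP0 : P ≠ ⊥) (hQ0 : Q ≠ ⊥) (hPQ : P ≠ Q) (hπP : π ∉ P) (hπQ : π ∉ Q)
    [Fintype (𝓞 F ⧸ P)] [Fintype (𝓞 F ⧸ Q)]
    (w : Fin (j + 1) × Idx F → ℕ) (hw : ∀ e, 1 ≤ w e) (s₀ : ℕ)
    (hcard : Ideal.absNorm P * Ideal.absNorm Q < s₀ * ∏ e, (w e + 1))
    {h Bw : ℝ} (hh : 0 < h) (hBw : ∀ e : Fin (j + 1) × Idx F, (w e : ℝ) * h ^ (e.1 : ℕ) ≤ Bw)
    (T : Fin (2 * j + 1) → ℝ)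
    (hT : ∀ k : Fin (2 * j + 1), CE F j s₀ * Bw ^ 2 ≤ (T k / 2) * h ^ (k : ℕ)) :
    (Finset.univ.filter (fun x : (𝓞 F ⧸ P) × (𝓞 F ⧸ Q) =>
      Good F j w P Q (Quotient.out x.1) (Quotient.out x.2))).card * (Ideal.absNorm Q - 1) *
      (box F (fun k => T k / 2)).card ≤
    (2 * j + 1) ^ 2 * (Ideal.absNorm P ^ 3 * Ideal.absNorm Q ^ 3) *
      ((box F T).filter (fun G => QP (2 * j + 1) π P G ∧ RQ (2 * j + 1) π Q G)).card := by
  have hPm : P.IsMaximal := hP.isMaximal hP0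
  have hQm : Q.IsMaximal := hQ.isMaximal hQ0
  obtain ⟨ϖ, hϖ1, hϖ2⟩ := Ideal.exists_mem_pow_notMem_pow_succ Q hQ0 hQ.ne_top 1
  rw [pow_one] at hϖ1
  have hϖ2 : ϖ ∉ Q ^ 2 := hϖ2
  set good := Finset.univ.filter (fun x : (𝓞 F ⧸ P) × (𝓞 F ⧸ Q) =>
      Good F j w P Q (Quotient.out x.1) (Quotient.out x.2)) with hgood
  let 𝒯 : Finset (((𝓞 F ⧸ P) × (𝓞 F ⧸ Q)) × (𝓞 F ⧸ Q)) := good ×ˢ (Finset.univ.erase 0)
  have h𝒯 : 𝒯.card = good.card * (Ideal.absNorm Q - 1) := by
    rw [Finset.card_product, Finset.card_erase_of_mem (Finset.mem_univ _), Finset.card_univ,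
      Ideal.absNorm_apply, Submodule.cardQuot_apply, Nat.card_eq_fintype_card]
  let cond : (((𝓞 F ⧸ P) × (𝓞 F ⧸ Q)) × (𝓞 F ⧸ Q)) → (Fin (2 * j + 1) → 𝓞 F) → Prop := fun τ G =>
    fpoly (2 * j + 1) π G ∈ dbl P (Quotient.out τ.1.1) ∧
    (fpoly (2 * j + 1) π G).eval (Quotient.out τ.1.2) - (Quotient.out τ.2) * ϖ ∈ Q ^ 2 ∧
    (fpoly (2 * j + 1) π G).derivative.eval (Quotient.out τ.1.2) ∈ Q
  let S : (((𝓞 F ⧸ P) × (𝓞 F ⧸ Q)) × (𝓞 F ⧸ Q)) → Finset (Fin (2 * j + 1) → 𝓞 F) := fun τ =>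
    (box F T).filter (cond τ)
  -- each class is well populated
  have hclass : ∀ τ ∈ 𝒯, (box F (fun k => T k / 2)).card ≤
      (Ideal.absNorm P ^ 3 * Ideal.absNorm Q ^ 3) * (S τ).card := by
    rintro ⟨⟨ρ, σ⟩, c⟩ hτ
    have hg : Good F j w P Q (Quotient.out ρ) (Quotient.out σ) := by
      have := (Finset.mem_product.1 hτ).1
      exact (Finset.mem_filter.1 this).2
    set r : 𝓞 F := Quotient.out ρ with hr
    set s : 𝓞 F := Quotient.out σ with hs
    obtain ⟨hi0, hi⟩ := index_dbl_le (F := F) (2 * j + 1) P Q hP0 hQ0 r s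
    set Λ := (dbl P r ⊓ dbl Q s).comap (polc (F := F) (2 * j + 1)) with hΛ
    obtain ⟨G₀, hG1, hG2, hG3⟩ := exists_member (F := F) (2 * j) (by omega) π P Q hPm hQm hPQ
      hπP hπQ r s (Quotient.out c * ϖ)
    have hcount := coset_count Λ hi0 (box F (fun k => T k / 2)) (box F T) (by
        intro x hx y hy
        rw [mem_box] at hx hy ⊢
        intro k
        rw [Pi.add_apply, map_add]
        refine (house_add_le _ _).trans ?_
        have := hx k
        have := hy k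
        linarith) (by
        intro g
        obtain ⟨G₁, h1, h2, h3⟩ := small_rep j w hw P Q hP0 hQ0 s₀ hcard r s hg hh.le hBw
          (polc (2 * j + 1) g) (polc_natDegree_le (2 * j) g)
        refine ⟨fun k => G₁.coeff k, ?_, ?_⟩
        · rw [mem_box]
          intro k
          have h4 := h3 k (by have := k.2; omega)
          have h5 := h4.trans (hT k)
          exact le_of_mul_le_mul_right h5 (pow_pos hh _)
        · rw [hΛ, AddSubgroup.mem_comap, map_sub]
          have h6 : polc (2 * j + 1) (fun k : Fin (2 * j + 1) => G₁.coeff k) = G₁ := polc_of_natDegree_le (2 * j) G₁ h1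
          rw [h6]
          exact h2) G₀ (S ((ρ, σ), c)) (by
        intro x hx hxΛ
        rw [Finset.mem_filter]
        refine ⟨hx, ?_⟩
        rw [hΛ, AddSubgroup.mem_comap, map_sub] at hxΛ
        have e1 : fpoly (2 * j + 1) π x = fpoly (2 * j + 1) π G₀ + C (π ^ 2) * (polc (2 * j + 1) x - polc (2 * j + 1) G₀) := by
          rw [fpoly, fpoly]; ring
        refine ⟨?_, ?_, ?_⟩
        · rw [e1]
          exact (dbl P r).add_mem hG1 (C_mul_mem_dbl _ hxΛ.1)
        · have h7 := (C_mul_mem_dbl (π ^ 2) hxΛ.2).1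
          have h8 := (Q ^ 2).add_mem hG2 h7
          have e2 : (fpoly (2 * j + 1) π x).eval s - (Quotient.out c) * ϖ =
              (fpoly (2 * j + 1) π G₀).eval s - (Quotient.out c) * ϖ +
                (C (π ^ 2) * (polc (2 * j + 1) x - polc (2 * j + 1) G₀)).eval s := by
            rw [e1, eval_add]; ring
          rw [e2]
          exact h8
        · have h7 := (C_mul_mem_dbl (π ^ 2) hxΛ.2).2
          have h8 := Q.add_mem hG3 h7
          rw [e1, derivative_add, eval_add]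
          exact h8)
    refine hcount.trans ?_
    exact Nat.mul_le_mul_right _ hi
  -- double counting
  let Z : Finset ((((𝓞 F ⧸ P) × (𝓞 F ⧸ Q)) × (𝓞 F ⧸ Q)) × (Fin (2 * j + 1) → 𝓞 F)) :=
    (𝒯 ×ˢ (box F T)).filter (fun x => cond x.1 x.2)
  have hZcard : Z.card = ∑ τ ∈ 𝒯, (S τ).card := by
    rw [← Finset.card_sigma]
    refine Finset.card_bij' (fun x _ => (⟨x.1, x.2⟩ : Σ _ : _, (Fin (2 * j + 1) → 𝓞 F)))
      (fun x _ => (x.1, x.2)) ?hi ?hj ?hl ?hr
    case hi =>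
      intro x hx
      rw [Finset.mem_filter, Finset.mem_product] at hx
      rw [Finset.mem_sigma, Finset.mem_filter]
      exact ⟨hx.1.1, hx.1.2, hx.2⟩
    case hj =>
      intro x hx
      rw [Finset.mem_sigma, Finset.mem_filter] at hx
      rw [Finset.mem_filter, Finset.mem_product]
      exact ⟨⟨hx.1, hx.2.1⟩, hx.2.2⟩
    case hl => intro x _; rfl
    case hr => intro x _; rfl
  set 𝒮 := (box F T).filter (fun G => QP (2 * j + 1) π P G ∧ RQ (2 * j + 1) π Q G) with h𝒮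
  have hcunique : ∀ (a b : 𝓞 F) (x : 𝓞 F), x - a * ϖ ∈ Q ^ 2 → x - b * ϖ ∈ Q ^ 2 → a - b ∈ Q := by
    intro a b x h1 h2
    have h3 : (a - b) * ϖ ∈ Q ^ 2 := by
      have : (a - b) * ϖ = (x - b * ϖ) - (x - a * ϖ) := by ring
      rw [this]
      exact (Q ^ 2).sub_mem h2 h1
    rcases Ideal.IsPrime.mul_mem_pow Q h3 with h4 | h4
    · exact h4
    · exact absurd h4 hϖ2
  have hfmonic : ∀ G : Fin (2 * j + 1) → 𝓞 F, (fpoly (2 * j + 1) π G).Monic := by
    intro G
    rw [fpoly_eq (2 * j + 1) (by omega)]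
    exact mkPoly_monic _ _
  have hfdeg : ∀ G : Fin (2 * j + 1) → 𝓞 F, (fpoly (2 * j + 1) π G).natDegree = (2 * j + 1) := by
    intro G
    rw [fpoly_eq (2 * j + 1) (by omega)]
    exact mkPoly_natDegree _ _
  have hmapne : ∀ (I : Ideal (𝓞 F)), I.IsPrime → ∀ G : Fin (2 * j + 1) → 𝓞 F,
      (fpoly (2 * j + 1) π G).map (Ideal.Quotient.mk I) ≠ 0 := by
    intro I hI G
    exact ((hfmonic G).map _).ne_zero
  have hZ : Z.card ≤ ((2 * j + 1) * (2 * j + 1)) * 𝒮.card := by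
    have himg : Z.image (fun x => x.2) ⊆ 𝒮 := by
      intro G hG
      obtain ⟨⟨⟨⟨ρ, σ⟩, c⟩, G'⟩, hx, rfl⟩ := Finset.mem_image.1 hG
      rw [Finset.mem_filter, Finset.mem_product] at hx
      obtain ⟨⟨hx1, hx2⟩, hc1, hc2, hc3⟩ := hx
      have hc0 : c ≠ 0 := (Finset.mem_erase.1 (Finset.mem_product.1 hx1).2).1
      have hcQ : (Quotient.out c : 𝓞 F) ∉ Q := by
        intro hmem
        apply hc0
        rw [← Ideal.Quotient.mk_out c]
        exact Ideal.Quotient.eq_zero_iff_mem.2 hmem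
      rw [h𝒮, Finset.mem_filter]
      refine ⟨hx2, ⟨_, hc1⟩, ⟨Quotient.out σ, ?_, ?_, hc3⟩⟩
      · have h1 : (fpoly (2 * j + 1) π G').eval (Quotient.out σ) =
            ((fpoly (2 * j + 1) π G').eval (Quotient.out σ) - (Quotient.out c) * ϖ) +
              (Quotient.out c) * ϖ := by ring
        rw [h1]
        exact Q.add_mem (Ideal.pow_le_self two_ne_zero hc2) (Q.mul_mem_left _ hϖ1)
      · intro hmem
        apply hcQ
        have h1 := hcunique (Quotient.out c) 0 _ hc2 (by rw [zero_mul, sub_zero]; exact hmem)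
        rwa [sub_zero] at h1
    refine (Finset.card_le_mul_card_image Z ((2 * j + 1) * (2 * j + 1)) ?_).trans
      (Nat.mul_le_mul_left _ (Finset.card_le_card himg))
    intro G _
    have hsub : (Z.filter (fun x => x.2 = G)).card ≤
        ((Finset.univ.filter (fun ρ : 𝓞 F ⧸ P => (fpoly (2 * j + 1) π G).eval (Quotient.out ρ) ∈ P)) ×ˢ
        (Finset.univ.filter (fun ρ : 𝓞 F ⧸ Q => (fpoly (2 * j + 1) π G).eval (Quotient.out ρ) ∈ Q))).card := by
      apply Finset.card_le_card_of_injOn (fun x => x.1.1)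
      · intro x hx
        rw [Finset.mem_coe, Finset.mem_filter, Finset.mem_filter] at hx
        obtain ⟨⟨_, hc1, hc2, hc3⟩, rfl⟩ := hx
        rw [Finset.mem_coe, Finset.mem_product, Finset.mem_filter, Finset.mem_filter]
        refine ⟨⟨Finset.mem_univ _, Ideal.pow_le_self two_ne_zero hc1.1⟩, Finset.mem_univ _, ?_⟩
        have h1 : (fpoly (2 * j + 1) π x.2).eval (Quotient.out x.1.1.2) =
            ((fpoly (2 * j + 1) π x.2).eval (Quotient.out x.1.1.2) - (Quotient.out x.1.2) * ϖ) +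
              (Quotient.out x.1.2) * ϖ := by ring
        rw [h1]
        exact Q.add_mem (Ideal.pow_le_self two_ne_zero hc2) (Q.mul_mem_left _ hϖ1)
      · intro x hx y hy hxy
        rw [Finset.mem_coe, Finset.mem_filter, Finset.mem_filter] at hx hy
        obtain ⟨⟨_, hc1, hc2, hc3⟩, hxG⟩ := hx
        obtain ⟨⟨_, hd1, hd2, hd3⟩, hyG⟩ := hy
        have hxy' : x.1.1 = y.1.1 := hxy
        have hG : x.2 = y.2 := hxG.trans hyG.symm
        have hc : x.1.2 = y.1.2 := by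
          rw [← hxy', ← hG] at hd2
          have h1 := hcunique _ _ _ hc2 hd2
          rw [← Ideal.Quotient.mk_out x.1.2, ← Ideal.Quotient.mk_out y.1.2]
          exact Ideal.Quotient.eq.2 h1
        exact Prod.ext (Prod.ext hxy' hc) hG
    refine hsub.trans ?_
    rw [Finset.card_product]
    exact Nat.mul_le_mul
      (roots_mod_le P hP _ (2 * j + 1) (hfdeg G).le (hmapne P hP G))
      (roots_mod_le Q hQ _ (2 * j + 1) (hfdeg G).le (hmapne Q hQ G))
  calc good.card * (Ideal.absNorm Q - 1) * (box F (fun k => T k / 2)).card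
      = ∑ τ ∈ 𝒯, (box F (fun k => T k / 2)).card := by
        rw [Finset.sum_const, smul_eq_mul, h𝒯]
    _ ≤ ∑ τ ∈ 𝒯, (Ideal.absNorm P ^ 3 * Ideal.absNorm Q ^ 3) * (S τ).card :=
        Finset.sum_le_sum hclass
    _ = (Ideal.absNorm P ^ 3 * Ideal.absNorm Q ^ 3) * Z.card := by
        rw [← Finset.mul_sum, hZcard]
    _ ≤ (Ideal.absNorm P ^ 3 * Ideal.absNorm Q ^ 3) * (((2 * j + 1) * (2 * j + 1)) * 𝒮.card) :=
        Nat.mul_le_mul_left _ hZ
    _ = _ := by ring

end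

end Pool.Agent.helper22
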