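import Mathlib
import Pool.Agent.helper22.PairLower

set_option autoImplicit false

namespace Pool.Agent.helper22

open NumberField Module Polynomial

section

variable {F : Type*} [Field F] [NumberField F]

/-- sizes of the coefficients in the family -/
noncomputable def TT (n : ℕ) (π : 𝓞 F) (H : ℝ) : Fin n → ℝ := fun k =>
  (H / 2) ^ (n - (k : ℕ)) / (2 * (max 1 (house (algebraMap (𝓞 F) F π))) ^ 2)

theorem prod_w (j d : ℕ) (ι : Type*) [Fintype ι] (hd : Fintype.card ι = d) (κ h : ℝ) :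
    ∏ e : Fin (j + 1) × ι, (κ * h ^ (j - (e.1 : ℕ))) = κ ^ (d * (j + 1)) * h ^ (d * tri j) := by
  rw [Finset.prod_mul_distrib, Finset.prod_const, Finset.card_univ, Fintype.card_prod,
    Fintype.card_fin, hd, mul_comm (j + 1)]
  congr 1
  rw [Fintype.prod_prod_type]
  simp only [Finset.prod_const, Finset.card_univ]
  rw [hd]
  rw [Fin.prod_univ_castSucc]
  simp only [Fin.val_castSucc, Fin.val_last, Nat.sub_self, pow_zero, one_pow, mul_one]
  rw [tri, Finset.mul_sum, ← Finset.prod_pow_eq_pow_sum]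
  apply Finset.prod_congr rfl
  intro k _
  rw [← pow_mul]
  congr 1
  ring

variable (F) in
theorem card_Idx : Fintype.card (Idx F) = finrank ℚ F := by
  rw [← RingOfIntegers.rank F, finrank_eq_card_basis (RingOfIntegers.basis F)]

variable (F) in
theorem card_E (j : ℕ) : Fintype.card (Fin (j + 1) × Idx F) = finrank ℚ F * (j + 1) := by
  rw [Fintype.card_prod, Fintype.card_fin, card_Idx, mul_comm]

/-- lower bound for the size of the box -/
theorem box_lower (n : ℕ) (π : 𝓞 F) : ∃ c : ℝ, 0 < c ∧ ∀ H : ℝ, 0 ≤ H →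
    c * H ^ (finrank ℚ F * tri n) ≤ ((box F (fun k => TT n π H k / 2)).card : ℝ) := by
  classical
  obtain ⟨c₀, hc₀, hcnt⟩ := cnt_lower F
  set d := finrank ℚ F with hd
  set h : ℝ := max 1 (house (algebraMap (𝓞 F) F π)) with hh
  have h1 : 1 ≤ h := le_max_left _ _
  refine ⟨c₀ ^ n * (∏ k : Fin n, ((1 / 2 : ℝ) ^ (n - (k : ℕ)) / (4 * h ^ 2)) ^ d), ?_, ?_⟩
  · apply mul_pos (by positivity)
    apply Finset.prod_pos
    intro k _
    positivity
  intro H hH
  rw [box, Fintype.card_piFinset]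
  push_cast
  calc c₀ ^ n * (∏ k : Fin n, ((1 / 2 : ℝ) ^ (n - (k : ℕ)) / (4 * h ^ 2)) ^ d) *
      H ^ (d * tri n) = ∏ k : Fin n, (c₀ * (TT n π H k / 2) ^ d) := by
        rw [tri, Finset.mul_sum, ← Finset.prod_pow_eq_pow_sum, Finset.prod_mul_distrib,
          Finset.prod_const, Finset.card_univ, Fintype.card_fin, mul_assoc,
          ← Finset.prod_mul_distrib]
        congr 1
        apply Finset.prod_congr rfl
        intro k _
        rw [TT, mul_comm d, pow_mul, ← mul_pow]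
        congr 1
        rw [div_pow H 2, one_div, inv_pow, ← hh]
        field_simp
        ring
    _ ≤ ∏ k : Fin n, (((finite_house_le F (TT n π H k / 2)).toFinset.card : ℕ) : ℝ) := by
        apply Finset.prod_le_prod
        · intro k _
          rw [TT]
          positivity
        · intro k _
          have := hcnt (TT n π H k / 2) (by rw [TT]; positivity)
          rw [cnt, Set.ncard_eq_toFinset_card _ (finite_house_le F _)] at this
          exact this

open Classical in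
/-- many members of the family for each pair of primes -/
theorem pair_family (j : ℕ) (hj : 1 ≤ j) (π : 𝓞 F) (hπ0 : π ≠ 0) :
    ∃ c Ca ca Cb : ℝ, 0 < c ∧ 0 < Ca ∧ 0 < ca ∧ 0 < Cb ∧ ∀ H : ℝ, 1 ≤ H →
    ∀ P Q : Ideal (𝓞 F), P.IsPrime → Q.IsPrime → P ≠ ⊥ → Q ≠ ⊥ → P ≠ Q →
      Ca * H ^ (finrank ℚ F * tri j) ≤ (Ideal.absNorm P : ℝ) * Ideal.absNorm Q →
      ((Ideal.absNorm P : ℝ) * Ideal.absNorm Q) ^ 2 ≤ ca * H ^ (finrank ℚ F * (j + 1) ^ 2) →
      Cb * H ^ (finrank ℚ F * (2 * j + 1)) < (Ideal.absNorm P : ℝ) ^ 2 →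
      Cb * H ^ (finrank ℚ F * (2 * j + 1)) < (Ideal.absNorm Q : ℝ) ^ 2 →
      c * H ^ (finrank ℚ F * tri (2 * j + 1)) ≤
        (Ideal.absNorm P : ℝ) ^ 2 * Ideal.absNorm Q *
        (((box F (TT (2 * j + 1) π H)).filter
          (fun G => QP (2 * j + 1) π P G ∧ RQ (2 * j + 1) π Q G)).card : ℝ) := by
  set d := finrank ℚ F with hd
  have hdpos : 0 < d := finrank_pos
  obtain ⟨c₁, hc₁, hbox⟩ := box_lower (F := F) (2 * j + 1) π
  set h₀ : ℝ := max 1 (house (algebraMap (𝓞 F) F π)) with hh₀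
  have hh₀1 : 1 ≤ h₀ := le_max_left _ _
  set D := d * (j + 1) with hD
  have hDpos : 0 < D := by positivity
  set M₀ : ℕ := 2 * j ^ 2 * 3 ^ D with hM₀
  have hM₀pos : 0 < M₀ := by positivity
  set s₀ : ℕ := M₀ + 1 with hs₀
  have hCE : 0 < CE F j s₀ := by
    rw [CE]
    have := one_le_WW F
    have h1 : 0 < Fintype.card (Fin (j + 1) × Idx F) := by rw [card_E]; exact hDpos
    positivity
  set n := 2 * j + 1 with hn
  set e₁ : ℝ := 1 / (CE F j s₀ * 2 ^ (n + 2) * h₀ ^ 2) with he₁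
  have he₁pos : 0 < e₁ := by positivity
  have hWW := one_le_WW F
  refine ⟨c₁ / (4 * n ^ 2), M₀, (M₀ : ℝ) ^ 2 * e₁ ^ D, ((WW F) ^ 2 * e₁) ^ d + h₀ ^ (2 * d),
    by positivity, by positivity, by positivity, by positivity, ?_⟩
  intro H hH P Q hP hQ hP0 hQ0 hPQ hm1 hm2 hP2 hQ2
  have hHpos : 0 < H := by linarith
  have hNP : 0 < Ideal.absNorm P := by
    apply Nat.pos_of_ne_zero; rw [Ne, Ideal.absNorm_eq_zero_iff]; exact hP0
  have hNQ : 0 < Ideal.absNorm Q := by
    apply Nat.pos_of_ne_zero; rw [Ne, Ideal.absNorm_eq_zero_iff]; exact hQ0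
  set m : ℝ := (Ideal.absNorm P : ℝ) * Ideal.absNorm Q with hm
  have hmpos : 0 < m := by positivity
  -- the parameter κ
  set κ : ℝ := (m / (M₀ * H ^ (d * tri j))) ^ (1 / (D : ℝ)) with hκ
  have hbase : 1 ≤ m / (M₀ * H ^ (d * tri j)) := by
    rw [le_div_iff₀ (by positivity), one_mul]; exact hm1
  have hκ1 : 1 ≤ κ := Real.one_le_rpow hbase (by positivity)
  have hκpos : 0 < κ := by linarith
  have hκD : κ ^ D = m / (M₀ * H ^ (d * tri j)) := by
    rw [hκ, ← Real.rpow_natCast, ← Real.rpow_mul (by positivity), one_div,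
      inv_mul_cancel₀ (by exact_mod_cast hDpos.ne'), Real.rpow_one]
  have hκm : κ ^ D * H ^ (d * tri j) * M₀ = m := by
    rw [hκD]; field_simp
  have htri : 2 * (d * tri j) + D = d * (j + 1) ^ 2 := by
    have : 2 * tri j = j * (j + 1) := by
      rw [tri, Fin.sum_univ_eq_sum_range (fun k => j - k)]
      have h : ∑ k ∈ Finset.range j, (j - k) = ∑ k ∈ Finset.range j, (k + 1) := by
        rw [← Finset.sum_range_reflect]
        apply Finset.sum_congr rfl
        intro k hk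
        have := Finset.mem_range.1 hk
        omega
      rw [h, Finset.sum_add_distrib]
      have h2 := Finset.sum_range_id_mul_two j
      simp only [Finset.sum_const, Finset.card_range, smul_eq_mul, mul_one]
      rcases j with _ | j
      · simp
      · simp only [Nat.add_sub_cancel] at h2
        nlinarith
    rw [hD]
    calc 2 * (d * tri j) + d * (j + 1) = d * (2 * tri j) + d * (j + 1) := by ring
      _ = d * (j + 1) ^ 2 := by rw [this]; ring
  have hκ2 : κ ^ 2 ≤ e₁ * H := by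
    have h1 : (κ ^ 2) ^ D ≤ (e₁ * H) ^ D := by
      have h2 : (κ ^ D) ^ 2 * (H ^ (d * tri j)) ^ 2 * (M₀ : ℝ) ^ 2 ≤
          (M₀ : ℝ) ^ 2 * e₁ ^ D * H ^ (d * (j + 1) ^ 2) := by
        calc (κ ^ D) ^ 2 * (H ^ (d * tri j)) ^ 2 * (M₀ : ℝ) ^ 2 =
            (κ ^ D * H ^ (d * tri j) * M₀) ^ 2 := by ring
          _ = m ^ 2 := by rw [hκm]
          _ ≤ _ := hm2
      have hHsplit : H ^ (d * (j + 1) ^ 2) = (H ^ (d * tri j)) ^ 2 * H ^ D := by
        rw [← htri, pow_add]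
        congr 1
        rw [← pow_mul]
        congr 1
        ring
      rw [hHsplit] at h2
      have h3 : 0 < (H ^ (d * tri j)) ^ 2 * (M₀ : ℝ) ^ 2 := by positivity
      have h4 : (κ ^ 2) ^ D * ((H ^ (d * tri j)) ^ 2 * (M₀ : ℝ) ^ 2) ≤
          (e₁ * H) ^ D * ((H ^ (d * tri j)) ^ 2 * (M₀ : ℝ) ^ 2) := by
        calc (κ ^ 2) ^ D * ((H ^ (d * tri j)) ^ 2 * (M₀ : ℝ) ^ 2) =
            (κ ^ D) ^ 2 * (H ^ (d * tri j)) ^ 2 * (M₀ : ℝ) ^ 2 := by ring
          _ ≤ _ := h2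
          _ = _ := by rw [mul_pow]; ring
      exact le_of_mul_le_mul_right h4 h3
    exact le_of_pow_le_pow_left₀ hDpos.ne' (by positivity) h1
  -- the weights
  let w : Fin (j + 1) × Idx F → ℕ := fun e => ⌊κ * H ^ (j - (e.1 : ℕ))⌋₊
  have hwle : ∀ e, (w e : ℝ) ≤ κ * H ^ (j - (e.1 : ℕ)) := fun e => Nat.floor_le (by positivity)
  have hwlt : ∀ e, κ * H ^ (j - (e.1 : ℕ)) < w e + 1 := fun e => Nat.lt_floor_add_one _
  have hw1 : ∀ e, 1 ≤ w e := by
    intro e
    apply Nat.le_floor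
    have : 1 ≤ H ^ (j - (e.1 : ℕ)) := one_le_pow₀ hH
    push_cast
    nlinarith
  have hprod := prod_w j d (Idx F) (card_Idx F) κ H
  have hcard : Ideal.absNorm P * Ideal.absNorm Q < s₀ * ∏ e, (w e + 1) := by
    have h1 : κ ^ D * H ^ (d * tri j) ≤ ((∏ e, (w e + 1) : ℕ) : ℝ) := by
      rw [hD, ← hprod]
      push_cast
      apply Finset.prod_le_prod
      · intro e _; positivity
      · intro e _; exact (hwlt e).le
    have h2 : m < (s₀ : ℝ) * ((∏ e, (w e + 1) : ℕ) : ℝ) := by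
      have h3 : 0 < κ ^ D * H ^ (d * tri j) := by positivity
      calc m = (κ ^ D * H ^ (d * tri j)) * M₀ := by rw [hκm]
        _ < (κ ^ D * H ^ (d * tri j)) * (M₀ + 1) := by nlinarith
        _ ≤ ((∏ e, (w e + 1) : ℕ) : ℝ) * (M₀ + 1) := by gcongr
        _ = (s₀ : ℝ) * ((∏ e, (w e + 1) : ℕ) : ℝ) := by rw [hs₀]; push_cast; ring
    rw [hm] at h2
    exact_mod_cast h2
  have hprod3 : ((∏ e, (2 * w e + 1) : ℕ) : ℝ) ≤ 3 ^ D * (κ ^ D * H ^ (d * tri j)) := by
    have h1 : (3 : ℝ) ^ D * (κ ^ D * H ^ (d * tri j)) =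
        ∏ e : Fin (j + 1) × Idx F, (3 * (κ * H ^ (j - (e.1 : ℕ)))) := by
      rw [Finset.prod_mul_distrib, hprod, Finset.prod_const, Finset.card_univ, card_E]
    rw [h1]
    push_cast
    apply Finset.prod_le_prod
    · intro e _; positivity
    · intro e _
      have h2 := hwle e
      have h3 : (1 : ℝ) ≤ w e := by exact_mod_cast hw1 e
      linarith
  have hbad : j * j * (∏ e, (2 * w e + 1)) * 2 ≤ Ideal.absNorm P * Ideal.absNorm Q := by
    have h2 : ((j * j * (∏ e, (2 * w e + 1)) * 2 : ℕ) : ℝ) ≤ m := by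
      have h3 : ((j * j * (∏ e, (2 * w e + 1)) * 2 : ℕ) : ℝ) =
          (j : ℝ) * j * ((∏ e, (2 * w e + 1) : ℕ) : ℝ) * 2 := by push_cast; ring
      rw [h3]
      calc (j : ℝ) * j * ((∏ e, (2 * w e + 1) : ℕ) : ℝ) * 2
          ≤ (j : ℝ) * j * (3 ^ D * (κ ^ D * H ^ (d * tri j))) * 2 := by gcongr
        _ = κ ^ D * H ^ (d * tri j) * M₀ := by rw [hM₀]; push_cast; ring
        _ = m := hκm
    rw [hm] at h2
    exact_mod_cast h2
  have f2 : Finite ((𝓞 F) ⧸ P) := Ideal.finiteQuotientOfFreeOfNeBot _ hP0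
  have f4 : Finite ((𝓞 F) ⧸ Q) := Ideal.finiteQuotientOfFreeOfNeBot _ hQ0
  have F2 : Fintype ((𝓞 F) ⧸ P) := Fintype.ofFinite _
  have F4 : Fintype ((𝓞 F) ⧸ Q) := Fintype.ofFinite _
  set wm : ℝ := κ * H ^ j with hwm
  have hwmle : ∀ e, (w e : ℝ) ≤ wm := by
    intro e
    refine (hwle e).trans ?_
    apply mul_le_mul_of_nonneg_left _ hκpos.le
    exact pow_le_pow_right₀ hH (by omega)
  have hbig : ∀ I : Ideal (𝓞 F),
      (((WW F) ^ 2 * e₁) ^ d + h₀ ^ (2 * d)) * H ^ (d * n) < (Ideal.absNorm I : ℝ) ^ 2 →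
      (∀ c : 𝓞 F, c ≠ 0 → c ∈ I → WW F * wm < house (algebraMap (𝓞 F) F c)) ∧ π ∉ I := by
    intro I hI
    constructor
    · intro c hc0 hc
      by_contra hle
      push Not at hle
      have h1 := absNorm_le_house_of_mem I hc hc0
      have h2 : (Ideal.absNorm I : ℝ) ≤ (WW F * wm) ^ d :=
        h1.trans (pow_le_pow_left₀ (house_nonneg _) hle _)
      have h3 : (Ideal.absNorm I : ℝ) ^ 2 ≤ ((WW F) ^ 2 * e₁) ^ d * H ^ (d * n) := by
        calc (Ideal.absNorm I : ℝ) ^ 2 ≤ ((WW F * wm) ^ d) ^ 2 :=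
              pow_le_pow_left₀ (Nat.cast_nonneg _) h2 2
          _ = ((WW F) ^ 2 * (κ ^ 2 * H ^ (2 * j))) ^ d := by
              rw [← pow_mul, mul_comm d 2, pow_mul, hwm]
              congr 1
              rw [pow_mul]
              ring
          _ ≤ ((WW F) ^ 2 * (e₁ * H * H ^ (2 * j))) ^ d := by gcongr
          _ = ((WW F) ^ 2 * e₁) ^ d * H ^ (d * n) := by
              have hx : (WW F) ^ 2 * (e₁ * H * H ^ (2 * j)) = ((WW F) ^ 2 * e₁) * H ^ n := by
                rw [hn, pow_succ]; ring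
              rw [hx, mul_pow, ← pow_mul, mul_comm n d]
      have h4 : 0 < h₀ ^ (2 * d) * H ^ (d * n) := by positivity
      rw [add_mul] at hI
      linarith
    · intro hc
      have h1 := absNorm_le_house_of_mem I hc hπ0
      have h2 : (Ideal.absNorm I : ℝ) ≤ h₀ ^ d :=
        h1.trans (pow_le_pow_left₀ (house_nonneg _) (le_max_right _ _) _)
      have h3 : (Ideal.absNorm I : ℝ) ^ 2 ≤ h₀ ^ (2 * d) * H ^ (d * n) := by
        calc (Ideal.absNorm I : ℝ) ^ 2 ≤ (h₀ ^ d) ^ 2 :=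
              pow_le_pow_left₀ (Nat.cast_nonneg _) h2 2
          _ = h₀ ^ (2 * d) * 1 := by rw [← pow_mul, mul_comm d 2, mul_one]
          _ ≤ _ := by
              gcongr
              exact one_le_pow₀ hH
      have h4 : 0 < ((WW F) ^ 2 * e₁) ^ d * H ^ (d * n) := by positivity
      rw [add_mul] at hI
      linarith
  obtain ⟨hP1, hπP⟩ := hbig P hP2
  obtain ⟨hQ1, hπQ⟩ := hbig Q hQ2
  have hBw : ∀ e : Fin (j + 1) × Idx F, (w e : ℝ) * H ^ (e.1 : ℕ) ≤ wm := by
    intro e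
    have he : (e.1 : ℕ) ≤ j := Nat.lt_succ_iff.1 e.1.2
    calc (w e : ℝ) * H ^ (e.1 : ℕ) ≤ κ * H ^ (j - (e.1 : ℕ)) * H ^ (e.1 : ℕ) := by
          gcongr
          exact hwle e
      _ = wm := by
          rw [hwm, mul_assoc, ← pow_add, Nat.sub_add_cancel he]
  have hT : ∀ k : Fin (2 * j + 1), CE F j s₀ * wm ^ 2 ≤
      (TT (2 * j + 1) π H k / 2) * H ^ (k : ℕ) := by
    intro k
    have hk : (k : ℕ) ≤ 2 * j + 1 := k.2.le
    have h1 : (TT (2 * j + 1) π H k / 2) * H ^ (k : ℕ) =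
        H ^ (2 * j + 1) / (2 ^ (2 * j + 1 - (k : ℕ)) * 4 * h₀ ^ 2) := by
      rw [TT, ← hh₀, div_pow]
      have h2 : H ^ (2 * j + 1) = H ^ (2 * j + 1 - (k : ℕ)) * H ^ (k : ℕ) := by
        rw [← pow_add, Nat.sub_add_cancel hk]
      rw [h2]
      field_simp
      ring
    rw [h1]
    calc CE F j s₀ * wm ^ 2 = CE F j s₀ * (κ ^ 2 * H ^ (2 * j)) := by
          rw [hwm, mul_pow, ← pow_mul, mul_comm j 2]
      _ ≤ CE F j s₀ * (e₁ * H * H ^ (2 * j)) := by gcongr
      _ = H ^ (2 * j + 1) / (2 ^ (2 * j + 1 + 2) * h₀ ^ 2) := by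
          have hx : H ^ (2 * j + 1) = H * H ^ (2 * j) := by rw [pow_succ]; ring
          rw [he₁, hn, hx]
          field_simp
      _ ≤ H ^ (2 * j + 1) / (2 ^ (2 * j + 1 - (k : ℕ)) * 4 * h₀ ^ 2) := by
          apply div_le_div_of_nonneg_left (by positivity) (by positivity)
          have h2 : (2 : ℝ) ^ (2 * j + 1 + 2) = 2 ^ (2 * j + 1) * 4 := by
            rw [pow_add _ (2 * j + 1) 2]; norm_num
          rw [h2]
          gcongr
          · norm_num
          · omega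
  have hfinal := pair_lower j hj π P Q hP hQ hP0 hQ0 hPQ hπP hπQ w hw1 s₀ hcard hHpos hBw
    (TT (2 * j + 1) π H) hT
  have hbc := bad_count j w hwmle P Q hP hQ hP1 hQ1
  set good := (Finset.univ.filter (fun x : (𝓞 F ⧸ P) × (𝓞 F ⧸ Q) =>
      Good F j w P Q (Quotient.out x.1) (Quotient.out x.2))).card with hgood
  have hsum : good + (Finset.univ.filter (fun x : (𝓞 F ⧸ P) × (𝓞 F ⧸ Q) =>
      ¬ Good F j w P Q (Quotient.out x.1) (Quotient.out x.2))).card =
      Ideal.absNorm P * Ideal.absNorm Q := by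
    rw [hgood, Finset.card_filter_add_card_filter_not, Finset.card_univ, Fintype.card_prod,
      Ideal.absNorm_apply, Submodule.cardQuot_apply, Ideal.absNorm_apply,
      Submodule.cardQuot_apply, Nat.card_eq_fintype_card, Nat.card_eq_fintype_card]
  have hgood2 : Ideal.absNorm P * Ideal.absNorm Q ≤ 2 * good := by omega
  set S := (((box F (TT (2 * j + 1) π H)).filter
          (fun G => QP (2 * j + 1) π P G ∧ RQ (2 * j + 1) π Q G)).card) with hS
  have hNQ2 : 2 ≤ Ideal.absNorm Q := by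
    have h1 : Ideal.absNorm Q ≠ 1 := by
      rw [Ne, Ideal.absNorm_eq_one_iff]; exact hQ.ne_top
    omega
  have hNQ3 : Ideal.absNorm Q ≤ 2 * (Ideal.absNorm Q - 1) := by omega
  have hB := hbox H hHpos.le
  set B := (box F (fun k => TT (2 * j + 1) π H k / 2)).card with hBdef
  have h5 : Ideal.absNorm P * Ideal.absNorm Q * Ideal.absNorm Q * B ≤
      4 * (n ^ 2 * (Ideal.absNorm P ^ 3 * Ideal.absNorm Q ^ 3) * S) := by
    calc Ideal.absNorm P * Ideal.absNorm Q * Ideal.absNorm Q * B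
        ≤ (2 * good) * (2 * (Ideal.absNorm Q - 1)) * B := by gcongr
      _ = 4 * (good * (Ideal.absNorm Q - 1) * B) := by ring
      _ ≤ _ := Nat.mul_le_mul_left _ hfinal
  have h6 : (Ideal.absNorm P : ℝ) * Ideal.absNorm Q * Ideal.absNorm Q * B ≤
      4 * (n ^ 2 * ((Ideal.absNorm P : ℝ) ^ 3 * (Ideal.absNorm Q : ℝ) ^ 3) * S) := by
    exact_mod_cast h5
  have hNPr : (0 : ℝ) < Ideal.absNorm P := by exact_mod_cast hNP
  have hNQr : (0 : ℝ) < Ideal.absNorm Q := by exact_mod_cast hNQ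
  have h7 : (B : ℝ) ≤ 4 * n ^ 2 * ((Ideal.absNorm P : ℝ) ^ 2 * Ideal.absNorm Q * S) := by
    have h8 : 0 < (Ideal.absNorm P : ℝ) * Ideal.absNorm Q * Ideal.absNorm Q := by positivity
    have h9 : ((Ideal.absNorm P : ℝ) * Ideal.absNorm Q * Ideal.absNorm Q) * B ≤
        ((Ideal.absNorm P : ℝ) * Ideal.absNorm Q * Ideal.absNorm Q) *
        (4 * n ^ 2 * ((Ideal.absNorm P : ℝ) ^ 2 * Ideal.absNorm Q * S)) := by
      refine h6.trans (le_of_eq ?_)
      ring
    exact le_of_mul_le_mul_left h9 h8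
  have hn0 : (0 : ℝ) < n := by rw [hn]; positivity
  rw [div_mul_eq_mul_div, div_le_iff₀ (by positivity)]
  calc c₁ * H ^ (d * tri n) ≤ B := hB
    _ ≤ _ := h7
    _ = _ := by ring

end

end Pool.Agent.helper22
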