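import Mathlib
import Pool.Agent.helper22.PairFamily
import Pool.Agent.helper22.Gain

set_option autoImplicit false

namespace Pool.Agent.helper22

open NumberField Module Polynomial

section

variable {F : Type*} [Field F] [NumberField F]

open Classical in
/-- members of the family attached to some pair of primes -/
noncomputable def Gtot (n : ℕ) (π : 𝓞 F) (H : ℝ) (PP QQ : Finset (Ideal (𝓞 F))) :
    Finset (Fin n → 𝓞 F) :=
  (box F (TT n π H)).filter (fun G => (∃ P ∈ PP, QP n π P G) ∧ (∃ Q ∈ QQ, RQ n π Q G))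

theorem mem_Gtot {n : ℕ} {π : 𝓞 F} {H : ℝ} {PP QQ : Finset (Ideal (𝓞 F))} {G : Fin n → 𝓞 F} :
    G ∈ Gtot n π H PP QQ ↔ G ∈ box F (TT n π H) ∧ (∃ P ∈ PP, QP n π P G) ∧
      (∃ Q ∈ QQ, RQ n π Q G) := by
  simp only [Gtot, Finset.mem_filter]

open Classical in
theorem tot_lower (n : ℕ) (π : 𝓞 F) (H : ℝ) (PP QQ : Finset (Ideal (𝓞 F))) (B Yp Yq : ℝ)
    (c₀ : ℕ)
    (hPP : ∀ P ∈ PP, (Ideal.absNorm P : ℝ) ≤ Yp) (hQQ : ∀ Q ∈ QQ, (Ideal.absNorm Q : ℝ) ≤ Yq)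
    (hpair : ∀ P ∈ PP, ∀ Q ∈ QQ, B ≤ (Ideal.absNorm P : ℝ) ^ 2 * Ideal.absNorm Q *
        (((box F (TT n π H)).filter (fun G => QP n π P G ∧ RQ n π Q G)).card : ℝ))
    (hc1 : ∀ G ∈ box F (TT n π H), (PP.filter (fun P => QP n π P G)).card ≤ c₀)
    (hc2 : ∀ G ∈ box F (TT n π H), (QQ.filter (fun Q => RQ n π Q G)).card ≤ c₀) :
    B * ((PP.card : ℝ) * QQ.card) ≤ Yp ^ 2 * Yq * ((c₀ : ℝ) ^ 2 * (Gtot n π H PP QQ).card) := by
  have h1 : ∑ x ∈ PP ×ˢ QQ, ((box F (TT n π H)).filter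
      (fun G => QP n π x.1 G ∧ RQ n π x.2 G)).card ≤ (c₀ * c₀) * (Gtot n π H PP QQ).card := by
    have h2 := Finset.sum_card_bipartiteAbove_eq_sum_card_bipartiteBelow
      (s := PP ×ˢ QQ) (t := box F (TT n π H)) (fun x G => QP n π x.1 G ∧ RQ n π x.2 G)
    unfold Finset.bipartiteAbove Finset.bipartiteBelow at h2
    rw [h2]
    have h3 : ∀ G ∈ box F (TT n π H), ((PP ×ˢ QQ).filter
        (fun x => QP n π x.1 G ∧ RQ n π x.2 G)).card ≤
        if G ∈ Gtot n π H PP QQ then c₀ * c₀ else 0 := by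
      intro G hG
      split_ifs with h
      · have h4 : (PP ×ˢ QQ).filter (fun x => QP n π x.1 G ∧ RQ n π x.2 G) ⊆
            (PP.filter (fun P => QP n π P G)) ×ˢ (QQ.filter (fun Q => RQ n π Q G)) := by
          intro x hx
          rw [Finset.mem_filter, Finset.mem_product] at hx
          rw [Finset.mem_product, Finset.mem_filter, Finset.mem_filter]
          exact ⟨⟨hx.1.1, hx.2.1⟩, ⟨hx.1.2, hx.2.2⟩⟩
        refine (Finset.card_le_card h4).trans ?_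
        rw [Finset.card_product]
        exact Nat.mul_le_mul (hc1 G hG) (hc2 G hG)
      · rw [Nat.le_zero, Finset.card_eq_zero, Finset.filter_eq_empty_iff]
        intro x hx hcon
        apply h
        rw [mem_Gtot]
        rw [Finset.mem_product] at hx
        exact ⟨hG, ⟨x.1, hx.1, hcon.1⟩, ⟨x.2, hx.2, hcon.2⟩⟩
    refine (Finset.sum_le_sum h3).trans ?_
    rw [← Finset.sum_filter, Finset.sum_const, smul_eq_mul, mul_comm]
    apply Nat.mul_le_mul_left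
    apply Finset.card_le_card
    intro G hG
    exact (Finset.mem_filter.1 hG).2
  have h2 : B * ((PP.card : ℝ) * QQ.card) ≤ ∑ x ∈ PP ×ˢ QQ, Yp ^ 2 * Yq *
      (((box F (TT n π H)).filter (fun G => QP n π x.1 G ∧ RQ n π x.2 G)).card : ℝ) := by
    have h3 : B * ((PP.card : ℝ) * QQ.card) = ∑ x ∈ PP ×ˢ QQ, B := by
      rw [Finset.sum_const, Finset.card_product, nsmul_eq_mul]
      push_cast
      ring
    rw [h3]
    apply Finset.sum_le_sum
    intro x hx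
    rw [Finset.mem_product] at hx
    refine (hpair x.1 hx.1 x.2 hx.2).trans ?_
    have h4 := hPP x.1 hx.1
    have h5 := hQQ x.2 hx.2
    have h6 : (0 : ℝ) ≤ Ideal.absNorm x.1 := Nat.cast_nonneg _
    have h7 : (0 : ℝ) ≤ Ideal.absNorm x.2 := Nat.cast_nonneg _
    gcongr
  rw [← Finset.mul_sum] at h2
  refine h2.trans ?_
  by_cases hne : (PP ×ˢ QQ).Nonempty
  · obtain ⟨x, hx⟩ := hne
    rw [Finset.mem_product] at hx
    have h6 : (0 : ℝ) ≤ Ideal.absNorm x.1 := Nat.cast_nonneg _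
    have h7 : (0 : ℝ) ≤ Ideal.absNorm x.2 := Nat.cast_nonneg _
    have h4 := h6.trans (hPP x.1 hx.1)
    have h5 := h7.trans (hQQ x.2 hx.2)
    apply mul_le_mul_of_nonneg_left _ (by positivity)
    have h8 : ((∑ x ∈ PP ×ˢ QQ, ((box F (TT n π H)).filter
      (fun G => QP n π x.1 G ∧ RQ n π x.2 G)).card : ℕ) : ℝ) ≤
        (((c₀ * c₀) * (Gtot n π H PP QQ).card : ℕ) : ℝ) := by exact_mod_cast h1
    push_cast at h8
    rw [pow_two]
    exact h8
  · rw [Finset.not_nonempty_iff_eq_empty] at hne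
    rw [hne, Finset.sum_empty, mul_zero]
    -- degenerate case: B * 0
    rcases Finset.product_eq_empty.1 hne with h | h
    · subst h
      have : Gtot n π H ∅ QQ = ∅ := by
        rw [Finset.eq_empty_iff_forall_notMem]
        intro G hG
        rw [mem_Gtot] at hG
        obtain ⟨_, ⟨P, hP, _⟩, _⟩ := hG
        exact absurd hP (Finset.notMem_empty _)
      rw [this]
      simp
    · subst h
      have : Gtot n π H PP ∅ = ∅ := by
        rw [Finset.eq_empty_iff_forall_notMem]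
        intro G hG
        rw [mem_Gtot] at hG
        obtain ⟨_, _, ⟨P, hP, _⟩⟩ := hG
        exact absurd hP (Finset.notMem_empty _)
      rw [this]
      simp

end

section

variable {F : Type*} [Field F] [NumberField F] {A : Type*} [Field A] [Algebra F A]

omit [NumberField F] in
theorem fcoef_eq_eisC {n : ℕ} (π : 𝓞 F) (G : Fin n → 𝓞 F) :
    fcoef π G = eisC π (fun k => if (k : ℕ) = 0 then G k else π * G k) := by
  funext k
  rw [fcoef, eisC]
  split_ifs with h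
  · rfl
  · ring

theorem house_fcoef_le {n : ℕ} (hn : 0 < n) (π : 𝓞 F) {H : ℝ}
    (hH : 4 * max 1 (house (algebraMap (𝓞 F) F π)) ≤ H) {G : Fin n → 𝓞 F}
    (hG : G ∈ box F (TT n π H)) (k : Fin n) :
    house (algebraMap (𝓞 F) F (fcoef π G k)) ≤ (H / 2) ^ (n - (k : ℕ)) := by
  set h := max 1 (house (algebraMap (𝓞 F) F π)) with hh
  have h1 : 1 ≤ h := le_max_left _ _
  have h2 : house (algebraMap (𝓞 F) F π) ≤ h := le_max_right _ _
  have hGk := mem_box.1 hG k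
  rw [TT, ← hh] at hGk
  have hπ2 : house (algebraMap (𝓞 F) F π ^ 2) ≤ h ^ 2 :=
    (house_pow_le _ _).trans (pow_le_pow_left₀ (house_nonneg _) h2 2)
  have hmain : house (algebraMap (𝓞 F) F (π ^ 2 * G k)) ≤ (H / 2) ^ (n - (k : ℕ)) / 2 := by
    rw [map_mul, map_pow]
    refine (house_mul_le _ _).trans ?_
    calc house (algebraMap (𝓞 F) F π ^ 2) * house (algebraMap (𝓞 F) F (G k))
        ≤ h ^ 2 * ((H / 2) ^ (n - (k : ℕ)) / (2 * h ^ 2)) := by
          apply mul_le_mul hπ2 hGk (house_nonneg _) (by positivity)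
      _ = _ := by field_simp
  have hpos : 0 ≤ (H / 2) ^ (n - (k : ℕ)) := by
    apply pow_nonneg
    linarith
  rw [fcoef, map_add]
  refine (house_add_le _ _).trans ?_
  split_ifs with hk
  · have h3 : h ≤ (H / 2) ^ (n - (k : ℕ)) / 2 := by
      rw [hk, Nat.sub_zero]
      have h5 : 2 * h ≤ H / 2 := by linarith
      have h6 : 1 ≤ H / 2 := by linarith
      have h7 : H / 2 ≤ (H / 2) ^ n := by
        calc H / 2 = (H / 2) ^ 1 := by rw [pow_one]
          _ ≤ (H / 2) ^ n := pow_le_pow_right₀ h6 hn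
      linarith
    linarith
  · rw [map_zero]
    have : house (0 : F) = 0 := by simp [house]
    rw [this]
    linarith

variable [IsAlgClosed A]

variable (A) in
theorem exists_root_member {n : ℕ} (hn : 0 < n) {P₀ : Ideal (𝓞 F)} (hP₀ : P₀.IsPrime) {π : 𝓞 F}
    (hπ1 : π ∈ P₀) (hπ2 : π ∉ P₀ ^ 2) {H : ℝ}
    (hH : 4 * max 1 (house (algebraMap (𝓞 F) F π)) ≤ H) {G : Fin n → 𝓞 F}
    (hG : G ∈ box F (TT n π H)) :
    ∃ α : A, α ∈ SS F A n H ∧ minpoly (𝓞 F) α = mkPoly n (fcoef π G) := by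
  have h1 : 1 ≤ max 1 (house (algebraMap (𝓞 F) F π)) := le_max_left _ _
  obtain ⟨α, hα⟩ : ∃ α : A, ((mkPoly n (fcoef π G)).map (algebraMap (𝓞 F) A)).eval α = 0 := by
    apply IsAlgClosed.exists_root
    rw [Polynomial.degree_eq_natDegree ((mkPoly_monic n _).map _).ne_zero,
      (mkPoly_monic n _).natDegree_map, mkPoly_natDegree]
    exact_mod_cast hn.ne'
  have hirr : Irreducible ((mkPoly n (fcoef π G)).map (algebraMap (𝓞 F) F)) := by
    rw [fcoef_eq_eisC]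
    exact eis_irreducible hP₀ hπ1 hπ2 hn _
  have hint : IsIntegral ℤ α := isIntegral_of_root F (mkPoly_monic n _) hα
  have hmin : minpoly F α = (mkPoly n (fcoef π G)).map (algebraMap (𝓞 F) F) := by
    symm
    apply minpoly.eq_of_irreducible_of_monic hirr
    · rw [aeval_def, eval₂_eq_eval_map, Polynomial.map_map, ← IsScalarTower.algebraMap_eq]
      exact hα
    · exact (mkPoly_monic n _).map _
  have hminO : minpoly (𝓞 F) α = mkPoly n (fcoef π G) := by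
    have h2 : minpoly F α = (minpoly (𝓞 F) α).map (algebraMap (𝓞 F) F) :=
      minpoly.isIntegrallyClosed_eq_field_fractions' F hint.tower_top
    rw [hmin] at h2
    exact (Polynomial.map_injective _ (RingOfIntegers.coe_injective (K := F)) h2).symm
  refine ⟨α, ⟨hint, ?_, ?_⟩, hminO⟩
  · rw [hmin, (mkPoly_monic n _).natDegree_map, mkPoly_natDegree]
  · refine Bd_of_root F (by linarith) ?_ hα
    intro k
    exact house_fcoef_le hn π hH hG k

variable [Algebra.IsAlgebraic F A]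

open Classical in
/-- the family of algebraic integers with forced index and forced ramification -/
theorem alpha_family (j : ℕ) (hj : 1 ≤ j) :
    ∃ c Ca ca Cb : ℝ, 0 < c ∧ 0 < Ca ∧ 0 < ca ∧ 0 < Cb ∧ ∃ H₀ : ℝ, 1 ≤ H₀ ∧
    ∀ H : ℝ, H₀ ≤ H → ∀ (PP QQ : Finset (Ideal (𝓞 F))) (Yp Yq : ℝ),
      (∀ P ∈ PP, P.IsPrime ∧ P ≠ ⊥ ∧ H ≤ (Ideal.absNorm P : ℝ) ∧ (Ideal.absNorm P : ℝ) ≤ Yp ∧
        Cb * H ^ (finrank ℚ F * (2 * j + 1)) < (Ideal.absNorm P : ℝ) ^ 2) →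
      (∀ P ∈ QQ, P.IsPrime ∧ P ≠ ⊥ ∧ H ≤ (Ideal.absNorm P : ℝ) ∧ (Ideal.absNorm P : ℝ) ≤ Yq ∧
        Cb * H ^ (finrank ℚ F * (2 * j + 1)) < (Ideal.absNorm P : ℝ) ^ 2) →
      (∀ P ∈ PP, ∀ Q ∈ QQ, P ≠ Q ∧
        Ca * H ^ (finrank ℚ F * tri j) ≤ (Ideal.absNorm P : ℝ) * Ideal.absNorm Q ∧
        ((Ideal.absNorm P : ℝ) * Ideal.absNorm Q) ^ 2 ≤ ca * H ^ (finrank ℚ F * (j + 1) ^ 2)) →
      ∃ S : Finset A, (∀ α ∈ S, α ∈ SS F A (2 * j + 1) H ∧
        (∃ P ∈ PP, ∃ r : 𝓞 F, (minpoly (𝓞 F) α).eval r ∈ P ^ 2 ∧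
          (minpoly (𝓞 F) α).derivative.eval r ∈ P) ∧
        (∃ Q ∈ QQ, ∃ s : 𝓞 F, (minpoly (𝓞 F) α).eval s ∈ Q ∧ (minpoly (𝓞 F) α).eval s ∉ Q ^ 2 ∧
          (minpoly (𝓞 F) α).derivative.eval s ∈ Q)) ∧
        c * H ^ (finrank ℚ F * tri (2 * j + 1)) * ((PP.card : ℝ) * QQ.card) ≤
          Yp ^ 2 * Yq * (S.card : ℝ) := by
  obtain ⟨P₀, π, hP₀, hπ1, hπ2⟩ := exists_eisenstein_element F
  have hπ0 : π ≠ 0 := by
    rintro rfl
    exact hπ2 (zero_mem _)
  obtain ⟨c, Ca, ca, Cb, hc, hCa, hca, hCb, hpair⟩ := pair_family j hj π hπ0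
  set n := 2 * j + 1 with hn
  have hnpos : 0 < n := by omega
  set d := finrank ℚ F with hd
  set c₀ : ℕ := (n + 1) * (d * n) + 1 with hc₀
  refine ⟨c / (c₀ : ℝ) ^ 2, Ca, ca, Cb, by positivity, hCa, hca, hCb,
    4 * max 1 (house (algebraMap (𝓞 F) F π)) + ((n : ℝ) + 1) ^ 2, ?_, ?_⟩
  · have h1 : 1 ≤ max 1 (house (algebraMap (𝓞 F) F π)) := le_max_left _ _
    have h2 : 0 ≤ ((n : ℝ) + 1) ^ 2 := by positivity
    linarith
  intro H hH PP QQ Yp Yq hPP hQQ hPQ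
  have h1 : 1 ≤ max 1 (house (algebraMap (𝓞 F) F π)) := le_max_left _ _
  have hH1 : 4 * max 1 (house (algebraMap (𝓞 F) F π)) ≤ H := by
    have h2 : 0 ≤ ((n : ℝ) + 1) ^ 2 := by positivity
    linarith
  have hH2 : ((n : ℝ) + 1) ^ 2 ≤ H := by linarith
  have hHone : 1 < H := by linarith
  have hHpos : 0 < H := by linarith
  have hroot := fun (G : Fin n → 𝓞 F) (hG : G ∈ box F (TT n π H)) =>
    exists_root_member A hnpos hP₀ hπ1 hπ2 hH1 hG
  choose! rt hrt1 hrt2 using hroot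
  -- overcounting
  have hover : ∀ G ∈ box F (TT n π H), ∀ S : Finset (Ideal (𝓞 F)),
      (∀ q ∈ S, q.IsPrime ∧ q ≠ ⊥ ∧ H ≤ Ideal.absNorm q ∧ ∃ s : 𝓞 F,
      (mkPoly n (fcoef π G)).eval s ∈ q ∧ (mkPoly n (fcoef π G)).derivative.eval s ∈ q) →
      S.card ≤ c₀ := by
    intro G hG S hS
    have h3 := overcount hHone.le (hrt1 G hG) (fcoef π G) (hrt2 G hG) (by
      intro k
      refine (house_fcoef_le hnpos π hH1 hG k).trans ?_
      apply pow_le_pow_left₀ (by linarith)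
      linarith) S hHpos.le hS
    have h4 : H ^ S.card ≤ H ^ ((n + 1) * (d * n)) := by
      refine h3.trans ?_
      rw [pow_mul H (n + 1)]
      apply pow_le_pow_left₀ (by positivity)
      rw [pow_succ, mul_comm]
      exact mul_le_mul_of_nonneg_left hH2 (by positivity)
    have h5 := (pow_le_pow_iff_right₀ hHone).1 h4
    omega
  have hfp : ∀ G : Fin n → 𝓞 F, fpoly n π G = mkPoly n (fcoef π G) := fpoly_eq n hnpos π
  have htot := tot_lower n π H PP QQ (c * H ^ (d * tri n)) Yp Yq c₀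
    (fun P hP => (hPP P hP).2.2.2.1) (fun Q hQ => (hQQ Q hQ).2.2.2.1)
    (fun P hP Q hQ => hpair H hHone.le P Q (hPP P hP).1 (hQQ Q hQ).1 (hPP P hP).2.1
      (hQQ Q hQ).2.1 (hPQ P hP Q hQ).1 (hPQ P hP Q hQ).2.1 (hPQ P hP Q hQ).2.2
      (hPP P hP).2.2.2.2 (hQQ Q hQ).2.2.2.2)
    (by
      intro G hG
      apply hover G hG
      intro q hq
      rw [Finset.mem_filter] at hq
      obtain ⟨r, hr⟩ := hq.2
      rw [mem_dbl, hfp] at hr
      exact ⟨(hPP q hq.1).1, (hPP q hq.1).2.1, (hPP q hq.1).2.2.1, r,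
        Ideal.pow_le_self two_ne_zero hr.1, hr.2⟩)
    (by
      intro G hG
      apply hover G hG
      intro q hq
      rw [Finset.mem_filter] at hq
      obtain ⟨r, hr1, hr2, hr3⟩ := hq.2
      rw [hfp] at hr1 hr3
      exact ⟨(hQQ q hq.1).1, (hQQ q hq.1).2.1, (hQQ q hq.1).2.2.1, r, hr1, hr3⟩)
  have hinj : Set.InjOn rt (Gtot n π H PP QQ : Set (Fin n → 𝓞 F)) := by
    intro G hG G' hG' hGG
    have hG1 := (mem_Gtot.1 (Finset.mem_coe.1 hG)).1
    have hG2 := (mem_Gtot.1 (Finset.mem_coe.1 hG')).1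
    have h3 : mkPoly n (fcoef π G) = mkPoly n (fcoef π G') := by
      rw [← hrt2 G hG1, ← hrt2 G' hG2, hGG]
    funext k
    have h4 : fcoef π G k = fcoef π G' k := by
      rw [← mkPoly_coeff n (fcoef π G) k, h3, mkPoly_coeff]
    rw [fcoef, fcoef] at h4
    have h5 : π ^ 2 * (G k - G' k) = 0 := by linear_combination h4
    rcases mul_eq_zero.1 h5 with h6 | h6
    · exact absurd (pow_eq_zero_iff (two_ne_zero) |>.1 h6) hπ0
    · exact sub_eq_zero.1 h6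
  refine ⟨(Gtot n π H PP QQ).image rt, ?_, ?_⟩
  · intro α hα
    obtain ⟨G, hG, rfl⟩ := Finset.mem_image.1 hα
    rw [mem_Gtot] at hG
    obtain ⟨hG1, ⟨P, hP, r, hr⟩, ⟨Q, hQ, s, hs1, hs2, hs3⟩⟩ := hG
    rw [hrt2 G hG1, ← hfp]
    rw [mem_dbl] at hr
    exact ⟨hrt1 G hG1, ⟨P, hP, r, hr⟩, ⟨Q, hQ, s, hs1, hs2, hs3⟩⟩
  · rw [Finset.card_image_of_injOn hinj]
    have hc₀pos : (0 : ℝ) < (c₀ : ℝ) ^ 2 := by positivity
    rw [div_mul_eq_mul_div, div_mul_eq_mul_div, div_le_iff₀ hc₀pos]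
    refine htot.trans (le_of_eq ?_)
    ring

end

end Pool.Agent.helper22
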