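import Mathlib
import Pool.Agent.helper22.Union
import Pool.Agent.helper22.Mertens
import Pool.Agent.helper22.SmallSpan
import Pool.Agent.helper22.PrimeLower

set_option autoImplicit false

namespace Pool.Agent.helper22

open NumberField Module Polynomial Filter IntermediateField

theorem ev_le {a b C c : ℝ} (hab : a < b) (hc : 0 < c) :
    ∀ᶠ H : ℝ in atTop, C * H ^ a ≤ c * H ^ b := by
  filter_upwards [(tendsto_rpow_atTop (sub_pos.2 hab)).eventually_ge_atTop (C / c),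
    eventually_gt_atTop 0] with H h1 h2
  rw [div_le_iff₀ hc] at h1
  have h3 : H ^ b = H ^ (b - a) * H ^ a := by
    rw [← Real.rpow_add h2]; congr 1; ring
  rw [h3]
  calc C * H ^ a ≤ (H ^ (b - a) * c) * H ^ a :=
        mul_le_mul_of_nonneg_right h1 (Real.rpow_nonneg h2.le _)
    _ = _ := by ring

theorem ev_lt {a b C c : ℝ} (hab : a < b) (hc : 0 < c) :
    ∀ᶠ H : ℝ in atTop, C * H ^ a < c * H ^ b := by
  filter_upwards [(tendsto_rpow_atTop (sub_pos.2 hab)).eventually_gt_atTop (C / c),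
    eventually_gt_atTop 0] with H h1 h2
  rw [div_lt_iff₀ hc] at h1
  have h3 : H ^ b = H ^ (b - a) * H ^ a := by
    rw [← Real.rpow_add h2]; congr 1; ring
  rw [h3]
  calc C * H ^ a < (H ^ (b - a) * c) * H ^ a :=
        mul_lt_mul_of_pos_right h1 (Real.rpow_pos_of_pos h2 _)
    _ = _ := by ring

section

variable (F : Type*) [Field F] [NumberField F] (A : Type*) [Field A] [Algebra F A]
  [Algebra.IsAlgebraic F A] [IsAlgClosed A]

/-- many algebraic integers with forced index and ramification -/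
theorem alpha_many (j : ℕ) (hj : 1 ≤ j) {μ ζ ε : ℝ} (hε : 0 < ε) (hε1 : ε < 1)
    (hμ : ((2 * j + 1 : ℕ) : ℝ) < 2 * (μ * (1 - ε))) (hζ : ((2 * j + 1 : ℕ) : ℝ) < 2 * (ζ * (1 - ε)))
    (hup : 2 * (μ + ζ) < ((j + 1) ^ 2 : ℕ)) (hlow : (tri j : ℝ) < (μ + ζ) * (1 - ε))
    (hne : μ < ζ * (1 - ε) ∨ ζ < μ * (1 - ε)) :
    ∃ c : ℝ, 0 < c ∧ ∀ᶠ H : ℝ in atTop, ∃ S : Finset A,
      (∀ α ∈ S, α ∈ SS F A (2 * j + 1) H ∧
        (∃ P : Ideal (𝓞 F), P.IsPrime ∧ P ≠ ⊥ ∧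
          H ^ ((finrank ℚ F : ℝ) * (μ * (1 - ε))) < (Ideal.absNorm P : ℝ) ∧
          ∃ r : 𝓞 F, (minpoly (𝓞 F) α).eval r ∈ P ^ 2 ∧
          (minpoly (𝓞 F) α).derivative.eval r ∈ P) ∧
        (∃ Q : Ideal (𝓞 F), Q.IsPrime ∧ Q ≠ ⊥ ∧
          H ^ ((finrank ℚ F : ℝ) * (ζ * (1 - ε))) < (Ideal.absNorm Q : ℝ) ∧
          ∃ s : 𝓞 F, (minpoly (𝓞 F) α).eval s ∈ Q ∧ (minpoly (𝓞 F) α).eval s ∉ Q ^ 2 ∧
          (minpoly (𝓞 F) α).derivative.eval s ∈ Q)) ∧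
        c * H ^ ((finrank ℚ F : ℝ) * (tri (2 * j + 1) - (μ * (1 + ε) + ζ * ε))) ≤ (S.card : ℝ) := by
  classical
  obtain ⟨c, Ca, ca, Cb, hc, hCa, hca, hCb, H₀, hH₀, hfam⟩ := alpha_family (F := F) (A := A) j hj
  obtain ⟨c₁, hc₁, Y₀, hY₀, hprimes⟩ := many_primes F hε hε1
  set d : ℝ := (finrank ℚ F : ℝ) with hd
  have hdpos : 0 < d := by
    rw [hd]; exact_mod_cast (finrank_pos : 0 < finrank ℚ F)
  have hd1 : 1 ≤ d := by
    rw [hd]; exact_mod_cast (finrank_pos : 0 < finrank ℚ F)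
  have hn3 : (3 : ℝ) ≤ ((2 * j + 1 : ℕ) : ℝ) := by
    have : 3 ≤ 2 * j + 1 := by omega
    exact_mod_cast this
  have h1ε : 0 < 1 - ε := by linarith
  have hμpos : 0 < μ := by
    by_contra h
    push Not at h
    have : μ * (1 - ε) ≤ 0 := mul_nonpos_of_nonpos_of_nonneg h h1ε.le
    linarith
  have hζpos : 0 < ζ := by
    by_contra h
    push Not at h
    have : ζ * (1 - ε) ≤ 0 := mul_nonpos_of_nonpos_of_nonneg h h1ε.le
    linarith
  refine ⟨c * c₁ ^ 2, by positivity, ?_⟩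
  have e1 := (tendsto_rpow_atTop (mul_pos hdpos hμpos)).eventually_ge_atTop Y₀
  have e2 := (tendsto_rpow_atTop (mul_pos hdpos hζpos)).eventually_ge_atTop Y₀
  have e3 := ev_le (a := ((finrank ℚ F * (2 * j + 1) : ℕ) : ℝ)) (b := 2 * (d * (μ * (1 - ε))))
    (C := Cb) (c := 1) (by push_cast; rw [← hd]; push_cast at hμ; nlinarith) one_pos
  have e4 := ev_le (a := ((finrank ℚ F * (2 * j + 1) : ℕ) : ℝ)) (b := 2 * (d * (ζ * (1 - ε))))
    (C := Cb) (c := 1) (by push_cast; rw [← hd]; push_cast at hζ; nlinarith) one_pos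
  have e5 := ev_le (a := ((finrank ℚ F * tri j : ℕ) : ℝ)) (b := d * ((μ + ζ) * (1 - ε)))
    (C := Ca) (c := 1) (by push_cast; rw [← hd]; nlinarith) one_pos
  have e6 := ev_le (a := 2 * (d * (μ + ζ))) (b := ((finrank ℚ F * (j + 1) ^ 2 : ℕ) : ℝ))
    (C := 1) (c := ca) (by push_cast; rw [← hd]; push_cast at hup; nlinarith) hca
  filter_upwards [eventually_ge_atTop H₀, eventually_gt_atTop 1, e1, e2, e3, e4, e5, e6] with
    H hH hH1 h1 h2 h3 h4 h5 h6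
  have hH0 : 0 < H := by linarith
  rw [Real.rpow_natCast, one_mul] at h3 h4 h5
  rw [Real.rpow_natCast, one_mul] at h6
  set Yp := H ^ (d * μ) with hYp
  set Yq := H ^ (d * ζ) with hYq
  set Xp := Yp ^ (1 - ε) with hXp
  set Xq := Yq ^ (1 - ε) with hXq
  have hXp' : Xp = H ^ (d * (μ * (1 - ε))) := by
    rw [hXp, hYp, ← Real.rpow_mul hH0.le]; congr 1; ring
  have hXq' : Xq = H ^ (d * (ζ * (1 - ε))) := by
    rw [hXq, hYq, ← Real.rpow_mul hH0.le]; congr 1; ring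
  have hXp0 : 0 < Xp := by rw [hXp']; exact Real.rpow_pos_of_pos hH0 _
  have hXq0 : 0 < Xq := by rw [hXq']; exact Real.rpow_pos_of_pos hH0 _
  have hYp0 : 0 < Yp := Real.rpow_pos_of_pos hH0 _
  have hYq0 : 0 < Yq := Real.rpow_pos_of_pos hH0 _
  have hp := hprimes Yp h1
  have hq := hprimes Yq h2
  have hHXp : H ≤ Xp := by
    rw [hXp']
    calc H = H ^ (1 : ℝ) := (Real.rpow_one H).symm
      _ ≤ _ := Real.rpow_le_rpow_of_exponent_le hH1.le (by nlinarith)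
  have hHXq : H ≤ Xq := by
    rw [hXq']
    calc H = H ^ (1 : ℝ) := (Real.rpow_one H).symm
      _ ≤ _ := Real.rpow_le_rpow_of_exponent_le hH1.le (by nlinarith)
  have hXp2 : Xp ^ 2 = H ^ (2 * (d * (μ * (1 - ε)))) := by
    rw [hXp', ← Real.rpow_natCast, ← Real.rpow_mul hH0.le]; congr 1; push_cast; ring
  have hXq2 : Xq ^ 2 = H ^ (2 * (d * (ζ * (1 - ε)))) := by
    rw [hXq', ← Real.rpow_natCast, ← Real.rpow_mul hH0.le]; congr 1; push_cast; ring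
  have hmem : ∀ (X Y : ℝ) (P : Ideal (𝓞 F)), P ∈ Pr F Y \ Pr F X →
      P.IsPrime ∧ P ≠ ⊥ ∧ X < (Ideal.absNorm P : ℝ) ∧ (Ideal.absNorm P : ℝ) ≤ Y := by
    intro X Y P hP
    rw [Finset.mem_sdiff] at hP
    obtain ⟨hP1, hP2, hP3⟩ := mem_Pr.1 hP.1
    refine ⟨hP1, hP2, ?_, hP3⟩
    by_contra hle
    push Not at hle
    exact hP.2 (mem_Pr.2 ⟨hP1, hP2, hle⟩)
  obtain ⟨S, hS1, hS2⟩ := hfam H hH (Pr F Yp \ Pr F Xp) (Pr F Yq \ Pr F Xq) Yp Yq
    (by
      intro P hP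
      obtain ⟨hP1, hP2, hP3, hP4⟩ := hmem _ _ P hP
      refine ⟨hP1, hP2, hHXp.trans hP3.le, hP4, lt_of_le_of_lt h3 ?_⟩
      rw [← hXp2]
      exact pow_lt_pow_left₀ hP3 hXp0.le two_ne_zero)
    (by
      intro P hP
      obtain ⟨hP1, hP2, hP3, hP4⟩ := hmem _ _ P hP
      refine ⟨hP1, hP2, hHXq.trans hP3.le, hP4, lt_of_le_of_lt h4 ?_⟩
      rw [← hXq2]
      exact pow_lt_pow_left₀ hP3 hXq0.le two_ne_zero)
    (by
      intro P hP Q hQ
      obtain ⟨hP1, hP2, hP3, hP4⟩ := hmem _ _ P hP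
      obtain ⟨hQ1, hQ2, hQ3, hQ4⟩ := hmem _ _ Q hQ
      refine ⟨?_, ?_, ?_⟩
      · rintro rfl
        rcases hne with h | h
        · have h7 : Yp < Xq := by
            rw [hXq', hYp]
            exact Real.rpow_lt_rpow_of_exponent_lt hH1 (mul_lt_mul_of_pos_left h hdpos)
          linarith
        · have h7 : Yq < Xp := by
            rw [hXp', hYq]
            exact Real.rpow_lt_rpow_of_exponent_lt hH1 (mul_lt_mul_of_pos_left h hdpos)
          linarith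
      · refine h5.trans ?_
        have h7 : H ^ (d * ((μ + ζ) * (1 - ε))) = Xp * Xq := by
          rw [hXp', hXq', ← Real.rpow_add hH0]; congr 1; ring
        rw [h7]
        exact mul_le_mul hP3.le hQ3.le hXq0.le (hXp0.le.trans hP3.le)
      · refine le_trans ?_ h6
        have h7 : H ^ (2 * (d * (μ + ζ))) = (Yp * Yq) ^ 2 := by
          rw [hYp, hYq, ← Real.rpow_add hH0, ← Real.rpow_natCast, ← Real.rpow_mul hH0.le]
          congr 1; push_cast; ring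
        rw [h7]
        apply pow_le_pow_left₀ (by positivity)
        exact mul_le_mul hP4 hQ4 (Nat.cast_nonneg _) hYp0.le)
  refine ⟨S, ?_, ?_⟩
  · intro α hα
    obtain ⟨hα1, ⟨P, hP, r, hr1, hr2⟩, ⟨Q, hQ, s, hs1, hs2, hs3⟩⟩ := hS1 α hα
    obtain ⟨hP1, hP2, hP3, hP4⟩ := hmem _ _ P hP
    obtain ⟨hQ1, hQ2, hQ3, hQ4⟩ := hmem _ _ Q hQ
    rw [hXp'] at hP3
    rw [hXq'] at hQ3
    exact ⟨hα1, ⟨P, hP1, hP2, hP3, r, hr1, hr2⟩, ⟨Q, hQ1, hQ2, hQ3, s, hs1, hs2, hs3⟩⟩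
  · have h7 : c * H ^ (finrank ℚ F * tri (2 * j + 1)) * ((c₁ * Xp) * (c₁ * Xq)) ≤
        Yp ^ 2 * Yq * (S.card : ℝ) := by
      refine le_trans ?_ hS2
      apply mul_le_mul_of_nonneg_left _ (by positivity)
      exact mul_le_mul hp hq (by positivity) (Nat.cast_nonneg _)
    have h8 : (Yp ^ 2 * Yq) * (c * c₁ ^ 2 *
        H ^ (d * (tri (2 * j + 1) - (μ * (1 + ε) + ζ * ε)))) ≤ (Yp ^ 2 * Yq) * (S.card : ℝ) := by
      refine le_trans (le_of_eq ?_) h7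
      have h9 : Yp ^ 2 * Yq * H ^ (d * (tri (2 * j + 1) - (μ * (1 + ε) + ζ * ε))) =
          H ^ (finrank ℚ F * tri (2 * j + 1)) * (Xp * Xq) := by
        rw [hYp, hYq, hXp', hXq', ← Real.rpow_natCast, ← Real.rpow_natCast,
          ← Real.rpow_mul hH0.le, ← Real.rpow_add hH0, ← Real.rpow_add hH0, ← Real.rpow_add hH0,
          ← Real.rpow_add hH0]
        congr 1
        push_cast
        rw [← hd]
        ring
      calc (Yp ^ 2 * Yq) * (c * c₁ ^ 2 * H ^ (d * (tri (2 * j + 1) - (μ * (1 + ε) + ζ * ε))))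
          = c * c₁ ^ 2 * (Yp ^ 2 * Yq * H ^ (d * (tri (2 * j + 1) - (μ * (1 + ε) + ζ * ε)))) := by
            ring
        _ = c * c₁ ^ 2 * (H ^ (finrank ℚ F * tri (2 * j + 1)) * (Xp * Xq)) := by rw [h9]
        _ = _ := by ring
    exact le_of_mul_le_mul_left h8 (by positivity)

end

end Pool.Agent.helper22
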