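import Mathlib
import Pool.Agent.helper22.Stage2H

set_option autoImplicit false

namespace Pool.Agent.helper22

open NumberField Module Polynomial Filter IntermediateField

section

variable (F : Type*) [Field F] [NumberField F] (A : Type*) [Field A] [Algebra F A]
  [Algebra.IsAlgebraic F A] [IsAlgClosed A]

/-- doubling inequality when the small integers span a space of dimension at most `k` over `F` -/
theorem small_dbl {L : Type*} [Field L] [NumberField L] [Algebra F L] {k : ℕ} {H t : ℝ}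
    (ht : 0 < t) (htH : t ≤ H) (hk : finrank F (Submodule.span F (smallSet L H)) ≤ k) :
    (cnt L H : ℝ) ≤ (3 * H / t) ^ (finrank ℚ F * k) * (cnt L t : ℝ) := by
  have hfd : FiniteDimensional F L := by
    exact FiniteDimensional.right ℚ F L
  set V := (Submodule.span F (smallSet L H)).restrictScalars ℚ with hV
  have h1 := cnt_doubling_sub L V ht htH (by
    intro x hx
    rw [hV, Submodule.restrictScalars_mem]
    exact Submodule.subset_span ⟨x.2, hx⟩)
  refine h1.trans ?_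
  apply mul_le_mul_of_nonneg_right _ (Nat.cast_nonneg _)
  have hHt : 1 ≤ H / t := by rw [le_div_iff₀ ht]; linarith
  have h2 : finrank ℚ V ≤ finrank ℚ F * k := by
    have h3 : finrank ℚ V = finrank ℚ F * finrank F (Submodule.span F (smallSet L H)) := by
      rw [Module.finrank_mul_finrank]
      rfl
    rw [h3]
    exact Nat.mul_le_mul_left _ hk
  have h5 : 3 * H / t = H / t + 2 * H / t := by ring
  calc (1 + 2 * H / t) ^ finrank ℚ V ≤ (3 * H / t) ^ finrank ℚ V := by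
        have : 0 ≤ 2 * H / t := by
          have : 2 * H / t = 2 * (H / t) := by ring
          rw [this]; linarith
        apply pow_le_pow_left₀ (by linarith)
        rw [h5]; linarith
    _ ≤ (3 * H / t) ^ (finrank ℚ F * k) := by
        apply pow_le_pow_right₀ _ h2
        have : 2 * H / t = 2 * (H / t) := by ring
        rw [h5, this]; linarith

/-- many fields of degree `2j+1` of small discriminant, in terms of the height parameter `H` -/
theorem stage2_H (j k : ℕ) (hj : 1 ≤ j) (hk : 0 < k) (hp : (2 * j + 1).Prime) {μ ζ ε τ : ℝ}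
    (hε : 0 < ε) (hε1 : ε < 1)
    (hμ : ((2 * j + 1 : ℕ) : ℝ) < 2 * (μ * (1 - ε))) (hζ : ((2 * j + 1 : ℕ) : ℝ) < 2 * (ζ * (1 - ε)))
    (hup : 2 * (μ + ζ) < ((j + 1) ^ 2 : ℕ)) (hlow : (tri j : ℝ) < (μ + ζ) * (1 - ε))
    (hne : μ < ζ * (1 - ε) ∨ ζ < μ * (1 - ε))
    (hz : (2 * zz (2 * j + 1) k : ℝ) < ζ * (1 - ε))
    (hτ0 : 0 < τ) (hτ1 : τ < 1)
    (hτ : k * (1 - τ) + τ * tri (2 * j + 1) < tri (2 * j + 1) - (μ * (1 + ε) + ζ * ε)) :
    ∃ c C : ℝ, 0 < c ∧ 0 < C ∧ ∀ᶠ H : ℝ in atTop, ∃ 𝓛 : Finset (IntermediateField F A),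
      (∀ L ∈ 𝓛, finrank F L = 2 * j + 1 ∧ ∀ _ : NumberField L, ((|discr L| : ℤ) : ℝ) ≤
        C * H ^ ((finrank ℚ F : ℝ) *
          (((2 * j + 1 : ℕ) : ℝ) * (((2 * j + 1 : ℕ) : ℝ) - 1) - 2 * (μ * (1 - ε))))) ∧
      c * H ^ ((finrank ℚ F : ℝ) *
        (tri (2 * j + 1) - (μ * (1 + ε) + ζ * ε) - k * (1 - τ) - τ)) ≤ (𝓛.card : ℝ) := by
  classical
  obtain ⟨c, hc, hmany⟩ := alpha_many F A j hj hε hε1 hμ hζ hup hlow hne
  obtain ⟨C₁, hC₁, hgain⟩ := discr_gain (A := A) F (2 * j + 1)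
  obtain ⟨C₂, hC₂, hspan⟩ := discr_le_of_small_span F (2 * j + 1)
  obtain ⟨C₃, hC₃, hSS⟩ := SS_upper (A := A) F (2 * j + 1)
  set d : ℝ := (finrank ℚ F : ℝ) with hd
  have hdpos : 0 < d := by
    rw [hd]; exact_mod_cast (finrank_pos : 0 < finrank ℚ F)
  have hd1 : 1 ≤ d := by
    rw [hd]; exact_mod_cast (finrank_pos : 0 < finrank ℚ F)
  set T : ℝ := (tri (2 * j + 1) : ℝ) with hT
  set μs : ℝ := μ * (1 + ε) + ζ * ε with hμs
  -- constants
  set K₁ : ℝ := (3 : ℝ) ^ (finrank ℚ F * k) with hK₁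
  have hK₁0 : 0 < K₁ := by positivity
  set K₂ : ℝ := K₁ * (2 * (C₃ * 2 ^ (finrank ℚ F * tri (2 * j + 1)))) with hK₂
  have hK₂0 : 0 < K₂ := by positivity
  have e1 := ev_lt (a := ((finrank ℚ F * (2 * zz (2 * j + 1) k) : ℕ) : ℝ))
    (b := d * (ζ * (1 - ε))) (C := C₂) (c := 1) (by
      push_cast; rw [← hd]; exact mul_lt_mul_of_pos_left hz hdpos) one_pos
  have e2 := ev_le (a := d * (k * (1 - τ) + τ * T)) (b := d * (T - μs))
    (C := K₂) (c := c / 2) (mul_lt_mul_of_pos_left hτ hdpos) (by positivity)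
  refine ⟨c / 2 / (K₁ * 5 ^ (finrank ℚ F)), C₁, by positivity, hC₁, ?_⟩
  filter_upwards [hmany, eventually_gt_atTop 1, e1, e2] with H ⟨S, hS, hScard⟩ hH1 h1 h2
  have hH0 : 0 < H := by linarith
  rw [Real.rpow_natCast, one_mul] at h1
  set t : ℝ := H ^ τ with ht
  have ht0 : 0 < t := Real.rpow_pos_of_pos hH0 _
  have ht1 : 1 ≤ t := Real.one_le_rpow hH1.le hτ0.le
  have htH : t ≤ H := by
    calc H ^ τ ≤ H ^ (1 : ℝ) := Real.rpow_le_rpow_of_exponent_le hH1.le hτ1.le
      _ = H := Real.rpow_one H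
  have hHt : H / t = H ^ (1 - τ) := by
    rw [ht, Real.rpow_sub hH0, Real.rpow_one]
  set M : ℝ := (3 * H / t) ^ (finrank ℚ F * k) with hM
  have hM0 : 0 < M := by positivity
  have hMeq : M = K₁ * H ^ (d * (k * (1 - τ))) := by
    have h3 : 3 * H / t = 3 * (H / t) := by ring
    rw [hM, h3, hHt, mul_pow, hK₁]
    congr 1
    rw [← Real.rpow_natCast, ← Real.rpow_mul hH0.le]
    congr 1
    push_cast
    rw [← hd]
    ring
  have hdbl : ∀ α ∈ S, ((intL F⟮α⟯ H).ncard : ℝ) ≤ M * ((intL F⟮α⟯ t).ncard : ℝ) := by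
    intro α hα
    obtain ⟨hα1, -, ⟨Q, hQ, hQ0, hQn, s, hs1, hs2, hs3⟩⟩ := hS α hα
    have hint : IsIntegral F α := hα1.1.tower_top
    have hfr : finrank F F⟮α⟯ = 2 * j + 1 := by
      rw [IntermediateField.adjoin.finrank hint]; exact hα1.2.1
    have hfd : FiniteDimensional F F⟮α⟯ :=
      FiniteDimensional.of_finrank_pos (by rw [hfr]; exact hp.pos)
    have hnf : NumberField F⟮α⟯ := NumberField.of_module_finite F _
    rw [intL_ncard, intL_ncard]
    apply small_dbl F ht0 htH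
    by_contra hcon
    push Not at hcon
    have h3 := hspan F⟮α⟯ hfr hp k hk H hH1.le hcon
    have h4 := ram_bound hα1.1 Q hQ hQ0 s hs1 hs2 hs3
    have h5 : (Ideal.absNorm Q : ℝ) ≤ ((|discr F⟮α⟯| : ℤ) : ℝ) := by exact_mod_cast h4
    linarith
  obtain ⟨𝓛, h𝓛, hcore⟩ := core hp hM0.le ht0 S (fun α hα => (hS α hα).1) hdbl
  refine ⟨𝓛, ?_, ?_⟩
  · intro L hL
    obtain ⟨α, hα, rfl⟩ := h𝓛 L hL
    obtain ⟨hα1, ⟨P, hP, hP0, hPn, r, hr1, hr2⟩, -⟩ := hS α hα
    have hint : IsIntegral F α := hα1.1.tower_top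
    refine ⟨by rw [IntermediateField.adjoin.finrank hint]; exact hα1.2.1, ?_⟩
    intro hNF
    have h3 := hgain α H hH1.le hα1 hNF P hP hP0 r hr1 hr2
    have h4 : (0 : ℝ) ≤ ((|discr F⟮α⟯| : ℤ) : ℝ) := by
      exact_mod_cast abs_nonneg (discr F⟮α⟯)
    have h5 : (H ^ (d * (μ * (1 - ε)))) ^ 2 * ((|discr F⟮α⟯| : ℤ) : ℝ) ≤
        C₁ * H ^ (finrank ℚ F * ((2 * j + 1) * ((2 * j + 1) - 1))) := by
      refine le_trans ?_ h3
      apply mul_le_mul_of_nonneg_right _ h4
      exact pow_le_pow_left₀ (by positivity) hPn.le 2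
    have h6 : (H ^ (d * (μ * (1 - ε)))) ^ 2 * (C₁ * H ^ (d *
          (((2 * j + 1 : ℕ) : ℝ) * (((2 * j + 1 : ℕ) : ℝ) - 1) - 2 * (μ * (1 - ε))))) =
        C₁ * H ^ (finrank ℚ F * ((2 * j + 1) * ((2 * j + 1) - 1))) := by
      rw [← Real.rpow_natCast, ← Real.rpow_mul hH0.le, mul_left_comm, ← Real.rpow_add hH0,
        ← Real.rpow_natCast]
      congr 2
      push_cast
      rw [← hd]
      ring
    rw [← h6] at h5
    exact le_of_mul_le_mul_left h5 (by positivity)
  · -- bottom field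
    have hbot : ((intL (⊥ : IntermediateField F A) t).ncard : ℝ) ≤
        5 ^ (finrank ℚ F) * H ^ (d * τ) := by
      have hnf : NumberField (⊥ : IntermediateField F A) := NumberField.of_module_finite F _
      rw [intL_ncard]
      have h3 := cnt_le (⊥ : IntermediateField F A) (T := t) (by linarith)
      have h4 : finrank ℚ (⊥ : IntermediateField F A) = finrank ℚ F := by
        rw [← Module.finrank_mul_finrank ℚ F (⊥ : IntermediateField F A),
          IntermediateField.finrank_bot, mul_one]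
      rw [h4] at h3
      refine h3.trans ?_
      have h5 : H ^ (d * τ) = t ^ (finrank ℚ F) := by
        rw [ht, ← Real.rpow_natCast, ← Real.rpow_mul hH0.le]
        congr 1
        rw [← hd]; ring
      rw [h5, ← mul_pow]
      apply pow_le_pow_left₀ (by positivity)
      linarith
    have hSS2 : ((SS F A (2 * j + 1) (2 * t)).ncard : ℝ) ≤
        C₃ * 2 ^ (finrank ℚ F * tri (2 * j + 1)) * H ^ (d * (τ * T)) := by
      refine (hSS (2 * t) (by linarith)).trans (le_of_eq ?_)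
      rw [mul_pow, mul_assoc]
      congr 2
      rw [ht, ← Real.rpow_natCast, ← Real.rpow_mul hH0.le]
      congr 1
      push_cast
      rw [← hd, ← hT]
      ring
    have hmain : M * (2 * ((SS F A (2 * j + 1) (2 * t)).ncard : ℝ)) ≤
        c / 2 * H ^ (d * (T - μs)) := by
      refine le_trans ?_ h2
      calc M * (2 * ((SS F A (2 * j + 1) (2 * t)).ncard : ℝ))
          ≤ M * (2 * (C₃ * 2 ^ (finrank ℚ F * tri (2 * j + 1)) * H ^ (d * (τ * T)))) := by
            gcongr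
        _ = K₂ * (H ^ (d * (k * (1 - τ))) * H ^ (d * (τ * T))) := by
            rw [hMeq, hK₂]; ring
        _ = K₂ * H ^ (d * (k * (1 - τ) + τ * T)) := by
            rw [← Real.rpow_add hH0]
            congr 2
            ring
    have hfinal : c / 2 * H ^ (d * (T - μs)) ≤
        (K₁ * 5 ^ (finrank ℚ F)) * (H ^ (d * (k * (1 - τ))) * H ^ (d * τ)) * (𝓛.card : ℝ) := by
      have h3 : M * ((𝓛.card : ℝ) * ((intL (⊥ : IntermediateField F A) t).ncard : ℝ)) ≤
          M * ((𝓛.card : ℝ) * (5 ^ (finrank ℚ F) * H ^ (d * τ))) := by gcongr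
      have h4 : M * ((𝓛.card : ℝ) * (5 ^ (finrank ℚ F) * H ^ (d * τ))) =
          (K₁ * 5 ^ (finrank ℚ F)) * (H ^ (d * (k * (1 - τ))) * H ^ (d * τ)) * (𝓛.card : ℝ) := by
        rw [hMeq]; ring
      have h5 : (S.card : ℝ) ≤ M * ((𝓛.card : ℝ) *
          ((intL (⊥ : IntermediateField F A) t).ncard : ℝ)) +
          M * (2 * ((SS F A (2 * j + 1) (2 * t)).ncard : ℝ)) := by
        rw [← mul_add]; exact hcore
      have h6 : c * H ^ (d * (T - μs)) ≤ (S.card : ℝ) := hScard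
      linarith
    have hsplit : H ^ (d * (T - μs)) = H ^ (d * (T - μs - k * (1 - τ) - τ)) *
        (H ^ (d * (k * (1 - τ))) * H ^ (d * τ)) := by
      rw [← Real.rpow_add hH0, ← Real.rpow_add hH0]
      congr 1
      ring
    rw [hsplit] at hfinal
    have hpos : 0 < H ^ (d * (k * (1 - τ))) * H ^ (d * τ) := by positivity
    have hpos2 : 0 < K₁ * 5 ^ (finrank ℚ F) := by positivity
    rw [div_mul_eq_mul_div, div_le_iff₀ hpos2]
    have h7 : (c / 2 * H ^ (d * (T - μs - k * (1 - τ) - τ))) *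
        (H ^ (d * (k * (1 - τ))) * H ^ (d * τ)) ≤
        ((𝓛.card : ℝ) * (K₁ * 5 ^ (finrank ℚ F))) *
        (H ^ (d * (k * (1 - τ))) * H ^ (d * τ)) := by
      calc _ = c / 2 * (H ^ (d * (T - μs - k * (1 - τ) - τ)) *
          (H ^ (d * (k * (1 - τ))) * H ^ (d * τ))) := by ring
        _ ≤ _ := hfinal
        _ = _ := by ring
    exact le_of_mul_le_mul_right h7 hpos

end

end Pool.Agent.helper22
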