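import Mathlib
import Pool.Agent.helper22.Stage2Fields
import Pool.Agent.helper22.Final

set_option autoImplicit false

namespace Pool.Agent.helper22

open NumberField Module Polynomial Filter IntermediateField Topology

theorem zz_ge (n k : ℕ) (hk : 0 < k) : n - 1 ≤ zz n k := by
  rw [zz, Fin.sum_univ_eq_sum_range (fun l => (l + k - 1) / k)]
  rcases n with _ | n
  · simp
  rw [Finset.sum_range_succ']
  calc n + 1 - 1 = ∑ i ∈ Finset.range n, 1 := by simp
    _ ≤ ∑ i ∈ Finset.range n, (i + 1 + k - 1) / k := by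
        apply Finset.sum_le_sum
        intro i _
        rw [Nat.le_div_iff_mul_le hk]
        omega
    _ ≤ _ := Nat.le_add_right _ _

theorem ev_pos {f : ℝ → ℝ} (hf : ContinuousAt f 0) (h : 0 < f 0) :
    ∀ᶠ x : ℝ in 𝓝[>] 0, 0 < f x :=
  (hf.eventually (lt_mem_nhds h)).filter_mono nhdsWithin_le_nhds

section

variable (F : Type*) [Field F] [NumberField F] (A : Type*) [Field A] [Algebra F A]
  [Algebra.IsAlgebraic F A] [IsAlgClosed A]

theorem stage2_X (j k : ℕ) (hj : 1 ≤ j) (hk : 0 < k) (hkn : k < 2 * j + 1)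
    (hp : (2 * j + 1).Prime) {μ e : ℝ}
    (hμ : ((2 * j + 1 : ℕ) : ℝ) < 2 * μ)
    (hμz : μ + 2 * (zz (2 * j + 1) k : ℝ) < ((j : ℝ) + 1) ^ 2 / 2)
    (he : e * (((2 * j + 1 : ℕ) : ℝ) * (((2 * j + 1 : ℕ) : ℝ) - 1) - 2 * μ) <
      (tri (2 * j + 1) : ℝ) - 1 - μ - ((k : ℝ) - 1) * (μ / ((tri (2 * j + 1) : ℝ) - k))) :
    ∀ᶠ X : ℝ in atTop, ∃ 𝓛 : Finset (IntermediateField F A),
      (∀ L ∈ 𝓛, finrank F L = 2 * j + 1 ∧ ∀ _ : NumberField L, ((|discr L| : ℤ) : ℝ) ≤ X) ∧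
      X ^ e ≤ (𝓛.card : ℝ) := by
  have htrin := two_mul_tri (2 * j + 1)
  have htrij := two_mul_tri j
  have hT2 : 2 * (tri (2 * j + 1) : ℝ) = (2 * j + 1) * (2 * j + 1 + 1) := by exact_mod_cast htrin
  have hj2 : 2 * (tri j : ℝ) = j * (j + 1) := by exact_mod_cast htrij
  have hjR : (1 : ℝ) ≤ j := by exact_mod_cast hj
  have hkR : (1 : ℝ) ≤ k := by exact_mod_cast hk
  have hknR : (k : ℝ) + 1 ≤ 2 * j + 1 := by exact_mod_cast hkn
  have hn : ((2 * j + 1 : ℕ) : ℝ) = 2 * (j : ℝ) + 1 := by push_cast; ring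
  have hzz : (2 * (j : ℝ)) ≤ (zz (2 * j + 1) k : ℝ) := by
    have := zz_ge (2 * j + 1) k hk
    have h2 : 2 * j ≤ zz (2 * j + 1) k := by omega
    exact_mod_cast h2
  rw [hn] at hμ he
  have hTk : 0 < (tri (2 * j + 1) : ℝ) - k := by nlinarith
  have hμpos : 0 < μ := by linarith
  have hμT : μ < (tri (2 * j + 1) : ℝ) - k := by nlinarith
  have hμT2 : 0 < (2 * (j : ℝ) + 1) * ((2 * (j : ℝ) + 1) - 1) - 2 * μ := by nlinarith
  -- choice of ζ
  obtain ⟨ζ, hζ1, hζ2, hζ3, hζ4⟩ : ∃ ζ : ℝ, 2 * (zz (2 * j + 1) k : ℝ) < ζ ∧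
      (tri j : ℝ) - μ < ζ ∧ ζ < ((j : ℝ) + 1) ^ 2 / 2 - μ ∧ ζ ≠ μ := by
    have h1 : max (2 * (zz (2 * j + 1) k : ℝ)) ((tri j : ℝ) - μ) < ((j : ℝ) + 1) ^ 2 / 2 - μ := by
      rw [max_lt_iff]
      constructor
      · linarith
      · nlinarith
    obtain ⟨a, ha1, ha2⟩ := exists_between h1
    by_cases h : a = μ
    · obtain ⟨b, hb1, hb2⟩ := exists_between ha1
      refine ⟨b, (le_max_left _ _).trans_lt hb1, (le_max_right _ _).trans_lt hb1,
        hb2.trans ha2, ?_⟩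
      rintro rfl
      exact absurd h (ne_of_gt hb2)
    · exact ⟨a, (le_max_left _ _).trans_lt ha1, (le_max_right _ _).trans_lt ha1, ha2, h⟩
  have hζpos : 0 < ζ := by linarith
  set T : ℝ := (tri (2 * j + 1) : ℝ) with hT
  set n : ℝ := 2 * (j : ℝ) + 1 with hn'
  let τ : ℝ → ℝ := fun ε => 1 - (μ * (1 + ε) + ζ * ε + ε) / (T - k)
  have hτc : Continuous τ := by fun_prop
  -- eventual conditions
  have c1 := ev_pos (f := fun ε => 2 * (μ * (1 - ε)) - n) (by fun_prop) (by simp; linarith)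
  have c2 := ev_pos (f := fun ε => 2 * (ζ * (1 - ε)) - n) (by fun_prop) (by simp; linarith)
  have c3 := ev_pos (f := fun ε => (μ + ζ) * (1 - ε) - tri j) (by fun_prop) (by simp; linarith)
  have c4 : ∀ᶠ ε : ℝ in 𝓝[>] 0, μ < ζ * (1 - ε) ∨ ζ < μ * (1 - ε) := by
    rcases lt_or_gt_of_ne hζ4 with h | h
    · have := ev_pos (f := fun ε => μ * (1 - ε) - ζ) (by fun_prop) (by simp; linarith)
      filter_upwards [this] with ε hε
      right; linarith
    · have := ev_pos (f := fun ε => ζ * (1 - ε) - μ) (by fun_prop) (by simp; linarith)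
      filter_upwards [this] with ε hε
      left; linarith
  have c5 := ev_pos (f := fun ε => ζ * (1 - ε) - 2 * (zz (2 * j + 1) k : ℝ)) (by fun_prop)
    (by simp; linarith)
  have c6 := ev_pos (f := τ) hτc.continuousAt (by
    simp only [τ, add_zero, mul_one, mul_zero]
    rw [sub_pos, div_lt_one hTk]
    exact hμT)
  have c7 := ev_pos (f := fun ε => (T - (μ * (1 + ε) + ζ * ε) - k * (1 - τ ε) - τ ε) -
      e * (n * (n - 1) - 2 * (μ * (1 - ε)))) (by fun_prop) (by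
    simp only [τ, add_zero, mul_one, mul_zero, sub_zero]
    rw [sub_pos]
    refine lt_of_lt_of_eq he ?_
    ring)
  have c8 := ev_pos (f := fun ε => n * (n - 1) - 2 * (μ * (1 - ε))) (by fun_prop) (by
    simp; linarith)
  have c9 := ev_pos (f := fun ε : ℝ => 1 - ε) (by fun_prop) (by simp)
  obtain ⟨ε, ⟨h1, h2, h3, h4, h5, h6, h7, h8, h9⟩, hε⟩ :=
    ((c1.and (c2.and (c3.and (c4.and (c5.and (c6.and (c7.and (c8.and c9)))))))).and
      (self_mem_nhdsWithin)).exists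
  have hτ1 : 1 - τ ε = (μ * (1 + ε) + ζ * ε + ε) / (T - k) := by simp only [τ]; ring
  have hτ2 : 0 < 1 - τ ε := by rw [hτ1]; positivity
  have hτ3 : (T - k) * (1 - τ ε) = μ * (1 + ε) + ζ * ε + ε := by
    rw [hτ1]; field_simp
  obtain ⟨c, C, hc, hC, hH⟩ := stage2_H F A j k hj hk hp (μ := μ) (ζ := ζ) (ε := ε) (τ := τ ε) hε
    (by linarith) (by rw [hn]; linarith) (by rw [hn]; linarith) (by push_cast; linarith)
    (by linarith) h4 (by linarith) h6 (by linarith) (by rw [← hT]; linarith)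
  rw [hn, ← hT] at hH
  set d : ℝ := (finrank ℚ F : ℝ) with hd
  have hdpos : 0 < d := by
    rw [hd]; exact_mod_cast (finrank_pos : 0 < finrank ℚ F)
  set D : ℝ := n * (n - 1) - 2 * (μ * (1 - ε)) with hD
  set N : ℝ := T - (μ * (1 + ε) + ζ * ε) - k * (1 - τ ε) - τ ε with hN
  have hdD : 0 < d * D := mul_pos hdpos h8
  have htend : Tendsto (fun X : ℝ => (X / C) ^ (1 / (d * D))) atTop atTop :=
    (tendsto_rpow_atTop (by positivity)).comp (tendsto_id.atTop_div_const hC)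
  have heN : e < N / D := by
    rw [lt_div_iff₀ h8]; linarith
  have e1 := ev_le (a := e) (b := N / D) (C := 1) (c := c * (1 / C) ^ (N / D)) heN (by positivity)
  filter_upwards [htend.eventually hH, e1, eventually_gt_atTop 0] with X ⟨𝓛, h𝓛, hcard⟩ hX hX0
  have hXC : 0 < X / C := by positivity
  refine ⟨𝓛, ?_, ?_⟩
  · intro L hL
    refine ⟨(h𝓛 L hL).1, ?_⟩
    intro hNF
    refine ((h𝓛 L hL).2 hNF).trans (le_of_eq ?_)
    rw [← Real.rpow_mul hXC.le, one_div_mul_cancel hdD.ne', Real.rpow_one]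
    field_simp
  · rw [one_mul] at hX
    refine hX.trans (le_trans (le_of_eq ?_) hcard)
    rw [← Real.rpow_mul hXC.le, mul_assoc, ← Real.mul_rpow (by positivity) hX0.le]
    have h10 : 1 / C * X = X / C := by ring
    have h11 : 1 / (d * D) * (d * N) = N / D := by
      field_simp
    rw [h10, h11]

end

end Pool.Agent.helper22
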