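import Mathlib
import Pool.Agent.helper22.Stage2X

set_option autoImplicit false

namespace Pool.Agent.helper22

open NumberField Module Polynomial Filter IntermediateField Topology

theorem poly_key {x v w s k T M : ℝ} (hx : 0 ≤ x) (hv : 0 ≤ v) (hw : 0 ≤ w) (hvw : v + w = 1)
    (hs : s = x + 1077 / 200) (hk : k = 3 * s - v) (hT : T = (s ^ 4 + s ^ 2) / 2)
    (hM : M = k * (s ^ 2 + 1) ^ 2 - 8 * (s ^ 2 - 1 + k / 2) ^ 2) :
    0 < 3 / 4 * (s ^ 2 + 2 * s - 5 / 2) * (8 * k * (s ^ 2 - 1) * (T - k) - (k - 1) * M) -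
      (T - k) * (8 * k * s ^ 2 * (s ^ 2 - 1) - 2 * M) := by
  have h1 : 3 / 4 * (s ^ 2 + 2 * s - 5 / 2) * (8 * k * (s ^ 2 - 1) * (T - k) - (k - 1) * M) -
      (T - k) * (8 * k * s ^ 2 * (s ^ 2 - 1) - 2 * M) =
      (1243600133074314562348053 / 10240000000000000000) * w ^ 3 + (3371855148160124645260559 / 10240000000000000000) * v ^ 1 * w ^ 2 + (2819351102329415416796959 / 10240000000000000000) * v ^ 2 * w ^ 1 +
      (690482687307605333884453 / 10240000000000000000) * v ^ 3 + (407592263607215906841 / 1600000000000000) * x ^ 1 * w ^ 3 + (2337567983048382789321 / 3200000000000000) * x ^ 1 * v ^ 1 * w ^ 2 +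
      (539226502974835768149 / 800000000000000) * x ^ 1 * v ^ 2 * w ^ 1 + (634461260065392096957 / 3200000000000000) * x ^ 1 * v ^ 3 + (17551002416520808549 / 64000000000000) * x ^ 2 * w ^ 3 +
      (51290687394303586547 / 64000000000000) * x ^ 2 * v ^ 1 * w ^ 2 + (49234537614816297447 / 64000000000000) * x ^ 2 * v ^ 2 * w ^ 1 + (15494756637033519449 / 64000000000000) * x ^ 2 * v ^ 3 +
      (13151137014612831 / 80000000000) * x ^ 3 * w ^ 3 + (9666001021988967 / 20000000000) * x ^ 3 * v ^ 1 * w ^ 2 + (37660791732123243 / 80000000000) * x ^ 3 * v ^ 2 * w ^ 1 +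
      (6073962329390103 / 40000000000) * x ^ 3 * v ^ 3 + (37021281597431 / 640000000) * x ^ 4 * w ^ 3 + (109232358613693 / 640000000) * x ^ 4 * v ^ 1 * w ^ 2 +
      (107169037215093 / 640000000) * x ^ 4 * v ^ 2 * w ^ 1 + (34957960198831 / 640000000) * x ^ 4 * v ^ 3 + (768840177 / 62500) * x ^ 5 * w ^ 3 +
      (72855413817 / 2000000) * x ^ 5 * v ^ 1 * w ^ 2 + (35925352821 / 1000000) * x ^ 5 * v ^ 2 * w ^ 1 + (23598177489 / 2000000) * x ^ 5 * v ^ 3 +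
      (62463689 / 40000) * x ^ 6 * w ^ 3 + (185719367 / 40000) * x ^ 6 * v ^ 1 * w ^ 2 + (184017667 / 40000) * x ^ 6 * v ^ 2 * w ^ 1 +
      (60761989 / 40000) * x ^ 6 * v ^ 3 + (5463 / 50) * x ^ 7 * w ^ 3 + (8157 / 25) * x ^ 7 * v ^ 1 * w ^ 2 +
      (16239 / 50) * x ^ 7 * v ^ 2 * w ^ 1 + (2694 / 25) * x ^ 7 * v ^ 3 + (13 / 4) * x ^ 8 * w ^ 3 +
      (39 / 4) * x ^ 8 * v ^ 1 * w ^ 2 + (39 / 4) * x ^ 8 * v ^ 2 * w ^ 1 + (13 / 4) * x ^ 8 * v ^ 3 := by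
    have hw' : w = 1 - v := by linarith
    rw [hM, hT, hk, hs, hw']
    ring
  rw [h1]
  rcases eq_or_lt_of_le hv with h | h
  · have hw1 : w = 1 := by linarith
    rw [← h, hw1]
    positivity
  · positivity

theorem poly_key2 {x v w s k M : ℝ} (hx : 0 ≤ x) (hv : 0 ≤ v) (hw : 0 ≤ w) (hvw : v + w = 1)
    (hs : s = x + 1077 / 200) (hk : k = 3 * s - v)
    (hM : M = k * (s ^ 2 + 1) ^ 2 - 8 * (s ^ 2 - 1 + k / 2) ^ 2) :
    0 < M - 4 * k * s ^ 2 := by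
  have h1 : M - 4 * k * s ^ 2 =
      (720720246301871 / 320000000000) * w ^ 2 + (641473077797771 / 160000000000) * v ^ 1 * w ^ 1 + (561585909293671 / 320000000000) * v ^ 2 +
      (1603872452883 / 320000000) * x ^ 1 * w ^ 2 + (1523084970243 / 160000000) * x ^ 1 * v ^ 1 * w ^ 1 + (1442297487603 / 320000000) * x ^ 1 * v ^ 2 +
      (2244878759 / 800000) * x ^ 2 * w ^ 2 + (2179283019 / 400000) * x ^ 2 * v ^ 1 * w ^ 1 + (2113687279 / 800000) * x ^ 2 * v ^ 2 +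
      (2670507 / 4000) * x ^ 3 * w ^ 2 + (2627427 / 2000) * x ^ 3 * v ^ 1 * w ^ 1 + (2584347 / 4000) * x ^ 3 * v ^ 2 +
      (2911 / 40) * x ^ 4 * w ^ 2 + (2891 / 20) * x ^ 4 * v ^ 1 * w ^ 1 + (2871 / 40) * x ^ 4 * v ^ 2 +
      3 * x ^ 5 * w ^ 2 + 6 * x ^ 5 * v ^ 1 * w ^ 1 + 3 * x ^ 5 * v ^ 2 := by
    have hw' : w = 1 - v := by linarith
    rw [hM, hk, hs, hw']
    ring
  rw [h1]
  rcases eq_or_lt_of_le hv with h | h
  · have hw1 : w = 1 := by linarith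
    rw [← h, hw1]
    positivity
  · positivity

end Pool.Agent.helper22
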