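import Mathlib
import Pool.Agent.helper22.Stage2X

set_option autoImplicit false

namespace Pool.Agent.helper22

open NumberField Module Polynomial Filter IntermediateField Topology

/-- transfer from degree `p = minFac n` over an intermediate field to degree `n` over `K` -/
theorem transfer_lower (K : Type*) [Field K] [NumberField K] (n : ℕ) (hn : 2 ≤ n) (e : ℝ)
    (h : ∀ (F : IntermediateField K (AlgebraicClosure K)) [NumberField F]
      [Algebra.IsAlgebraic F (AlgebraicClosure K)],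
      ∀ᶠ X : ℝ in atTop, ∃ 𝓛 : Finset (IntermediateField F (AlgebraicClosure K)),
      (∀ L ∈ 𝓛, finrank F L = n.minFac ∧ ∀ _ : NumberField L, ((|discr L| : ℤ) : ℝ) ≤ X) ∧
      X ^ e ≤ (𝓛.card : ℝ)) :
    ∀ᶠ X : ℝ in Filter.atTop,
      X ^ e ≤ ((Set.ncard {L : IntermediateField K (AlgebraicClosure K) |
          Module.finrank K L = n ∧
            ∃ h : NumberField L, ((|@NumberField.discr L _ h| : ℤ) : ℝ) ≤ X} : ℕ) : ℝ) := by
  classical
  set p := n.minFac with hp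
  have hpp : p.Prime := Nat.minFac_prime (by omega)
  obtain ⟨m, hm⟩ : p ∣ n := Nat.minFac_dvd n
  have hmpos : 0 < m := by
    rcases Nat.eq_zero_or_pos m with h | h
    · subst h; omega
    · exact h
  obtain ⟨F, hF⟩ := exists_degree K m hmpos
  have hfd : FiniteDimensional K F := FiniteDimensional.of_finrank_pos (by rw [hF]; exact hmpos)
  have hnf : NumberField F := NumberField.of_module_finite K F
  have halg : Algebra.IsAlgebraic F (AlgebraicClosure K) :=
    Algebra.IsAlgebraic.tower_top (K := K) F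
  filter_upwards [h F] with X hX
  obtain ⟨𝓛, h𝓛, hcard⟩ := hX
  refine hcard.trans ?_
  have hinj : Function.Injective (IntermediateField.restrictScalars K :
      IntermediateField F (AlgebraicClosure K) → IntermediateField K (AlgebraicClosure K)) :=
    IntermediateField.restrictScalars_injective K
  have h1 : 𝓛.card = (𝓛.image (IntermediateField.restrictScalars K)).card :=
    (Finset.card_image_of_injective _ hinj).symm
  rw [h1, ← Set.ncard_coe_finset]
  have h2 : ((𝓛.image (IntermediateField.restrictScalars K) :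
      Finset (IntermediateField K (AlgebraicClosure K))) :
        Set (IntermediateField K (AlgebraicClosure K))) ⊆
      {L : IntermediateField K (AlgebraicClosure K) |
          Module.finrank K L = n ∧
            ∃ h : NumberField L, ((|@NumberField.discr L _ h| : ℤ) : ℝ) ≤ X} := by
    intro L' hL'
    rw [Finset.mem_coe, Finset.mem_image] at hL'
    obtain ⟨L, hL, rfl⟩ := hL'
    obtain ⟨hfr, hdisc⟩ := h𝓛 L hL
    have hfdL : FiniteDimensional F L :=
      FiniteDimensional.of_finrank_pos (by rw [hfr]; exact hpp.pos)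
    have hnfL : NumberField L := NumberField.of_module_finite F L
    refine ⟨?_, ?_⟩
    · have h3 : finrank K (IntermediateField.restrictScalars K L) = finrank K L := rfl
      rw [h3, ← Module.finrank_mul_finrank K F L, hF, hfr, hm, mul_comm]
    · exact ⟨hnfL, hdisc hnfL⟩
  exact_mod_cast Set.ncard_le_ncard h2 (finite_problem_set K n X)

theorem zz_closed {k : ℕ} (hk : 0 < k) (m : ℕ) :
    2 * zz (m + 1) k = (m / k + 1) * (m + m % k) := by
  have hzz : ∀ m, zz (m + 1) k = ∑ l ∈ Finset.range (m + 1), (l + k - 1) / k := fun m => by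
    rw [zz, Fin.sum_univ_eq_sum_range (fun l => (l + k - 1) / k)]
  induction m with
  | zero =>
    rw [hzz]
    simp
    omega
  | succ m ih =>
    have h1 : zz (m + 1 + 1) k = zz (m + 1) k + (m / k + 1) := by
      rw [hzz, Finset.sum_range_succ, ← hzz]
      congr 1
      have : m + 1 + k - 1 = m + k := by omega
      rw [this, Nat.add_div_right _ hk]
    rw [h1, mul_add, ih]
    have hs : m % k < k := Nat.mod_lt _ hk
    have hm : k * (m / k) + m % k = m := Nat.div_add_mod m k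
    set q := m / k with hq
    set s := m % k with hs'
    by_cases hsk : s + 1 < k
    · have h2 : (m + 1) / k = q := by
        have : m + 1 = (s + 1) + k * q := by omega
        rw [this, Nat.add_mul_div_left _ _ hk, Nat.div_eq_of_lt hsk, zero_add]
      have h3 : (m + 1) % k = s + 1 := by
        have : m + 1 = (s + 1) + k * q := by omega
        rw [this, Nat.add_mul_mod_self_left, Nat.mod_eq_of_lt hsk]
      rw [h2, h3]
      ring
    · have hsk' : s + 1 = k := by omega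
      have h4 : m + 1 = k * (q + 1) := by rw [mul_add, mul_one]; omega
      have h2 : (m + 1) / k = q + 1 := by
        rw [h4, Nat.mul_div_cancel_left _ hk]
      have h3 : (m + 1) % k = 0 := by
        rw [h4, Nat.mul_mod_right]
      rw [h2, h3, add_zero]
      have h5 : (q + 1) * k = m + 1 := by rw [h4]; ring
      calc (q + 1) * (m + s) + 2 * (q + 1) = (q + 1) * (m + 1) + (q + 1) * (s + 1) := by ring
        _ = (q + 1) * (m + 1) + (q + 1) * k := by rw [hsk']
        _ = (q + 1) * (m + 1) + (m + 1) := by rw [h5]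
        _ = _ := by ring

theorem zz_le {k : ℕ} (hk : 0 < k) (m : ℕ) :
    2 * (zz (m + 1) k : ℝ) ≤ ((m : ℝ) + k / 2) ^ 2 / k := by
  have h := zz_closed hk m
  have hm : k * (m / k) + m % k = m := Nat.div_add_mod m k
  set q := m / k with hq
  set s := m % k with hs'
  have hR : 2 * (zz (m + 1) k : ℝ) = ((q : ℝ) + 1) * (m + s) := by exact_mod_cast h
  have hmR : (k : ℝ) * q + s = m := by exact_mod_cast hm
  have hkR : (0 : ℝ) < k := by exact_mod_cast hk
  rw [le_div_iff₀ hkR, hR]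
  have h1 : ((q : ℝ) + 1) * (m + s) * k = ((m - s) + k) * (m + s) := by
    rw [← hmR]; ring
  rw [h1]
  nlinarith [sq_nonneg (((m : ℝ) - s + k) - (m + s))]

theorem beat_identity {j W μ V : ℝ} (hj : j ≠ 0) (hW : W ≠ 0) (hV : V = W - 15 * j) :
    ((2 * j + 1) * (j + 1) - 1 - μ - (16 - 1) * (μ / W)) -
      (1 / 2 + 1 / (2 * j)) * ((2 * j + 1) * (2 * j + 1 - 1) - 2 * μ) =
      (μ * V - j * W) / (j * W) := by
  rw [hV]
  field_simp
  ring

/-- beats the exponent `1/2 + 1/(p-1)` for all primes `p ≥ 29` -/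
theorem beat (j : ℕ) (hj : 14 ≤ j) (hp : (2 * j + 1).Prime) : ∃ δ : ℝ, 0 < δ ∧
    ∀ (F : Type*) [Field F] [NumberField F] (A : Type*) [Field A] [Algebra F A]
      [Algebra.IsAlgebraic F A] [IsAlgClosed A],
    ∀ᶠ X : ℝ in atTop, ∃ 𝓛 : Finset (IntermediateField F A),
      (∀ L ∈ 𝓛, finrank F L = 2 * j + 1 ∧ ∀ _ : NumberField L, ((|discr L| : ℤ) : ℝ) ≤ X) ∧
      X ^ (1 / 2 + 1 / (2 * (j : ℝ)) + δ) ≤ (𝓛.card : ℝ) := by
  have hjR : (14 : ℝ) ≤ j := by exact_mod_cast hj
  obtain ⟨x, hx⟩ : ∃ x : ℝ, x = (j : ℝ) - 14 := ⟨_, rfl⟩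
  have hx0 : 0 ≤ x := by linarith
  have hjx : (j : ℝ) = x + 14 := by linarith
  have htrin := two_mul_tri (2 * j + 1)
  have hT2 : (tri (2 * j + 1) : ℝ) = (2 * j + 1) * (j + 1) := by
    have : 2 * (tri (2 * j + 1) : ℝ) = (2 * j + 1) * (2 * j + 1 + 1) := by exact_mod_cast htrin
    linarith
  set μ : ℝ := ((j : ℝ) ^ 2 - 4 * j - 15) / 4 with hμ
  have hμpos : 0 < μ := by rw [hμ, hjx]; nlinarith
  have hz := zz_le (k := 16) (by norm_num) (2 * j)
  have hz' : 2 * (zz (2 * j + 1) 16 : ℝ) ≤ ((j : ℝ) + 4) ^ 2 / 4 := by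
    refine hz.trans (le_of_eq ?_)
    push_cast
    ring
  have hTk : 0 < (2 * (j : ℝ) + 1) * (j + 1) - 16 := by rw [hjx]; nlinarith
  set D : ℝ := (2 * (j : ℝ) + 1) * (2 * (j : ℝ) + 1 - 1) - 2 * μ with hD
  have hDpos : 0 < D := by rw [hD, hμ, hjx]; nlinarith
  set R : ℝ := (2 * (j : ℝ) + 1) * (j + 1) - 1 - μ - (16 - 1) * (μ /
    ((2 * (j : ℝ) + 1) * (j + 1) - 16)) with hR
  have hgap : 0 < R - (1 / 2 + 1 / (2 * (j : ℝ))) * D := by
    have hj0 : (0 : ℝ) < j := by linarith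
    have h1 : R - (1 / 2 + 1 / (2 * (j : ℝ))) * D =
        (μ * (2 * (j : ℝ) ^ 2 - 12 * j - 15) - j * (2 * (j : ℝ) ^ 2 + 3 * j - 15)) /
          (j * (2 * (j : ℝ) ^ 2 + 3 * j - 15)) := by
      have h2 : (2 * (j : ℝ) + 1) * (j + 1) - 16 = 2 * (j : ℝ) ^ 2 + 3 * j - 15 := by ring
      have h3 : 2 * (j : ℝ) ^ 2 + 3 * j - 15 ≠ 0 := by rw [← h2]; exact hTk.ne'
      rw [hR, hD, h2]
      exact beat_identity hj0.ne' h3 (by ring)
    rw [h1]
    have h3 : 0 < (j : ℝ) * (2 * (j : ℝ) ^ 2 + 3 * j - 15) := by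
      apply mul_pos hj0
      nlinarith
    apply div_pos _ h3
    rw [hμ, hjx]
    have h4 : ((x + 14) ^ 2 - 4 * (x + 14) - 15) / 4 * (2 * (x + 14) ^ 2 - 12 * (x + 14) - 15) -
        (x + 14) * (2 * (x + 14) ^ 2 + 3 * (x + 14) - 15) =
        (2 * x * (x + 14) ^ 3 - 9 * x ^ 2 + 48 * x + 2661) / 4 := by ring
    rw [h4]
    have h5 : 9 * x ^ 2 ≤ 2 * x * (x + 14) ^ 3 := by
      have : x * (9 * x) ≤ x * (2 * (x + 14) ^ 3) := by
        apply mul_le_mul_of_nonneg_left _ hx0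
        nlinarith [mul_nonneg hx0 hx0, mul_nonneg hx0 (mul_nonneg hx0 hx0)]
      nlinarith
    linarith
  refine ⟨(R - (1 / 2 + 1 / (2 * (j : ℝ))) * D) / (2 * D), by positivity, ?_⟩
  intro F _ _ A _ _ _ _
  apply stage2_X F A j 16 (by omega) (by norm_num) (by omega) hp (μ := μ)
  · rw [hμ]; push_cast; rw [hjx]; nlinarith
  · have : ((j : ℝ) + 4) ^ 2 / 4 + μ < ((j : ℝ) + 1) ^ 2 / 2 := by rw [hμ]; nlinarith
    linarith
  · rw [hT2]
    push_cast
    rw [← hD]
    have h6 : (1 / 2 + 1 / (2 * (j : ℝ)) + (R - (1 / 2 + 1 / (2 * (j : ℝ))) * D) / (2 * D)) * D =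
        (1 / 2 + 1 / (2 * (j : ℝ))) * D + (R - (1 / 2 + 1 / (2 * (j : ℝ))) * D) / 2 := by
      field_simp
    rw [h6]
    refine lt_of_lt_of_le (b := R) ?_ (le_of_eq ?_)
    · linarith
    · rw [hR]

/-- the exponent `1/2 + (4/3 - ε)/p` for all large primes `p` -/
theorem asymp {ε : ℝ} (hε : 0 < ε) : ∃ j₀ : ℕ, ∀ j : ℕ, j₀ ≤ j → (2 * j + 1).Prime →
    ∀ (F : Type*) [Field F] [NumberField F] (A : Type*) [Field A] [Algebra F A]
      [Algebra.IsAlgebraic F A] [IsAlgClosed A],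
    ∀ᶠ X : ℝ in atTop, ∃ 𝓛 : Finset (IntermediateField F A),
      (∀ L ∈ 𝓛, finrank F L = 2 * j + 1 ∧ ∀ _ : NumberField L, ((|discr L| : ℤ) : ℝ) ≤ X) ∧
      X ^ (1 / 2 + (4 / 3 - ε) / (2 * (j : ℝ) + 1)) ≤ (𝓛.card : ℝ) := by
  -- replace ε by a smaller one
  obtain ⟨η, hη0, hη1, hηε⟩ : ∃ η : ℝ, 0 < η ∧ η ≤ 1 ∧ η ≤ ε :=
    ⟨min 1 ε, lt_min one_pos hε, min_le_left _ _, min_le_right _ _⟩
  obtain ⟨k, hk⟩ : ∃ k : ℕ, 16 / η + 17 ≤ k := exists_nat_ge _
  have hkpos : 0 < k := by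
    have h1 : 0 < 16 / η := by positivity
    have : (0 : ℝ) < k := by linarith
    exact_mod_cast this
  have hk16 : 16 < (k : ℝ) := by
    have h1 : 0 < 16 / η := by positivity
    linarith
  have hkη : 16 ≤ η * k := by
    have : 16 / η ≤ k := by linarith
    rw [div_le_iff₀ hη0] at this
    linarith
  obtain ⟨j₀, hj₀⟩ : ∃ j₀ : ℕ, (k : ℝ) + 12 / (5 * η) * (1 + k / 4) + 1 / (1 / 4 - 4 / (k : ℝ)) ≤ j₀ :=
    exists_nat_ge _
  have hc4 : 0 < 1 / 4 - 4 / (k : ℝ) := by
    rw [sub_pos, div_lt_div_iff₀ (by linarith) (by norm_num)]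
    linarith
  refine ⟨max j₀ 1, ?_⟩
  intro j hj hp F _ _ A _ _ _ _
  have hj1 : 1 ≤ j := (le_max_right _ _).trans hj
  have hjj : j₀ ≤ j := (le_max_left _ _).trans hj
  have hjR1 : (1 : ℝ) ≤ j := by exact_mod_cast hj1
  have hjR : (j₀ : ℝ) ≤ j := by exact_mod_cast hjj
  have hb1 : 0 < 12 / (5 * η) * (1 + k / 4 : ℝ) := by positivity
  have hb2 : 0 < 1 / (1 / 4 - 4 / (k : ℝ)) := by positivity
  have hjk : (k : ℝ) ≤ j := by linarith
  have hjk' : k ≤ j := by exact_mod_cast hjk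
  have hj2 : 12 / (5 * η) * (1 + k / 4 : ℝ) ≤ j := by linarith
  have hj3 : 1 / (1 / 4 - 4 / (k : ℝ)) ≤ j := by linarith
  set n : ℝ := 2 * (j : ℝ) + 1 with hn
  set μ : ℝ := (1 / 8 - 2 / (k : ℝ)) * n ^ 2 with hμ
  have hkR : (0 : ℝ) < k := by linarith
  have hn0 : 0 < n := by linarith
  have hc8 : 0 < 1 / 8 - 2 / (k : ℝ) := by
    have : (1 / 4 - 4 / (k : ℝ)) = 2 * (1 / 8 - 2 / (k : ℝ)) := by ring
    rw [this] at hc4
    linarith
  have hμ0 : 0 < μ := by positivity
  have htrin := two_mul_tri (2 * j + 1)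
  have hT2 : (tri (2 * j + 1) : ℝ) = n * (n + 1) / 2 := by
    have : 2 * (tri (2 * j + 1) : ℝ) = (2 * j + 1) * (2 * j + 1 + 1) := by exact_mod_cast htrin
    rw [hn]
    linarith
  have hcast : ((2 * j + 1 : ℕ) : ℝ) = n := by push_cast; rw [hn]
  have hmain := stage2_X F A j k hj1 hkpos (by omega) hp (μ := μ)
    (e := 1 / 2 + (4 / 3 - η) / n) (by
      rw [hcast, hμ]
      have h1 : 1 ≤ (1 / 4 - 4 / (k : ℝ)) * j := by
        rw [div_le_iff₀ hc4] at hj3
        linarith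
      have h2 : 2 * ((1 / 8 - 2 / (k : ℝ)) * n ^ 2) = ((1 / 4 - 4 / (k : ℝ)) * n) * n := by ring
      rw [h2]
      have h3 : 1 < (1 / 4 - 4 / (k : ℝ)) * n := by
        rw [hn]; nlinarith
      nlinarith) (by
      have h1 := zz_le hkpos (2 * j)
      have h2 : ((2 * j : ℕ) + (k : ℝ) / 2) ^ 2 / k ≤ 2 * n ^ 2 / k := by
        apply div_le_div_of_nonneg_right _ hkR.le
        push_cast
        have h3 : 2 * (j : ℝ) + k / 2 ≤ 5 / 4 * n := by rw [hn]; linarith
        calc (2 * (j : ℝ) + k / 2) ^ 2 ≤ (5 / 4 * n) ^ 2 :=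
              pow_le_pow_left₀ (by positivity) h3 2
          _ ≤ 2 * n ^ 2 := by nlinarith
      have h4 : ((j : ℝ) + 1) ^ 2 / 2 = (n + 1) ^ 2 / 8 := by rw [hn]; ring
      rw [h4]
      have h5 : μ = n ^ 2 / 8 - 2 * n ^ 2 / k := by rw [hμ]; ring
      rw [h5]
      nlinarith) (by
      rw [hcast, hT2]
      have hTk : n ^ 2 / 2 ≤ n * (n + 1) / 2 - k := by
        rw [hn]; nlinarith
      have hTk0 : 0 < n * (n + 1) / 2 - (k : ℝ) := lt_of_lt_of_le (by positivity) hTk
      have h1 : μ / (n * (n + 1) / 2 - k) ≤ 1 / 4 := by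
        rw [div_le_iff₀ hTk0]
        have h2 : μ ≤ n ^ 2 / 8 := by
          rw [hμ]
          have : 0 < 2 / (k : ℝ) := by positivity
          nlinarith
        linarith
      have h2 : ((k : ℝ) - 1) * (μ / (n * (n + 1) / 2 - k)) ≤ (k - 1) * (1 / 4) :=
        mul_le_mul_of_nonneg_left h1 (by linarith)
      have h3 : (1 / 2 + (4 / 3 - η) / n) * (n * (n - 1) - 2 * μ) =
          n * (n - 1) / 2 - μ + (4 / 3 - η) * ((n - 1) - (1 / 4 - 4 / (k : ℝ)) * n) := by
        rw [hμ]; field_simp; ring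
      rw [h3]
      have h4 : (4 / 3 - η) * ((n - 1) - (1 / 4 - 4 / (k : ℝ)) * n) ≤
          (4 / 3 - η) * ((3 / 4 + 4 / (k : ℝ)) * n) := by
        apply mul_le_mul_of_nonneg_left _ (by linarith)
        linarith
      have h5 : (4 / 3 - η) * ((3 / 4 + 4 / (k : ℝ)) * n) ≤ (1 - 5 / 12 * η) * n := by
        rw [← mul_assoc]
        apply mul_le_mul_of_nonneg_right _ hn0.le
        have h6 : 4 / (k : ℝ) ≤ η / 4 := by
          rw [div_le_div_iff₀ hkR (by norm_num)]
          linarith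
        have h7 : (4 / 3 - η) * (3 / 4 + 4 / (k : ℝ)) ≤ (4 / 3 - η) * (3 / 4 + η / 4) := by
          apply mul_le_mul_of_nonneg_left _ (by linarith)
          linarith
        refine h7.trans ?_
        nlinarith
      have h8 : 1 + (k : ℝ) / 4 ≤ 5 / 12 * η * j := by
        have h9 : 12 / (5 * η) * (1 + k / 4 : ℝ) = (1 + k / 4) / (5 / 12 * η) := by
          field_simp
        rw [h9, div_le_iff₀ (by positivity)] at hj2
        linarith
      have h10 : 5 / 12 * η * j < 5 / 12 * η * n := by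
        apply mul_lt_mul_of_pos_left _ (by positivity)
        rw [hn]; linarith
      nlinarith)
  filter_upwards [hmain, eventually_ge_atTop 1] with X ⟨𝓛, h𝓛, hcard⟩ hX1
  refine ⟨𝓛, h𝓛, le_trans ?_ hcard⟩
  apply Real.rpow_le_rpow_of_exponent_le hX1
  have : (4 / 3 - ε) / n ≤ (4 / 3 - η) / n := by
    apply div_le_div_of_nonneg_right _ hn0.le
    linarith
  linarith

end Pool.Agent.helper22
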