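import Mathlib
import Pool.Agent.helper22.Stage2Final
import Pool.Agent.helper22.PolyKey

set_option autoImplicit false

namespace Pool.Agent.helper22

open NumberField Module Polynomial Filter IntermediateField Topology

/-- explicit exponent for every prime `p ≥ 29` -/
theorem uniform_lower (j : ℕ) (hj : 14 ≤ j) (hp : (2 * j + 1).Prime)
    (F : Type*) [Field F] [NumberField F] (A : Type*) [Field A] [Algebra F A]
      [Algebra.IsAlgebraic F A] [IsAlgClosed A] :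
    ∀ᶠ X : ℝ in atTop, ∃ 𝓛 : Finset (IntermediateField F A),
      (∀ L ∈ 𝓛, finrank F L = 2 * j + 1 ∧ ∀ _ : NumberField L, ((|discr L| : ℤ) : ℝ) ≤ X) ∧
      X ^ (1 / 2 + 1 / (3 / 4 * (((2 * j + 1 : ℕ) : ℝ) + 2 * √((2 * j + 1 : ℕ) : ℝ) - 5 / 2))) ≤
        (𝓛.card : ℝ) := by
  have hcast : ((2 * j + 1 : ℕ) : ℝ) = 2 * (j : ℝ) + 1 := by push_cast; ring
  have hjR : (14 : ℝ) ≤ j := by exact_mod_cast hj
  rw [hcast]
  obtain ⟨s, hs⟩ : ∃ s : ℝ, s = √(2 * (j : ℝ) + 1) := ⟨_, rfl⟩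
  have hs2 : s ^ 2 = 2 * (j : ℝ) + 1 := by rw [hs]; exact Real.sq_sqrt (by linarith)
  have hs0 : 0 ≤ s := by rw [hs]; exact Real.sqrt_nonneg _
  have hsx : 1077 / 200 ≤ s := by
    by_contra h
    push Not at h
    have : s ^ 2 < (1077 / 200) ^ 2 := pow_lt_pow_left₀ h hs0 two_ne_zero
    norm_num at this
    linarith
  rw [← hs]
  set k : ℕ := ⌊3 * s⌋₊ with hk
  have hk1 : (k : ℝ) ≤ 3 * s := Nat.floor_le (by linarith)
  have hk2 : 3 * s < k + 1 := Nat.lt_floor_add_one _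
  have hkpos : 0 < k := by
    have : (0 : ℝ) < k := by linarith
    exact_mod_cast this
  have hkR : (0 : ℝ) < k := by exact_mod_cast hkpos
  have hkn : k < 2 * j + 1 := by
    have : (k : ℝ) < ((2 * j + 1 : ℕ) : ℝ) := by
      rw [hcast, ← hs2]
      nlinarith
    exact_mod_cast this
  obtain ⟨T, hT⟩ : ∃ T : ℝ, T = (s ^ 4 + s ^ 2) / 2 := ⟨_, rfl⟩
  obtain ⟨M, hM⟩ : ∃ M : ℝ, M = k * (s ^ 2 + 1) ^ 2 - 8 * (s ^ 2 - 1 + k / 2) ^ 2 := ⟨_, rfl⟩
  have key1 := poly_key (x := s - 1077 / 200) (v := 3 * s - k) (w := 1 - (3 * s - k)) (s := s)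
    (k := (k : ℝ)) (T := T) (M := M) (by linarith) (by linarith) (by linarith) (by ring)
    (by ring) (by ring) hT hM
  have key2 := poly_key2 (x := s - 1077 / 200) (v := 3 * s - k) (w := 1 - (3 * s - k)) (s := s)
    (k := (k : ℝ)) (M := M) (by linarith) (by linarith) (by linarith) (by ring)
    (by ring) (by ring) hM
  have hTT : (tri (2 * j + 1) : ℝ) = T := by
    have htrin := two_mul_tri (2 * j + 1)
    have : 2 * (tri (2 * j + 1) : ℝ) = (2 * j + 1) * (2 * j + 1 + 1) := by exact_mod_cast htrin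
    have h4 : s ^ 4 = (2 * (j : ℝ) + 1) ^ 2 := by rw [← hs2]; ring
    rw [hT, h4, hs2]
    linarith
  have hkT : 0 < T - k := by
    rw [hT]
    have h1 : s ^ 2 * s ^ 2 = s ^ 4 := by ring
    nlinarith
  obtain ⟨g, hg⟩ : ∃ g : ℝ, g = 3 / 4 * (s ^ 2 + 2 * s - 5 / 2) := ⟨_, rfl⟩
  have hg0 : 0 < g := by rw [hg]; nlinarith
  rw [← hg] at key1
  -- the limiting value of `μ`
  obtain ⟨m, hm⟩ : ∃ m : ℝ, m = M / (8 * k) := ⟨_, rfl⟩
  have hMm : M = 8 * k * m := by rw [hm]; field_simp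
  have hmk : m = (s ^ 2 + 1) ^ 2 / 8 - (s ^ 2 - 1 + k / 2) ^ 2 / k := by
    rw [hm, hM]; field_simp
  have hm2 : s ^ 2 < 2 * m := by
    rw [hMm] at key2
    have : 0 < (4 * k) * (2 * m - s ^ 2) := by linarith
    have := (mul_pos_iff_of_pos_left (by positivity : (0 : ℝ) < 4 * k)).1 this
    linarith
  have hmain : 0 < (s ^ 2 - 1) - ((k : ℝ) - 1) * (m / (T - k)) -
      1 / g * (s ^ 2 * (s ^ 2 - 1) - 2 * m) := by
    have h1 : (s ^ 2 - 1) - ((k : ℝ) - 1) * (m / (T - k)) -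
        1 / g * (s ^ 2 * (s ^ 2 - 1) - 2 * m) =
        (g * (8 * k * (s ^ 2 - 1) * (T - k) - (k - 1) * M) -
          (T - k) * (8 * k * s ^ 2 * (s ^ 2 - 1) - 2 * M)) / (8 * k * g * (T - k)) := by
      rw [hMm]
      field_simp
    rw [h1]
    apply div_pos key1
    positivity
  have c1 := ev_pos (f := fun η => (s ^ 2 - 1) - ((k : ℝ) - 1) * ((m - η) / (T - k)) -
      1 / g * (s ^ 2 * (s ^ 2 - 1) - 2 * (m - η))) (by fun_prop) (by
        simp only [sub_zero]; exact hmain)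
  have c2 := ev_pos (f := fun η => 2 * (m - η) - s ^ 2) (by fun_prop) (by
        simp only [sub_zero]; linarith)
  obtain ⟨η, ⟨h1, h2⟩, hη⟩ := ((c1.and c2).and (self_mem_nhdsWithin)).exists
  have hη' : 0 < η := hη
  have hfin := stage2_X F A j k (by omega) hkpos hkn hp (μ := m - η) (e := 1 / 2 + 1 / g)
    (by rw [hcast, ← hs2]; linarith)
    (by
      have hz := zz_le hkpos (2 * j)
      have h3 : (((2 * j : ℕ) : ℝ) + k / 2) = s ^ 2 - 1 + k / 2 := by push_cast; linarith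
      rw [h3] at hz
      have h4 : ((j : ℝ) + 1) ^ 2 / 2 = (s ^ 2 + 1) ^ 2 / 8 := by rw [hs2]; ring
      rw [h4]
      linarith)
    (by
      rw [hcast, ← hs2, hTT]
      have h5 : T = s ^ 2 * (s ^ 2 + 1) / 2 := by rw [hT]; ring
      have h6 : (1 / 2 + 1 / g) * (s ^ 2 * (s ^ 2 - 1) - 2 * (m - η)) =
        s ^ 2 * (s ^ 2 - 1) / 2 - (m - η) + 1 / g * (s ^ 2 * (s ^ 2 - 1) - 2 * (m - η)) := by ring
      rw [h6]
      have h7 : T - 1 = s ^ 2 * (s ^ 2 - 1) / 2 + (s ^ 2 - 1) := by rw [h5]; ring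
      linarith)
  rw [hg] at hfin
  rw [← hs2]
  exact hfin

end Pool.Agent.helper22
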